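import Mathlib

set_option autoImplicit false
set_option linter.all false
open Finset Polynomial

namespace Pool.Agent.H786

noncomputable section

/-- Legendre polynomials -/
def lg : ℕ → ℝ[X]
  | 0 => 1
  | 1 => X
  | (n + 2) => C ((2 * (n : ℝ) + 3) / (n + 2)) * X * lg (n + 1) - C (((n : ℝ) + 1) / (n + 2)) * lg n

theorem lg_zero : lg 0 = 1 := by rw [lg]
theorem lg_one : lg 1 = X := by rw [lg]
theorem lg_succ2 (n : ℕ) : lg (n + 2) =
    C ((2 * (n : ℝ) + 3) / (n + 2)) * X * lg (n + 1) - C (((n : ℝ) + 1) / (n + 2)) * lg n := by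
  rw [lg]

/-- three term recurrence -/
theorem lg_rec2 (n : ℕ) : C ((n : ℝ) + 2) * lg (n + 2) =
    C (2 * (n : ℝ) + 3) * (X * lg (n + 1)) - C ((n : ℝ) + 1) * lg n := by
  rw [lg_succ2, mul_sub, ← mul_assoc, ← mul_assoc, ← C_mul, ← mul_assoc, ← C_mul]
  have h : ((n : ℝ) + 2) ≠ 0 := by positivity
  rw [mul_div_cancel₀ _ h, mul_div_cancel₀ _ h, mul_assoc]

theorem lg_rec (n : ℕ) : C ((n : ℝ) + 1) * lg (n + 1) =
    C (2 * (n : ℝ) + 1) * (X * lg n) - C (n : ℝ) * lg (n - 1) := by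
  rcases n with _ | n
  · simp [lg_zero, lg_one]
  · have h := lg_rec2 n
    push_cast
    have e1 : ((n : ℝ) + 1 + 1) = n + 2 := by ring
    have e2 : (2 * ((n : ℝ) + 1) + 1) = 2 * n + 3 := by ring
    rw [e1, e2]
    exact h

/-- the two derivative identities -/
theorem lg_deriv_aux (n : ℕ) :
    derivative (lg (n + 1)) = X * derivative (lg n) + C ((n : ℝ) + 1) * lg n ∧
    derivative (lg n) = X * derivative (lg (n + 1)) - C ((n : ℝ) + 1) * lg (n + 1) := by
  induction n with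
  | zero => constructor <;> simp [lg_zero, lg_one]
  | succ n ih =>
    obtain ⟨h1, h2⟩ := ih
    have hr := lg_rec2 n
    have hd := congrArg derivative hr
    simp only [derivative_mul, derivative_sub, derivative_C, derivative_X, zero_mul, zero_add, one_mul]
      at hd
    have hne : (C ((n : ℝ) + 2)) ≠ (0 : ℝ[X]) := by
      rw [Ne, C_eq_zero]; positivity
    have hC : (C ((n : ℝ) + 2) : ℝ[X]) = C (n : ℝ) + 2 := by rw [C_add]; rfl
    have hC1 : (C ((n : ℝ) + 1) : ℝ[X]) = C (n : ℝ) + 1 := by rw [C_add]; rfl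
    have hC3 : (C (2 * (n : ℝ) + 3) : ℝ[X]) = 2 * C (n : ℝ) + 3 := by rw [C_add, C_mul]; rfl
    rw [hC, hC1, hC3] at hd hr
    rw [hC1] at h1 h2
    rw [hC] at hne
    have key1 : derivative (lg (n + 2)) = X * derivative (lg (n + 1)) + (C (n : ℝ) + 2) * lg (n + 1) := by
      apply mul_left_cancel₀ hne
      linear_combination hd - (C (n : ℝ) + 1) * h2
    have e : (((n + 1 : ℕ) : ℝ) + 1) = (n : ℝ) + 2 := by push_cast; ring
    rw [e, hC]
    refine ⟨key1, ?_⟩
    rw [key1]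
    linear_combination h1 + X * h2 + hr

theorem lg_D1 (n : ℕ) : derivative (lg (n + 1)) = X * derivative (lg n) + C ((n : ℝ) + 1) * lg n :=
  (lg_deriv_aux n).1

theorem lg_D2 (n : ℕ) : derivative (lg n) = X * derivative (lg (n + 1)) - C ((n : ℝ) + 1) * lg (n + 1) :=
  (lg_deriv_aux n).2

theorem lg_D3 (n : ℕ) : derivative (lg (n + 2)) - derivative (lg n) = C (2 * (n : ℝ) + 3) * lg (n + 1) := by
  have h1 := lg_D1 (n + 1)
  have h2 := lg_D2 n
  have e : (((n + 1 : ℕ) : ℝ) + 1) = (n : ℝ) + 2 := by push_cast; ring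
  rw [e] at h1
  have hC : (C ((n : ℝ) + 2) : ℝ[X]) = C (n : ℝ) + 2 := by rw [C_add]; rfl
  have hC1 : (C ((n : ℝ) + 1) : ℝ[X]) = C (n : ℝ) + 1 := by rw [C_add]; rfl
  have hC3 : (C (2 * (n : ℝ) + 3) : ℝ[X]) = 2 * C (n : ℝ) + 3 := by rw [C_add, C_mul]; rfl
  rw [hC] at h1; rw [hC1] at h2; rw [hC3]
  linear_combination h1 - h2

/-- `φ_n = (1-x²) P_n'` -/
def ph (n : ℕ) : ℝ[X] := (1 - X ^ 2) * derivative (lg n)

theorem ph_zero : ph 0 = 0 := by simp [ph, lg_zero]

/-- `φ_n = (n+1)(x P_n - P_{n+1})` -/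
theorem ph_eq1 (n : ℕ) : ph n = C ((n : ℝ) + 1) * (X * lg n - lg (n + 1)) := by
  have h1 := lg_D1 n
  have h2 := lg_D2 n
  unfold ph
  linear_combination h2 + X * h1

/-- eigenvalues -/
def lam (n : ℕ) : ℝ := (n : ℝ) * (n + 1)

theorem lam_nonneg (n : ℕ) : 0 ≤ lam n := by unfold lam; positivity
theorem lam_zero : lam 0 = 0 := by simp [lam]
theorem lam_pos {n : ℕ} (h : n ≠ 0) : 0 < lam n := by
  have : 0 < (n : ℝ) := Nat.cast_pos.2 (Nat.pos_of_ne_zero h)
  unfold lam; positivity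

theorem lam_ge {n : ℕ} (h : n ≠ 0) : 2 ≤ lam n := by
  have : (1:ℝ) ≤ n := by exact_mod_cast Nat.one_le_iff_ne_zero.2 h
  unfold lam; nlinarith

theorem ph_deriv (n : ℕ) : derivative (ph n) = -C (lam n) * lg n := by
  rw [ph_eq1]
  have h1 := lg_D1 n
  simp only [derivative_mul, derivative_sub, derivative_C, derivative_X, zero_mul, zero_add, one_mul]
  rw [h1]
  have e : (C (lam n) : ℝ[X]) = C (n : ℝ) * (C (n : ℝ) + 1) := by
    unfold lam; rw [C_mul, C_add]; rfl
  have hC1 : (C ((n : ℝ) + 1) : ℝ[X]) = C (n : ℝ) + 1 := by rw [C_add]; rfl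
  rw [e, hC1]
  ring

/-- `(2n+1) φ_n = λ_n (P_{n-1} - P_{n+1})` -/
theorem ph_eq (n : ℕ) : C (2 * (n : ℝ) + 1) * ph n = C (lam n) * (lg (n - 1) - lg (n + 1)) := by
  have h1 := ph_eq1 n
  have h2 := lg_rec n
  have e : (C (lam n) : ℝ[X]) = C (n : ℝ) * (C (n : ℝ) + 1) := by
    unfold lam; rw [C_mul, C_add]; rfl
  have hC1 : (C ((n : ℝ) + 1) : ℝ[X]) = C (n : ℝ) + 1 := by rw [C_add]; rfl
  have hC3 : (C (2 * (n : ℝ) + 1) : ℝ[X]) = 2 * C (n : ℝ) + 1 := by rw [C_add, C_mul]; rfl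
  rw [hC1] at h1 h2
  rw [hC3] at h2 ⊢
  rw [e, h1]
  linear_combination (-(C (n : ℝ) + 1)) * h2

theorem lg_eval_one (n : ℕ) : (lg n).eval 1 = 1 := by
  induction n using Nat.strong_induction_on with
  | _ n ih =>
    rcases n with _ | _ | n
    · simp [lg_zero]
    · simp [lg_one]
    · rw [lg_succ2]
      simp only [eval_sub, eval_mul, eval_C, eval_X, ih (n + 1) (by omega), ih n (by omega)]
      field_simp
      ring

theorem lg_eval_neg_one (n : ℕ) : (lg n).eval (-1) = (-1) ^ n := by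
  induction n using Nat.strong_induction_on with
  | _ n ih =>
    rcases n with _ | _ | n
    · simp [lg_zero]
    · simp [lg_one]
    · rw [lg_succ2]
      simp only [eval_sub, eval_mul, eval_C, eval_X, ih (n + 1) (by omega), ih n (by omega)]
      field_simp
      ring

/-! ### the coefficients `p_r = C(2r,r)/4^r` -/

/-- `C(2r,r)/4^r`, extended by zero -/
def pz (k : ℤ) : ℝ := if k < 0 then 0 else (Nat.centralBinom k.toNat : ℝ) / 4 ^ k.toNat

theorem pz_neg {k : ℤ} (h : k < 0) : pz k = 0 := by simp [pz, h]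
theorem pz_nonneg (k : ℤ) : 0 ≤ pz k := by unfold pz; split_ifs <;> positivity
theorem pz_pos {k : ℤ} (h : 0 ≤ k) : 0 < pz k := by
  unfold pz; rw [if_neg (by omega)]
  have : 0 < (Nat.centralBinom k.toNat : ℝ) := by exact_mod_cast Nat.centralBinom_pos _
  positivity
theorem pz_zero : pz 0 = 1 := by simp [pz]

theorem pz_succ (k : ℤ) : pz (k + 1) * (2 * k + 2) = pz k * (2 * k + 1) := by
  rcases lt_trichotomy (k + 1) 0 with h | h | h
  · rw [pz_neg h, pz_neg (by omega)]; ring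
  · have : (k : ℝ) = -1 := by
      have : k = -1 := by omega
      rw [this]; norm_num
    rw [pz_neg (k := k) (by omega), this]; ring
  · obtain ⟨n, rfl⟩ : ∃ n : ℕ, k = n := ⟨k.toNat, by omega⟩
    unfold pz
    rw [if_neg (by omega), if_neg (by omega)]
    have e1 : ((n : ℤ) + 1).toNat = n + 1 := by omega
    have e2 : ((n : ℤ)).toNat = n := by omega
    rw [e1, e2]
    have h1 := Nat.succ_mul_centralBinom_succ n
    have h2 : ((n : ℝ) + 1) * (Nat.centralBinom (n + 1) : ℝ) = 2 * (2 * n + 1) * (Nat.centralBinom n : ℝ) := by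
      exact_mod_cast h1
    push_cast
    rw [pow_succ]
    field_simp
    linear_combination 2 * h2

/-- the symmetric kernel in terms of `a, b, c` -/
def Tz (a b c : ℤ) : ℝ := pz a * pz b * pz c / (pz (a + b + c) * (2 * (a + b + c) + 1))

theorem Tz_rec (a b c : ℤ) (h1 : 1 ≤ a + b) (h2 : 0 ≤ b + c) (h3 : 0 ≤ a + c) :
    ((a : ℝ) + b) * (2 * (b + c) + 1) * Tz a b c + ((a : ℝ) + b - 1) * (2 * (b + c) + 1) * Tz (a - 1) (b - 1) (c + 1)
      = (2 * ((a : ℝ) + b) - 1) * ((b + c) * Tz a (b - 1) c + (b + c + 1) * Tz (a - 1) b (c + 1)) := by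
  have hs : 1 ≤ a + b + c := by omega
  have ra := pz_succ (a - 1)
  have rb := pz_succ (b - 1)
  have rc := pz_succ c
  have rs := pz_succ (a + b + c - 1)
  simp only [sub_add_cancel] at ra rb rs
  unfold Tz
  have e1 : a - 1 + (b - 1) + (c + 1) = a + b + c - 1 := by ring
  have e2 : a + (b - 1) + c = a + b + c - 1 := by ring
  have e3 : a - 1 + b + (c + 1) = a + b + c := by ring
  rw [e1, e2, e3]
  have hS : 0 < pz (a + b + c - 1) := pz_pos (by omega)
  have hS' : 0 < pz (a + b + c) := pz_pos (by omega)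
  have hsr : (1:ℝ) ≤ (a:ℝ) + b + c := by exact_mod_cast hs
  push_cast at *
  set A := pz (a - 1)
  set B := pz (b - 1)
  set D := pz c
  set S := pz (a + b + c - 1)
  set A' := pz a
  set B' := pz b
  set D' := pz (c + 1)
  set S' := pz (a + b + c)
  have rs' : S' = S * (2 * ((a:ℝ) + b + c) - 1) / (2 * ((a:ℝ) + b + c)) := by
    rw [eq_div_iff (by positivity)]; linear_combination rs
  have n1 : (2 * ((a:ℝ) + b + c) - 1) ≠ 0 := by
    have : (0:ℝ) < 2 * ((a:ℝ) + b + c) - 1 := by linarith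
    exact this.ne'
  have n2 : (2 * ((a:ℝ) + b + c) + 1) ≠ 0 := by positivity
  have n3 : ((a:ℝ) + b + c) ≠ 0 := by positivity
  have n4 : (2 * (((a:ℝ) - 1) + (b - 1) + (c + 1)) + 1) = 2 * ((a:ℝ) + b + c) - 1 := by ring
  have n5 : (2 * ((a:ℝ) + (b - 1) + c) + 1) = 2 * ((a:ℝ) + b + c) - 1 := by ring
  have n6 : (2 * (((a:ℝ) - 1) + b + (c + 1)) + 1) = 2 * ((a:ℝ) + b + c) + 1 := by ring
  rw [n4, n5, n6, rs']
  have hS0 := hS.ne'
  have hA : a ≠ 0 → A' = A * (2 * a - 1) / (2 * a) := by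
    intro h
    have har : (a:ℝ) ≠ 0 := by exact_mod_cast h
    rw [eq_div_iff (by simpa using har)]; linear_combination ra
  have hB : b ≠ 0 → B' = B * (2 * b - 1) / (2 * b) := by
    intro h
    have har : (b:ℝ) ≠ 0 := by exact_mod_cast h
    rw [eq_div_iff (by simpa using har)]; linear_combination rb
  have hcr : c ≠ -1 → (c:ℝ) + 1 ≠ 0 := by
    intro h h'
    apply h
    have : (c:ℝ) = ((-1 : ℤ) : ℝ) := by push_cast; linarith
    exact_mod_cast this
  have hD : c ≠ -1 → D' = D * (2 * c + 1) / (2 * (c + 1)) := by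
    intro h
    rw [eq_div_iff (by simpa using hcr h)]; linear_combination rc
  by_cases ha : a = 0
  · have hb : b ≠ 0 := by omega
    have hbr : (b:ℝ) ≠ 0 := by exact_mod_cast hb
    have hA0 : A = 0 := pz_neg (by omega)
    have hA' : A' = 1 := by show pz a = 1; rw [ha, pz_zero]
    have har : (a:ℝ) = 0 := by rw [ha]; norm_num
    rw [hA0, hA', hB hb]
    rw [har] at n1 n2 n3 ⊢
    rw [zero_add] at n1 n2 n3 ⊢
    field_simp
    ring
  · have har : (a:ℝ) ≠ 0 := by exact_mod_cast ha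
    by_cases hb : b = 0
    · have hc : c ≠ -1 := by omega
      have hc' := hcr hc
      have hB0 : B = 0 := pz_neg (by omega)
      have hB' : B' = 1 := by show pz b = 1; rw [hb, pz_zero]
      have hbr : (b:ℝ) = 0 := by rw [hb]; norm_num
      rw [hB0, hB', hA ha, hD hc]
      rw [hbr] at n1 n2 n3 ⊢
      rw [add_zero] at n1 n2 n3 ⊢
      field_simp
      ring
    · have hbr : (b:ℝ) ≠ 0 := by exact_mod_cast hb
      by_cases hc : c = -1
      · have hD0 : D = 0 := pz_neg (by omega)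
        have hD' : D' = 1 := by show pz (c + 1) = 1; rw [hc]; norm_num [pz_zero]
        have hcr' : (c:ℝ) = -1 := by rw [hc]; norm_num
        rw [hD0, hD', hB hb]
        rw [hcr'] at n1 n2 n3 ⊢
        field_simp
        ring
      · have hc' := hcr hc
        rw [hA ha, hB hb, hD hc]
        field_simp
        ring

end

end Pool.Agent.H786
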