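import Mathlib
import Pool.Agent.H786.Leg

set_option autoImplicit false
set_option linter.all false
open Finset Polynomial

namespace Pool.Agent.H786

noncomputable section

/-- the symmetric kernel `½ ∫ P_J P_K P_n` -/
def tk (J K n : ℕ) : ℝ :=
  if (J + K + n) % 2 = 0 then Tz (((J : ℤ) + K - n) / 2) (((J : ℤ) + n - K) / 2) (((K : ℤ) + n - J) / 2)
  else 0

theorem tk_eq {J K n : ℕ} {a b c : ℤ} (h1 : (J : ℤ) = a + b) (h2 : (K : ℤ) = a + c)
    (h3 : (n : ℤ) = b + c) : tk J K n = Tz a b c := by
  unfold tk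
  rw [if_pos (by omega)]
  have e1 : ((J : ℤ) + K - n) / 2 = a := by omega
  have e2 : ((J : ℤ) + n - K) / 2 = b := by omega
  have e3 : ((K : ℤ) + n - J) / 2 = c := by omega
  rw [e1, e2, e3]

theorem tk_odd {J K n : ℕ} (h : (J + K + n) % 2 = 1) : tk J K n = 0 := by
  unfold tk; rw [if_neg (by omega)]

theorem Tz_zero1 {a b c : ℤ} (h : a < 0) : Tz a b c = 0 := by unfold Tz; rw [pz_neg h]; simp
theorem Tz_zero2 {a b c : ℤ} (h : b < 0) : Tz a b c = 0 := by unfold Tz; rw [pz_neg h]; simp
theorem Tz_zero3 {a b c : ℤ} (h : c < 0) : Tz a b c = 0 := by unfold Tz; rw [pz_neg h]; simp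

theorem tk_top {J K n : ℕ} (h : J + K < n) : tk J K n = 0 := by
  unfold tk; split_ifs
  · exact Tz_zero1 (by omega)
  · rfl
theorem tk_lo1 {J K n : ℕ} (h : J + n < K) : tk J K n = 0 := by
  unfold tk; split_ifs
  · exact Tz_zero2 (by omega)
  · rfl
theorem tk_lo2 {J K n : ℕ} (h : K + n < J) : tk J K n = 0 := by
  unfold tk; split_ifs
  · exact Tz_zero3 (by omega)
  · rfl

theorem tk_nonneg (J K n : ℕ) : 0 ≤ tk J K n := by
  unfold tk; split_ifs
  · unfold Tz
    by_cases h : J + K < n
    · rw [pz_neg (k := ((J : ℤ) + K - n) / 2) (by omega)]; simp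
    · have h1 := pz_nonneg (((J : ℤ) + K - n) / 2)
      have h2 := pz_nonneg (((J : ℤ) + n - K) / 2)
      have h3 := pz_nonneg (((K : ℤ) + n - J) / 2)
      have h4 : (0 : ℤ) ≤ ((J : ℤ) + K - n) / 2 + ((J : ℤ) + n - K) / 2 + ((K : ℤ) + n - J) / 2 := by omega
      have h5 := pz_pos h4
      have h6 : (0 : ℝ) ≤ ((((J : ℤ) + K - n) / 2 : ℤ) : ℝ) + ((((J : ℤ) + n - K) / 2 : ℤ) : ℝ)
          + ((((K : ℤ) + n - J) / 2 : ℤ) : ℝ) := by exact_mod_cast h4
      have h7 : 0 ≤ 2 * (((((J : ℤ) + K - n) / 2 : ℤ) : ℝ) + ((((J : ℤ) + n - K) / 2 : ℤ) : ℝ)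
          + ((((K : ℤ) + n - J) / 2 : ℤ) : ℝ)) + 1 := by linarith
      exact div_nonneg (mul_nonneg (mul_nonneg h1 h2) h3) (mul_nonneg h5.le h7)
  · exact le_rfl

theorem Tz_comm12 (a b c : ℤ) : Tz a b c = Tz b a c := by
  unfold Tz
  rw [show b + a + c = a + b + c by ring, mul_comm (pz a) (pz b)]
  congr 2; ring
theorem Tz_comm23 (a b c : ℤ) : Tz a b c = Tz a c b := by
  unfold Tz
  rw [show a + c + b = a + b + c by ring, mul_right_comm]
  congr 2; ring

theorem tk_comm (J K n : ℕ) : tk J K n = tk K J n := by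
  unfold tk
  rw [show K + J + n = J + K + n by ring]
  split_ifs
  · rw [Tz_comm23, show (J : ℤ) + K - n = K + J - n by ring]
  · rfl
theorem tk_comm2 (J K n : ℕ) : tk J K n = tk J n K := by
  unfold tk
  rw [show J + n + K = J + K + n by ring]
  split_ifs
  · rw [Tz_comm12, show (K : ℤ) + n - J = n + K - J by ring]
  · rfl

theorem tk_rec (J K n : ℕ) :
    ((J : ℝ) + 1) * (2 * n + 1) * tk (J + 1) K n + (J : ℝ) * (2 * n + 1) * tk (J - 1) K n =
      (2 * (J : ℝ) + 1) * (n * tk J K (n - 1) + (n + 1) * tk J K (n + 1)) := by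
  by_cases hp : (J + 1 + K + n) % 2 = 0
  · obtain ⟨s, hs⟩ : ∃ s : ℕ, J + 1 + K + n = 2 * s := ⟨(J + 1 + K + n) / 2, by omega⟩
    set a : ℤ := (s : ℤ) - n with ha
    set b : ℤ := (s : ℤ) - K with hb
    set c : ℤ := (s : ℤ) - J - 1 with hc
    have hJ : ((J + 1 : ℕ) : ℤ) = a + b := by push_cast; omega
    have hK : (K : ℤ) = a + c := by omega
    have hn : (n : ℤ) = b + c := by omega
    have hJr : (J : ℝ) + 1 = a + b := by exact_mod_cast hJ
    have hnr : (n : ℝ) = b + c := by exact_mod_cast hn
    have e1 : tk (J + 1) K n = Tz a b c := tk_eq hJ hK hn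
    have e2 : (J : ℝ) * tk (J - 1) K n = (J : ℝ) * Tz (a - 1) (b - 1) (c + 1) := by
      rcases Nat.eq_zero_or_pos J with h | h
      · rw [h]; simp
      · rw [tk_eq (a := a - 1) (b := b - 1) (c := c + 1) (by omega) (by omega) (by omega)]
    have e3 : (n : ℝ) * tk J K (n - 1) = (n : ℝ) * Tz a (b - 1) c := by
      rcases Nat.eq_zero_or_pos n with h | h
      · rw [h]; simp
      · rw [tk_eq (a := a) (b := b - 1) (c := c) (by omega) (by omega) (by omega)]
    have e4 : tk J K (n + 1) = Tz (a - 1) b (c + 1) := tk_eq (by omega) (by omega) (by push_cast; omega)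
    have h := Tz_rec a b c (by omega) (by omega) (by omega)
    rw [e1, e4, e3, mul_right_comm (J : ℝ) _ _, e2]
    rw [← hJr, ← hnr] at h
    have hJ2 : (J : ℝ) + 1 - 1 = J := by ring
    rw [hJ2] at h
    linear_combination h
  · have e1 : tk (J + 1) K n = 0 := tk_odd (by omega)
    have e2 : (J : ℝ) * tk (J - 1) K n = 0 := by
      rcases Nat.eq_zero_or_pos J with h | h
      · rw [h]; simp
      · rw [tk_odd (by omega), mul_zero]
    have e3 : (n : ℝ) * tk J K (n - 1) = 0 := by
      rcases Nat.eq_zero_or_pos n with h | h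
      · rw [h]; simp
      · rw [tk_odd (by omega), mul_zero]
    have e4 : tk J K (n + 1) = 0 := tk_odd (by omega)
    rw [e1, e4, e3, mul_right_comm (J : ℝ) _ _, e2]
    ring

/-- coefficients of `P_J P_K` -/
def kc (J K n : ℕ) : ℝ := (2 * (n : ℝ) + 1) * tk J K n

theorem kc_nonneg (J K n : ℕ) : 0 ≤ kc J K n := mul_nonneg (by positivity) (tk_nonneg _ _ _)

theorem kc_top {J K n : ℕ} (h : J + K < n) : kc J K n = 0 := by unfold kc; rw [tk_top h, mul_zero]

theorem kc_zero_left (K n : ℕ) : kc 0 K n = if n = K then 1 else 0 := by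
  unfold kc
  split_ifs with h
  · subst h
    rw [tk_eq (a := 0) (b := 0) (c := n) (by simp) (by simp) (by simp)]
    unfold Tz
    rw [pz_zero]
    have h1 : 0 < pz (n : ℤ) := pz_pos (by omega)
    simp only [zero_add, one_mul]
    push_cast
    simp only [zero_add]
    field_simp
  · rcases Nat.lt_or_gt_of_ne h with h1 | h1
    · rw [tk_lo1 (by omega), mul_zero]
    · rw [tk_top (by omega), mul_zero]

theorem sum_ext_range {M : Type*} [AddCommMonoid M] {f : ℕ → M} {a N : ℕ} (h : a ≤ N)
    (hf : ∀ n, a ≤ n → f n = 0) : ∑ n ∈ range N, f n = ∑ n ∈ range a, f n := by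
  symm
  apply Finset.sum_subset (Finset.range_mono h)
  intro n _ hn
  rw [Finset.mem_range] at hn
  exact hf n (by omega)

/-- product formula -/
theorem kc_poly (J : ℕ) : ∀ K : ℕ, ∑ n ∈ range (J + K + 1), C (kc J K n) * lg n = lg J * lg K := by
  induction J using Nat.strong_induction_on with
  | _ J ih =>
    intro K
    rcases J with _ | J
    · rw [lg_zero, one_mul]
      rw [Finset.sum_eq_single K]
      · rw [kc_zero_left, if_pos rfl, C_1, one_mul]
      · intro n _ hn; rw [kc_zero_left, if_neg hn, C_0, zero_mul]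
      · intro h; exact absurd (Finset.mem_range.2 (by omega)) h
    · have h0 := ih J (by omega) K
      have h1 : C (J : ℝ) * (lg (J - 1) * lg K) =
          C (J : ℝ) * ∑ n ∈ range (J + K + 2), C (kc (J - 1) K n) * lg n := by
        rcases Nat.eq_zero_or_pos J with h | h
        · rw [h]; simp
        · rw [← ih (J - 1) (by omega) K]
          congr 1
          symm
          exact sum_ext_range (by omega) fun n hn => by rw [kc_top (by omega), C_0, zero_mul]
      have hne : (C ((J : ℝ) + 1)) ≠ (0 : ℝ[X]) := by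
        rw [Ne, C_eq_zero]; positivity
      apply mul_left_cancel₀ hne
      have hr := lg_rec J
      have e0 : C ((J : ℝ) + 1) * (lg (J + 1) * lg K) =
          C (2 * (J : ℝ) + 1) * (X * (lg J * lg K)) - C (J : ℝ) * (lg (J - 1) * lg K) := by
        linear_combination lg K * hr
      rw [e0, h1, ← h0]
      -- multiplication by X
      have e1 : X * ∑ n ∈ range (J + K + 1), C (kc J K n) * lg n =
          ∑ n ∈ range (J + K + 2), C (n * tk J K (n - 1) + (n + 1) * tk J K (n + 1)) * lg n := by
        have a1 : ∀ n : ℕ, X * (C (kc J K n) * lg n) =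
            C (tk J K n * (n + 1)) * lg (n + 1) + C (tk J K n * n) * lg (n - 1) := by
          intro n
          have hr := lg_rec n
          have hk : (C (kc J K n) : ℝ[X]) = C (2 * (n : ℝ) + 1) * C (tk J K n) := by
            unfold kc; rw [C_mul]
          rw [hk, C_mul, C_mul]
          linear_combination (-C (tk J K n)) * hr
        rw [Finset.mul_sum, Finset.sum_congr rfl fun n _ => a1 n, Finset.sum_add_distrib]
        have a2 : ∑ n ∈ range (J + K + 1), C (tk J K n * (n + 1)) * lg (n + 1) =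
            ∑ n ∈ range (J + K + 2), C (n * tk J K (n - 1)) * lg n := by
          rw [Finset.sum_range_succ' _ (J + K + 1)]
          simp only [Nat.cast_zero, zero_mul, C_0, add_zero]
          refine Finset.sum_congr rfl fun n _ => ?_
          rw [Nat.add_sub_cancel]
          push_cast
          rw [mul_comm (tk J K n)]
        have a3 : ∑ n ∈ range (J + K + 1), C (tk J K n * n) * lg (n - 1) =
            ∑ n ∈ range (J + K + 2), C ((n + 1) * tk J K (n + 1)) * lg n := by
          rw [Finset.sum_range_succ' _ (J + K)]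
          simp only [Nat.cast_zero, mul_zero, C_0, zero_mul, add_zero]
          rw [sum_ext_range (a := J + K) (N := J + K + 2) (by omega) (fun n hn => by
            rw [tk_top (by omega), mul_zero, C_0, zero_mul])]
          refine Finset.sum_congr rfl fun n _ => ?_
          rw [Nat.add_sub_cancel]
          push_cast
          rw [mul_comm (tk J K (n + 1))]
        rw [a2, a3, ← Finset.sum_add_distrib]
        refine Finset.sum_congr rfl fun n _ => ?_
        rw [C_add]; ring
      rw [e1, show J + 1 + K + 1 = J + K + 2 by ring, Finset.mul_sum, Finset.mul_sum, Finset.mul_sum,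
        ← Finset.sum_sub_distrib]
      refine Finset.sum_congr rfl fun n _ => ?_
      have h := tk_rec J K n
      have h' : ((J : ℝ) + 1) * kc (J + 1) K n = (2 * (J : ℝ) + 1) * (n * tk J K (n - 1) + (n + 1) * tk J K (n + 1))
          - (J : ℝ) * kc (J - 1) K n := by
        unfold kc; linear_combination h
      have h'' := congrArg (C : ℝ → ℝ[X]) h'
      rw [C_sub, C_mul, C_mul, C_mul] at h''
      linear_combination (lg n) * h''

theorem lg_deriv_one (n : ℕ) : (derivative (lg n)).eval 1 = lam n / 2 := by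
  induction n with
  | zero => simp [lg_zero, lam]
  | succ n ih =>
    rw [lg_D1]
    simp only [eval_add, eval_mul, eval_X, eval_C, ih, lg_eval_one]
    unfold lam; push_cast; ring

theorem kc_sum (J K : ℕ) : ∑ n ∈ range (J + K + 1), kc J K n = 1 := by
  have h := congrArg (Polynomial.eval 1) (kc_poly J K)
  rw [eval_finset_sum] at h
  simpa [lg_eval_one] using h

/-- the operator `Λ` -/
def Lop (p : ℝ[X]) : ℝ[X] := derivative ((1 - X ^ 2) * derivative p)

theorem Lop_lg (n : ℕ) : Lop (lg n) = -C (lam n) * lg n := ph_deriv n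

theorem Lop_mul (p q : ℝ[X]) :
    Lop (p * q) = p * Lop q + q * Lop p + 2 * ((1 - X ^ 2) * (derivative p * derivative q)) := by
  unfold Lop
  simp only [derivative_mul, derivative_add]
  ring

theorem Lop_sum {ι : Type*} (s : Finset ι) (f : ι → ℝ[X]) : Lop (∑ i ∈ s, f i) = ∑ i ∈ s, Lop (f i) := by
  unfold Lop
  rw [derivative_sum, Finset.mul_sum, derivative_sum]

theorem Lop_C_mul (c : ℝ) (p : ℝ[X]) : Lop (C c * p) = C c * Lop p := by
  unfold Lop
  simp only [derivative_mul, derivative_C, zero_mul, zero_add, mul_left_comm]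
  ring

/-- coefficients of `(1-x²) P_J' P_K'` -/
def kg (J K n : ℕ) : ℝ := (lam J + lam K - lam n) / 2 * kc J K n

theorem kg_top {J K n : ℕ} (h : J + K < n) : kg J K n = 0 := by unfold kg; rw [kc_top h, mul_zero]

theorem kg_poly (J K : ℕ) : ∑ n ∈ range (J + K + 1), C (kg J K n) * lg n =
    (1 - X ^ 2) * (derivative (lg J) * derivative (lg K)) := by
  have h1 := Lop_mul (lg J) (lg K)
  rw [← kc_poly J K, Lop_sum, Lop_lg, Lop_lg] at h1
  simp only [Lop_C_mul, Lop_lg] at h1
  have h2 : (2 : ℝ[X]) ≠ 0 := two_ne_zero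
  apply mul_left_cancel₀ h2
  have h3 := kc_poly J K
  have h4 : (2 : ℝ[X]) * ∑ n ∈ range (J + K + 1), C (kg J K n) * lg n =
      C (lam J + lam K) * ∑ n ∈ range (J + K + 1), C (kc J K n) * lg n
        + ∑ n ∈ range (J + K + 1), C (kc J K n) * (-C (lam n) * lg n) := by
    rw [Finset.mul_sum, Finset.mul_sum, ← Finset.sum_add_distrib]
    refine Finset.sum_congr rfl fun n _ => ?_
    have : (2 : ℝ[X]) * C (kg J K n) = C (lam J + lam K) * C (kc J K n) - C (lam n) * C (kc J K n) := by
      have e : (2 : ℝ[X]) = C 2 := rfl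
      rw [e, ← C_mul, ← C_mul, ← C_mul, ← C_sub]
      congr 1
      unfold kg; ring
    linear_combination (lg n) * this
  rw [h4, h3, C_add]
  linear_combination h1

theorem kc_lam_sum (J K : ℕ) : ∑ n ∈ range (J + K + 1), kc J K n * lam n = lam J + lam K := by
  have h := congrArg (Polynomial.eval 1) (kg_poly J K)
  rw [eval_finset_sum] at h
  simp only [eval_mul, eval_C, lg_eval_one, mul_one, eval_sub, eval_one, eval_pow, eval_X, one_pow,
    sub_self, zero_mul] at h
  have h2 := kc_sum J K
  have h3 : ∑ n ∈ range (J + K + 1), kg J K n =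
      (lam J + lam K) / 2 * ∑ n ∈ range (J + K + 1), kc J K n
        - (∑ n ∈ range (J + K + 1), kc J K n * lam n) / 2 := by
    rw [Finset.mul_sum, Finset.sum_div, ← Finset.sum_sub_distrib]
    refine Finset.sum_congr rfl fun n _ => ?_
    unfold kg; ring
  rw [h3, h2] at h
  linarith

/-- coefficients of `P_J φ_K` in terms of `φ_n` -/
def kb (J K n : ℕ) : ℝ := (lam n + lam K - lam J) / (2 * lam n) * kc J K n

theorem kb_top {J K n : ℕ} (h : J + K < n) : kb J K n = 0 := by unfold kb; rw [kc_top h, mul_zero]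

theorem kc_zero_right {J K : ℕ} (h : J ≠ K) : kc J K 0 = 0 := by
  unfold kc
  rcases Nat.lt_or_gt_of_ne h with h1 | h1
  · rw [tk_lo1 (by omega), mul_zero]
  · rw [tk_lo2 (by omega), mul_zero]

theorem kb_mul (J K n : ℕ) : kb J K n * lam n = (lam n + lam K - lam J) / 2 * kc J K n := by
  unfold kb
  by_cases hn : n = 0
  · subst hn
    by_cases h : J = K
    · subst h; simp [lam]
    · rw [kc_zero_right h]; simp
  · have := (lam_pos hn).ne'
    field_simp

theorem poly_eq_of_deriv {p q : ℝ[X]} (h : derivative p = derivative q) (h1 : p.eval 1 = q.eval 1) :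
    p = q := by
  have h2 : derivative (p - q) = 0 := by rw [derivative_sub, h, sub_self]
  have h3 := Polynomial.natDegree_eq_zero_of_derivative_eq_zero h2
  rw [Polynomial.natDegree_eq_zero] at h3
  obtain ⟨c, hc⟩ := h3
  have h4 : (p - q).eval 1 = c := by rw [← hc]; simp
  rw [eval_sub, h1, sub_self] at h4
  rw [← h4, C_0] at hc
  exact (sub_eq_zero.1 hc.symm)

theorem kb_poly (J K : ℕ) : ∑ n ∈ range (J + K + 1), C (kb J K n) * ph n = lg J * ph K := by
  apply poly_eq_of_deriv
  · rw [derivative_sum]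
    simp only [derivative_mul, derivative_C, zero_mul, zero_add, ph_deriv]
    have e1 : ∀ n, C (kb J K n) * (-C (lam n) * lg n) =
        C (-1/2 : ℝ) * (C (lam K - lam J) * (C (kc J K n) * lg n)) +
          C (-1/2 : ℝ) * (C (lam n * kc J K n) * lg n) := by
      intro n
      have h := kb_mul J K n
      have : C (kb J K n) * C (lam n) = C ((lam n + lam K - lam J) / 2 * kc J K n) := by
        rw [← h, C_mul]
      have h2 : (C ((lam n + lam K - lam J) / 2 * kc J K n) : ℝ[X]) =
          -(C (-1/2 : ℝ) * (C (lam K - lam J) * C (kc J K n)) + C (-1/2 : ℝ) * C (lam n * kc J K n)) := by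
        rw [← C_mul, ← C_mul, ← C_mul, ← C_add, ← C_neg]
        congr 1; ring
      rw [h2] at this
      linear_combination (-lg n) * this
    rw [Finset.sum_congr rfl fun n _ => e1 n, Finset.sum_add_distrib, ← Finset.mul_sum,
      ← Finset.mul_sum, kc_poly, ← Finset.mul_sum]
    have h5 : ∑ n ∈ range (J + K + 1), C (lam n * kc J K n) * lg n =
        C (lam J + lam K) * (lg J * lg K) - 2 * ((1 - X ^ 2) * (derivative (lg J) * derivative (lg K))) := by
      rw [← kg_poly, ← kc_poly, Finset.mul_sum, Finset.mul_sum, ← Finset.sum_sub_distrib]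
      refine Finset.sum_congr rfl fun n _ => ?_
      have : (2 : ℝ[X]) * C (kg J K n) = C (lam J + lam K) * C (kc J K n) - C (lam n * kc J K n) := by
        have e : (2 : ℝ[X]) = C 2 := rfl
        rw [e, ← C_mul, ← C_mul, ← C_sub]
        congr 1
        unfold kg; ring
      linear_combination (lg n) * this
    rw [h5]
    have e6 : (C (-1/2 : ℝ) : ℝ[X]) * 2 = -1 := by
      have e : (2 : ℝ[X]) = C 2 := rfl
      rw [e, ← C_mul]; norm_num
    have e7 : (C (-1/2 : ℝ) : ℝ[X]) * (C (lam K - lam J) + C (lam J + lam K)) = -C (lam K) := by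
      rw [← C_add, ← C_mul, ← C_neg]; congr 1; ring
    unfold ph
    linear_combination (lg J * lg K) * e7 - ((1 - X ^ 2) * (derivative (lg J) * derivative (lg K))) * e6
  · rw [eval_finset_sum]
    simp [ph]

/-! ### the sum rule for `1/λ` -/

def Vs (J K : ℕ) : ℝ := ∑ n ∈ range (J + K + 1), kc J K n / lam n

theorem Vs_eq {J K N : ℕ} (h : J + K + 1 ≤ N) : Vs J K = ∑ n ∈ range N, kc J K n / lam n := by
  unfold Vs
  exact (sum_ext_range h fun n hn => by rw [kc_top (by omega), zero_div]).symm

theorem kc_comm (J K n : ℕ) : kc J K n = kc K J n := by unfold kc; rw [tk_comm]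

theorem Vs_comm (J K : ℕ) : Vs J K = Vs K J := by
  unfold Vs
  rw [add_comm J K]
  exact Finset.sum_congr rfl fun n _ => by rw [kc_comm]

theorem Vs_rec (J K : ℕ) : (2 * (K : ℝ) + 1) * (((J : ℝ) + 1) * Vs (J + 1) K + J * Vs (J - 1) K) =
    (2 * (J : ℝ) + 1) * (((K : ℝ) + 1) * Vs J (K + 1) + K * Vs J (K - 1)) := by
  rw [Vs_eq (N := J + K + 3) (by omega), Vs_eq (J := J - 1) (N := J + K + 3) (by omega),
    Vs_eq (K := K + 1) (N := J + K + 3) (by omega), Vs_eq (K := K - 1) (N := J + K + 3) (by omega)]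
  simp only [Finset.mul_sum, ← Finset.sum_add_distrib]
  refine Finset.sum_congr rfl fun n _ => ?_
  have h1 := tk_rec J K n
  have h2 := tk_rec K J n
  rw [tk_comm (K + 1), tk_comm (K - 1), tk_comm K J (n - 1), tk_comm K J (n + 1)] at h2
  unfold kc
  set L := (lam n)⁻¹
  simp only [div_eq_mul_inv]
  linear_combination (2 * (K : ℝ) + 1) * (lam n)⁻¹ * h1 - (2 * (J : ℝ) + 1) * (lam n)⁻¹ * h2

theorem Vs_mul (J : ℕ) : ∀ K : ℕ, J < K → Vs J K * (lam K - lam J) = 1 := by
  induction J using Nat.strong_induction_on with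
  | _ J ih =>
    intro K hK
    rcases J with _ | J
    · unfold Vs
      rw [Finset.sum_eq_single K]
      · rw [kc_zero_left, if_pos rfl, lam_zero, sub_zero]
        have := lam_pos (n := K) (by omega)
        field_simp
      · intro n _ hn; rw [kc_zero_left, if_neg hn, zero_div]
      · intro h; exact absurd (Finset.mem_range.2 (by omega)) h
    · have h1 := ih J (by omega) (K + 1) (by omega)
      have h2 := ih J (by omega) (K - 1) (by omega)
      have hr := Vs_rec J K
      have hK1 : ((K - 1 : ℕ) : ℝ) = (K : ℝ) - 1 := by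
        rw [Nat.cast_sub (by omega)]; norm_num
      have hKJ : (J : ℝ) + 2 ≤ K := by exact_mod_cast hK
      have hJ0 : (0:ℝ) ≤ J := Nat.cast_nonneg J
      have v1 : Vs J (K + 1) = 1 / (((K:ℝ) + 1 - J) * (K + J + 2)) := by
        rw [eq_div_iff (by
          have : (0:ℝ) < (K:ℝ) + 1 - J := by linarith
          positivity)]
        unfold lam at h1; push_cast at h1; linear_combination h1
      have v2 : Vs J (K - 1) = 1 / (((K:ℝ) - 1 - J) * (K + J)) := by
        rw [eq_div_iff (by
          have a1 : (0:ℝ) < (K:ℝ) - 1 - J := by linarith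
          have a2 : (0:ℝ) < (K:ℝ) + J := by linarith
          positivity)]
        unfold lam at h2; rw [hK1] at h2; linear_combination h2
      have v3 : (J : ℝ) * Vs (J - 1) K = (J : ℝ) / (((K:ℝ) - J + 1) * (K + J)) := by
        rcases Nat.eq_zero_or_pos J with h | h
        · rw [h]; simp
        · have h3 := ih (J - 1) (by omega) K (by omega)
          have hJ1 : ((J - 1 : ℕ) : ℝ) = (J : ℝ) - 1 := by
            rw [Nat.cast_sub (by omega)]; norm_num
          rw [eq_div_iff (by
            have a1 : (0:ℝ) < (K:ℝ) - J + 1 := by linarith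
            have a2 : (0:ℝ) < (K:ℝ) + J := by linarith
            positivity), mul_assoc]
          have : Vs (J - 1) K * (((K:ℝ) - J + 1) * (K + J)) = 1 := by
            unfold lam at h3; rw [hJ1] at h3; linear_combination h3
          rw [this, mul_one]
      rw [v1, v2, v3] at hr
      have n1 : (0:ℝ) < (K:ℝ) - J + 1 := by linarith
      have n2 : (0:ℝ) < (K:ℝ) + 1 - J := by linarith
      have n3 : (0:ℝ) < (K:ℝ) - 1 - J := by linarith
      have n4 : (0:ℝ) < (K:ℝ) + J := by linarith
      have n5 : (0:ℝ) < (K:ℝ) + J + 2 := by linarith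
      have e : lam K - lam (J + 1) = ((K:ℝ) - 1 - J) * (K + J + 2) := by
        unfold lam; push_cast; ring
      rw [e]
      have n6 : (0:ℝ) < 2 * K + 1 := by linarith
      have n7 : (0:ℝ) < (J:ℝ) + 1 := by linarith
      have e2 : Vs (J + 1) K = ((2 * (J : ℝ) + 1) * (((K : ℝ) + 1) * (1 / (((K:ℝ) + 1 - J) * (K + J + 2)))
          + K * (1 / (((K:ℝ) - 1 - J) * (K + J)))) / (2 * K + 1) - (J : ℝ) / (((K:ℝ) - J + 1) * (K + J)))
          / ((J : ℝ) + 1) := by
        rw [eq_div_iff n7.ne', eq_sub_iff_add_eq, eq_div_iff n6.ne']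
        linear_combination hr
      rw [e2]
      have n1' := n1.ne'
      have n2' := n2.ne'
      have n3' := n3.ne'
      have n4' := n4.ne'
      have n5' := n5.ne'
      have n6' := n6.ne'
      have n7' := n7.ne'
      field_simp
      ring

end

end Pool.Agent.H786
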