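import Mathlib
import Pool.Agent.H786.Ker
import Pool.Agent.H786.G.R_pool_sql_team_seeded_63374d34.N535.Bil

set_option autoImplicit false
set_option linter.all false
open Finset Polynomial

namespace Pool.Agent.H786

open Pool.Agent.N535 (PK SS bil)

noncomputable section

theorem kc_le_one (J K n : ℕ) : kc J K n ≤ 1 := by
  by_cases h : n ∈ range (J + K + 1)
  · rw [← kc_sum J K]
    exact Finset.single_le_sum (f := fun n => kc J K n) (fun i _ => kc_nonneg _ _ _) h
  · rw [Finset.mem_range] at h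
    rw [kc_top (by omega)]; exact zero_le_one

theorem lam_le (n : ℕ) : lam n ≤ ((n : ℝ) + 1) ^ 2 := by
  have : (0:ℝ) ≤ n := Nat.cast_nonneg n
  unfold lam; nlinarith

theorem lam_mono {m n : ℕ} (h : m ≤ n) : lam m ≤ lam n := by
  have h1 : (m:ℝ) ≤ n := by exact_mod_cast h
  have h2 : (0:ℝ) ≤ m := Nat.cast_nonneg m
  unfold lam; nlinarith

theorem lam_add_le (J K n : ℕ) (h : n ≤ J + K) : lam n ≤ 2 * (lam J + lam K) := by
  refine (lam_mono h).trans ?_
  have h1 : (0:ℝ) ≤ J := Nat.cast_nonneg J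
  have h2 : (0:ℝ) ≤ K := Nat.cast_nonneg K
  unfold lam; push_cast
  nlinarith [sq_nonneg ((J:ℝ) - K)]

theorem kg_abs (J K n : ℕ) : |kg J K n| ≤ (lam J + lam K) * kc J K n := by
  by_cases h : J + K < n
  · rw [kg_top h, kc_top h]; simp
  · unfold kg
    rw [abs_mul, abs_of_nonneg (kc_nonneg J K n)]
    apply mul_le_mul_of_nonneg_right _ (kc_nonneg J K n)
    have h1 := lam_add_le J K n (by omega)
    have h2 := lam_nonneg n
    have h3 := lam_nonneg J
    have h4 := lam_nonneg K
    rw [abs_le]; constructor <;> linarith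

theorem PK_kc : PK kc := by
  refine ⟨1, 0, zero_le_one, fun J K n => ?_, fun J K n h => kc_top h⟩
  rw [abs_of_nonneg (kc_nonneg _ _ _)]; simpa using kc_le_one J K n

theorem PK_kg : PK kg := by
  refine ⟨2, 2, by norm_num, fun J K n => ?_, fun J K n h => kg_top h⟩
  refine (kg_abs J K n).trans ?_
  have h1 := kc_le_one J K n
  have h2 := kc_nonneg J K n
  have h3 : (0:ℝ) ≤ J := Nat.cast_nonneg J
  have h4 : (0:ℝ) ≤ K := Nat.cast_nonneg K
  have h5 : lam J + lam K ≤ 2 * ((J:ℝ) + K + 1) ^ 2 := by unfold lam; nlinarith [mul_nonneg h3 h4]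
  have h6 := lam_nonneg J
  have h7 := lam_nonneg K
  nlinarith [mul_nonneg (add_nonneg h6 h7) (sub_nonneg.2 h1)]

/-- bound of the absolute value of `kb` -/
theorem kb_abs (J K n : ℕ) : |kb J K n| ≤ kc J K n / 2 + |lam K - lam J| / 2 * (kc J K n / lam n) := by
  by_cases hn : n = 0
  · subst hn
    unfold kb
    rw [lam_zero]
    simp
    have := kc_nonneg J K 0
    positivity
  · have hl := lam_pos hn
    have hc := kc_nonneg J K n
    unfold kb
    rw [abs_mul, abs_of_nonneg hc, abs_div, abs_of_pos (by positivity : 0 < 2 * lam n)]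
    have h1 : |lam n + lam K - lam J| ≤ lam n + |lam K - lam J| := by
      have := abs_add_le (lam n) (lam K - lam J)
      rw [abs_of_pos hl] at this
      rw [show lam n + lam K - lam J = lam n + (lam K - lam J) by ring]
      exact this
    calc |lam n + lam K - lam J| / (2 * lam n) * kc J K n
        ≤ (lam n + |lam K - lam J|) / (2 * lam n) * kc J K n := by gcongr
      _ = _ := by field_simp

theorem Vs_abs (J K : ℕ) : |lam K - lam J| * Vs J K ≤ 1 := by
  rcases lt_trichotomy J K with h | h | h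
  · have h1 := Vs_mul J K h
    have h2 : 0 ≤ lam K - lam J := sub_nonneg.2 (lam_mono h.le)
    rw [abs_of_nonneg h2, mul_comm, h1]
  · subst h; simp
  · have h1 := Vs_mul K J h
    have h2 : 0 ≤ lam J - lam K := sub_nonneg.2 (lam_mono h.le)
    rw [abs_sub_comm, abs_of_nonneg h2, mul_comm, Vs_comm, h1]

theorem kb_sum (J K : ℕ) : ∑ n ∈ range (J + K + 1), |kb J K n| ≤ 1 := by
  calc ∑ n ∈ range (J + K + 1), |kb J K n|
      ≤ ∑ n ∈ range (J + K + 1), (kc J K n / 2 + |lam K - lam J| / 2 * (kc J K n / lam n)) :=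
        Finset.sum_le_sum fun n _ => kb_abs J K n
    _ = (∑ n ∈ range (J + K + 1), kc J K n) / 2 + |lam K - lam J| / 2 * Vs J K := by
        rw [Finset.sum_add_distrib, Finset.sum_div, ← Finset.mul_sum]; rfl
    _ = (1 + |lam K - lam J| * Vs J K) / 2 := by rw [kc_sum]; ring
    _ ≤ 1 := by have := Vs_abs J K; linarith

theorem PK_kb : PK kb := by
  refine ⟨1, 0, zero_le_one, fun J K n => ?_, fun J K n h => kb_top h⟩
  by_cases h : n ∈ range (J + K + 1)
  · have := Finset.single_le_sum (f := fun n => |kb J K n|) (fun i _ => abs_nonneg _) h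
    simpa using this.trans (kb_sum J K)
  · rw [Finset.mem_range] at h
    rw [kb_top (by omega)]; simp

/-- good kernels -/
structure GK (k : ℕ → ℕ → ℕ → ℝ) : Prop where
  pk : PK k
  top : ∀ J K n : ℕ, J + K < n → k J K n = 0
  sum : ∀ J K : ℕ, ∑ n ∈ range (J + K + 1), |k J K n| ≤ 1
  weak : ∀ J K n : ℕ, (2 * (n:ℝ) + 1) * |k J K n| ≤
    4 * ((2 * (J:ℝ) + 1) ^ 2 + (2 * (K:ℝ) + 1) ^ 2) * tk J K n

theorem GK_kc : GK kc := by
  refine ⟨PK_kc, fun J K n h => kc_top h, fun J K => ?_, fun J K n => ?_⟩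
  · rw [Finset.sum_congr rfl fun n _ => abs_of_nonneg (kc_nonneg J K n), kc_sum]
  · rw [abs_of_nonneg (kc_nonneg _ _ _)]
    by_cases h : J + K < n
    · rw [kc_top h, tk_top h]; simp
    · unfold kc
      have ht := tk_nonneg J K n
      have hn : (n:ℝ) ≤ J + K := by exact_mod_cast (by omega : n ≤ J + K)
      have h1 : (0:ℝ) ≤ J := Nat.cast_nonneg J
      have h2 : (0:ℝ) ≤ K := Nat.cast_nonneg K
      have h0 : (0:ℝ) ≤ n := Nat.cast_nonneg n
      rw [← mul_assoc]
      apply mul_le_mul_of_nonneg_right _ ht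
      nlinarith [sq_nonneg ((J:ℝ) - K)]

theorem GK_kb : GK kb := by
  refine ⟨PK_kb, fun J K n h => kb_top h, kb_sum, fun J K n => ?_⟩
  have ht := tk_nonneg J K n
  have h1 : (0:ℝ) ≤ J := Nat.cast_nonneg J
  have h2 : (0:ℝ) ≤ K := Nat.cast_nonneg K
  by_cases h : J + K < n
  · rw [kb_top h, tk_top h]; simp
  by_cases h' : J + n < K
  · unfold kb kc; rw [tk_lo1 h']; simp
  by_cases h'' : K + n < J
  · unfold kb kc; rw [tk_lo2 h'']; simp
  by_cases hn0 : n = 0
  · subst hn0
    unfold kb; rw [lam_zero]; simp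
    positivity
  have hn : (n:ℝ) ≤ J + K := by exact_mod_cast (by omega : n ≤ J + K)
  have hK : (K:ℝ) ≤ J + n := by exact_mod_cast (by omega : K ≤ J + n)
  have hJ : (J:ℝ) ≤ K + n := by exact_mod_cast (by omega : J ≤ K + n)
  have hn1 : (1:ℝ) ≤ n := by exact_mod_cast Nat.one_le_iff_ne_zero.2 hn0
  have hl := lam_pos hn0
  unfold kb kc
  rw [abs_mul, abs_mul, abs_of_nonneg ht, abs_div, abs_of_pos (by positivity : 0 < 2 * lam n),
    abs_of_pos (by positivity : (0:ℝ) < 2 * n + 1), ← mul_assoc, ← mul_assoc]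
  apply mul_le_mul_of_nonneg_right _ ht
  have h3 : |lam n + lam K - lam J| ≤ n * (n + J + K + 2) := by
    rw [abs_le]
    constructor
    · have : lam J - lam K = (J - K) * (J + K + 1) := by unfold lam; ring
      have h4 : ((J:ℝ) - K) * (J + K + 1) ≤ n * (J + K + 1) :=
        mul_le_mul_of_nonneg_right (by linarith) (by positivity)
      unfold lam at *; nlinarith
    · have : lam K - lam J = (K - J) * (J + K + 1) := by unfold lam; ring
      have h4 : ((K:ℝ) - J) * (J + K + 1) ≤ n * (J + K + 1) :=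
        mul_le_mul_of_nonneg_right (by linarith) (by positivity)
      unfold lam at *; nlinarith
  calc (2 * (n:ℝ) + 1) * (|lam n + lam K - lam J| / (2 * lam n)) * (2 * n + 1)
      ≤ (2 * (n:ℝ) + 1) * ((n * (n + J + K + 2)) / (2 * lam n)) * (2 * n + 1) := by gcongr
    _ = ((2 * (n:ℝ) + 1) / (n + 1)) * (2 * n + 1) * (n + J + K + 2) / 2 := by
        unfold lam; field_simp
    _ ≤ 2 * (2 * n + 1) * (n + J + K + 2) / 2 := by
        gcongr
        rw [div_le_iff₀ (by positivity)]; linarith
    _ ≤ 4 * ((2 * (J:ℝ) + 1) ^ 2 + (2 * (K:ℝ) + 1) ^ 2) := by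
        nlinarith [sq_nonneg ((J:ℝ) - K)]

/-- sum of the symmetric kernel over the first index -/
theorem tk_sum_le (K n : ℕ) (s : Finset ℕ) : ∑ J ∈ s, (2 * (J:ℝ) + 1) * tk J K n ≤ 1 := by
  have e : ∀ J : ℕ, (2 * (J:ℝ) + 1) * tk J K n = kc K n J := by
    intro J; unfold kc; rw [tk_comm, tk_comm2]
  rw [Finset.sum_congr rfl fun J _ => e J]
  calc ∑ J ∈ s, kc K n J ≤ ∑ J ∈ s ∪ range (K + n + 1), kc K n J :=
        Finset.sum_le_sum_of_subset_of_nonneg Finset.subset_union_left fun _ _ _ => kc_nonneg _ _ _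
    _ = ∑ J ∈ range (K + n + 1), kc K n J := by
        symm
        apply Finset.sum_subset Finset.subset_union_right
        intro J _ hJ
        rw [Finset.mem_range] at hJ
        exact kc_top (by omega)
    _ = 1 := kc_sum K n

/-! ### derivative and the passage from `b` to `h` -/

/-- kernel of `d/dx` -/
def kD (J K n : ℕ) : ℝ := if K = 0 ∧ n < J ∧ (J + n) % 2 = 1 then 2 * (n:ℝ) + 1 else 0

theorem kD_top {J K n : ℕ} (h : J + K < n) : kD J K n = 0 := by
  unfold kD; rw [if_neg (by omega)]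

theorem PK_kD : PK kD := by
  refine ⟨2, 1, by norm_num, fun J K n => ?_, fun J K n h => kD_top h⟩
  unfold kD
  split_ifs with h
  · rw [abs_of_nonneg (by positivity), pow_one]
    have : (n:ℝ) ≤ J := by exact_mod_cast h.2.1.le
    have : (0:ℝ) ≤ K := Nat.cast_nonneg K
    linarith
  · rw [abs_zero]; positivity

theorem kD_poly (J : ℕ) : ∑ n ∈ range (J + 1), C (kD J 0 n) * lg n = derivative (lg J) := by
  induction J using Nat.strong_induction_on with
  | _ J ih =>
    rcases J with _ | _ | J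
    · simp [kD, lg_zero]
    · simp [Finset.sum_range_succ, kD, lg_zero, lg_one]
    · have h := lg_D3 J
      have hJ := ih J (by omega)
      have e : derivative (lg (J + 2)) = derivative (lg J) + C (2 * (J : ℝ) + 3) * lg (J + 1) := by
        linear_combination h
      show ∑ n ∈ range (J + 2 + 1), C (kD (J + 2) 0 n) * lg n = derivative (lg (J + 2))
      rw [e, ← hJ, Finset.sum_range_succ, Finset.sum_range_succ]
      have e1 : kD (J + 2) 0 (J + 2) = 0 := by unfold kD; rw [if_neg (by omega)]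
      have e2 : kD (J + 2) 0 (J + 1) = 2 * (J:ℝ) + 3 := by
        unfold kD; rw [if_pos (by omega)]; push_cast; ring
      rw [e1, e2, C_0, zero_mul, add_zero]
      congr 1
      refine Finset.sum_congr rfl fun n hn => ?_
      rw [Finset.mem_range] at hn
      congr 2
      unfold kD
      by_cases hp : (J + n) % 2 = 1
      · rw [if_pos (by omega), if_pos (by omega)]
      · rw [if_neg (by omega), if_neg (by omega)]

/-- `λ_n/(2n+1)` -/
def be (n : ℕ) : ℝ := lam n / (2 * n + 1)

theorem be_nonneg (n : ℕ) : 0 ≤ be n := div_nonneg (lam_nonneg n) (by positivity)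
theorem be_zero : be 0 = 0 := by simp [be, lam]
theorem be_le (n : ℕ) : be n ≤ n + 1 := by
  unfold be lam
  have : (0:ℝ) ≤ n := Nat.cast_nonneg n
  rw [div_le_iff₀ (by positivity)]; nlinarith

/-- kernel of the passage from `φ_n` to `P_n` -/
def kH (J K n : ℕ) : ℝ := if K = 1 then (if n + 1 = J then be J else if n = J + 1 then -be J else 0) else 0

theorem kH_top {J K n : ℕ} (h : J + K < n) : kH J K n = 0 := by
  unfold kH
  split_ifs <;> first | rfl | omega

theorem PK_kH : PK kH := by
  refine ⟨1, 1, zero_le_one, fun J K n => ?_, fun J K n h => kH_top h⟩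
  have h1 := be_le J
  have h0 := be_nonneg J
  have : (0:ℝ) ≤ K := Nat.cast_nonneg K
  have : (0:ℝ) ≤ J := Nat.cast_nonneg J
  rw [pow_one, one_mul]
  unfold kH
  split_ifs
  · rw [abs_of_nonneg h0]; linarith
  · rw [abs_neg, abs_of_nonneg h0]; linarith
  · rw [abs_zero]; positivity
  · rw [abs_zero]; positivity

theorem kH_poly (J : ℕ) : ∑ n ∈ range (J + 1 + 1), C (kH J 1 n) * lg n = ph J := by
  have h := ph_eq J
  have hne : (C (2 * (J : ℝ) + 1)) ≠ (0 : ℝ[X]) := by
    rw [Ne, C_eq_zero]; positivity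
  apply mul_left_cancel₀ hne
  rw [h]
  rcases J with _ | J
  · simp [Finset.sum_range_succ, kH, be_zero, lam_zero]
  · rw [Finset.sum_eq_add (J) (J + 2) (by omega)]
    · have e1 : kH (J + 1) 1 J = be (J + 1) := by unfold kH; rw [if_pos rfl, if_pos rfl]
      have e2 : kH (J + 1) 1 (J + 2) = -be (J + 1) := by
        unfold kH; rw [if_pos rfl, if_neg (by omega), if_pos (by omega)]
      rw [e1, e2]
      have e3 : (C (2 * ((J + 1 : ℕ) : ℝ) + 1) : ℝ[X]) * C (be (J + 1)) = C (lam (J + 1)) := by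
        rw [← C_mul]; congr 1; unfold be
        rw [mul_div_cancel₀]; positivity
      rw [C_neg, Nat.add_sub_cancel]
      linear_combination (lg J - lg (J + 2)) * e3
    · intro n _ hn
      have : kH (J + 1) 1 n = 0 := by
        unfold kH; rw [if_pos rfl, if_neg (by omega), if_neg (by omega)]
      rw [this, C_0, zero_mul]
    · intro h; exact absurd (Finset.mem_range.2 (by omega)) h
    · intro h; exact absurd (Finset.mem_range.2 (by omega)) h

end

end Pool.Agent.H786
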