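import Mathlib
import Pool.Agent.H786.KerB
import Pool.Agent.H786.G.R_pool_sql_team_seeded_63374d34.N535.Eva

set_option autoImplicit false
set_option linter.all false
open Finset Polynomial

namespace Pool.Agent.H786

open Pool.Agent.N535 (bb one_lt_bb exists_z poly_le_geom)

noncomputable section

/-- Chebyshev expansion of Legendre polynomials -/
def Sc (n : ℕ) : ℝ[X] := ∑ a ∈ range (n + 1), C (pz a * pz ((n : ℤ) - a)) * Chebyshev.T ℝ ((n : ℤ) - 2 * a)

theorem XT (k : ℤ) : X * Chebyshev.T ℝ k = C (1 / 2) * (Chebyshev.T ℝ (k + 1) + Chebyshev.T ℝ (k - 1)) := by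
  have h := Chebyshev.T_add_one ℝ k
  rw [h]
  have : C (1 / 2 : ℝ) * 2 = 1 := by
    have e : (2 : ℝ[X]) = C 2 := rfl
    rw [e, ← C_mul]; norm_num
  linear_combination (-X * Chebyshev.T ℝ k) * this

theorem pz_id (A B : ℤ) : ((A : ℝ) + B) * (pz A * pz B) =
    (2 * ((A : ℝ) + B) - 1) / 2 * (pz A * pz (B - 1) + pz (A - 1) * pz B)
      - ((A : ℝ) + B - 1) * (pz (A - 1) * pz (B - 1)) := by
  have ra := pz_succ (A - 1)
  have rb := pz_succ (B - 1)
  simp only [sub_add_cancel] at ra rb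
  push_cast at ra rb
  by_cases hA : A = 0
  · have h0 : pz (A - 1) = 0 := pz_neg (by omega)
    have hr : (A : ℝ) = 0 := by exact_mod_cast hA
    rw [h0, hr]
    rw [h0] at ra
    linear_combination (pz A / 2) * rb
  · by_cases hB : B = 0
    · have h0 : pz (B - 1) = 0 := pz_neg (by omega)
      have hr : (B : ℝ) = 0 := by exact_mod_cast hB
      rw [h0, hr]
      linear_combination (pz B / 2) * ra
    · have hAr : (A : ℝ) ≠ 0 := by exact_mod_cast hA
      have hBr : (B : ℝ) ≠ 0 := by exact_mod_cast hB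
      have h4 : (4 * (A : ℝ) * B) ≠ 0 := by positivity
      apply mul_left_cancel₀ h4
      set x := pz (A - 1)
      set y := pz (B - 1)
      linear_combination (((A:ℝ) + B) * (2 * B * pz B) - (2 * ((A:ℝ) + B) - 1) * B * y) * ra +
        (((A:ℝ) + B) * (2 * A - 1) * x - (2 * ((A:ℝ) + B) - 1) * A * x) * rb

theorem Sc_rec (n : ℕ) : C ((n : ℝ) + 2) * Sc (n + 2) =
    C (2 * (n : ℝ) + 3) * (X * Sc (n + 1)) - C ((n : ℝ) + 1) * Sc n := by
  have e1 : Sc (n + 2) = ∑ a ∈ range (n + 3), C (pz a * pz ((n : ℤ) + 2 - a)) *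
      Chebyshev.T ℝ ((n : ℤ) + 2 - 2 * a) := by
    unfold Sc; push_cast; rfl
  have e2 : X * Sc (n + 1) = C (1 / 2) * ∑ a ∈ range (n + 3),
      C (pz a * pz ((n : ℤ) + 1 - a) + pz ((a : ℤ) - 1) * pz ((n : ℤ) + 2 - a)) *
        Chebyshev.T ℝ ((n : ℤ) + 2 - 2 * a) := by
    unfold Sc
    rw [Finset.mul_sum]
    have h1 : ∀ a ∈ range (n + 1 + 1), X * (C (pz a * pz (((n + 1 : ℕ) : ℤ) - a)) *
        Chebyshev.T ℝ (((n + 1 : ℕ) : ℤ) - 2 * a)) =
        C (1 / 2) * (C (pz a * pz ((n : ℤ) + 1 - a)) * Chebyshev.T ℝ ((n : ℤ) + 2 - 2 * a)) +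
        C (1 / 2) * (C (pz a * pz ((n : ℤ) + 1 - a)) * Chebyshev.T ℝ ((n : ℤ) - 2 * a)) := by
      intro a _
      have h := XT (((n + 1 : ℕ) : ℤ) - 2 * a)
      have e3 : ((n + 1 : ℕ) : ℤ) - 2 * a + 1 = (n : ℤ) + 2 - 2 * a := by push_cast; ring
      have e4 : ((n + 1 : ℕ) : ℤ) - 2 * a - 1 = (n : ℤ) - 2 * a := by push_cast; ring
      rw [e3, e4] at h
      rw [mul_left_comm, h]
      push_cast
      ring
    rw [Finset.sum_congr rfl h1, Finset.sum_add_distrib, ← Finset.mul_sum, ← Finset.mul_sum, ← mul_add]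
    congr 1
    have h2 : ∀ a ∈ range (n + 3), C (pz a * pz ((n : ℤ) + 1 - a) + pz ((a : ℤ) - 1) * pz ((n : ℤ) + 2 - a)) *
        Chebyshev.T ℝ ((n : ℤ) + 2 - 2 * a) =
        C (pz a * pz ((n : ℤ) + 1 - a)) * Chebyshev.T ℝ ((n : ℤ) + 2 - 2 * a) +
        C (pz ((a : ℤ) - 1) * pz ((n : ℤ) + 2 - a)) * Chebyshev.T ℝ ((n : ℤ) + 2 - 2 * a) := by
      intro a _
      rw [C_add, add_mul]
    rw [Finset.sum_congr rfl h2, Finset.sum_add_distrib]
    congr 1
    · rw [Finset.sum_range_succ _ (n + 2)]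
      have : pz ((n : ℤ) + 1 - ((n + 2 : ℕ) : ℤ)) = 0 := pz_neg (by push_cast; omega)
      rw [this]; simp
    · rw [Finset.sum_range_succ' _ (n + 2)]
      have : pz (((0 : ℕ) : ℤ) - 1) = 0 := pz_neg (by norm_num)
      rw [this]
      simp only [zero_mul, C_0, add_zero]
      refine Finset.sum_congr rfl fun a _ => ?_
      have e3 : (((a + 1 : ℕ) : ℤ) - 1) = a := by push_cast; ring
      have e4 : (n : ℤ) + 2 - ((a + 1 : ℕ) : ℤ) = (n : ℤ) + 1 - a := by push_cast; ring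
      have e5 : (n : ℤ) + 2 - 2 * ((a + 1 : ℕ) : ℤ) = (n : ℤ) - 2 * a := by push_cast; ring
      rw [e3, e4, e5]
  have e3 : Sc n = ∑ a ∈ range (n + 3), C (pz ((a : ℤ) - 1) * pz ((n : ℤ) + 1 - a)) *
        Chebyshev.T ℝ ((n : ℤ) + 2 - 2 * a) := by
    unfold Sc
    rw [Finset.sum_range_succ' _ (n + 2), Finset.sum_range_succ _ (n + 1)]
    have h0 : pz (((0 : ℕ) : ℤ) - 1) = 0 := pz_neg (by norm_num)
    have h1 : pz ((n : ℤ) + 1 - ((n + 1 + 1 : ℕ) : ℤ)) = 0 := pz_neg (by push_cast; omega)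
    rw [h0, h1]
    simp only [zero_mul, mul_zero, C_0, add_zero]
    refine Finset.sum_congr rfl fun a _ => ?_
    have e3 : (((a + 1 : ℕ) : ℤ) - 1) = a := by push_cast; ring
    have e4 : (n : ℤ) + 1 - ((a + 1 : ℕ) : ℤ) = (n : ℤ) - a := by push_cast; ring
    have e5 : (n : ℤ) + 2 - 2 * ((a + 1 : ℕ) : ℤ) = (n : ℤ) - 2 * a := by push_cast; ring
    rw [e3, e4, e5]
  rw [e1, e2, e3, ← mul_assoc, ← C_mul, Finset.mul_sum, Finset.mul_sum, Finset.mul_sum,
    ← Finset.sum_sub_distrib]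
  refine Finset.sum_congr rfl fun a _ => ?_
  rw [← mul_assoc, ← mul_assoc, ← mul_assoc, ← C_mul, ← C_mul, ← C_mul, ← sub_mul, ← C_sub]
  congr 2
  have h := pz_id (a : ℤ) ((n : ℤ) + 2 - a)
  have e4 : (n : ℤ) + 2 - a - 1 = (n : ℤ) + 1 - a := by ring
  rw [e4] at h
  push_cast at h
  have e5 : ((a:ℝ) + ((n:ℝ) + 2 - a)) = (n:ℝ) + 2 := by ring
  rw [e5] at h
  linear_combination h

theorem lg_eq_Sc (n : ℕ) : lg n = Sc n := by
  induction n using Nat.strong_induction_on with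
  | _ n ih =>
    rcases n with _ | _ | n
    · simp [Sc, lg_zero, pz_zero]
    · have h : pz 1 = 1 / 2 := by
        have := pz_succ 0
        rw [pz_zero] at this
        norm_num at this
        linarith
      unfold Sc
      rw [Finset.sum_range_succ, Finset.sum_range_one, lg_one]
      have e1 : (((0 + 1 : ℕ) : ℤ) - ((0 : ℕ) : ℤ)) = 1 := by norm_num
      have e2 : (((0 + 1 : ℕ) : ℤ) - ((0 + 1 : ℕ) : ℤ)) = 0 := by norm_num
      have e3 : (((0 + 1 : ℕ) : ℤ) - 2 * ((0 : ℕ) : ℤ)) = 1 := by norm_num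
      have e4 : (((0 + 1 : ℕ) : ℤ) - 2 * ((0 + 1 : ℕ) : ℤ)) = -1 := by norm_num
      have e5 : pz (((0 : ℕ) : ℤ)) = 1 := pz_zero
      have e6 : pz (((0 + 1 : ℕ) : ℤ)) = 1 / 2 := h
      rw [e1, e2, e3, e4, e5, e6, h, pz_zero, Chebyshev.T_one, Chebyshev.T_neg_one, one_mul, mul_one]
      have e : (C (1 / 2 : ℝ) : ℝ[X]) + C (1 / 2) = 1 := by
        rw [← C_add]; norm_num
      linear_combination (-X) * e
    · have hne : (C ((n : ℝ) + 2)) ≠ (0 : ℝ[X]) := by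
        rw [Ne, C_eq_zero]; positivity
      apply mul_left_cancel₀ hne
      rw [show n + 1 + 1 = n + 2 by ring, lg_rec2, Sc_rec, ih (n + 1) (by omega), ih n (by omega)]

/-- Chebyshev bound -/
theorem T_zw {x : ℝ} {z w : ℂ} (hzw : z * w = 1) (hs : z + w = 2 * x) (n : ℕ) :
    2 * (((Chebyshev.T ℝ (n : ℤ)).eval x : ℝ) : ℂ) = z ^ n + w ^ n ∧
    2 * (((Chebyshev.T ℝ ((n : ℤ) + 1)).eval x : ℝ) : ℂ) = z ^ (n + 1) + w ^ (n + 1) := by
  induction n with
  | zero =>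
    constructor
    · simp; norm_num
    · simp [hs]
  | succ n ih =>
    rw [Nat.cast_succ]
    refine ⟨ih.2, ?_⟩
    have h1 : (Chebyshev.T ℝ ((n : ℤ) + 1 + 1)).eval x = 2 * x * (Chebyshev.T ℝ ((n : ℤ) + 1)).eval x -
        (Chebyshev.T ℝ (n : ℤ)).eval x := by
      rw [show (n : ℤ) + 1 + 1 = n + 2 by ring, Chebyshev.T_add_two]
      simp only [eval_sub, eval_mul, eval_X, eval_ofNat]
    rw [h1]
    have h2 := ih.1
    have h3 := ih.2
    set A := (Chebyshev.T ℝ ((n : ℤ) + 1)).eval x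
    set B := (Chebyshev.T ℝ (n : ℤ)).eval x
    rw [Complex.ofReal_sub, Complex.ofReal_mul, Complex.ofReal_mul, Complex.ofReal_ofNat]
    linear_combination 2 * (x:ℂ) * h3 - h2 - (z ^ n * z + w ^ n * w) * hs + (z ^ n + w ^ n) * hzw

theorem T_bound {ρ : ℝ} (hρ : 1 ≤ ρ) {x : ℝ} (hx : |x| ≤ bb ρ) (n : ℕ) :
    |(Chebyshev.T ℝ (n : ℤ)).eval x| ≤ ρ ^ n := by
  obtain ⟨z, w, h1, h2, h3, h4⟩ := exists_z hρ hx
  have h5 := (T_zw h1 h2 n).1
  have h6 : ‖z ^ n + w ^ n‖ ≤ 2 * ρ ^ n := by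
    refine (norm_add_le _ _).trans ?_
    rw [norm_pow, norm_pow]
    have := pow_le_pow_left₀ (norm_nonneg z) h3 n
    have := pow_le_pow_left₀ (norm_nonneg w) h4 n
    linarith
  rw [← h5, norm_mul, Complex.norm_real, Real.norm_eq_abs] at h6
  simp only [Complex.norm_ofNat] at h6
  linarith

theorem T_boundZ {ρ : ℝ} (hρ : 1 ≤ ρ) {x : ℝ} (hx : |x| ≤ bb ρ) {n : ℕ} {k : ℤ} (hk : k.natAbs ≤ n) :
    |(Chebyshev.T ℝ k).eval x| ≤ ρ ^ n := by
  rw [← Chebyshev.T_natAbs]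
  exact (T_bound hρ hx _).trans (pow_le_pow_right₀ hρ hk)

theorem pz_sum (n : ℕ) : ∑ a ∈ range (n + 1), pz a * pz ((n : ℤ) - a) = 1 := by
  have h := lg_eval_one n
  rw [lg_eq_Sc] at h
  unfold Sc at h
  rw [eval_finset_sum] at h
  simpa using h

theorem lg_bound {ρ : ℝ} (hρ : 1 ≤ ρ) {x : ℝ} (hx : |x| ≤ bb ρ) (n : ℕ) :
    |(lg n).eval x| ≤ ρ ^ n := by
  rw [lg_eq_Sc]
  unfold Sc
  rw [eval_finset_sum]
  refine (Finset.abs_sum_le_sum_abs _ _).trans ?_
  calc ∑ a ∈ range (n + 1), |eval x (C (pz a * pz ((n : ℤ) - a)) * Chebyshev.T ℝ ((n : ℤ) - 2 * a))|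
      ≤ ∑ a ∈ range (n + 1), pz a * pz ((n : ℤ) - a) * ρ ^ n := by
        refine Finset.sum_le_sum fun a ha => ?_
        rw [Finset.mem_range] at ha
        rw [eval_mul, eval_C, abs_mul, abs_of_nonneg (mul_nonneg (pz_nonneg _) (pz_nonneg _))]
        refine mul_le_mul_of_nonneg_left (T_boundZ hρ hx ?_) (mul_nonneg (pz_nonneg _) (pz_nonneg _))
        omega
    _ = ρ ^ n := by rw [← Finset.sum_mul, pz_sum, one_mul]

theorem bb_one : bb 1 = 1 := by unfold N535.bb; norm_num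

theorem lg_bound_one {x : ℝ} (hx : |x| ≤ 1) (n : ℕ) : |(lg n).eval x| ≤ 1 := by
  have := lg_bound (ρ := 1) le_rfl (x := x) (by rw [bb_one]; exact hx) n
  simpa using this

/-- values of the derivatives of Legendre polynomials -/
def sv (k n : ℕ) (t : ℝ) : ℝ := (derivative^[k] (lg n)).eval t

theorem sv_deriv (k n : ℕ) (t : ℝ) : HasDerivAt (sv k n) (sv (k + 1) n t) t := by
  unfold sv
  rw [Function.iterate_succ_apply']
  exact Polynomial.hasDerivAt _ _

theorem sum_odd (m : ℕ) : ∑ n ∈ range m, (2 * (n:ℝ) + 1) = (m:ℝ) ^ 2 := by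
  induction m with
  | zero => simp
  | succ m ih => rw [Finset.sum_range_succ, ih]; push_cast; ring

theorem sv_bound {ρ : ℝ} (hρ : 1 ≤ ρ) {x : ℝ} (hx : |x| ≤ bb ρ) (k : ℕ) :
    ∀ n : ℕ, |sv k n x| ≤ (n:ℝ) ^ (2 * k) * ρ ^ n := by
  induction k with
  | zero => intro n; simpa [sv] using lg_bound hρ hx n
  | succ k ih =>
    intro n
    have e : derivative^[k + 1] (lg n) = ∑ m ∈ range (n + 1), C (kD n 0 m) * derivative^[k] (lg m) := by
      rw [Function.iterate_succ_apply, ← kD_poly]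
      rw [Polynomial.iterate_derivative_sum]
      exact Finset.sum_congr rfl fun m _ => Polynomial.iterate_derivative_C_mul _ _ _
    unfold sv
    rw [e, eval_finset_sum, Finset.sum_range_succ]
    have e0 : kD n 0 n = 0 := by unfold kD; rw [if_neg (by omega)]
    rw [e0, C_0, zero_mul, eval_zero, add_zero]
    refine (Finset.abs_sum_le_sum_abs _ _).trans ?_
    calc ∑ m ∈ range n, |eval x (C (kD n 0 m) * derivative^[k] (lg m))|
        ≤ ∑ m ∈ range n, (2 * (m:ℝ) + 1) * ((n:ℝ) ^ (2 * k) * ρ ^ n) := by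
          refine Finset.sum_le_sum fun m hm => ?_
          rw [Finset.mem_range] at hm
          rw [eval_mul, eval_C, abs_mul]
          refine mul_le_mul ?_ ?_ (abs_nonneg _) (by positivity)
          · unfold kD
            split_ifs
            · rw [abs_of_nonneg (by positivity)]
            · rw [abs_zero]; positivity
          · refine (ih m).trans ?_
            have : (m:ℝ) ≤ n := by exact_mod_cast hm.le
            have hρ0 : 0 ≤ ρ := by linarith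
            exact mul_le_mul (pow_le_pow_left₀ (Nat.cast_nonneg m) this _) (pow_le_pow_right₀ hρ hm.le)
              (by positivity) (by positivity)
      _ = (n:ℝ) ^ (2 * (k + 1)) * ρ ^ n := by
          rw [← Finset.sum_mul, sum_odd]; ring

/-- geometric bound -/
theorem sv_geom {ρ r : ℝ} (hρ : 1 ≤ ρ) (h : ρ < r) (k : ℕ) :
    ∃ C : ℝ, 0 ≤ C ∧ ∀ (n : ℕ) (t : ℝ), |t| ≤ bb ρ → |sv k n t| ≤ C * r ^ n := by
  obtain ⟨C, hC, hb⟩ := poly_le_geom (2 * k) (by linarith : 0 < ρ) h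
  refine ⟨C, by positivity, fun n t ht => ?_⟩
  have h0 : (0:ℝ) ≤ n := Nat.cast_nonneg n
  calc |sv k n t| ≤ (n:ℝ) ^ (2 * k) * ρ ^ n := sv_bound hρ ht k n
    _ ≤ ((n:ℝ) + 1) ^ (2 * k) * ρ ^ n := by gcongr; linarith
    _ ≤ _ := hb n

end

end Pool.Agent.H786
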