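import Mathlib
import Pool.Agent.H786.KerB

set_option autoImplicit false
set_option linter.all false
open Finset Filter Topology
open scoped ENNReal

namespace Pool.Agent.H786

open Pool.Agent.N535 (PK SS bil kw kw_ennreal)

noncomputable section

/-- norm of nonnegative sequences -/
def nu (q N : ℝ) (x : ℕ → ℝ≥0∞) : ℝ≥0∞ :=
  (∑' n, ENNReal.ofReal (q ^ n) * x n) + ENNReal.ofReal N * ⨆ n : ℕ, ENNReal.ofReal (2 * (n:ℝ) + 1) * x n

section
variable {q N : ℝ} {x y : ℕ → ℝ≥0∞}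

theorem nu_mono (h : ∀ n, x n ≤ y n) : nu q N x ≤ nu q N y := by
  unfold nu
  refine add_le_add (ENNReal.tsum_le_tsum fun n => mul_le_mul_right (h n) _) ?_
  exact mul_le_mul_right (iSup_mono fun n => mul_le_mul_right (h n) _) _

theorem nu_add (x y : ℕ → ℝ≥0∞) : nu q N (fun n => x n + y n) ≤ nu q N x + nu q N y := by
  unfold nu
  have h1 : ∑' n, ENNReal.ofReal (q ^ n) * (x n + y n) =
      (∑' n, ENNReal.ofReal (q ^ n) * x n) + ∑' n, ENNReal.ofReal (q ^ n) * y n := by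
    rw [← ENNReal.tsum_add]
    exact tsum_congr fun n => mul_add _ _ _
  have h2 : (⨆ n : ℕ, ENNReal.ofReal (2 * (n:ℝ) + 1) * (x n + y n)) ≤
      (⨆ n : ℕ, ENNReal.ofReal (2 * (n:ℝ) + 1) * x n) + ⨆ n : ℕ, ENNReal.ofReal (2 * (n:ℝ) + 1) * y n := by
    refine iSup_le fun n => ?_
    rw [mul_add]
    exact add_le_add (le_iSup (fun n : ℕ => ENNReal.ofReal (2 * (n:ℝ) + 1) * x n) n)
      (le_iSup (fun n : ℕ => ENNReal.ofReal (2 * (n:ℝ) + 1) * y n) n)
  rw [h1]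
  refine (add_le_add le_rfl (mul_le_mul_right h2 _)).trans (le_of_eq ?_)
  ring

theorem nu_smul (c : ℝ≥0∞) (x : ℕ → ℝ≥0∞) : nu q N (fun n => c * x n) = c * nu q N x := by
  unfold nu
  have h1 : ∑' n, ENNReal.ofReal (q ^ n) * (c * x n) = c * ∑' n, ENNReal.ofReal (q ^ n) * x n := by
    rw [← ENNReal.tsum_mul_left]
    exact tsum_congr fun n => by ring
  have h2 : (⨆ n : ℕ, ENNReal.ofReal (2 * (n:ℝ) + 1) * (c * x n)) =
      c * ⨆ n : ℕ, ENNReal.ofReal (2 * (n:ℝ) + 1) * x n := by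
    rw [ENNReal.mul_iSup]
    exact iSup_congr fun n => by ring
  rw [h1, h2]; ring

theorem nu_zero : nu q N (fun _ => 0) = 0 := by unfold nu; simp

theorem le_nu (hq : 1 ≤ q) (x : ℕ → ℝ≥0∞) (n : ℕ) : x n ≤ nu q N x := by
  unfold nu
  refine le_trans ?_ le_self_add
  refine le_trans ?_ (ENNReal.le_tsum n)
  have : (1:ℝ≥0∞) ≤ ENNReal.ofReal (q ^ n) := by
    rw [← ENNReal.ofReal_one]
    exact ENNReal.ofReal_le_ofReal (one_le_pow₀ hq)
  calc x n = 1 * x n := (one_mul _).symm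
    _ ≤ _ := mul_le_mul_left this _

theorem sum_le_nu (x : ℕ → ℝ≥0∞) : (∑' n, ENNReal.ofReal (q ^ n) * x n) ≤ nu q N x := by
  unfold nu; exact le_self_add

theorem sum1_le_nu (hq : 1 ≤ q) (x : ℕ → ℝ≥0∞) : (∑' n, x n) ≤ nu q N x := by
  refine le_trans (ENNReal.tsum_le_tsum fun n => ?_) (sum_le_nu (q := q) (N := N) x)
  have : (1:ℝ≥0∞) ≤ ENNReal.ofReal (q ^ n) := by
    rw [← ENNReal.ofReal_one]
    exact ENNReal.ofReal_le_ofReal (one_le_pow₀ hq)
  calc x n = 1 * x n := (one_mul _).symm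
    _ ≤ _ := mul_le_mul_left this _

theorem sup_le_nu (x : ℕ → ℝ≥0∞) :
    ENNReal.ofReal N * (⨆ n : ℕ, ENNReal.ofReal (2 * (n:ℝ) + 1) * x n) ≤ nu q N x := by
  unfold nu; exact le_add_self

theorem weak_le_nu (x : ℕ → ℝ≥0∞) (n : ℕ) :
    ENNReal.ofReal N * (ENNReal.ofReal (2 * (n:ℝ) + 1) * x n) ≤ nu q N x :=
  le_trans (mul_le_mul_right (le_iSup (fun n : ℕ => ENNReal.ofReal (2 * (n:ℝ) + 1) * x n) n) _)
    (sup_le_nu x)

theorem nu_lsc {f : ℕ → ℕ → ℝ≥0∞} {x : ℕ → ℝ≥0∞} (h : ∀ n, Tendsto (fun k => f k n) atTop (𝓝 (x n)))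
    {B : ℝ≥0∞} (hB : ∀ k, nu q N (f k) ≤ B) : nu q N x ≤ B := by
  have key : ∀ (s : Finset ℕ) (m : ℕ), (∑ n ∈ s, ENNReal.ofReal (q ^ n) * x n) +
      ENNReal.ofReal N * (ENNReal.ofReal (2 * (m:ℝ) + 1) * x m) ≤ B := by
    intro s m
    have ht : Tendsto (fun k => (∑ n ∈ s, ENNReal.ofReal (q ^ n) * f k n) +
        ENNReal.ofReal N * (ENNReal.ofReal (2 * (m:ℝ) + 1) * f k m)) atTop
        (𝓝 ((∑ n ∈ s, ENNReal.ofReal (q ^ n) * x n) +
          ENNReal.ofReal N * (ENNReal.ofReal (2 * (m:ℝ) + 1) * x m))) := by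
      refine Tendsto.add (tendsto_finset_sum _ fun n _ => ?_) ?_
      · exact ENNReal.Tendsto.const_mul (h n) (Or.inr ENNReal.ofReal_ne_top)
      · exact ENNReal.Tendsto.const_mul (ENNReal.Tendsto.const_mul (h m) (Or.inr ENNReal.ofReal_ne_top))
          (Or.inr ENNReal.ofReal_ne_top)
    refine le_of_tendsto' ht fun k => ?_
    refine le_trans (add_le_add (ENNReal.sum_le_tsum s) ?_) (hB k)
    exact mul_le_mul_right (le_iSup (fun n : ℕ => ENNReal.ofReal (2 * (n:ℝ) + 1) * f k n) m) _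
  unfold nu
  rw [ENNReal.tsum_eq_iSup_sum, ENNReal.mul_iSup]
  exact ENNReal.iSup_add_iSup_le key

/-- shift to the left -/
theorem nu_up (hq : 1 ≤ q) (x : ℕ → ℝ≥0∞) : nu q N (fun n => x (n + 1)) ≤ nu q N x := by
  unfold nu
  refine add_le_add ?_ (mul_le_mul_right (iSup_le fun n => ?_) _)
  · calc ∑' n, ENNReal.ofReal (q ^ n) * x (n + 1)
        ≤ ∑' n, (fun m => ENNReal.ofReal (q ^ m) * x m) (n + 1) := by
          refine ENNReal.tsum_le_tsum fun n => mul_le_mul_left (ENNReal.ofReal_le_ofReal ?_) _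
          exact pow_le_pow_right₀ hq (by omega)
      _ ≤ _ := ENNReal.tsum_comp_le_tsum_of_injective (add_left_injective 1) _
  · refine le_trans ?_ (le_iSup (fun n : ℕ => ENNReal.ofReal (2 * (n:ℝ) + 1) * x n) (n + 1))
    refine mul_le_mul_left (ENNReal.ofReal_le_ofReal ?_) _
    push_cast; linarith

theorem ofReal_three : ENNReal.ofReal 3 = 3 := by simp

/-- shift to the right -/
theorem nu_down (hq : 1 ≤ q) (hq2 : q ≤ 2) (x : ℕ → ℝ≥0∞) :
    nu q N (fun n => if n = 0 then 0 else x (n - 1)) ≤ 3 * nu q N x := by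
  unfold nu
  rw [mul_add]
  refine add_le_add ?_ ?_
  · rw [tsum_eq_zero_add' ENNReal.summable]
    simp only [if_true, mul_zero, zero_add, Nat.add_sub_cancel, Nat.succ_ne_zero, if_false,
      add_eq_zero, one_ne_zero, and_false]
    rw [← ENNReal.tsum_mul_left]
    refine ENNReal.tsum_le_tsum fun n => ?_
    rw [← mul_assoc, ← ofReal_three, ← ENNReal.ofReal_mul (by norm_num)]
    refine mul_le_mul_left (ENNReal.ofReal_le_ofReal ?_) _
    have h0 : 0 < q ^ n := by positivity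
    rw [pow_succ]; nlinarith
  · rw [mul_left_comm, ENNReal.mul_iSup (a := (3 : ℝ≥0∞))]
    refine mul_le_mul_right (iSup_le fun n => ?_) _
    show ENNReal.ofReal (2 * (n:ℝ) + 1) * (if n = 0 then 0 else x (n - 1)) ≤ _
    split_ifs with h
    · simp
    · refine le_trans ?_ (le_iSup (fun n : ℕ => 3 * (ENNReal.ofReal (2 * (n:ℝ) + 1) * x n)) (n - 1))
      rw [← mul_assoc (3 : ℝ≥0∞), ← ofReal_three, ← ENNReal.ofReal_mul (by norm_num)]
      refine mul_le_mul_left (ENNReal.ofReal_le_ofReal ?_) _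
      have : (1:ℝ) ≤ n := by exact_mod_cast Nat.one_le_iff_ne_zero.2 h
      rw [Nat.cast_sub (Nat.one_le_iff_ne_zero.2 h)]; push_cast; linarith

/-- convolution with the absolute value of a kernel -/
def kcv (k : ℕ → ℕ → ℕ → ℝ) (x y : ℕ → ℝ≥0∞) (n : ℕ) : ℝ≥0∞ :=
  ∑' J, ∑' K, ENNReal.ofReal |k J K n| * (x J * y K)

theorem kcv_mono (k : ℕ → ℕ → ℕ → ℝ) {x x' y y' : ℕ → ℝ≥0∞} (hx : ∀ n, x n ≤ x' n)
    (hy : ∀ n, y n ≤ y' n) (n : ℕ) : kcv k x y n ≤ kcv k x' y' n :=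
  ENNReal.tsum_le_tsum fun J => ENNReal.tsum_le_tsum fun K =>
    mul_le_mul_right (mul_le_mul' (hx J) (hy K)) _

theorem tsum2_mul' (a b : ℕ → ℝ≥0∞) : ∑' J, ∑' K, a J * b K = (∑' J, a J) * ∑' K, b K := by
  simp_rw [ENNReal.tsum_mul_left, ENNReal.tsum_mul_right]

theorem kcv_strong (hq : 1 ≤ q) {k : ℕ → ℕ → ℕ → ℝ} (hk : GK k) (x y : ℕ → ℝ≥0∞) :
    ∑' n, ENNReal.ofReal (q ^ n) * kcv k x y n ≤
      (∑' n, ENNReal.ofReal (q ^ n) * x n) * ∑' n, ENNReal.ofReal (q ^ n) * y n := by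
  have hq0 : 0 < q := by linarith
  calc ∑' n, ENNReal.ofReal (q ^ n) * kcv k x y n
      = ∑' n, ∑' J, ∑' K, ENNReal.ofReal (q ^ n) * ENNReal.ofReal |k J K n| * (x J * y K) := by
        refine tsum_congr fun n => ?_
        unfold kcv
        rw [← ENNReal.tsum_mul_left]
        refine tsum_congr fun J => ?_
        rw [← ENNReal.tsum_mul_left]
        exact tsum_congr fun K => by ring
    _ = ∑' J, ∑' K, ∑' n, ENNReal.ofReal (q ^ n) * ENNReal.ofReal |k J K n| * (x J * y K) := by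
        rw [ENNReal.tsum_comm]
        refine tsum_congr fun J => ?_
        rw [ENNReal.tsum_comm]
    _ = ∑' J, ∑' K, ENNReal.ofReal (kw (fun n => q ^ n) k J K) * (x J * y K) := by
        refine tsum_congr fun J => tsum_congr fun K => ?_
        rw [ENNReal.tsum_mul_right, kw_ennreal (fun n => by positivity) hk.top]
    _ ≤ ∑' J, ∑' K, (ENNReal.ofReal (q ^ J) * x J) * (ENNReal.ofReal (q ^ K) * y K) := by
        refine ENNReal.tsum_le_tsum fun J => ENNReal.tsum_le_tsum fun K => ?_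
        have h1 : kw (fun n => q ^ n) k J K ≤ q ^ J * q ^ K := by
          unfold kw
          calc ∑ n ∈ range (J + K + 1), q ^ n * |k J K n|
              ≤ ∑ n ∈ range (J + K + 1), (q ^ J * q ^ K) * |k J K n| := by
                refine Finset.sum_le_sum fun n hn => mul_le_mul_of_nonneg_right ?_ (abs_nonneg _)
                rw [← pow_add]
                exact pow_le_pow_right₀ hq (by rw [Finset.mem_range] at hn; omega)
            _ = (q ^ J * q ^ K) * ∑ n ∈ range (J + K + 1), |k J K n| := by rw [Finset.mul_sum]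
            _ ≤ (q ^ J * q ^ K) * 1 := mul_le_mul_of_nonneg_left (hk.sum J K) (by positivity)
            _ = _ := mul_one _
        calc ENNReal.ofReal (kw (fun n => q ^ n) k J K) * (x J * y K)
            ≤ ENNReal.ofReal (q ^ J * q ^ K) * (x J * y K) :=
              mul_le_mul_left (ENNReal.ofReal_le_ofReal h1) _
          _ = _ := by rw [ENNReal.ofReal_mul (by positivity)]; ring
    _ = _ := tsum2_mul' _ _

theorem tk_tsum_le (K n : ℕ) : ∑' J : ℕ, ENNReal.ofReal ((2 * (J:ℝ) + 1) * tk J K n) ≤ 1 := by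
  rw [ENNReal.tsum_eq_iSup_sum]
  refine iSup_le fun s => ?_
  rw [← ENNReal.ofReal_sum_of_nonneg (fun J _ => mul_nonneg (by positivity) (tk_nonneg _ _ _)),
    ← ENNReal.ofReal_one]
  exact ENNReal.ofReal_le_ofReal (tk_sum_le K n s)

theorem kcv_weak {k : ℕ → ℕ → ℕ → ℝ} (hk : GK k) (x y : ℕ → ℝ≥0∞) (n : ℕ) :
    ENNReal.ofReal (2 * (n:ℝ) + 1) * kcv k x y n ≤
      4 * ((⨆ m : ℕ, ENNReal.ofReal (2 * (m:ℝ) + 1) * x m) * (∑' m, y m)) +
      4 * ((∑' m, x m) * ⨆ m : ℕ, ENNReal.ofReal (2 * (m:ℝ) + 1) * y m) := by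
  set A := ⨆ m : ℕ, ENNReal.ofReal (2 * (m:ℝ) + 1) * x m with hA
  set B := ⨆ m : ℕ, ENNReal.ofReal (2 * (m:ℝ) + 1) * y m with hB
  have hAm : ∀ m : ℕ, ENNReal.ofReal (2 * (m:ℝ) + 1) * x m ≤ A := fun m =>
    le_iSup (fun m : ℕ => ENNReal.ofReal (2 * (m:ℝ) + 1) * x m) m
  have hBm : ∀ m : ℕ, ENNReal.ofReal (2 * (m:ℝ) + 1) * y m ≤ B := fun m =>
    le_iSup (fun m : ℕ => ENNReal.ofReal (2 * (m:ℝ) + 1) * y m) m
  have e4 : (4 : ℝ≥0∞) = ENNReal.ofReal 4 := by simp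
  have hterm : ∀ J K : ℕ, ENNReal.ofReal (2 * (n:ℝ) + 1) * (ENNReal.ofReal |k J K n| * (x J * y K)) ≤
      4 * (ENNReal.ofReal ((2 * (J:ℝ) + 1) * tk J K n) * (ENNReal.ofReal (2 * (J:ℝ) + 1) * x J) * y K) +
      4 * (ENNReal.ofReal ((2 * (K:ℝ) + 1) * tk J K n) * (ENNReal.ofReal (2 * (K:ℝ) + 1) * y K) * x J) := by
    intro J K
    have ht := tk_nonneg J K n
    calc ENNReal.ofReal (2 * (n:ℝ) + 1) * (ENNReal.ofReal |k J K n| * (x J * y K))
        = ENNReal.ofReal ((2 * (n:ℝ) + 1) * |k J K n|) * (x J * y K) := by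
          rw [ENNReal.ofReal_mul (by positivity)]; ring
      _ ≤ ENNReal.ofReal (4 * ((2 * (J:ℝ) + 1) ^ 2 + (2 * (K:ℝ) + 1) ^ 2) * tk J K n) * (x J * y K) :=
          mul_le_mul_left (ENNReal.ofReal_le_ofReal (hk.weak J K n)) _
      _ = _ := by
          rw [show 4 * ((2 * (J:ℝ) + 1) ^ 2 + (2 * (K:ℝ) + 1) ^ 2) * tk J K n =
            4 * (((2 * (J:ℝ) + 1) * tk J K n) * (2 * (J:ℝ) + 1)) +
            4 * (((2 * (K:ℝ) + 1) * tk J K n) * (2 * (K:ℝ) + 1)) by ring,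
            ENNReal.ofReal_add (by positivity) (by positivity),
            ENNReal.ofReal_mul (by norm_num : (0:ℝ) ≤ 4), ENNReal.ofReal_mul (by norm_num : (0:ℝ) ≤ 4),
            ENNReal.ofReal_mul (by positivity), ENNReal.ofReal_mul (p := (2 * (K:ℝ) + 1) * tk J K n) (by positivity),
            ← e4]
          ring
  calc ENNReal.ofReal (2 * (n:ℝ) + 1) * kcv k x y n
      = ∑' J, ∑' K, ENNReal.ofReal (2 * (n:ℝ) + 1) * (ENNReal.ofReal |k J K n| * (x J * y K)) := by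
        unfold kcv
        rw [← ENNReal.tsum_mul_left]
        exact tsum_congr fun J => ENNReal.tsum_mul_left.symm
    _ ≤ ∑' J : ℕ, ∑' K : ℕ, (4 * (ENNReal.ofReal ((2 * (J:ℝ) + 1) * tk J K n) * (ENNReal.ofReal (2 * (J:ℝ) + 1) * x J) * y K) +
      4 * (ENNReal.ofReal ((2 * (K:ℝ) + 1) * tk J K n) * (ENNReal.ofReal (2 * (K:ℝ) + 1) * y K) * x J)) :=
        ENNReal.tsum_le_tsum fun J => ENNReal.tsum_le_tsum fun K => hterm J K
    _ = 4 * (∑' J : ℕ, ∑' K : ℕ, ENNReal.ofReal ((2 * (J:ℝ) + 1) * tk J K n) * (ENNReal.ofReal (2 * (J:ℝ) + 1) * x J) * y K)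
        + 4 * ∑' J : ℕ, ∑' K : ℕ, ENNReal.ofReal ((2 * (K:ℝ) + 1) * tk J K n) * (ENNReal.ofReal (2 * (K:ℝ) + 1) * y K) * x J := by
        simp_rw [ENNReal.tsum_add, ENNReal.tsum_mul_left (a := (4 : ℝ≥0∞))]
    _ ≤ 4 * (A * ∑' m, y m) + 4 * ((∑' m, x m) * B) := by
        refine add_le_add (mul_le_mul_right ?_ _) (mul_le_mul_right ?_ _)
        · rw [ENNReal.tsum_comm, ← ENNReal.tsum_mul_left]
          refine ENNReal.tsum_le_tsum fun K => ?_
          calc ∑' J : ℕ, ENNReal.ofReal ((2 * (J:ℝ) + 1) * tk J K n) * (ENNReal.ofReal (2 * (J:ℝ) + 1) * x J) * y K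
              ≤ ∑' J : ℕ, ENNReal.ofReal ((2 * (J:ℝ) + 1) * tk J K n) * (A * y K) := by
                refine ENNReal.tsum_le_tsum fun J => ?_
                rw [mul_assoc]
                exact mul_le_mul_right (mul_le_mul_left (hAm J) _) _
            _ = (∑' J : ℕ, ENNReal.ofReal ((2 * (J:ℝ) + 1) * tk J K n)) * (A * y K) := ENNReal.tsum_mul_right
            _ ≤ 1 * (A * y K) := mul_le_mul_left (tk_tsum_le K n) _
            _ = _ := one_mul _
        · rw [← ENNReal.tsum_mul_right]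
          refine ENNReal.tsum_le_tsum fun J => ?_
          calc ∑' K : ℕ, ENNReal.ofReal ((2 * (K:ℝ) + 1) * tk J K n) * (ENNReal.ofReal (2 * (K:ℝ) + 1) * y K) * x J
              ≤ ∑' K : ℕ, ENNReal.ofReal ((2 * (K:ℝ) + 1) * tk K J n) * (B * x J) := by
                refine ENNReal.tsum_le_tsum fun K => ?_
                rw [mul_assoc, tk_comm J K n]
                exact mul_le_mul_right (mul_le_mul_left (hBm K) _) _
            _ = (∑' K : ℕ, ENNReal.ofReal ((2 * (K:ℝ) + 1) * tk K J n)) * (B * x J) := ENNReal.tsum_mul_right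
            _ ≤ 1 * (B * x J) := mul_le_mul_left (tk_tsum_le J n) _
            _ = _ := by ring

/-- the product estimate -/
theorem nu_kcv (hq : 1 ≤ q) {k : ℕ → ℕ → ℕ → ℝ} (hk : GK k) (x y : ℕ → ℝ≥0∞) :
    nu q N (kcv k x y) ≤ 9 * (nu q N x * nu q N y) := by
  have h1 := kcv_strong hq hk x y
  have hx := sum_le_nu (q := q) (N := N) x
  have hy := sum_le_nu (q := q) (N := N) y
  have h2 : ENNReal.ofReal N * (⨆ n : ℕ, ENNReal.ofReal (2 * (n:ℝ) + 1) * kcv k x y n) ≤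
      8 * (nu q N x * nu q N y) := by
    calc ENNReal.ofReal N * (⨆ n : ℕ, ENNReal.ofReal (2 * (n:ℝ) + 1) * kcv k x y n)
        ≤ ENNReal.ofReal N * (4 * ((⨆ m : ℕ, ENNReal.ofReal (2 * (m:ℝ) + 1) * x m) * (∑' m, y m)) +
          4 * ((∑' m, x m) * ⨆ m : ℕ, ENNReal.ofReal (2 * (m:ℝ) + 1) * y m)) :=
          mul_le_mul_right (iSup_le fun n => kcv_weak hk x y n) _
      _ = 4 * ((ENNReal.ofReal N * ⨆ m : ℕ, ENNReal.ofReal (2 * (m:ℝ) + 1) * x m) * (∑' m, y m)) +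
          4 * ((∑' m, x m) * (ENNReal.ofReal N * ⨆ m : ℕ, ENNReal.ofReal (2 * (m:ℝ) + 1) * y m)) := by ring
      _ ≤ 4 * (nu q N x * nu q N y) + 4 * (nu q N x * nu q N y) := by
          refine add_le_add (mul_le_mul_right (mul_le_mul' (sup_le_nu x) (sum1_le_nu hq y)) _)
            (mul_le_mul_right (mul_le_mul' (sum1_le_nu hq x) (sup_le_nu y)) _)
      _ = _ := by ring
  calc nu q N (kcv k x y) ≤ nu q N x * nu q N y + 8 * (nu q N x * nu q N y) :=
        add_le_add (h1.trans (mul_le_mul' hx hy)) h2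
    _ = _ := by ring

/-- the derivative -/
theorem D_tail (n : ℕ) (s : Finset ℕ) :
    ∑ J ∈ s, (if n < J then 1 / ((2 * (J:ℝ) + 1) * (lam J + 1)) else 0) ≤ 1 / (2 * (n:ℝ) + 1) ^ 2 := by
  have key : ∀ m : ℕ, ∑ J ∈ range m, (if n < J then 1 / ((2 * (J:ℝ) + 1) * (lam J + 1)) else 0) ≤
      1 / (2 * (n:ℝ) + 1) ^ 2 - 1 / (2 * ((max n (m - 1) : ℕ) : ℝ) + 1) ^ 2 := by
    intro m
    induction m with
    | zero => simp
    | succ m ih =>
      rw [Finset.sum_range_succ]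
      by_cases h : n < m
      · rw [if_pos h]
        have e1 : max n (m - 1) = m - 1 := by omega
        have e2 : max n (m + 1 - 1) = m := by omega
        rw [e1] at ih
        rw [e2]
        have hm : (1:ℝ) ≤ m := by exact_mod_cast (by omega : 1 ≤ m)
        have e3 : ((m - 1 : ℕ) : ℝ) = m - 1 := by rw [Nat.cast_sub (by omega)]; norm_num
        rw [e3] at ih
        have h1 : 1 / ((2 * (m:ℝ) + 1) * (lam m + 1)) ≤
            1 / (2 * ((m:ℝ) - 1) + 1) ^ 2 - 1 / (2 * (m:ℝ) + 1) ^ 2 := by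
          have hp : (0:ℝ) < 2 * ((m:ℝ) - 1) + 1 := by linarith
          have hl : 0 < lam m + 1 := by have := lam_nonneg m; linarith
          rw [div_sub_div _ _ (by positivity) (by positivity), div_le_div_iff₀ (by positivity) (by positivity)]
          unfold lam
          have : (0:ℝ) ≤ m := by linarith
          nlinarith [pow_pos (by linarith : (0:ℝ) < m) 2, pow_pos (by linarith : (0:ℝ) < m) 3,
            pow_pos (by linarith : (0:ℝ) < m) 4, pow_pos (by linarith : (0:ℝ) < m) 5]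
        linarith
      · rw [if_neg h, add_zero]
        refine ih.trans ?_
        have e1 : max n (m - 1) = n := by omega
        have e2 : max n (m + 1 - 1) = n := by omega
        rw [e1, e2]
  obtain ⟨m, hm⟩ : ∃ m, s ⊆ range m := ⟨s.sup id + 1, fun x hx => by
    rw [Finset.mem_range]
    have := Finset.le_sup (f := id) hx
    simp only [id] at this
    omega⟩
  have h0 : ∀ J : ℕ, (0:ℝ) ≤ (if n < J then 1 / ((2 * (J:ℝ) + 1) * (lam J + 1)) else 0) := by
    intro J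
    have := lam_nonneg J
    split_ifs <;> positivity
  calc _ ≤ ∑ J ∈ range m, (if n < J then 1 / ((2 * (J:ℝ) + 1) * (lam J + 1)) else 0) :=
        Finset.sum_le_sum_of_subset_of_nonneg hm fun _ _ _ => h0 _
    _ ≤ _ := key m
    _ ≤ _ := by
        have : (0:ℝ) ≤ 1 / (2 * ((max n (m - 1) : ℕ) : ℝ) + 1) ^ 2 := by positivity
        linarith

end

end

end Pool.Agent.H786
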