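import Mathlib
import Pool.Agent.H786.Nu
import Pool.Agent.H786.G.R_pool_sql_team_seeded_63374d34.N535.Duh2

set_option autoImplicit false
set_option linter.all false
open Finset Filter Topology MeasureTheory
open scoped ENNReal

namespace Pool.Agent.H786

open Pool.Agent.N535 (PK SS bil bil_map norm_term I1 I1_nonneg ofReal_I1 cont_evH I1_neg I1_smul I1_add_le)
open Pool.Agent.H858R2 (CI ev evH abs_ev_le norm_evH_le continuous_ev ev_one ev_zero ev_add ev_sub
  ev_neg ev_smul ev_mul)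

noncomputable section

/-- unit sequences -/
def dl {R : Type} [NormedCommRing R] (i n : ℕ) : R := if n = i then 1 else 0

theorem SS_dl {R : Type} [NormedCommRing R] (q : ℝ) (i : ℕ) : SS q (dl i : ℕ → R) := by
  intro r h1 h
  refine summable_of_ne_finset_zero (s := {i}) fun n hn => ?_
  have : n ≠ i := by simpa using hn
  simp [dl, this]

/-- sup norm in time -/
def nS (q N : ℝ) (F : ℕ → CI) : ℝ≥0∞ := nu q N fun n => ‖F n‖ₑ
/-- `L¹` norm in time -/
def nL (Θ q N : ℝ) (F : ℕ → CI) : ℝ≥0∞ := nu q N fun n => ENNReal.ofReal (Θ * I1 (F n))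
/-- `L¹` norm in time of `(λ+1) F` -/
def nI (Θ q N : ℝ) (F : ℕ → CI) : ℝ≥0∞ :=
  nu q N fun n => ENNReal.ofReal (lam n + 1) * ENNReal.ofReal (Θ * I1 (F n))

section
variable {Θ q N : ℝ} {F G : ℕ → CI}

theorem nS_add (F G : ℕ → CI) : nS q N (fun n => F n + G n) ≤ nS q N F + nS q N G :=
  (nu_mono fun n => enorm_add_le _ _).trans (nu_add _ _)

theorem eL_add (hΘ : 0 ≤ Θ) (f g : CI) : ENNReal.ofReal (Θ * I1 (f + g)) ≤
    ENNReal.ofReal (Θ * I1 f) + ENNReal.ofReal (Θ * I1 g) := by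
  rw [← ENNReal.ofReal_add (mul_nonneg hΘ (I1_nonneg _)) (mul_nonneg hΘ (I1_nonneg _)), ← mul_add]
  exact ENNReal.ofReal_le_ofReal (mul_le_mul_of_nonneg_left (I1_add_le f g) hΘ)

theorem nL_add (hΘ : 0 ≤ Θ) (F G : ℕ → CI) :
    nL Θ q N (fun n => F n + G n) ≤ nL Θ q N F + nL Θ q N G :=
  (nu_mono fun n => eL_add hΘ _ _).trans (nu_add _ _)

theorem nI_add (hΘ : 0 ≤ Θ) (F G : ℕ → CI) :
    nI Θ q N (fun n => F n + G n) ≤ nI Θ q N F + nI Θ q N G := by
  refine (nu_mono fun n => ?_).trans (nu_add _ _)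
  rw [← mul_add]
  exact mul_le_mul_right (eL_add hΘ _ _) _

theorem nS_smul (c : ℝ) (F : ℕ → CI) : nS q N (fun n => c • F n) = ‖c‖ₑ * nS q N F := by
  unfold nS
  rw [← nu_smul]
  congr 1
  funext n
  rw [enorm_smul]

theorem eL_smul (c : ℝ) (f : CI) : ENNReal.ofReal (Θ * I1 (c • f)) = ‖c‖ₑ * ENNReal.ofReal (Θ * I1 f) := by
  rw [I1_smul, Real.enorm_eq_ofReal_abs, ← ENNReal.ofReal_mul (abs_nonneg c)]
  congr 1; ring

theorem nL_smul (c : ℝ) (F : ℕ → CI) : nL Θ q N (fun n => c • F n) = ‖c‖ₑ * nL Θ q N F := by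
  unfold nL
  rw [← nu_smul]
  congr 1
  funext n
  exact eL_smul c _

theorem nI_smul (c : ℝ) (F : ℕ → CI) : nI Θ q N (fun n => c • F n) = ‖c‖ₑ * nI Θ q N F := by
  unfold nI
  rw [← nu_smul]
  congr 1
  funext n
  rw [eL_smul]; ring

theorem nL_le_nI (F : ℕ → CI) : nL Θ q N F ≤ nI Θ q N F := by
  refine nu_mono fun n => ?_
  have : (1:ℝ≥0∞) ≤ ENNReal.ofReal (lam n + 1) := by
    rw [← ENNReal.ofReal_one]
    exact ENNReal.ofReal_le_ofReal (by have := lam_nonneg n; linarith)
  calc ENNReal.ofReal (Θ * I1 (F n)) = 1 * ENNReal.ofReal (Θ * I1 (F n)) := (one_mul _).symm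
    _ ≤ _ := mul_le_mul_left this _

/-- `λ F` -/
def lmul {R : Type} [NormedCommRing R] [NormedAlgebra ℝ R] (F : ℕ → R) (n : ℕ) : R := lam n • F n

theorem nL_lmul (F : ℕ → CI) : nL Θ q N (lmul F) ≤ nI Θ q N F := by
  refine nu_mono fun n => ?_
  unfold lmul
  rw [eL_smul, Real.enorm_eq_ofReal_abs, abs_of_nonneg (lam_nonneg n)]
  exact mul_le_mul_left (ENNReal.ofReal_le_ofReal (by linarith)) _

theorem eS_bil {k : ℕ → ℕ → ℕ → ℝ} (F G : ℕ → CI) (n : ℕ) :
    ‖bil k F G n‖ₑ ≤ kcv k (fun n => ‖F n‖ₑ) (fun n => ‖G n‖ₑ) n := by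
  unfold N535.bil kcv
  refine enorm_tsum_le_tsum_enorm.trans ?_
  rw [ENNReal.tsum_prod']
  refine ENNReal.tsum_le_tsum fun J => ENNReal.tsum_le_tsum fun K => ?_
  rw [enorm_smul, Real.enorm_eq_ofReal_abs]
  refine mul_le_mul_right ?_ _
  show ‖F J * G K‖ₑ ≤ ‖F J‖ₑ * ‖G K‖ₑ
  rw [← ofReal_norm, ← ofReal_norm, ← ofReal_norm, ← ENNReal.ofReal_mul (norm_nonneg _)]
  exact ENNReal.ofReal_le_ofReal (norm_mul_le _ _)

theorem nS_bil (hq : 1 ≤ q) {k : ℕ → ℕ → ℕ → ℝ} (hk : GK k) (F G : ℕ → CI) :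
    nS q N (bil k F G) ≤ 9 * (nS q N F * nS q N G) :=
  (nu_mono fun n => eS_bil F G n).trans (nu_kcv hq hk _ _)

theorem ev_bil (hq : 1 < q) {k : ℕ → ℕ → ℕ → ℝ} (hk : PK k) (hF : SS q F) (hG : SS q G) (n : ℕ)
    (s : ℝ) : ev (bil k F G n) s = bil k (fun m => ev (F m) s) (fun m => ev (G m) s) n :=
  bil_map hq hk hF hG (evH s) (cont_evH s) n

/-- `L¹` norm of a coefficient -/
theorem eL_bil (hΘ : 0 ≤ Θ) (hq : 1 < q) {k : ℕ → ℕ → ℕ → ℝ} (hk : PK k) (hF : SS q F) (hG : SS q G)
    (n : ℕ) : ENNReal.ofReal (Θ * I1 (bil k F G n)) ≤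
      ∑' J, ∑' K, ENNReal.ofReal |k J K n| * ENNReal.ofReal (Θ * I1 (F J * G K)) := by
  have hm : ∀ J K, Measurable fun s => ENNReal.ofReal |k J K n| * ‖ev (F J * G K) s‖ₑ := fun J K =>
    ((continuous_ev _).measurable.enorm).const_mul _
  rw [ENNReal.ofReal_mul hΘ, ofReal_I1]
  calc ENNReal.ofReal Θ * ∫⁻ s in Set.Ioc (0:ℝ) 1, ‖ev (bil k F G n) s‖ₑ
      ≤ ENNReal.ofReal Θ * ∫⁻ s in Set.Ioc (0:ℝ) 1, ∑' J, ∑' K,
        ENNReal.ofReal |k J K n| * ‖ev (F J * G K) s‖ₑ := by
        refine mul_le_mul_right (lintegral_mono fun s => ?_) _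
        simp only
        rw [ev_bil hq hk hF hG]
        unfold N535.bil
        refine enorm_tsum_le_tsum_enorm.trans ?_
        rw [ENNReal.tsum_prod']
        refine ENNReal.tsum_le_tsum fun J => ENNReal.tsum_le_tsum fun K => ?_
        rw [enorm_smul, Real.enorm_eq_ofReal_abs, ev_mul]
    _ = _ := by
        rw [lintegral_tsum (fun J => (Measurable.ennreal_tsum fun K => hm J K).aemeasurable),
          ← ENNReal.tsum_mul_left]
        refine tsum_congr fun J => ?_
        rw [lintegral_tsum (fun K => (hm J K).aemeasurable), ← ENNReal.tsum_mul_left]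
        refine tsum_congr fun K => ?_
        rw [lintegral_const_mul _ ((continuous_ev _).measurable.enorm), ENNReal.ofReal_mul hΘ, ofReal_I1]
        ring

theorem eL_mul_left (hΘ : 0 ≤ Θ) (f g : CI) :
    ENNReal.ofReal (Θ * I1 (f * g)) ≤ ‖f‖ₑ * ENNReal.ofReal (Θ * I1 g) := by
  have h : I1 (f * g) ≤ ‖f‖ * I1 g := by
    unfold N535.I1
    rw [← intervalIntegral.integral_const_mul]
    apply intervalIntegral.integral_mono_on zero_le_one
    · exact (continuous_ev _).abs.intervalIntegrable _ _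
    · exact ((continuous_ev g).abs.const_mul _).intervalIntegrable _ _
    · intro s _
      rw [ev_mul, abs_mul]
      exact mul_le_mul_of_nonneg_right (abs_ev_le f s) (abs_nonneg _)
  rw [← ofReal_norm, ← ENNReal.ofReal_mul (norm_nonneg _)]
  refine ENNReal.ofReal_le_ofReal ?_
  calc Θ * I1 (f * g) ≤ Θ * (‖f‖ * I1 g) := mul_le_mul_of_nonneg_left h hΘ
    _ = _ := by ring

theorem eL_mul_right (hΘ : 0 ≤ Θ) (f g : CI) :
    ENNReal.ofReal (Θ * I1 (f * g)) ≤ ENNReal.ofReal (Θ * I1 f) * ‖g‖ₑ := by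
  rw [mul_comm f g, mul_comm (ENNReal.ofReal _)]
  exact eL_mul_left hΘ g f

theorem nL_bil (hΘ : 0 ≤ Θ) (hq : 1 < q) {k : ℕ → ℕ → ℕ → ℝ} (hk : GK k) (hF : SS q F) (hG : SS q G) :
    nL Θ q N (bil k F G) ≤ 9 * (nS q N F * nL Θ q N G) := by
  refine (nu_mono fun n => (eL_bil hΘ hq hk.pk hF hG n).trans ?_).trans (nu_kcv hq.le hk _ _)
  exact ENNReal.tsum_le_tsum fun J => ENNReal.tsum_le_tsum fun K =>
    mul_le_mul_right (eL_mul_left hΘ _ _) _

theorem nL_bil' (hΘ : 0 ≤ Θ) (hq : 1 < q) {k : ℕ → ℕ → ℕ → ℝ} (hk : GK k) (hF : SS q F) (hG : SS q G) :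
    nL Θ q N (bil k F G) ≤ 9 * (nL Θ q N F * nS q N G) := by
  refine (nu_mono fun n => (eL_bil hΘ hq hk.pk hF hG n).trans ?_).trans (nu_kcv hq.le hk _ _)
  exact ENNReal.tsum_le_tsum fun J => ENNReal.tsum_le_tsum fun K =>
    mul_le_mul_right (eL_mul_right hΘ _ _) _

/-- gradient kernel -/
theorem nL_kg (hΘ : 0 ≤ Θ) (hq : 1 < q) (hF : SS q F) (hG : SS q G) :
    nL Θ q N (bil kg F G) ≤ 9 * (nI Θ q N F * nS q N G) + 9 * (nS q N F * nI Θ q N G) := by
  have h1 : ∀ n, ENNReal.ofReal (Θ * I1 (bil kg F G n)) ≤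
      kcv kc (fun n => ENNReal.ofReal (lam n + 1) * ENNReal.ofReal (Θ * I1 (F n))) (fun n => ‖G n‖ₑ) n +
      kcv kc (fun n => ‖F n‖ₑ) (fun n => ENNReal.ofReal (lam n + 1) * ENNReal.ofReal (Θ * I1 (G n))) n := by
    intro n
    refine (eL_bil hΘ hq PK_kg hF hG n).trans ?_
    unfold kcv
    rw [← ENNReal.tsum_add]
    refine ENNReal.tsum_le_tsum fun J => ?_
    rw [← ENNReal.tsum_add]
    refine ENNReal.tsum_le_tsum fun K => ?_
    have hc := kc_nonneg J K n
    have hJ := lam_nonneg J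
    have hK := lam_nonneg K
    calc ENNReal.ofReal |kg J K n| * ENNReal.ofReal (Θ * I1 (F J * G K))
        ≤ ENNReal.ofReal ((lam J + 1) * kc J K n + (lam K + 1) * kc J K n) *
            ENNReal.ofReal (Θ * I1 (F J * G K)) := by
          refine mul_le_mul_left (ENNReal.ofReal_le_ofReal ((kg_abs J K n).trans ?_)) _
          nlinarith
      _ = ENNReal.ofReal ((lam J + 1) * kc J K n) * ENNReal.ofReal (Θ * I1 (F J * G K)) +
          ENNReal.ofReal ((lam K + 1) * kc J K n) * ENNReal.ofReal (Θ * I1 (F J * G K)) := by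
          rw [ENNReal.ofReal_add (by positivity) (by positivity), add_mul]
      _ ≤ ENNReal.ofReal ((lam J + 1) * kc J K n) * (ENNReal.ofReal (Θ * I1 (F J)) * ‖G K‖ₑ) +
          ENNReal.ofReal ((lam K + 1) * kc J K n) * (‖F J‖ₑ * ENNReal.ofReal (Θ * I1 (G K))) :=
          add_le_add (mul_le_mul_right (eL_mul_right hΘ _ _) _) (mul_le_mul_right (eL_mul_left hΘ _ _) _)
      _ = _ := by
          rw [ENNReal.ofReal_mul (p := lam J + 1) (by positivity),
            ENNReal.ofReal_mul (p := lam K + 1) (by positivity), abs_of_nonneg hc]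
          ring
  refine (nu_mono h1).trans ((nu_add _ _).trans (add_le_add ?_ ?_))
  · exact nu_kcv hq.le GK_kc _ _
  · exact nu_kcv hq.le GK_kc _ _

/-! ### the derivative -/

theorem nu_D (hq : 1 ≤ q) (x : ℕ → ℝ≥0∞) :
    nu q N (fun n => ∑' J, ENNReal.ofReal (kD J 0 n) * x J) ≤
      nu q N (fun n => ENNReal.ofReal (lam n + 1) * x n) := by
  unfold nu
  refine add_le_add ?_ (mul_le_mul_right (iSup_le fun n => ?_) _)
  · calc ∑' n, ENNReal.ofReal (q ^ n) * ∑' J, ENNReal.ofReal (kD J 0 n) * x J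
        = ∑' J, ∑' n, ENNReal.ofReal (q ^ n) * ENNReal.ofReal (kD J 0 n) * x J := by
          rw [ENNReal.tsum_comm]
          refine tsum_congr fun n => ?_
          rw [← ENNReal.tsum_mul_left]
          exact tsum_congr fun J => by ring
      _ ≤ _ := by
          refine ENNReal.tsum_le_tsum fun J => ?_
          rw [ENNReal.tsum_mul_right, ← mul_assoc]
          refine mul_le_mul_left ?_ _
          rw [tsum_eq_sum (s := range J) (fun n hn => by
            rw [Finset.mem_range] at hn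
            have : kD J 0 n = 0 := by unfold kD; rw [if_neg (by omega)]
            rw [this]; simp)]
          have h0 : ∀ n, 0 ≤ kD J 0 n := fun n => by unfold kD; split_ifs <;> positivity
          have hq0 : 0 ≤ q := by linarith
          rw [← ENNReal.ofReal_mul (by positivity)]
          simp_rw [← ENNReal.ofReal_mul (pow_nonneg hq0 _)]
          rw [← ENNReal.ofReal_sum_of_nonneg (fun n _ => mul_nonneg (by positivity) (h0 n))]
          refine ENNReal.ofReal_le_ofReal ?_
          have h1 : ∀ m : ℕ, ∑ n ∈ range m, (2 * (n:ℝ) + 1) = (m:ℝ) ^ 2 := by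
            intro m
            induction m with
            | zero => simp
            | succ m ih => rw [Finset.sum_range_succ, ih]; push_cast; ring
          calc ∑ n ∈ range J, q ^ n * kD J 0 n ≤ ∑ n ∈ range J, q ^ J * (2 * (n:ℝ) + 1) := by
                refine Finset.sum_le_sum fun n hn => ?_
                rw [Finset.mem_range] at hn
                refine mul_le_mul (pow_le_pow_right₀ hq hn.le) ?_ (h0 n) (by positivity)
                unfold kD
                split_ifs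
                · exact le_rfl
                · positivity
            _ = q ^ J * (J:ℝ) ^ 2 := by rw [← Finset.mul_sum, h1]
            _ ≤ _ := by
                refine mul_le_mul_of_nonneg_left ?_ (by positivity)
                have : (0:ℝ) ≤ J := Nat.cast_nonneg J
                unfold lam; nlinarith
  · set A := ⨆ m : ℕ, ENNReal.ofReal (2 * (m:ℝ) + 1) * (ENNReal.ofReal (lam m + 1) * x m) with hA
    have hAm : ∀ m : ℕ, ENNReal.ofReal (2 * (m:ℝ) + 1) * (ENNReal.ofReal (lam m + 1) * x m) ≤ A := fun m =>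
      le_iSup (fun m : ℕ => ENNReal.ofReal (2 * (m:ℝ) + 1) * (ENNReal.ofReal (lam m + 1) * x m)) m
    calc ENNReal.ofReal (2 * (n:ℝ) + 1) * ∑' J, ENNReal.ofReal (kD J 0 n) * x J
        ≤ ∑' J : ℕ, ENNReal.ofReal ((2 * (n:ℝ) + 1) ^ 2) *
            (ENNReal.ofReal (if n < J then 1 / ((2 * (J:ℝ) + 1) * (lam J + 1)) else 0) * A) := by
          rw [← ENNReal.tsum_mul_left]
          refine ENNReal.tsum_le_tsum fun J => ?_
          by_cases h : n < J
          · rw [if_pos h]
            have hl := lam_nonneg J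
            have h2 : kD J 0 n ≤ 2 * (n:ℝ) + 1 := by
              unfold kD
              split_ifs
              · exact le_rfl
              · positivity
            calc ENNReal.ofReal (2 * (n:ℝ) + 1) * (ENNReal.ofReal (kD J 0 n) * x J)
                ≤ ENNReal.ofReal (2 * (n:ℝ) + 1) * (ENNReal.ofReal (2 * (n:ℝ) + 1) * x J) := by
                  gcongr
              _ = ENNReal.ofReal ((2 * (n:ℝ) + 1) ^ 2) *
                  (ENNReal.ofReal (1 / ((2 * (J:ℝ) + 1) * (lam J + 1))) *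
                  (ENNReal.ofReal (2 * (J:ℝ) + 1) * (ENNReal.ofReal (lam J + 1) * x J))) := by
                  rw [← mul_assoc, ← mul_assoc (ENNReal.ofReal (2 * (J:ℝ) + 1)),
                    ← ENNReal.ofReal_mul (by positivity), ← ENNReal.ofReal_mul (by positivity),
                    ← mul_assoc (ENNReal.ofReal (1 / _)), ← ENNReal.ofReal_mul (by positivity),
                    one_div_mul_cancel (by positivity), ENNReal.ofReal_one, one_mul]
                  congr 2; ring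
              _ ≤ _ := by gcongr; exact hAm J
          · have : kD J 0 n = 0 := by unfold kD; rw [if_neg (by omega)]
            rw [this]; simp
      _ = ENNReal.ofReal ((2 * (n:ℝ) + 1) ^ 2) *
          ((∑' J : ℕ, ENNReal.ofReal (if n < J then 1 / ((2 * (J:ℝ) + 1) * (lam J + 1)) else 0)) * A) := by
          rw [ENNReal.tsum_mul_left, ENNReal.tsum_mul_right]
      _ ≤ ENNReal.ofReal ((2 * (n:ℝ) + 1) ^ 2) * (ENNReal.ofReal (1 / (2 * (n:ℝ) + 1) ^ 2) * A) := by
          refine mul_le_mul_right (mul_le_mul_left ?_ _) _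
          rw [ENNReal.tsum_eq_iSup_sum]
          refine iSup_le fun s => ?_
          rw [← ENNReal.ofReal_sum_of_nonneg (fun J _ => by
            have := lam_nonneg J
            split_ifs <;> positivity)]
          exact ENNReal.ofReal_le_ofReal (D_tail n s)
      _ = A := by
          rw [← mul_assoc, ← ENNReal.ofReal_mul (by positivity), mul_one_div_cancel (by positivity),
            ENNReal.ofReal_one, one_mul]

/-- coefficients of the derivative -/
def Dm {R : Type} [NormedCommRing R] [NormedAlgebra ℝ R] (F : ℕ → R) : ℕ → R := bil kD F (dl 0)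
/-- from `φ` coefficients to `P` coefficients -/
def Hm {R : Type} [NormedCommRing R] [NormedAlgebra ℝ R] (F : ℕ → R) : ℕ → R := bil kH F (dl 1)

theorem nL_Dm (hΘ : 0 ≤ Θ) (hq : 1 < q) (hF : SS q F) : nL Θ q N (Dm F) ≤ nI Θ q N F := by
  refine (nu_mono fun n => ?_).trans (nu_D hq.le _)
  refine (eL_bil hΘ hq PK_kD hF (SS_dl q 0) n).trans ?_
  refine ENNReal.tsum_le_tsum fun J => ?_
  rw [tsum_eq_single 0]
  · have h0 : 0 ≤ kD J 0 n := by unfold kD; split_ifs <;> positivity
    rw [abs_of_nonneg h0]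
    simp [dl]
  · intro K hK
    have : kD J K n = 0 := by unfold kD; rw [if_neg (by tauto)]
    rw [this]; simp

theorem Hm_apply {R : Type} [NormedCommRing R] [NormedAlgebra ℝ R] (F : ℕ → R) (n : ℕ) :
    Hm F n = be (n + 1) • F (n + 1) - be (n - 1) • F (n - 1) := by
  unfold Hm N535.bil
  have hne : ((n + 1, 1) : ℕ × ℕ) ≠ (n - 1, 1) := by
    intro h
    have := congrArg Prod.fst h
    simp only at this
    omega
  rw [tsum_eq_sum (s := {(n + 1, 1), (n - 1, 1)}), Finset.sum_pair hne]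
  · have e1 : kH (n + 1) 1 n = be (n + 1) := by unfold kH; rw [if_pos rfl, if_pos rfl]
    simp only [e1, dl, if_true, mul_one]
    rw [sub_eq_add_neg, ← neg_smul]
    congr 2
    rcases Nat.eq_zero_or_pos n with h | h
    · subst h; simp [kH, be_zero]
    · unfold kH; rw [if_pos rfl, if_neg (by omega), if_pos (by omega)]
  · rintro ⟨J, K⟩ hp
    simp only [Finset.mem_insert, Finset.mem_singleton, Prod.mk.injEq, not_or, not_and] at hp
    have : kH J K n = 0 := by
      unfold kH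
      split_ifs with h1 h2 h3
      · exfalso; omega
      · exfalso; omega
      · rfl
      · rfl
    simp [this]

end

end

end Pool.Agent.H786
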