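import Mathlib
import Pool.Agent.H786.LegB
import Pool.Agent.H786.Tm

set_option autoImplicit false
set_option linter.all false
open Finset Set Filter Topology Polynomial
open scoped ENNReal ContDiff

namespace Pool.Agent.H786

open Pool.Agent.N535 (PK SS bil bb one_lt_bb geom_summ functional_bil prod_tsum prod_summ E1 toE toE_apply
  cL cL_apply norm_cL_le SMC)

noncomputable section

/-- the function with coefficients `x`, and its derivatives -/
def evk (k : ℕ) (x : ℕ → ℝ) (t : ℝ) : ℝ := ∑' n, x n * sv k n t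

section
variable {q ρ : ℝ} {x y z : ℕ → ℝ}

theorem evk_summ (hρ : 1 ≤ ρ) (hq : ρ < q) (hx : SS q x) (k : ℕ) {t : ℝ} (ht : |t| ≤ bb ρ) :
    Summable fun n => ‖x n * sv k n t‖ := by
  obtain ⟨r, hr1, hr2⟩ := exists_between hq
  obtain ⟨C, hC, hb⟩ := sv_geom hρ hr1 k
  refine Summable.of_nonneg_of_le (fun n => norm_nonneg _) (fun n => ?_) ((hx r (by linarith) hr2).mul_left C)
  rw [norm_mul, Real.norm_eq_abs (sv k n t)]
  calc ‖x n‖ * |sv k n t| ≤ ‖x n‖ * (C * r ^ n) := by gcongr; exact hb n t ht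
    _ = _ := by ring

theorem evk_deriv (hρ : 1 < ρ) (hq : ρ < q) (hx : SS q x) (k : ℕ) {t : ℝ} (ht : |t| < bb ρ) :
    HasDerivAt (evk k x) (evk (k + 1) x t) t := by
  obtain ⟨r, hr1, hr2⟩ := exists_between hq
  obtain ⟨C, hC, hb⟩ := sv_geom hρ.le hr1 (k + 1)
  have hmem : t ∈ Ioo (-bb ρ) (bb ρ) := abs_lt.1 ht
  have hu : Summable fun n => C * (r ^ n * ‖x n‖) := (hx r (by linarith) hr2).mul_left C
  unfold evk
  refine hasDerivAt_tsum_of_isPreconnected hu isOpen_Ioo isPreconnected_Ioo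
    (fun n y _ => (sv_deriv k n y).const_mul (x n)) (fun n y hy => ?_) hmem
    (evk_summ hρ.le hq hx k ht.le).of_norm hmem
  rw [norm_mul, Real.norm_eq_abs (sv _ _ _)]
  calc ‖x n‖ * |sv (k + 1) n y| ≤ ‖x n‖ * (C * r ^ n) := by
        gcongr; exact hb n y (abs_lt.2 hy).le
    _ = _ := by ring

theorem evk_add (hρ : 1 ≤ ρ) (hq : ρ < q) (hx : SS q x) (hy : SS q y) (k : ℕ) {t : ℝ}
    (ht : |t| ≤ bb ρ) : evk k (fun n => x n + y n) t = evk k x t + evk k y t := by
  unfold evk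
  rw [← (evk_summ hρ hq hx k ht).of_norm.tsum_add (evk_summ hρ hq hy k ht).of_norm]
  exact tsum_congr fun n => by ring

theorem evk_sub (hρ : 1 ≤ ρ) (hq : ρ < q) (hx : SS q x) (hy : SS q y) (k : ℕ) {t : ℝ}
    (ht : |t| ≤ bb ρ) : evk k (fun n => x n - y n) t = evk k x t - evk k y t := by
  unfold evk
  rw [← (evk_summ hρ hq hx k ht).of_norm.tsum_sub (evk_summ hρ hq hy k ht).of_norm]
  exact tsum_congr fun n => by ring

theorem evk_smul (c : ℝ) (k : ℕ) (t : ℝ) : evk k (fun n => c • x n) t = c * evk k x t := by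
  unfold evk
  rw [← tsum_mul_left]
  exact tsum_congr fun n => by
    show c * x n * sv k n t = _
    ring

theorem evk_neg (k : ℕ) (t : ℝ) : evk k (fun n => -x n) t = -evk k x t := by
  unfold evk
  rw [← tsum_neg]
  exact tsum_congr fun n => by ring

theorem evk_zero_fun (k : ℕ) (t : ℝ) : evk k (fun _ => 0) t = 0 := by
  unfold evk; simp

/-- value at `t` as a linear functional on polynomials -/
def Lv (t : ℝ) : ℝ[X] →ₗ[ℝ] ℝ := Polynomial.leval t
/-- value of the derivative -/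
def Ld (t : ℝ) : ℝ[X] →ₗ[ℝ] ℝ := (Polynomial.leval t).comp Polynomial.derivative

theorem Lv_apply (t : ℝ) (p : ℝ[X]) : Lv t p = p.eval t := rfl
theorem Ld_apply (t : ℝ) (p : ℝ[X]) : Ld t p = (derivative p).eval t := rfl
theorem sv_zero_eq (n : ℕ) (t : ℝ) : sv 0 n t = Lv t (lg n) := rfl
theorem sv_one_eq (n : ℕ) (t : ℝ) : sv 1 n t = Ld t (lg n) := rfl

theorem poly_eval_sum (k : ℕ → ℕ → ℕ → ℝ) (J K : ℕ) (L : ℝ[X] →ₗ[ℝ] ℝ) :
    ∑ n ∈ range (J + K + 1), k J K n * L (lg n) = L (∑ n ∈ range (J + K + 1), C (k J K n) * lg n) := by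
  rw [map_sum]
  refine Finset.sum_congr rfl fun n _ => ?_
  rw [← smul_eq_C_mul, map_smul, smul_eq_mul]

/-- multiplicativity -/
theorem ev_kc (hρ : 1 ≤ ρ) (hq : ρ < q) (hx : SS q x) (hy : SS q y) {t : ℝ} (ht : |t| ≤ bb ρ) :
    evk 0 (bil kc x y) t = evk 0 x t * evk 0 y t := by
  obtain ⟨r, hr1, hr2⟩ := exists_between hq
  obtain ⟨C, hC, hb⟩ := sv_geom hρ hr1 0
  unfold evk
  rw [functional_bil (hρ.trans_lt hq) PK_kc hx hy hC (by linarith) hr2 (fun n => hb n t ht),
    ← prod_tsum (evk_summ hρ hq hx 0 ht) (evk_summ hρ hq hy 0 ht)]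
  refine tsum_congr fun p => ?_
  simp only [sv_zero_eq]
  rw [poly_eval_sum, kc_poly, Lv_apply, Lv_apply, Lv_apply, eval_mul]

/-- gradient products -/
theorem ev_kg (hρ : 1 ≤ ρ) (hq : ρ < q) (hx : SS q x) (hy : SS q y) {t : ℝ} (ht : |t| ≤ bb ρ) :
    evk 0 (bil kg x y) t = (1 - t ^ 2) * (evk 1 x t * evk 1 y t) := by
  obtain ⟨r, hr1, hr2⟩ := exists_between hq
  obtain ⟨C, hC, hb⟩ := sv_geom hρ hr1 0
  unfold evk
  rw [functional_bil (hρ.trans_lt hq) PK_kg hx hy hC (by linarith) hr2 (fun n => hb n t ht),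
    ← prod_tsum (evk_summ hρ hq hx 1 ht) (evk_summ hρ hq hy 1 ht), ← tsum_mul_left]
  refine tsum_congr fun p => ?_
  simp only [sv_zero_eq, sv_one_eq]
  rw [poly_eval_sum, kg_poly, Lv_apply, Ld_apply, Ld_apply]
  simp only [eval_mul, eval_sub, eval_X, eval_one, eval_pow]
  ring

theorem kb_poly' (J K : ℕ) : ∑ n ∈ range (J + K + 1), C (kb J K n) * derivative (lg n) =
    lg J * derivative (lg K) := by
  have h := kb_poly J K
  have hne : (1 - X ^ 2 : ℝ[X]) ≠ 0 := by
    intro h0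
    have := congrArg (Polynomial.eval 0) h0
    simp at this
  apply mul_left_cancel₀ hne
  rw [Finset.mul_sum]
  have e : ∑ n ∈ range (J + K + 1), (1 - X ^ 2 : ℝ[X]) * (C (kb J K n) * derivative (lg n)) =
      ∑ n ∈ range (J + K + 1), C (kb J K n) * ph n := by
    refine Finset.sum_congr rfl fun n _ => ?_
    unfold ph; ring
  rw [e, h]
  unfold ph; ring

theorem ev_kb (hρ : 1 ≤ ρ) (hq : ρ < q) (hx : SS q x) (hy : SS q y) {t : ℝ} (ht : |t| ≤ bb ρ) :
    evk 1 (bil kb x y) t = evk 0 x t * evk 1 y t := by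
  obtain ⟨r, hr1, hr2⟩ := exists_between hq
  obtain ⟨C, hC, hb⟩ := sv_geom hρ hr1 1
  unfold evk
  rw [functional_bil (hρ.trans_lt hq) PK_kb hx hy hC (by linarith) hr2 (fun n => hb n t ht),
    ← prod_tsum (evk_summ hρ hq hx 0 ht) (evk_summ hρ hq hy 1 ht)]
  refine tsum_congr fun p => ?_
  simp only [sv_zero_eq, sv_one_eq]
  rw [poly_eval_sum, Ld_apply, derivative_sum]
  have e : ∑ n ∈ range (p.1 + p.2 + 1), derivative (Polynomial.C (kb p.1 p.2 n) * lg n) =
      ∑ n ∈ range (p.1 + p.2 + 1), Polynomial.C (kb p.1 p.2 n) * derivative (lg n) :=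
    Finset.sum_congr rfl fun n _ => derivative_C_mul _ _
  rw [e, kb_poly', Lv_apply, Ld_apply, eval_mul]

/-- the operator `L = d/dt (1-t²) d/dt` as a functional -/
def Lp (t : ℝ) : ℝ[X] →ₗ[ℝ] ℝ :=
  (1 - t ^ 2) • (Polynomial.leval t).comp (Polynomial.derivative.comp Polynomial.derivative)
    - (2 * t) • (Polynomial.leval t).comp Polynomial.derivative

theorem Lp_apply (t : ℝ) (p : ℝ[X]) :
    Lp t p = (1 - t ^ 2) * (derivative (derivative p)).eval t - 2 * t * (derivative p).eval t := by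
  simp [Lp, Polynomial.leval]

theorem Lp_lg (t : ℝ) (n : ℕ) : Lp t (lg n) = -(lam n * sv 0 n t) := by
  have h := congrArg (Polynomial.eval t) (Lop_lg n)
  rw [Lp_apply, sv_zero_eq, Lv_apply]
  unfold Lop at h
  rw [derivative_mul] at h
  simp only [eval_mul, eval_sub, eval_neg, eval_pow, eval_X, eval_one, eval_C, eval_add,
    derivative_sub, derivative_one, derivative_X_pow, eval_natCast, zero_sub] at h
  have e : ((2 - 1 : ℕ)) = 1 := rfl
  simp only [e, pow_one] at h
  push_cast at h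
  linear_combination h

theorem evk_lmul (hρ : 1 ≤ ρ) (hq : ρ < q) (hx : SS q x) {t : ℝ} (ht : |t| ≤ bb ρ) :
    evk 0 (lmul x) t = -((1 - t ^ 2) * evk 2 x t - 2 * t * evk 1 x t) := by
  have s2 := evk_summ hρ hq hx 2 ht
  have s1 := evk_summ hρ hq hx 1 ht
  unfold evk lmul
  rw [← tsum_mul_left, ← tsum_mul_left, ← (s2.of_norm.mul_left _).tsum_sub (s1.of_norm.mul_left _),
    ← tsum_neg]
  refine tsum_congr fun n => ?_
  have h := Lp_lg t n
  rw [Lp_apply] at h
  have e1 : sv 2 n t = (derivative (derivative (lg n))).eval t := rfl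
  have e2 : sv 1 n t = (derivative (lg n)).eval t := rfl
  rw [e1, e2, smul_eq_mul]
  linear_combination (x n) * h

theorem tsum_sv_dl (k i : ℕ) (t : ℝ) : evk k (dl i) t = sv k i t := by
  unfold evk
  rw [tsum_eq_single i]
  · simp [dl]
  · intro n hn; simp [dl, hn]

/-- derivative -/
theorem ev_Dm (hρ : 1 ≤ ρ) (hq : ρ < q) (hx : SS q x) {t : ℝ} (ht : |t| ≤ bb ρ) :
    evk 0 (Dm x) t = evk 1 x t := by
  obtain ⟨r, hr1, hr2⟩ := exists_between hq
  obtain ⟨C, hC, hb⟩ := sv_geom hρ hr1 0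
  unfold Dm
  have h0 : ∀ n, |sv 0 n t| ≤ C * r ^ n := fun n => hb n t ht
  have h1 := functional_bil (hρ.trans_lt hq) PK_kD hx (SS_dl q 0) hC (by linarith) hr2 h0
  unfold evk
  rw [h1]
  have hone : ∑' n, (dl 0 : ℕ → ℝ) n * (1:ℝ) = 1 := by
    rw [tsum_eq_single 0]
    · simp [dl]
    · intro n hn; simp [dl, hn]
  have hs : Summable fun n => ‖(dl 0 : ℕ → ℝ) n * (1:ℝ)‖ := by
    refine summable_of_ne_finset_zero (s := {0}) fun n hn => ?_
    have : n ≠ 0 := by simpa using hn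
    simp [dl, this]
  calc _ = ∑' p : ℕ × ℕ, (x p.1 * (dl 0 : ℕ → ℝ) p.2) * (sv 1 p.1 t * (1:ℝ)) := by
        refine tsum_congr fun p => ?_
        by_cases h2 : p.2 = 0
        · congr 1
          simp only [sv_zero_eq, sv_one_eq]
          rw [poly_eval_sum, h2, add_zero, kD_poly, Lv_apply, Ld_apply, mul_one]
        · simp [dl, h2]
    _ = _ := by
        rw [prod_tsum (evk_summ hρ hq hx 1 ht) hs, hone, mul_one]

/-- from `φ` to `P` -/
theorem ev_Hm (hρ : 1 ≤ ρ) (hq : ρ < q) (hx : SS q x) {t : ℝ} (ht : |t| ≤ bb ρ) :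
    evk 0 (Hm x) t = (1 - t ^ 2) * evk 1 x t := by
  obtain ⟨r, hr1, hr2⟩ := exists_between hq
  obtain ⟨C, hC, hb⟩ := sv_geom hρ hr1 0
  unfold Hm
  have h0 : ∀ n, |sv 0 n t| ≤ C * r ^ n := fun n => hb n t ht
  have h1 := functional_bil (hρ.trans_lt hq) PK_kH hx (SS_dl q 1) hC (by linarith) hr2 h0
  unfold evk
  rw [h1]
  have hone : ∑' n, (dl 1 : ℕ → ℝ) n * (1:ℝ) = 1 := by
    rw [tsum_eq_single 1]
    · simp [dl]
    · intro n hn; simp [dl, hn]
  have hs : Summable fun n => ‖(dl 1 : ℕ → ℝ) n * (1:ℝ)‖ := by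
    refine summable_of_ne_finset_zero (s := {1}) fun n hn => ?_
    have : n ≠ 1 := by simpa using hn
    simp [dl, this]
  calc _ = (1 - t ^ 2) * ∑' p : ℕ × ℕ, (x p.1 * (dl 1 : ℕ → ℝ) p.2) * (sv 1 p.1 t * (1:ℝ)) := by
        rw [← tsum_mul_left]
        refine tsum_congr fun p => ?_
        by_cases h2 : p.2 = 1
        · have e : ∑ n ∈ range (p.1 + p.2 + 1), kH p.1 p.2 n * sv 0 n t = (1 - t ^ 2) * (sv 1 p.1 t * 1) := by
            simp only [sv_zero_eq, sv_one_eq]
            rw [poly_eval_sum, h2, kH_poly, Lv_apply, Ld_apply, mul_one]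
            unfold ph
            simp only [eval_mul, eval_sub, eval_X, eval_one, eval_pow]
          rw [e]; ring
        · simp [dl, h2]
    _ = _ := by
        rw [prod_tsum (evk_summ hρ hq hx 1 ht) hs, hone, mul_one]

end

/-! ### uniqueness -/

theorem lg_ortho {n m : ℕ} (h : n ≠ m) : ∫ t in (-1:ℝ)..1, (lg n).eval t * (lg m).eval t = 0 := by
  set p : ℝ[X] := (1 - X ^ 2) * (derivative (lg n) * lg m - lg n * derivative (lg m)) with hp
  have hd : derivative p = C (lam m - lam n) * (lg n * lg m) := by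
    have h1 := Lop_lg n
    have h2 := Lop_lg m
    unfold Lop at h1 h2
    have e : p = ((1 - X ^ 2) * derivative (lg n)) * lg m - lg n * ((1 - X ^ 2) * derivative (lg m)) := by
      rw [hp]; ring
    rw [e, derivative_sub, derivative_mul, derivative_mul (f := lg n), h1, h2, C_sub]
    ring
  have h3 : ∫ t in (-1:ℝ)..1, (derivative p).eval t = p.eval 1 - p.eval (-1) :=
    intervalIntegral.integral_eq_sub_of_hasDerivAt (fun t _ => p.hasDerivAt t)
      ((derivative p).continuous.intervalIntegrable _ _)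
  have h4 : p.eval 1 - p.eval (-1) = 0 := by rw [hp]; simp
  rw [h4, hd] at h3
  simp only [eval_mul, eval_C] at h3
  rw [intervalIntegral.integral_const_mul] at h3
  have hne : lam m - lam n ≠ 0 := by
    intro h0
    apply h
    unfold lam at h0
    have h1 : ((m:ℝ) - n) * (m + n + 1) = 0 := by linarith
    rcases mul_eq_zero.1 h1 with h2 | h2
    · have : (m:ℝ) = n := by linarith
      exact_mod_cast this.symm
    · have : (0:ℝ) < m + n + 1 := by positivity
      linarith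
  exact (mul_eq_zero.1 h3).resolve_left hne

theorem lg_sq_pos (n : ℕ) : 0 < ∫ t in (-1:ℝ)..1, (lg n).eval t * (lg n).eval t := by
  have hc : Continuous fun t : ℝ => (lg n).eval t * (lg n).eval t :=
    (lg n).continuous.mul (lg n).continuous
  refine intervalIntegral.integral_pos (by norm_num) hc.continuousOn (fun t _ => mul_self_nonneg _)
    ⟨1, by norm_num, ?_⟩
  rw [lg_eval_one]; norm_num

theorem evk_inj {q : ℝ} (hq : 1 < q) {x : ℕ → ℝ} (hx : SS q x)
    (h : ∀ t : ℝ, |t| < 1 → evk 0 x t = 0) (m : ℕ) : x m = 0 := by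
  have hs : Summable fun n => ‖x n‖ := by simpa using hx 1 le_rfl hq
  have hF : ∀ n, Continuous fun t : ℝ => x n * (lg n).eval t * (lg m).eval t := fun n =>
    (continuous_const.mul (lg n).continuous).mul (lg m).continuous
  have key := intervalIntegral.hasSum_intervalIntegral_of_summable_norm (a := -1) (b := 1)
    (f := fun n => (⟨fun t : ℝ => x n * (lg n).eval t * (lg m).eval t, hF n⟩ : C(ℝ, ℝ))) (by
      refine Summable.of_nonneg_of_le (fun n => norm_nonneg _) (fun n => ?_) hs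
      rw [ContinuousMap.norm_le _ (norm_nonneg _)]
      rintro ⟨t, ht0⟩
      have ht : t ∈ Set.uIcc (-1:ℝ) 1 := ht0
      rw [Set.uIcc_of_le (by norm_num : (-1:ℝ) ≤ 1)] at ht
      show ‖x n * (lg n).eval t * (lg m).eval t‖ ≤ _
      rw [norm_mul, norm_mul, Real.norm_eq_abs (eval t _), Real.norm_eq_abs (eval t _)]
      have ht' : |t| ≤ 1 := abs_le.2 ht
      have h1 := lg_bound_one ht' n
      have h2 := lg_bound_one ht' m
      have h3 := norm_nonneg (x n)
      calc ‖x n‖ * |eval t (lg n)| * |eval t (lg m)| ≤ ‖x n‖ * 1 * 1 := by gcongr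
        _ = _ := by ring)
  have h0 : ∫ t in (-1:ℝ)..1, ∑' n, x n * (lg n).eval t * (lg m).eval t = 0 := by
    have : ∫ t in (-1:ℝ)..1, ∑' n, x n * (lg n).eval t * (lg m).eval t = ∫ t in (-1:ℝ)..1, (0:ℝ) := by
      apply intervalIntegral.integral_congr_Ioo_of_le (by norm_num)
      intro t ht
      have h1 := h t (abs_lt.2 ht)
      unfold evk at h1
      simp only
      rw [tsum_mul_right]
      have e : ∀ n, sv 0 n t = (lg n).eval t := fun n => rfl
      simp only [e] at h1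
      rw [h1, zero_mul]
    rw [this]; simp
  have key2 : HasSum (fun n => ∫ t in (-1:ℝ)..1, x n * (lg n).eval t * (lg m).eval t) 0 := by
    rw [← h0]; exact key
  have key3 : HasSum (fun n => ∫ t in (-1:ℝ)..1, x n * (lg n).eval t * (lg m).eval t)
      (∫ t in (-1:ℝ)..1, x m * (lg m).eval t * (lg m).eval t) := by
    apply hasSum_single
    intro n hn
    simp only [mul_assoc]
    rw [intervalIntegral.integral_const_mul, lg_ortho hn, mul_zero]
  have h5 := key2.unique key3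
  simp only [mul_assoc] at h5
  rw [intervalIntegral.integral_const_mul] at h5
  exact (mul_eq_zero.1 h5.symm).resolve_right (lg_sq_pos m).ne'

theorem evk_ext {q : ℝ} (hq : 1 < q) {x y : ℕ → ℝ} (hx : SS q x) (hy : SS q y)
    (h : ∀ t : ℝ, |t| < 1 → evk 0 x t = evk 0 y t) : x = y := by
  funext m
  have h1 := evk_inj hq (hx.sub hy) (fun t ht => by
    rw [evk_sub (ρ := 1) le_rfl hq hx hy 0 (by rw [bb_one]; exact ht.le), h t ht, sub_self]) m
  linarith

end

end Pool.Agent.H786
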