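import Mathlib
import Pool.Agent.H786.Ev

set_option autoImplicit false
set_option linter.all false
open Finset Set Filter Topology
open scoped ENNReal

namespace Pool.Agent.H786

open Pool.Agent.N535 (PK SS bil bb one_lt_bb cont_evH bil_add_left bil_add_right bil_sub_left bil_sub_right
  bil_smul_left bil_smul_right)
open Pool.Agent.H858R2 (CI ev evH abs_ev_le norm_evH_le continuous_ev ev_one ev_zero ev_add ev_sub
  ev_neg ev_smul ev_mul)

noncomputable section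

theorem lam_poly : ∃ (C : ℝ) (p : ℕ), 0 ≤ C ∧ ∀ n : ℕ, |lam n| ≤ C * ((n : ℝ) + 1) ^ p := by
  refine ⟨1, 2, zero_le_one, fun n => ?_⟩
  rw [abs_of_nonneg (lam_nonneg n), one_mul]
  exact lam_le n

section
variable {R : Type} [NormedCommRing R] [NormedAlgebra ℝ R] [CompleteSpace R] {q : ℝ} {f g : ℕ → R}

theorem SS_lmul (hf : SS q f) : SS q (lmul f) := hf.mulp lam_poly
theorem SS_Dm (hq : 1 < q) (hf : SS q f) : SS q (Dm f) := hf.bil hq PK_kD (SS_dl q 0)
theorem SS_Hm (hq : 1 < q) (hf : SS q f) : SS q (Hm f) := hf.bil hq PK_kH (SS_dl q 1)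

end

section
variable {R : Type} [NormedCommRing R] [NormedAlgebra ℝ R]

theorem Hm_add (f g : ℕ → R) : Hm (fun n => f n + g n) = fun n => Hm f n + Hm g n := by
  funext n
  simp only [Hm_apply, smul_add]
  abel
theorem Hm_sub (f g : ℕ → R) : Hm (fun n => f n - g n) = fun n => Hm f n - Hm g n := by
  funext n
  simp only [Hm_apply, smul_sub]
  abel
theorem Hm_neg (f : ℕ → R) : Hm (fun n => - f n) = fun n => - Hm f n := by
  funext n
  simp only [Hm_apply, smul_neg]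
  abel
theorem Hm_smul (c : ℝ) (f : ℕ → R) : Hm (fun n => c • f n) = fun n => c • Hm f n := by
  funext n
  simp only [Hm_apply, smul_sub, smul_comm c]
theorem lmul_sub (f g : ℕ → R) : lmul (fun n => f n - g n) = fun n => lmul f n - lmul g n := by
  funext n
  simp only [lmul, smul_sub]

/-- `H(λb) = λh + ...` -/
theorem Hm_lmul (b : ℕ → R) (n : ℕ) : Hm (lmul b) n = lam n • Hm b n +
    ((2 * ((n:ℝ) + 1) * be (n + 1)) • b (n + 1) + (2 * (n:ℝ) * be (n - 1)) • b (n - 1)) := by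
  rw [Hm_apply, Hm_apply]
  unfold lmul
  rw [smul_sub, smul_smul, smul_smul, smul_smul, smul_smul]
  have e1 : be (n + 1) * lam (n + 1) = lam n * be (n + 1) + 2 * ((n:ℝ) + 1) * be (n + 1) := by
    have : lam (n + 1) = lam n + 2 * ((n:ℝ) + 1) := by unfold lam; push_cast; ring
    rw [this]; ring
  have e2 : be (n - 1) * lam (n - 1) = lam n * be (n - 1) - 2 * (n:ℝ) * be (n - 1) := by
    rcases n with _ | n
    · simp [be_zero]
    · have : lam (n + 1 - 1) = lam (n + 1) - 2 * ((n + 1 : ℕ) : ℝ) := by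
        unfold lam; push_cast; ring
      rw [this]; ring
  rw [e1, e2, add_smul, sub_smul]
  abel

/-! ### definition of the nonlinear terms -/

def Mm (a : ℕ → R) (n : ℕ) : R := (2:ℝ) • a n + bil kc a a n
def Ww (a h : ℕ → R) (n : ℕ) : R := a n + h n + bil kc a h n
def Uu (a h : ℕ → R) (n : ℕ) : R := Mm a n + h n + bil kc (Mm a) h n
def Zz (a h : ℕ → R) (n : ℕ) : R :=
  (3:ℝ) • a n + bil kc a a n + (3:ℝ) • h n + (3:ℝ) • bil kc a h n + bil kc (bil kc a a) h n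

/-- nonlinear terms of the first equation -/
def Nm (a h : ℕ → R) (n : ℕ) : R :=
  (1 / 2 : ℝ) • bil kc (Zz a h) a n - (bil kc (Uu a h) (lmul a) n +
    (bil kg a a n + bil kc (Ww a h) (bil kg a a) n))

/-- nonlinear terms of the second equation in `φ` coefficients -/
def Nb (a b : ℕ → R) (n : ℕ) : R :=
  (1 / 2 : ℝ) • (bil kb (lmul b) (Hm b) n + bil kb (Mm a) (bil kb (lmul b) (Hm b)) n)
    - (bil kb (Uu a (Hm b)) (lmul b) n +
      (2:ℝ) • (bil kb (Dm a) a n + bil kb (Mm (Hm b)) (bil kb (Dm a) a) n) +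
      (2:ℝ) • (bil kb (lmul b) a n + bil kb (Ww a (Hm b)) (bil kb (lmul b) a) n))

/-- nonlinear terms of the second equation in `P` coefficients -/
def Nh (a b : ℕ → R) (n : ℕ) : R :=
  (2:ℝ) • (bil kg (Hm b) a n + bil kc (Ww a (Hm b)) (bil kg (Hm b) a) n)
    - ((1 / 2 : ℝ) • (bil kg (Hm b) (Hm b) n + bil kc (Mm a) (bil kg (Hm b) (Hm b)) n) +
     bil kc (Uu a (Hm b)) (Hm (lmul b)) n +
      (2:ℝ) • (bil kg a a n + bil kc (Mm (Hm b)) (bil kg a a) n))

end

/-! ### the algebra: real sequences -/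

section
variable {q : ℝ} {x y : ℕ → ℝ}

theorem bb_one_of {t : ℝ} (ht : |t| < 1) : |t| ≤ bb 1 := by rw [bb_one]; exact ht.le

theorem rHm_kb (hq : 1 < q) (hx : SS q x) (hy : SS q y) : Hm (bil kb x y) = bil kc x (Hm y) := by
  refine evk_ext hq (SS_Hm hq (hx.bil hq PK_kb hy)) (hx.bil hq PK_kc (SS_Hm hq hy)) fun t ht => ?_
  have ht' := bb_one_of ht
  rw [ev_Hm le_rfl hq (hx.bil hq PK_kb hy) ht', ev_kb le_rfl hq hx hy ht',
    ev_kc le_rfl hq hx (SS_Hm hq hy) ht', ev_Hm le_rfl hq hy ht']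
  ring

theorem rDm_Hm (hq : 1 < q) (hx : SS q x) : Dm (Hm x) = fun n => - lmul x n := by
  refine evk_ext hq (SS_Dm hq (SS_Hm hq hx)) (SS_lmul hx).neg fun t ht => ?_
  obtain ⟨ρ, h1, h2⟩ := exists_between hq
  have ht' := bb_one_of ht
  have ht2 : |t| < bb ρ := ht.trans (one_lt_bb h1)
  rw [ev_Dm le_rfl hq (SS_Hm hq hx) ht', evk_neg, evk_lmul le_rfl hq hx ht']
  have e1 := evk_deriv h1 h2 (SS_Hm hq hx) 0 ht2
  have e2 : HasDerivAt (fun t => (1 - t ^ 2) * evk 1 x t)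
      ((-(2 * t)) * evk 1 x t + (1 - t ^ 2) * evk 2 x t) t := by
    have h3 : HasDerivAt (fun t : ℝ => 1 - t ^ 2) (-(2 * t)) t := by
      have := ((hasDerivAt_id t).pow 2).const_sub 1
      simpa using this
    exact h3.mul (evk_deriv h1 h2 hx 1 ht2)
  have e3 : (fun t => evk 0 (Hm x) t) =ᶠ[𝓝 t] fun t => (1 - t ^ 2) * evk 1 x t := by
    have : {y : ℝ | |y| < bb ρ} ∈ 𝓝 t := (isOpen_lt continuous_abs continuous_const).mem_nhds ht2
    filter_upwards [this] with y hy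
    exact ev_Hm h1.le h2 hx (le_of_lt hy)
  have e4 := (e2.congr_of_eventuallyEq e3).unique e1
  rw [← e4]; ring

theorem rkg (hq : 1 < q) (hx : SS q x) (hy : SS q y) : bil kc (Dm x) (Hm y) = bil kg x y := by
  refine evk_ext hq ((SS_Dm hq hx).bil hq PK_kc (SS_Hm hq hy)) (hx.bil hq PK_kg hy) fun t ht => ?_
  have ht' := bb_one_of ht
  rw [ev_kc le_rfl hq (SS_Dm hq hx) (SS_Hm hq hy) ht', ev_kg le_rfl hq hx hy ht',
    ev_Hm le_rfl hq hy ht', ev_Dm le_rfl hq hx ht']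
  ring

end

/-! ### the algebra: sequences in `CI` -/

section
variable {q : ℝ} {F G : ℕ → CI}

theorem SS_ev (hF : SS q F) (s : ℝ) : SS q (fun n => ev (F n) s) := hF.map (evH s) (norm_evH_le s)

theorem ev_dl (i n : ℕ) (s : ℝ) : ev (dl i n : CI) s = (dl i n : ℝ) := by
  unfold dl; split_ifs
  · exact ev_one s
  · exact ev_zero s

theorem ev_Hm' (hq : 1 < q) (hF : SS q F) (s : ℝ) (n : ℕ) :
    ev (Hm F n) s = Hm (fun m => ev (F m) s) n := by
  rw [Hm_apply, Hm_apply]; rfl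

theorem ev_Dm' (hq : 1 < q) (hF : SS q F) (s : ℝ) (n : ℕ) :
    ev (Dm F n) s = Dm (fun m => ev (F m) s) n := by
  unfold Dm
  rw [ev_bil hq PK_kD hF (SS_dl q 0)]
  simp only [ev_dl]

theorem ev_lmul' (s : ℝ) (n : ℕ) : ev (lmul F n) s = lmul (fun m => ev (F m) s) n := rfl

theorem ci_ext (h : ∀ s : ℝ, (fun n => ev (F n) s) = fun n => ev (G n) s) : F = G := by
  funext n
  apply CI.ext_ev
  intro s _
  exact congrFun (h s) n

theorem Hm_kb (hq : 1 < q) (hF : SS q F) (hG : SS q G) : Hm (bil kb F G) = bil kc F (Hm G) := by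
  apply ci_ext
  intro s
  have e1 : (fun n => ev (Hm (bil kb F G) n) s) = Hm (fun m => ev (bil kb F G m) s) :=
    funext fun n => ev_Hm' hq (hF.bil hq PK_kb hG) s n
  have e2 : (fun m => ev (bil kb F G m) s) = bil kb (fun m => ev (F m) s) (fun m => ev (G m) s) :=
    funext fun n => ev_bil hq PK_kb hF hG n s
  have e3 : (fun n => ev (bil kc F (Hm G) n) s) = bil kc (fun m => ev (F m) s) (fun m => ev (Hm G m) s) :=
    funext fun n => ev_bil hq PK_kc hF (SS_Hm hq hG) n s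
  have e4 : (fun m => ev (Hm G m) s) = Hm (fun m => ev (G m) s) := funext fun n => ev_Hm' hq hG s n
  rw [e1, e2, e3, e4, rHm_kb hq (SS_ev hF s) (SS_ev hG s)]

theorem Dm_Hm (hq : 1 < q) (hF : SS q F) : Dm (Hm F) = fun n => - lmul F n := by
  apply ci_ext
  intro s
  have e1 : (fun n => ev (Dm (Hm F) n) s) = Dm (fun m => ev (Hm F m) s) :=
    funext fun n => ev_Dm' hq (SS_Hm hq hF) s n
  have e4 : (fun m => ev (Hm F m) s) = Hm (fun m => ev (F m) s) := funext fun n => ev_Hm' hq hF s n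
  rw [e1, e4, rDm_Hm hq (SS_ev hF s)]
  rfl

theorem kc_DH (hq : 1 < q) (hF : SS q F) (hG : SS q G) : bil kc (Dm F) (Hm G) = bil kg F G := by
  apply ci_ext
  intro s
  have e1 : (fun n => ev (bil kc (Dm F) (Hm G) n) s) =
      bil kc (fun m => ev (Dm F m) s) (fun m => ev (Hm G m) s) :=
    funext fun n => ev_bil hq PK_kc (SS_Dm hq hF) (SS_Hm hq hG) n s
  have e2 : (fun n => ev (Dm F n) s) = Dm (fun m => ev (F m) s) := funext fun n => ev_Dm' hq hF s n
  have e4 : (fun m => ev (Hm G m) s) = Hm (fun m => ev (G m) s) := funext fun n => ev_Hm' hq hG s n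
  have e5 : (fun n => ev (bil kg F G n) s) = bil kg (fun m => ev (F m) s) (fun m => ev (G m) s) :=
    funext fun n => ev_bil hq PK_kg hF hG n s
  rw [e1, e2, e4, e5, rkg hq (SS_ev hF s) (SS_ev hG s)]

theorem bil_neg_left {R : Type} [NormedCommRing R] [NormedAlgebra ℝ R] [CompleteSpace R] (k : ℕ → ℕ → ℕ → ℝ) (f g : ℕ → R) :
    bil k (fun n => - f n) g = fun n => - bil k f g n := by
  have h := bil_smul_left (k := k) (f := f) (g := g) (-1 : ℝ)
  simpa using h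

/-- `Hm (λb · y) = - ∇h ∇y` -/
theorem Hm_lkb (hq : 1 < q) (hF : SS q F) (hG : SS q G) :
    Hm (bil kb (lmul F) G) = fun n => - bil kg (Hm F) G n := by
  rw [Hm_kb hq (SS_lmul hF) hG]
  have h1 := Dm_Hm hq hF
  have h2 : lmul F = fun n => - Dm (Hm F) n := by rw [h1]; funext n; simp
  rw [h2, bil_neg_left, kc_DH hq (SS_Hm hq hF) hG]

end

/-! ### summability of all terms -/

section
variable {R : Type} [NormedCommRing R] [NormedAlgebra ℝ R] [CompleteSpace R] {q : ℝ} {a b h : ℕ → R}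

theorem SS_Mm (hq : 1 < q) (ha : SS q a) : SS q (Mm a) := (ha.smul 2).add (ha.bil hq PK_kc ha)
theorem SS_Ww (hq : 1 < q) (ha : SS q a) (hh : SS q h) : SS q (Ww a h) :=
  (ha.add hh).add (ha.bil hq PK_kc hh)
theorem SS_Uu (hq : 1 < q) (ha : SS q a) (hh : SS q h) : SS q (Uu a h) :=
  ((SS_Mm hq ha).add hh).add ((SS_Mm hq ha).bil hq PK_kc hh)
theorem SS_Zz (hq : 1 < q) (ha : SS q a) (hh : SS q h) : SS q (Zz a h) :=
  ((((ha.smul 3).add (ha.bil hq PK_kc ha)).add (hh.smul 3)).add ((ha.bil hq PK_kc hh).smul 3)).add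
    ((ha.bil hq PK_kc ha).bil hq PK_kc hh)
theorem SS_Nm (hq : 1 < q) (ha : SS q a) (hh : SS q h) : SS q (Nm a h) :=
  (((SS_Zz hq ha hh).bil hq PK_kc ha).smul _).sub (((SS_Uu hq ha hh).bil hq PK_kc (SS_lmul ha)).add
    ((ha.bil hq PK_kg ha).add ((SS_Ww hq ha hh).bil hq PK_kc (ha.bil hq PK_kg ha))))
theorem SS_Nb (hq : 1 < q) (ha : SS q a) (hb : SS q b) : SS q (Nb a b) := by
  have hh := SS_Hm hq hb
  have e1 := (SS_lmul hb).bil hq PK_kb hh
  have e2 := (SS_Dm hq ha).bil hq PK_kb ha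
  have e3 := (SS_lmul hb).bil hq PK_kb ha
  exact ((e1.add ((SS_Mm hq ha).bil hq PK_kb e1)).smul _).sub
    ((((SS_Uu hq ha hh).bil hq PK_kb (SS_lmul hb)).add ((e2.add ((SS_Mm hq hh).bil hq PK_kb e2)).smul _)).add
      ((e3.add ((SS_Ww hq ha hh).bil hq PK_kb e3)).smul _))

end

/-- consistency of the two forms -/
theorem Hm_Nb {q : ℝ} (hq : 1 < q) {a b : ℕ → CI} (ha : SS q a) (hb : SS q b) : Hm (Nb a b) = Nh a b := by
  have hh := SS_Hm hq hb
  have e1 := (SS_lmul hb).bil hq PK_kb hh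
  have e2 := (SS_Dm hq ha).bil hq PK_kb ha
  have e3 := (SS_lmul hb).bil hq PK_kb ha
  have f1 : Hm (bil kb (lmul b) (Hm b)) = fun n => - bil kg (Hm b) (Hm b) n := Hm_lkb hq hb hh
  have f2 : Hm (bil kb (lmul b) a) = fun n => - bil kg (Hm b) a n := Hm_lkb hq hb ha
  have f3 : Hm (bil kb (Dm a) a) = bil kg a a := by rw [Hm_kb hq (SS_Dm hq ha) ha, kc_DH hq ha ha]
  have bn : ∀ f g : ℕ → CI, bil kc f (fun n => - g n) = fun n => - bil kc f g n := fun f g => by
    have h := bil_smul_right (k := kc) (f := f) (g := g) (-1 : ℝ)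
    simpa using h
  have g1 : Hm (bil kb (Mm a) (bil kb (lmul b) (Hm b))) = fun n => - bil kc (Mm a) (bil kg (Hm b) (Hm b)) n := by
    rw [Hm_kb hq (SS_Mm hq ha) e1, f1, bn]
  have g2 : Hm (bil kb (Mm (Hm b)) (bil kb (Dm a) a)) = bil kc (Mm (Hm b)) (bil kg a a) := by
    rw [Hm_kb hq (SS_Mm hq hh) e2, f3]
  have g3 : Hm (bil kb (Ww a (Hm b)) (bil kb (lmul b) a)) =
      fun n => - bil kc (Ww a (Hm b)) (bil kg (Hm b) a) n := by
    rw [Hm_kb hq (SS_Ww hq ha hh) e3, f2, bn]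
  have g4 : Hm (bil kb (Uu a (Hm b)) (lmul b)) = bil kc (Uu a (Hm b)) (Hm (lmul b)) :=
    Hm_kb hq (SS_Uu hq ha hh) (SS_lmul hb)
  unfold Nb
  rw [Hm_sub, Hm_smul, Hm_add, Hm_add, Hm_add, Hm_smul, Hm_smul, Hm_add, Hm_add, f1, f2, f3, g1, g2, g3, g4]
  funext n
  unfold Nh
  module

end

end Pool.Agent.H786
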