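import Mathlib
import Pool.Agent.H786.Alg

set_option autoImplicit false
set_option linter.all false
open Finset Set Filter Topology
open scoped ENNReal NNReal

namespace Pool.Agent.H786

open Pool.Agent.N535 (PK SS bil I1 I1_nonneg bil_add_left bil_add_right bil_sub_left bil_sub_right
  bil_smul_left bil_smul_right)
open Pool.Agent.H858R2 (CI ev evH)

noncomputable section

/-- states: the pair `(a, b)` -/
abbrev St : Type := (ℕ → CI) × (ℕ → CI)

/-- the norm of a state -/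
def nX (Θ q N : ℝ) (F : St) : ℝ≥0∞ :=
  nS q N F.1 + nI Θ q N F.1 + nS q N F.2 + nI Θ q N F.2 + nS q N (Hm F.2) + nI Θ q N (Hm F.2)

theorem SS_of_nS {q N : ℝ} (hq : 1 ≤ q) {F : ℕ → CI} (h : nS q N F ≠ ∞) : SS q F := by
  have h1 : (∑' n, ENNReal.ofReal (q ^ n * ‖F n‖)) ≠ ∞ := by
    refine ne_top_of_le_ne_top h ?_
    refine le_trans (le_of_eq ?_) (sum_le_nu (q := q) (N := N) _)
    refine tsum_congr fun n => ?_
    rw [← ofReal_norm, ENNReal.ofReal_mul (by positivity)]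
  have h2 : Summable fun n => q ^ n * ‖F n‖ := by
    have := ENNReal.summable_toReal h1
    refine this.congr fun n => ?_
    rw [ENNReal.toReal_ofReal]
    have : 0 ≤ q := by linarith
    positivity
  intro r h3 h4
  refine Summable.of_nonneg_of_le (fun n => by positivity) (fun n => ?_) h2
  exact mul_le_mul_of_nonneg_right (pow_le_pow_left₀ (by linarith) h4.le n) (norm_nonneg _)

section
variable {Θ q N : ℝ} {F : St}

theorem nX_1 : nS q N F.1 ≤ nX Θ q N F := by unfold nX; simp only [add_assoc]; exact le_self_add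
theorem nX_2 : nI Θ q N F.1 ≤ nX Θ q N F := by
  unfold nX; simp only [add_assoc]; exact le_add_of_le_right le_self_add
theorem nX_3 : nS q N F.2 ≤ nX Θ q N F := by
  unfold nX; simp only [add_assoc]; exact le_add_of_le_right (le_add_of_le_right le_self_add)
theorem nX_4 : nI Θ q N F.2 ≤ nX Θ q N F := by
  unfold nX; simp only [add_assoc]
  exact le_add_of_le_right (le_add_of_le_right (le_add_of_le_right le_self_add))
theorem nX_5 : nS q N (Hm F.2) ≤ nX Θ q N F := by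
  unfold nX; simp only [add_assoc]
  exact le_add_of_le_right (le_add_of_le_right (le_add_of_le_right (le_add_of_le_right le_self_add)))
theorem nX_6 : nI Θ q N (Hm F.2) ≤ nX Θ q N F := by
  unfold nX; simp only [add_assoc]
  exact le_add_of_le_right (le_add_of_le_right (le_add_of_le_right (le_add_of_le_right le_add_self)))

theorem SS1 (hq : 1 < q) {P : ℝ≥0∞} (hP : P ≤ 1) (h : nX Θ q N F ≤ P) : SS q F.1 :=
  SS_of_nS hq.le (N := N) (ne_top_of_le_ne_top ENNReal.one_ne_top ((nX_1.trans h).trans hP))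
theorem SS2 (hq : 1 < q) {P : ℝ≥0∞} (hP : P ≤ 1) (h : nX Θ q N F ≤ P) : SS q F.2 :=
  SS_of_nS hq.le (N := N) (ne_top_of_le_ne_top ENNReal.one_ne_top ((nX_3.trans h).trans hP))

end

/-- seminorms with the properties used below -/
structure GN (m : ℝ → ℝ → ℝ → (ℕ → CI) → ℝ≥0∞) : Prop where
  add : ∀ Θ q N : ℝ, 0 ≤ Θ → ∀ F G : ℕ → CI, m Θ q N (fun n => F n + G n) ≤ m Θ q N F + m Θ q N G
  smul : ∀ (Θ q N : ℝ) (c : ℝ) (F : ℕ → CI), m Θ q N (fun n => c • F n) = ‖c‖ₑ * m Θ q N F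

/-- the two norms -/
def mS : ℝ → ℝ → ℝ → (ℕ → CI) → ℝ≥0∞ := fun _ q N F => nS q N F
def mL : ℝ → ℝ → ℝ → (ℕ → CI) → ℝ≥0∞ := fun Θ q N F => nL Θ q N F

theorem GN_S : GN mS := ⟨fun _ _ _ _ F G => nS_add F G, fun _ _ _ c F => nS_smul c F⟩
theorem GN_L : GN mL := ⟨fun _ _ _ h F G => nL_add h F G, fun _ _ _ c F => nL_smul c F⟩

/-- maps of order `d + 1` -/
def OO (m : ℝ → ℝ → ℝ → (ℕ → CI) → ℝ≥0∞) (d : ℕ) (f : St → ℕ → CI) : Prop :=
  ∃ C : ℝ≥0, ∀ Θ q N : ℝ, 0 ≤ Θ → 1 < q → q ≤ 2 → ∀ P : ℝ≥0∞, P ≤ 1 → ∀ F G : St,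
    nX Θ q N F ≤ P → nX Θ q N G ≤ P →
    SS q (f F) ∧ m Θ q N (f F) ≤ C * P ^ (d + 1) ∧
      m Θ q N (fun n => f F n - f G n) ≤ C * P ^ d * nX Θ q N (F - G)

section
variable {m : ℝ → ℝ → ℝ → (ℕ → CI) → ℝ≥0∞} {d e : ℕ} {f g : St → ℕ → CI}

theorem OO.congr (hf : OO m d f) (h : ∀ (q : ℝ) (F : St), 1 < q → SS q F.1 → SS q F.2 → g F = f F) :
    OO m d g := by
  obtain ⟨C, hC⟩ := hf
  refine ⟨C, fun Θ q N hΘ hq hq2 P hP F G hF hG => ?_⟩
  have h1 := hC Θ q N hΘ hq hq2 P hP F G hF hG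
  rw [h q F hq (SS1 hq hP hF) (SS2 hq hP hF), h q G hq (SS1 hq hP hG) (SS2 hq hP hG)]
  exact h1

theorem OO.add (hm : GN m) (hf : OO m d f) (hg : OO m d g) : OO m d (fun F n => f F n + g F n) := by
  obtain ⟨C, hC⟩ := hf
  obtain ⟨D, hD⟩ := hg
  refine ⟨C + D, fun Θ q N hΘ hq hq2 P hP F G hF hG => ?_⟩
  obtain ⟨a1, a2, a3⟩ := hC Θ q N hΘ hq hq2 P hP F G hF hG
  obtain ⟨b1, b2, b3⟩ := hD Θ q N hΘ hq hq2 P hP F G hF hG
  refine ⟨a1.add b1, ?_, ?_⟩
  · refine (hm.add Θ q N hΘ _ _).trans ((add_le_add a2 b2).trans (le_of_eq ?_))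
    push_cast; ring
  · have e : (fun n => f F n + g F n - (f G n + g G n)) =
        fun n => (fun n => f F n - f G n) n + (fun n => g F n - g G n) n := by
      funext n; simp only; abel
    rw [e]
    refine (hm.add Θ q N hΘ _ _).trans ((add_le_add a3 b3).trans (le_of_eq ?_))
    push_cast; ring

theorem OO.smul (hm : GN m) (c : ℝ) (hf : OO m d f) : OO m d (fun F n => c • f F n) := by
  obtain ⟨C, hC⟩ := hf
  refine ⟨‖c‖₊ * C, fun Θ q N hΘ hq hq2 P hP F G hF hG => ?_⟩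
  obtain ⟨a1, a2, a3⟩ := hC Θ q N hΘ hq hq2 P hP F G hF hG
  have ec : ((‖c‖₊ * C : ℝ≥0) : ℝ≥0∞) = ‖c‖ₑ * C := by push_cast; rfl
  refine ⟨a1.smul c, ?_, ?_⟩
  · rw [hm.smul, ec, mul_assoc]
    exact mul_le_mul_right a2 _
  · have e : (fun n => c • f F n - c • f G n) = fun n => c • (fun n => f F n - f G n) n := by
      funext n; simp only [smul_sub]
    rw [e, hm.smul, ec, mul_assoc, mul_assoc, ← mul_assoc (C : ℝ≥0∞)]
    exact mul_le_mul_right a3 _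

theorem OO.sub (hm : GN m) (hf : OO m d f) (hg : OO m d g) : OO m d (fun F n => f F n - g F n) := by
  have h := hf.add hm (hg.smul hm (-1))
  refine h.congr fun q F _ _ _ => ?_
  funext n
  simp [sub_eq_add_neg]

theorem OO.weak (h : e ≤ d) (hf : OO m d f) : OO m e f := by
  obtain ⟨C, hC⟩ := hf
  refine ⟨C, fun Θ q N hΘ hq hq2 P hP F G hF hG => ?_⟩
  obtain ⟨a1, a2, a3⟩ := hC Θ q N hΘ hq hq2 P hP F G hF hG
  refine ⟨a1, a2.trans (mul_le_mul_right (pow_le_pow_right_of_le_one' hP (by omega)) _), a3.trans ?_⟩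
  exact mul_le_mul_left (mul_le_mul_right (pow_le_pow_right_of_le_one' hP h) _) _

/-- products -/
theorem OO.bil {m1 m2 m3 : ℝ → ℝ → ℝ → (ℕ → CI) → ℝ≥0∞} (hm3 : GN m3) {k : ℕ → ℕ → ℕ → ℝ} (hk : PK k)
    (hb : ∀ Θ q N : ℝ, 0 ≤ Θ → 1 < q → ∀ F G : ℕ → CI, SS q F → SS q G →
      m3 Θ q N (N535.bil k F G) ≤ 9 * (m1 Θ q N F * m2 Θ q N G))
    (hf : OO m1 d f) (hg : OO m2 e g) :
    OO m3 (d + e + 1) (fun F => N535.bil k (f F) (g F)) := by
  obtain ⟨C, hC⟩ := hf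
  obtain ⟨D, hD⟩ := hg
  refine ⟨18 * (C * D), fun Θ q N hΘ hq hq2 P hP F G hF hG => ?_⟩
  obtain ⟨a1, a2, a3⟩ := hC Θ q N hΘ hq hq2 P hP F G hF hG
  obtain ⟨a1', a2', a3'⟩ := hC Θ q N hΘ hq hq2 P hP G F hG hF
  obtain ⟨b1, b2, b3⟩ := hD Θ q N hΘ hq hq2 P hP F G hF hG
  obtain ⟨b1', b2', b3'⟩ := hD Θ q N hΘ hq hq2 P hP G F hG hF
  refine ⟨a1.bil hq hk b1, ?_, ?_⟩
  · refine (hb Θ q N hΘ hq _ _ a1 b1).trans ?_
    calc 9 * (m1 Θ q N (f F) * m2 Θ q N (g F)) ≤ 9 * ((C * P ^ (d + 1)) * (D * P ^ (e + 1))) := by gcongr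
      _ = 9 * (C * D * P ^ (d + e + 1 + 1)) := by
          rw [show d + e + 1 + 1 = (d + 1) + (e + 1) by ring, pow_add]; ring
      _ ≤ 18 * (C * D * P ^ (d + e + 1 + 1)) := mul_le_mul_left (by norm_num) _
      _ = _ := by push_cast; ring
  · have e1 : (fun n => N535.bil k (f F) (g F) n - N535.bil k (f G) (g G) n) =
        fun n => N535.bil k (fun n => f F n - f G n) (g F) n + N535.bil k (f G) (fun n => g F n - g G n) n := by
      rw [bil_sub_left hq hk a1 a1' b1, bil_sub_right hq hk a1' b1 b1']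
      funext n; simp only; abel
    rw [e1]
    refine (hm3.add Θ q N hΘ _ _).trans ?_
    have h1 := hb Θ q N hΘ hq _ _ (a1.sub a1') b1
    have h2 := hb Θ q N hΘ hq _ _ a1' (b1.sub b1')
    set δ := nX Θ q N (F - G)
    calc _ ≤ 9 * ((C * P ^ d * δ) * (D * P ^ (e + 1))) + 9 * ((C * P ^ (d + 1)) * (D * P ^ e * δ)) := by
          refine add_le_add (h1.trans ?_) (h2.trans ?_)
          · gcongr
          · gcongr
      _ = _ := by
          push_cast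
          rw [show d + e + 1 = d + (e + 1) by ring, pow_add P d (e + 1), pow_succ, pow_succ]; ring

theorem OO.SS {k : ℕ → ℕ → ℕ → ℝ} (hk : GK k) (hf : OO mS d f) (hg : OO mS e g) :
    OO mS (d + e + 1) (fun F => N535.bil k (f F) (g F)) :=
  OO.bil GN_S hk.pk (fun Θ q N hΘ hq F G hF hG => nS_bil hq.le hk F G) hf hg

theorem OO.SL {k : ℕ → ℕ → ℕ → ℝ} (hk : GK k) (hf : OO mS d f) (hg : OO mL e g) :
    OO mL (d + e + 1) (fun F => N535.bil k (f F) (g F)) :=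
  OO.bil GN_L hk.pk (fun Θ q N hΘ hq F G hF hG => nL_bil hΘ hq hk hF hG) hf hg

theorem OO.LS {k : ℕ → ℕ → ℕ → ℝ} (hk : GK k) (hf : OO mL d f) (hg : OO mS e g) :
    OO mL (d + e + 1) (fun F => N535.bil k (f F) (g F)) :=
  OO.bil GN_L hk.pk (fun Θ q N hΘ hq F G hF hG => nL_bil' hΘ hq hk hF hG) hf hg

/-- linear maps -/
theorem OO.lin (C : ℝ≥0) (hs : ∀ (q : ℝ) (F G : St), 1 < q → N535.SS q F.1 → N535.SS q F.2 →
      N535.SS q G.1 → N535.SS q G.2 → (fun n => f F n - f G n) = f (F - G))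
    (hss : ∀ (q : ℝ) (F : St), 1 < q → N535.SS q F.1 → N535.SS q F.2 → N535.SS q (f F))
    (hb : ∀ Θ q N : ℝ, 0 ≤ Θ → 1 < q → q ≤ 2 → ∀ F : St, N535.SS q F.1 → N535.SS q F.2 →
      m Θ q N (f F) ≤ C * nX Θ q N F) : OO m 0 f := by
  refine ⟨C, fun Θ q N hΘ hq hq2 P hP F G hF hG => ?_⟩
  have s1 := SS1 hq hP hF
  have s2 := SS2 hq hP hF
  have s3 := SS1 hq hP hG
  have s4 := SS2 hq hP hG
  refine ⟨hss q F hq s1 s2, ?_, ?_⟩
  · refine (hb Θ q N hΘ hq hq2 F s1 s2).trans ?_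
    rw [zero_add, pow_one]
    exact mul_le_mul_right hF _
  · rw [hs q F G hq s1 s2 s3 s4, pow_zero, mul_one]
    exact hb Θ q N hΘ hq hq2 (F - G) (s1.sub s3) (s2.sub s4)

end

/-! ### the elementary terms -/

theorem pa_S : OO mS 0 (fun F => F.1) :=
  OO.lin 1 (fun q F G _ _ _ _ _ => rfl) (fun q F hq h1 h2 => h1) (fun Θ q N hΘ hq hq2 F h1 h2 => by
    rw [ENNReal.coe_one, one_mul]; exact nX_1)
theorem ph_S : OO mS 0 (fun F => Hm F.2) :=
  OO.lin 1 (fun q F G _ _ _ _ _ => (Hm_sub F.2 G.2).symm) (fun q F hq h1 h2 => SS_Hm hq h2)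
    (fun Θ q N hΘ hq hq2 F h1 h2 => by rw [ENNReal.coe_one, one_mul]; exact nX_5)
theorem pa_L : OO mL 0 (fun F => F.1) :=
  OO.lin 1 (fun q F G _ _ _ _ _ => rfl) (fun q F hq h1 h2 => h1) (fun Θ q N hΘ hq hq2 F h1 h2 => by
    rw [ENNReal.coe_one, one_mul]; exact (nL_le_nI _).trans nX_2)
theorem la_L : OO mL 0 (fun F => lmul F.1) :=
  OO.lin 1 (fun q F G _ _ _ _ _ => (lmul_sub F.1 G.1).symm) (fun q F hq h1 h2 => SS_lmul h1)
    (fun Θ q N hΘ hq hq2 F h1 h2 => by rw [ENNReal.coe_one, one_mul]; exact (nL_lmul _).trans nX_2)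
theorem lb_L : OO mL 0 (fun F => lmul F.2) :=
  OO.lin 1 (fun q F G _ _ _ _ _ => (lmul_sub F.2 G.2).symm) (fun q F hq h1 h2 => SS_lmul h2)
    (fun Θ q N hΘ hq hq2 F h1 h2 => by rw [ENNReal.coe_one, one_mul]; exact (nL_lmul _).trans nX_4)
theorem Da_L : OO mL 0 (fun F => Dm F.1) :=
  OO.lin 1 (fun q F G hq h1 _ h3 _ => (bil_sub_left hq PK_kD h1 h3 (SS_dl q 0)).symm)
    (fun q F hq h1 h2 => SS_Dm hq h1)
    (fun Θ q N hΘ hq hq2 F h1 h2 => by
      rw [ENNReal.coe_one, one_mul]; exact (nL_Dm hΘ hq h1).trans nX_2)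

theorem nL_Hl {Θ q N : ℝ} (hΘ : 0 ≤ Θ) (hq : 1 ≤ q) (hq2 : q ≤ 2) (b : ℕ → CI) :
    nL Θ q N (Hm (lmul b)) ≤ nI Θ q N (Hm b) + 13 * nI Θ q N b := by
  have h1 : nL Θ q N (Hm (lmul b)) ≤ nI Θ q N (Hm b) + (nI Θ q N b + 4 * (3 * nI Θ q N b)) := by
    have e : Hm (lmul b) = fun n => lmul (Hm b) n + ((fun n : ℕ => (2 * ((n:ℝ) + 1) * be (n + 1)) • b (n + 1)) n +
        (fun n : ℕ => (2 * (n:ℝ) * be (n - 1)) • b (n - 1)) n) := funext fun n => Hm_lmul b n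
    rw [e]
    refine (nL_add hΘ _ _).trans (add_le_add (nL_lmul _) ((nL_add hΘ _ _).trans (add_le_add ?_ ?_)))
    · refine (nu_mono fun n => ?_).trans (nu_up hq
        (fun n => ENNReal.ofReal (lam n + 1) * ENNReal.ofReal (Θ * I1 (b n))))
      rw [eL_smul]
      refine mul_le_mul_left ?_ _
      rw [Real.enorm_eq_ofReal_abs]
      refine ENNReal.ofReal_le_ofReal ?_
      have hb := be_nonneg (n + 1)
      rw [abs_of_nonneg (by positivity)]
      unfold be lam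
      push_cast
      rw [← mul_div_assoc, div_le_iff₀ (by positivity)]
      have : (0:ℝ) ≤ n := Nat.cast_nonneg n
      nlinarith [mul_nonneg this this, mul_nonneg (mul_nonneg this this) this]
    · calc nL Θ q N (fun n => (2 * (n:ℝ) * be (n - 1)) • b (n - 1))
          ≤ nu q N (fun n => if n = 0 then 0 else (fun n => 4 * (ENNReal.ofReal (lam n + 1) *
            ENNReal.ofReal (Θ * I1 (b n)))) (n - 1)) := by
            refine nu_mono fun n => ?_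
            rw [eL_smul]
            split_ifs with h0
            · subst h0; simp
            · have e4 : (4 : ℝ≥0∞) = ENNReal.ofReal 4 := by simp
              simp only
              rw [← mul_assoc, e4, ← ENNReal.ofReal_mul (by norm_num)]
              refine mul_le_mul_left ?_ _
              rw [Real.enorm_eq_ofReal_abs]
              refine ENNReal.ofReal_le_ofReal ?_
              have hb := be_nonneg (n - 1)
              rw [abs_of_nonneg (by positivity)]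
              obtain ⟨m, rfl⟩ : ∃ m, n = m + 1 := ⟨n - 1, by omega⟩
              rw [Nat.add_sub_cancel]
              unfold be lam
              push_cast
              rw [← mul_div_assoc, div_le_iff₀ (by positivity)]
              have : (0:ℝ) ≤ m := Nat.cast_nonneg m
              nlinarith [mul_nonneg this this, mul_nonneg (mul_nonneg this this) this]
        _ ≤ 3 * nu q N (fun n => 4 * (ENNReal.ofReal (lam n + 1) * ENNReal.ofReal (Θ * I1 (b n)))) :=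
            nu_down hq hq2 _
        _ = 4 * (3 * nI Θ q N b) := by rw [nu_smul]; unfold nI; ring
  refine h1.trans (le_of_eq ?_)
  ring

theorem Hl_L : OO mL 0 (fun F => Hm (lmul F.2)) :=
  OO.lin 14 (fun q F G _ _ _ _ _ => by
      show _ = Hm (lmul (fun n => F.2 n - G.2 n))
      rw [lmul_sub, Hm_sub])
    (fun q F hq h1 h2 => SS_Hm hq (SS_lmul h2))
    (fun Θ q N hΘ hq hq2 F h1 h2 => by
      refine (nL_Hl hΘ hq.le hq2 _).trans ?_
      calc _ ≤ nX Θ q N F + 13 * nX Θ q N F := add_le_add nX_6 (mul_le_mul_right nX_4 _)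
        _ = _ := by push_cast; ring)

/-- gradient products of linear maps -/
theorem OOkg {f g : St → ℕ → CI}
    (hf : ∀ (q : ℝ) (F G : St), (fun n => f F n - f G n) = f (F - G))
    (hg : ∀ (q : ℝ) (F G : St), (fun n => g F n - g G n) = g (F - G))
    (sf : ∀ (q : ℝ) (F : St), 1 < q → N535.SS q F.1 → N535.SS q F.2 → N535.SS q (f F))
    (sg : ∀ (q : ℝ) (F : St), 1 < q → N535.SS q F.1 → N535.SS q F.2 → N535.SS q (g F))
    (bf : ∀ (Θ q N : ℝ) (F : St), nS q N (f F) ≤ nX Θ q N F ∧ nI Θ q N (f F) ≤ nX Θ q N F)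
    (bg : ∀ (Θ q N : ℝ) (F : St), nS q N (g F) ≤ nX Θ q N F ∧ nI Θ q N (g F) ≤ nX Θ q N F) :
    OO mL 1 (fun F => N535.bil kg (f F) (g F)) := by
  refine ⟨36, fun Θ q N hΘ hq hq2 P hP F G hF hG => ?_⟩
  have s1 := SS1 hq hP hF
  have s2 := SS2 hq hP hF
  have s3 := SS1 hq hP hG
  have s4 := SS2 hq hP hG
  have key : ∀ (F G : St) (A B : ℝ≥0∞), N535.SS q F.1 → N535.SS q F.2 → N535.SS q G.1 → N535.SS q G.2 →
      nX Θ q N F ≤ A → nX Θ q N G ≤ B → mL Θ q N (N535.bil kg (f F) (g G)) ≤ 18 * (A * B) := by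
    intro F G A B t1 t2 t3 t4 hA hB
    refine (nL_kg hΘ hq (sf q F hq t1 t2) (sg q G hq t3 t4)).trans ?_
    calc _ ≤ 9 * (A * B) + 9 * (A * B) := by
          refine add_le_add (mul_le_mul_right (mul_le_mul' ((bf Θ q N F).2.trans hA)
            ((bg Θ q N G).1.trans hB)) _) (mul_le_mul_right (mul_le_mul' ((bf Θ q N F).1.trans hA)
            ((bg Θ q N G).2.trans hB)) _)
      _ = _ := by ring
  refine ⟨(sf q F hq s1 s2).bil hq PK_kg (sg q F hq s1 s2), ?_, ?_⟩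
  · refine (key F F P P s1 s2 s1 s2 hF hF).trans ?_
    calc 18 * (P * P) = 18 * P ^ (1 + 1) := by ring
      _ ≤ _ := mul_le_mul_left (by norm_num) _
  · have e1 : (fun n => N535.bil kg (f F) (g F) n - N535.bil kg (f G) (g G) n) =
        fun n => N535.bil kg (f (F - G)) (g F) n + N535.bil kg (f G) (g (F - G)) n := by
      rw [← hf q F G, ← hg q F G, bil_sub_left hq PK_kg (sf q F hq s1 s2) (sf q G hq s3 s4) (sg q F hq s1 s2),
        bil_sub_right hq PK_kg (sf q G hq s3 s4) (sg q F hq s1 s2) (sg q G hq s3 s4)]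
      funext n; simp only; abel
    rw [e1]
    refine (GN_L.add Θ q N hΘ _ _).trans ?_
    have h1 := key (F - G) F _ P (s1.sub s3) (s2.sub s4) s1 s2 le_rfl hF
    have h2 := key G (F - G) P _ s3 s4 (s1.sub s3) (s2.sub s4) hG le_rfl
    refine (add_le_add h1 h2).trans (le_of_eq ?_)
    push_cast; ring

theorem kg_aa : OO mL 1 (fun F => N535.bil kg F.1 F.1) :=
  OOkg (fun _ _ _ => rfl) (fun _ _ _ => rfl) (fun _ _ _ h _ => h) (fun _ _ _ h _ => h)
    (fun _ _ _ _ => ⟨nX_1, nX_2⟩) (fun _ _ _ _ => ⟨nX_1, nX_2⟩)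
theorem kg_ha : OO mL 1 (fun F => N535.bil kg (Hm F.2) F.1) :=
  OOkg (fun _ F G => (Hm_sub F.2 G.2).symm) (fun _ _ _ => rfl) (fun _ _ hq _ h => SS_Hm hq h)
    (fun _ _ _ h _ => h) (fun _ _ _ _ => ⟨nX_5, nX_6⟩) (fun _ _ _ _ => ⟨nX_1, nX_2⟩)
theorem kg_hh : OO mL 1 (fun F => N535.bil kg (Hm F.2) (Hm F.2)) :=
  OOkg (fun _ F G => (Hm_sub F.2 G.2).symm) (fun _ F G => (Hm_sub F.2 G.2).symm)
    (fun _ _ hq _ h => SS_Hm hq h) (fun _ _ hq _ h => SS_Hm hq h)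
    (fun _ _ _ _ => ⟨nX_5, nX_6⟩) (fun _ _ _ _ => ⟨nX_5, nX_6⟩)

/-! ### the nonlinear terms -/

theorem Mm_S {f : St → ℕ → CI} (hf : OO mS 0 f) : OO mS 0 (fun F => Mm (f F)) :=
  (hf.smul GN_S 2).add GN_S ((OO.SS GK_kc hf hf).weak (by norm_num))
theorem Ww_S : OO mS 0 (fun F => Ww F.1 (Hm F.2)) :=
  (pa_S.add GN_S ph_S).add GN_S ((OO.SS GK_kc pa_S ph_S).weak (by norm_num))
theorem Uu_S : OO mS 0 (fun F => Uu F.1 (Hm F.2)) :=
  ((Mm_S pa_S).add GN_S ph_S).add GN_S ((OO.SS GK_kc (Mm_S pa_S) ph_S).weak (by norm_num))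
theorem Zz_S : OO mS 0 (fun F => Zz F.1 (Hm F.2)) :=
  ((((pa_S.smul GN_S 3).add GN_S ((OO.SS GK_kc pa_S pa_S).weak (by norm_num))).add GN_S
    (ph_S.smul GN_S 3)).add GN_S (((OO.SS GK_kc pa_S ph_S).weak (by norm_num)).smul GN_S 3)).add GN_S
    ((OO.SS GK_kc (OO.SS GK_kc pa_S pa_S) ph_S).weak (by norm_num))

theorem Nm_L : OO mL 1 (fun F => Nm F.1 (Hm F.2)) :=
  ((OO.SL GK_kc Zz_S pa_L).smul GN_L _).sub GN_L ((OO.SL GK_kc Uu_S la_L).add GN_L
    (kg_aa.add GN_L ((OO.SL GK_kc Ww_S kg_aa).weak (by norm_num))))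

theorem Nb_L : OO mL 1 (fun F => Nb F.1 F.2) := by
  have e1 : OO mL 1 (fun F => N535.bil kb (lmul F.2) (Hm F.2)) := OO.LS GK_kb lb_L ph_S
  have e2 : OO mL 1 (fun F => N535.bil kb (Dm F.1) F.1) := OO.LS GK_kb Da_L pa_S
  have e3 : OO mL 1 (fun F => N535.bil kb (lmul F.2) F.1) := OO.LS GK_kb lb_L pa_S
  have e4 : OO mL 1 (fun F => N535.bil kb (Uu F.1 (Hm F.2)) (lmul F.2)) := OO.SL GK_kb Uu_S lb_L
  exact ((e1.add GN_L ((OO.SL GK_kb (Mm_S pa_S) e1).weak (by norm_num))).smul GN_L _).sub GN_L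
    ((e4.add GN_L ((e2.add GN_L ((OO.SL GK_kb (Mm_S ph_S) e2).weak (by norm_num))).smul GN_L _)).add GN_L
      ((e3.add GN_L ((OO.SL GK_kb Ww_S e3).weak (by norm_num))).smul GN_L _))

theorem Nh_L : OO mL 1 (fun F => Nh F.1 F.2) := by
  have e4 : OO mL 1 (fun F => N535.bil kc (Uu F.1 (Hm F.2)) (Hm (lmul F.2))) := OO.SL GK_kc Uu_S Hl_L
  exact ((kg_ha.add GN_L ((OO.SL GK_kc Ww_S kg_ha).weak (by norm_num))).smul GN_L _).sub GN_L
    ((((kg_hh.add GN_L ((OO.SL GK_kc (Mm_S pa_S) kg_hh).weak (by norm_num))).smul GN_L _).add GN_L e4).add GN_L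
      ((kg_aa.add GN_L ((OO.SL GK_kc (Mm_S ph_S) kg_aa).weak (by norm_num))).smul GN_L _))

theorem HNb_L : OO mL 1 (fun F => Hm (Nb F.1 F.2)) :=
  Nh_L.congr fun q F hq h1 h2 => Hm_Nb hq h1 h2

end

end Pool.Agent.H786
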