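import Mathlib
import Pool.Agent.H786.Ord

set_option autoImplicit false
set_option linter.all false
open Finset Set Filter Topology MeasureTheory
open scoped ENNReal NNReal

namespace Pool.Agent.H786

open Pool.Agent.N535 (PK SS bil I1 I1_nonneg I1_add_le I1_smul I1_neg I1_refl refl ev_refl refl_sub
  norm_refl_le DL_norm_le DL_I1_le DL_deriv DL_zero ev_of')
open Pool.Agent.H858R2 (CI ev evH abs_ev_le norm_evH_le continuous_ev ev_one ev_zero ev_add ev_sub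
  ev_neg ev_smul ev_mul)
open Pool.Agent.H858R2.Duh83 (DL)

noncomputable section

/-- exponential decay -/
def Ex (ω : ℝ) : CI := CI.of (fun s => Real.exp (-ω * s)) (by fun_prop)

theorem ev_Ex (ω : ℝ) {t : ℝ} (ht : t ∈ Icc (0:ℝ) 1) : ev (Ex ω) t = Real.exp (-ω * t) := by
  unfold Ex; rw [ev_of' _ _ ht]

theorem Ex_norm {ω : ℝ} (hω : 0 ≤ ω) : ‖Ex ω‖ ≤ 1 := by
  refine CI.norm_le zero_le_one fun t ht => ?_
  rw [ev_Ex ω ht, abs_of_pos (Real.exp_pos _)]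
  apply Real.exp_le_one_iff.2
  nlinarith [mul_nonneg hω ht.1]

theorem Ex_I1 {ω : ℝ} (hω : 0 ≤ ω) : ω * I1 (Ex ω) ≤ 1 := by
  rcases hω.eq_or_lt with h | h
  · rw [← h]; simp
  · have h3 : I1 (Ex ω) = ∫ s in (0:ℝ)..1, Real.exp (-ω * s) := by
      unfold N535.I1
      apply intervalIntegral.integral_congr
      intro s hs
      rw [Set.uIcc_of_le zero_le_one] at hs
      simp only
      rw [ev_Ex ω hs, abs_of_pos (Real.exp_pos _)]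
    rw [h3]
    have h5 : (-ω) ≠ 0 := neg_ne_zero.2 h.ne'
    rw [intervalIntegral.integral_comp_mul_left (fun x => Real.exp x) h5, integral_exp]
    simp only [mul_zero, mul_one, Real.exp_zero, smul_eq_mul]
    have h7 : 0 < Real.exp (-ω) := Real.exp_pos _
    have h8 : ω * ((-ω)⁻¹ * (Real.exp (-ω) - 1)) = 1 - Real.exp (-ω) := by
      field_simp
      ring
    rw [h8]
    linarith

/-- solution of `u' = Θ(-ω u + f)`, `u(0) = c` -/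
def Sv (Θ ω c : ℝ) (f : CI) : CI := c • Ex (Θ * ω) + Θ • DL (Θ * ω) f

section
variable {Θ ω : ℝ}

theorem Sv_norm (hΘ : 0 ≤ Θ) (hω : 0 ≤ ω) (c : ℝ) (f : CI) : ‖Sv Θ ω c f‖ ≤ |c| + Θ * I1 f := by
  unfold Sv
  refine (norm_add_le _ _).trans (add_le_add ?_ ?_)
  · rw [norm_smul, Real.norm_eq_abs]
    exact mul_le_of_le_one_right (abs_nonneg _) (Ex_norm (by positivity))
  · rw [norm_smul, Real.norm_of_nonneg hΘ]
    exact mul_le_mul_of_nonneg_left (DL_norm_le (by positivity) f) hΘ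

theorem Sv_I1 (hΘ : 0 ≤ Θ) (hω : 0 ≤ ω) (c : ℝ) (f : CI) :
    ω * (Θ * I1 (Sv Θ ω c f)) ≤ |c| + Θ * I1 f := by
  unfold Sv
  have h1 := I1_add_le (c • Ex (Θ * ω)) (Θ • DL (Θ * ω) f)
  rw [I1_smul, I1_smul, abs_of_nonneg hΘ] at h1
  have h2 := Ex_I1 (ω := Θ * ω) (by positivity)
  have h3 := DL_I1_le (ω := Θ * ω) (by positivity) f
  calc ω * (Θ * I1 (c • Ex (Θ * ω) + Θ • DL (Θ * ω) f))
      ≤ ω * (Θ * (|c| * I1 (Ex (Θ * ω)) + Θ * I1 (DL (Θ * ω) f))) := by gcongr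
    _ = |c| * (Θ * ω * I1 (Ex (Θ * ω))) + Θ * (Θ * ω * I1 (DL (Θ * ω) f)) := by ring
    _ ≤ |c| * 1 + Θ * I1 f := by gcongr
    _ = _ := by ring

theorem Sv_deriv (c : ℝ) (f : CI) {t : ℝ} (ht : t ∈ Ioo (0:ℝ) 1) :
    HasDerivAt (ev (Sv Θ ω c f)) (Θ * (-ω * ev (Sv Θ ω c f) t + ev f t)) t := by
  have h1 : HasDerivAt (fun s : ℝ => c * Real.exp (-(Θ * ω) * s))
      (c * (Real.exp (-(Θ * ω) * t) * (-(Θ * ω)))) t := by
    have := (((hasDerivAt_id t).const_mul (-(Θ * ω))).exp).const_mul c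
    simpa using this
  have h2 := (DL_deriv (Θ * ω) f ht).const_mul Θ
  have e : ev (Sv Θ ω c f) =ᶠ[𝓝 t] fun s => c * Real.exp (-(Θ * ω) * s) + Θ * ev (DL (Θ * ω) f) s := by
    filter_upwards [isOpen_Ioo.mem_nhds ht] with τ hτ
    unfold Sv
    rw [ev_add, ev_smul, ev_smul, ev_Ex _ ⟨hτ.1.le, hτ.2.le⟩]
  rw [e.eq_of_nhds]
  refine ((h1.add h2).congr_of_eventuallyEq e).congr_deriv ?_
  ring

theorem Sv_zero (c : ℝ) (f : CI) : ev (Sv Θ ω c f) 0 = c := by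
  unfold Sv
  rw [ev_add, ev_smul, ev_smul, ev_Ex _ (by simp), DL_zero]
  simp

theorem Sv_sub (c c' : ℝ) (f f' : CI) : Sv Θ ω c f - Sv Θ ω c' f' = Sv Θ ω (c - c') (f - f') := by
  unfold Sv
  rw [map_sub]
  module

theorem Sv_smul (r c : ℝ) (f : CI) : r • Sv Θ ω c f = Sv Θ ω (r * c) (r • f) := by
  unfold Sv
  rw [map_smul]
  module

theorem ode_uniq (ω : ℝ) (u : CI) (h0 : ev u 0 = 0)
    (h : ∀ t ∈ Ioo (0:ℝ) 1, HasDerivAt (ev u) (-ω * ev u t) t) : u = 0 := by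
  apply CI.ext_ev
  intro t ht
  rw [ev_zero]
  rcases ht.1.eq_or_lt with h1 | h1
  · rw [← h1, h0]
  · set v : ℝ → ℝ := fun s => Real.exp (ω * s) * ev u s with hv
    have hc : Continuous v := (by fun_prop : Continuous fun s => Real.exp (ω * s)).mul (continuous_ev u)
    have hd : ∀ s ∈ Ioo (0:ℝ) t, HasDerivAt v 0 s := by
      intro s hs
      have hs1 : s ∈ Ioo (0:ℝ) 1 := ⟨hs.1, lt_of_lt_of_le hs.2 ht.2⟩
      have h2 : HasDerivAt (fun s => Real.exp (ω * s)) (Real.exp (ω * s) * ω) s := by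
        have := ((hasDerivAt_id s).const_mul ω).exp
        simpa using this
      refine (h2.mul (h s hs1)).congr_deriv ?_
      ring
    obtain ⟨c, hc1, hc2⟩ := exists_hasDerivAt_eq_slope v (fun _ => 0) h1 hc.continuousOn hd
    have h3 : v t = v 0 := by
      have h4 : v t - v 0 = 0 := by
        rw [eq_div_iff (by linarith)] at hc2
        linarith
      linarith
    have h5 : v 0 = 0 := by rw [hv]; simp [h0]
    rw [h5] at h3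
    exact (mul_eq_zero.1 h3).resolve_left (Real.exp_pos _).ne'

theorem Sv_diff (ω₁ ω₂ c : ℝ) (f : CI) :
    Sv Θ ω₁ c f - Sv Θ ω₂ c f = (-(Θ * (ω₁ - ω₂))) • DL (Θ * ω₁) (Sv Θ ω₂ c f) := by
  rw [← sub_eq_zero]
  apply ode_uniq (Θ * ω₁)
  · rw [ev_sub, ev_sub, ev_smul, Sv_zero, Sv_zero, DL_zero]; ring
  · intro t ht
    have h1 := Sv_deriv (Θ := Θ) (ω := ω₁) c f ht
    have h2 := Sv_deriv (Θ := Θ) (ω := ω₂) c f ht
    have h3 := (DL_deriv (Θ * ω₁) (Sv Θ ω₂ c f) ht).const_mul (-(Θ * (ω₁ - ω₂)))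
    have h4 := (h1.sub h2).sub h3
    refine h4.congr_deriv ?_
    rw [ev_sub, ev_sub, ev_smul]
    ring

theorem SvD_norm (hΘ : 0 ≤ Θ) {ω₁ ω₂ : ℝ} (h2 : 0 < ω₂) (h : ω₂ ≤ ω₁) (c : ℝ) (f : CI) :
    ‖Sv Θ ω₁ c f - Sv Θ ω₂ c f‖ ≤ (ω₁ - ω₂) / ω₂ * (|c| + Θ * I1 f) := by
  rw [Sv_diff, norm_smul, norm_neg, Real.norm_of_nonneg (mul_nonneg hΘ (sub_nonneg.2 h))]
  have h3 := DL_norm_le (ω := Θ * ω₁) (mul_nonneg hΘ (h2.le.trans h)) (Sv Θ ω₂ c f)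
  have h4 := Sv_I1 hΘ h2.le c f
  calc Θ * (ω₁ - ω₂) * ‖DL (Θ * ω₁) (Sv Θ ω₂ c f)‖ ≤ Θ * (ω₁ - ω₂) * I1 (Sv Θ ω₂ c f) :=
        mul_le_mul_of_nonneg_left h3 (mul_nonneg hΘ (sub_nonneg.2 h))
    _ = (ω₁ - ω₂) / ω₂ * (ω₂ * (Θ * I1 (Sv Θ ω₂ c f))) := by field_simp
    _ ≤ _ := mul_le_mul_of_nonneg_left h4 (div_nonneg (sub_nonneg.2 h) h2.le)

theorem SvD_I1 (hΘ : 0 ≤ Θ) {ω₁ ω₂ : ℝ} (h2 : 0 < ω₂) (h : ω₂ ≤ ω₁) (c : ℝ) (f : CI) :
    ω₁ * (Θ * I1 (Sv Θ ω₁ c f - Sv Θ ω₂ c f)) ≤ (ω₁ - ω₂) / ω₂ * (|c| + Θ * I1 f) := by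
  rw [Sv_diff, I1_smul, abs_neg, abs_of_nonneg (mul_nonneg hΘ (sub_nonneg.2 h))]
  have h3 := DL_I1_le (ω := Θ * ω₁) (mul_nonneg hΘ (h2.le.trans h)) (Sv Θ ω₂ c f)
  have h4 := Sv_I1 hΘ h2.le c f
  calc ω₁ * (Θ * (Θ * (ω₁ - ω₂) * I1 (DL (Θ * ω₁) (Sv Θ ω₂ c f))))
      = Θ * (ω₁ - ω₂) * (Θ * ω₁ * I1 (DL (Θ * ω₁) (Sv Θ ω₂ c f))) := by ring
    _ ≤ Θ * (ω₁ - ω₂) * I1 (Sv Θ ω₂ c f) :=
        mul_le_mul_of_nonneg_left h3 (mul_nonneg hΘ (sub_nonneg.2 h))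
    _ = (ω₁ - ω₂) / ω₂ * (ω₂ * (Θ * I1 (Sv Θ ω₂ c f))) := by field_simp
    _ ≤ _ := mul_le_mul_of_nonneg_left h4 (div_nonneg (sub_nonneg.2 h) h2.le)

end

/-! ### the two solution operators -/

/-- second component -/
def Bn (Θ : ℝ) (b0 : ℕ → ℝ) (f : ℕ → CI) (n : ℕ) : CI :=
  if n = 0 then 0 else Sv Θ (lam n) (b0 n) (f n)

/-- first component -/
def An (Θ : ℝ) (a0 : ℕ → ℝ) (f : ℕ → CI) (n : ℕ) : CI :=
  if n = 0 then -(Θ • refl (DL Θ (refl (f 0)))) else Sv Θ (lam n - 1) (a0 n) (f n)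

/-- norm of real sequences -/
def nR (q N : ℝ) (x : ℕ → ℝ) : ℝ≥0∞ := nu q N fun n => ‖x n‖ₑ

section
variable {Θ q N : ℝ}

theorem e_of_r {x y z : ℝ} (hx : 0 ≤ x) (hz : 0 ≤ z) (h : y ≤ |x| + z) : ENNReal.ofReal y ≤ ‖x‖ₑ + ENNReal.ofReal z := by
  rw [Real.enorm_eq_ofReal_abs, ← ENNReal.ofReal_add (abs_nonneg _) hz]
  exact ENNReal.ofReal_le_ofReal h

theorem e_of_r' {x y z : ℝ} (hz : 0 ≤ z) (h : y ≤ |x| + z) : ENNReal.ofReal y ≤ ‖x‖ₑ + ENNReal.ofReal z := by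
  rw [Real.enorm_eq_ofReal_abs, ← ENNReal.ofReal_add (abs_nonneg _) hz]
  exact ENNReal.ofReal_le_ofReal h

theorem Bn_nS (hΘ : 0 ≤ Θ) (b0 : ℕ → ℝ) (f : ℕ → CI) : nS q N (Bn Θ b0 f) ≤ nR q N b0 + nL Θ q N f := by
  refine (nu_mono fun n => ?_).trans (nu_add _ _)
  unfold Bn
  split_ifs with h
  · simp
  · rw [← ofReal_norm]
    exact e_of_r' (mul_nonneg hΘ (I1_nonneg _)) (Sv_norm hΘ (lam_nonneg n) _ _)

theorem Bn_nI (hΘ : 0 ≤ Θ) (b0 : ℕ → ℝ) (f : ℕ → CI) :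
    nI Θ q N (Bn Θ b0 f) ≤ 2 * (nR q N b0 + nL Θ q N f) := by
  have h2 : nI Θ q N (Bn Θ b0 f) ≤ nu q N (fun n => 2 * (‖b0 n‖ₑ + ENNReal.ofReal (Θ * I1 (f n)))) := by
    refine nu_mono fun n => ?_
    unfold Bn
    split_ifs with h
    · simp [N535.I1]
    · have hl := lam_ge h
      have h3 := Sv_I1 hΘ (lam_nonneg n) (b0 n) (f n)
      have h4 := mul_nonneg hΘ (I1_nonneg (Sv Θ (lam n) (b0 n) (f n)))
      have e2 : (2 : ℝ≥0∞) = ENNReal.ofReal 2 := by simp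
      rw [← ENNReal.ofReal_mul (by linarith)]
      calc ENNReal.ofReal ((lam n + 1) * (Θ * I1 (Sv Θ (lam n) (b0 n) (f n))))
          ≤ ENNReal.ofReal (2 * (|b0 n| + Θ * I1 (f n))) := by
            refine ENNReal.ofReal_le_ofReal ?_
            nlinarith
        _ = _ := by
            rw [ENNReal.ofReal_mul (by norm_num), ENNReal.ofReal_add (abs_nonneg _)
              (mul_nonneg hΘ (I1_nonneg _)), ← Real.enorm_eq_ofReal_abs, e2]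
  refine h2.trans ?_
  rw [nu_smul]
  exact mul_le_mul_right (nu_add _ _) _

theorem An_nS (hΘ : 0 ≤ Θ) (a0 : ℕ → ℝ) (f : ℕ → CI) : nS q N (An Θ a0 f) ≤ nR q N a0 + nL Θ q N f := by
  refine (nu_mono fun n => ?_).trans (nu_add _ _)
  unfold An
  split_ifs with h
  · subst h
    rw [← ofReal_norm]
    refine e_of_r' (mul_nonneg hΘ (I1_nonneg _)) ?_
    rw [norm_neg, norm_smul, Real.norm_of_nonneg hΘ]
    have h1 := (norm_refl_le (DL Θ (refl (f 0)))).trans (DL_norm_le hΘ (refl (f 0)))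
    rw [I1_refl] at h1
    have := abs_nonneg (a0 0)
    nlinarith [mul_le_mul_of_nonneg_left h1 hΘ]
  · rw [← ofReal_norm]
    have := lam_ge h
    exact e_of_r' (mul_nonneg hΘ (I1_nonneg _)) (Sv_norm hΘ (by linarith) _ _)

theorem An_nI (hΘ : 0 ≤ Θ) (a0 : ℕ → ℝ) (f : ℕ → CI) :
    nI Θ q N (An Θ a0 f) ≤ 3 * (nR q N a0 + nL Θ q N f) := by
  have h2 : nI Θ q N (An Θ a0 f) ≤ nu q N (fun n => 3 * (‖a0 n‖ₑ + ENNReal.ofReal (Θ * I1 (f n)))) := by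
    refine nu_mono fun n => ?_
    have e2 : (3 : ℝ≥0∞) = ENNReal.ofReal 3 := by simp
    have hln := lam_nonneg n
    rw [← ENNReal.ofReal_mul (by linarith)]
    have key : (lam n + 1) * (Θ * I1 (An Θ a0 f n)) ≤ 3 * (|a0 n| + Θ * I1 (f n)) := by
      unfold An
      split_ifs with h
      · subst h
        rw [lam_zero, zero_add, one_mul, I1_neg, I1_smul, abs_of_nonneg hΘ, I1_refl]
        have h3 := DL_I1_le hΘ (refl (f 0))
        rw [I1_refl] at h3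
        have h4 := abs_nonneg (a0 0)
        have h5 := mul_nonneg hΘ (I1_nonneg (f 0))
        nlinarith [mul_le_mul_of_nonneg_left h3 hΘ]
      · have hl := lam_ge h
        have h3 := Sv_I1 hΘ (by linarith : 0 ≤ lam n - 1) (a0 n) (f n)
        have h4 := mul_nonneg hΘ (I1_nonneg (Sv Θ (lam n - 1) (a0 n) (f n)))
        nlinarith
    calc ENNReal.ofReal ((lam n + 1) * (Θ * I1 (An Θ a0 f n)))
        ≤ ENNReal.ofReal (3 * (|a0 n| + Θ * I1 (f n))) := ENNReal.ofReal_le_ofReal key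
      _ = _ := by
          rw [ENNReal.ofReal_mul (by norm_num), ENNReal.ofReal_add (abs_nonneg _)
            (mul_nonneg hΘ (I1_nonneg _)), ← Real.enorm_eq_ofReal_abs, e2]
  refine h2.trans ?_
  rw [nu_smul]
  exact mul_le_mul_right (nu_add _ _) _

/-- decomposition of the `P` coefficients of the second component -/
theorem Hm_Bn_eq (Θ : ℝ) (b0 : ℕ → ℝ) (f : ℕ → CI) {n : ℕ} (hn : 2 ≤ n) :
    Hm (Bn Θ b0 f) n = Sv Θ (lam (n + 1)) (Hm b0 n) (Hm f n) +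
      be (n - 1) • (Sv Θ (lam (n + 1)) (b0 (n - 1)) (f (n - 1)) -
        Sv Θ (lam (n - 1)) (b0 (n - 1)) (f (n - 1))) := by
  rw [Hm_apply, Hm_apply, Hm_apply]
  unfold Bn
  rw [if_neg (by omega), if_neg (by omega), smul_sub, Sv_smul, Sv_smul, Sv_smul, smul_eq_mul, smul_eq_mul,
    ← Sv_sub]
  abel

theorem Hm_Bn_eq' (Θ : ℝ) (b0 : ℕ → ℝ) (f : ℕ → CI) {n : ℕ} (hn : n < 2) :
    Hm (Bn Θ b0 f) n = Sv Θ (lam (n + 1)) (Hm b0 n) (Hm f n) := by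
  have e : be (n - 1) = 0 := by
    have : n - 1 = 0 := by omega
    rw [this, be_zero]
  rw [Hm_apply, Hm_apply, Hm_apply, e]
  unfold Bn
  rw [if_neg (by omega)]
  simp only [zero_smul, sub_zero, zero_mul]
  rw [Sv_smul, smul_eq_mul]

theorem Hm_Bn_bound (hΘ : 0 ≤ Θ) (b0 : ℕ → ℝ) (f : ℕ → CI) (n : ℕ) :
    ‖Hm (Bn Θ b0 f) n‖ ≤ (|Hm b0 n| + Θ * I1 (Hm f n)) +
      (if n = 0 then 0 else 4 * (|b0 (n - 1)| + Θ * I1 (f (n - 1)))) ∧
    (lam n + 1) * (Θ * I1 (Hm (Bn Θ b0 f) n)) ≤ (|Hm b0 n| + Θ * I1 (Hm f n)) +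
      (if n = 0 then 0 else 4 * (|b0 (n - 1)| + Θ * I1 (f (n - 1)))) := by
  have hl1 : lam n + 1 ≤ lam (n + 1) := by
    unfold lam; push_cast
    have : (0:ℝ) ≤ n := Nat.cast_nonneg n
    nlinarith
  have hl := lam_nonneg n
  by_cases hn : n < 2
  · rw [Hm_Bn_eq' Θ b0 f hn]
    have hR : 0 ≤ (if n = 0 then 0 else 4 * (|b0 (n - 1)| + Θ * I1 (f (n - 1)))) := by
      have := mul_nonneg hΘ (I1_nonneg (f (n - 1)))
      have := abs_nonneg (b0 (n - 1))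
      split_ifs <;> positivity
    have h1 := Sv_norm hΘ (lam_nonneg (n + 1)) (Hm b0 n) (Hm f n)
    have h2 := Sv_I1 hΘ (lam_nonneg (n + 1)) (Hm b0 n) (Hm f n)
    have h3 := mul_nonneg hΘ (I1_nonneg (Sv Θ (lam (n + 1)) (Hm b0 n) (Hm f n)))
    constructor
    · linarith
    · nlinarith
  · have hn2 : 2 ≤ n := by omega
    have hnr : (2:ℝ) ≤ n := by exact_mod_cast hn2
    rw [Hm_Bn_eq Θ b0 f hn2, if_neg (by omega)]
    have hp : 0 < lam (n - 1) := lam_pos (by omega)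
    have hle : lam (n - 1) ≤ lam (n + 1) := lam_mono (by omega)
    have hb := be_nonneg (n - 1)
    have h1 := Sv_norm hΘ (lam_nonneg (n + 1)) (Hm b0 n) (Hm f n)
    have h2 := Sv_I1 hΘ (lam_nonneg (n + 1)) (Hm b0 n) (Hm f n)
    have h4 := SvD_norm hΘ hp hle (b0 (n - 1)) (f (n - 1))
    have h5 := SvD_I1 hΘ hp hle (b0 (n - 1)) (f (n - 1))
    set S1 := Sv Θ (lam (n + 1)) (Hm b0 n) (Hm f n)
    set D := Sv Θ (lam (n + 1)) (b0 (n - 1)) (f (n - 1)) - Sv Θ (lam (n - 1)) (b0 (n - 1)) (f (n - 1))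
    set R := |b0 (n - 1)| + Θ * I1 (f (n - 1)) with hR
    have hR0 : 0 ≤ R := by
      have := mul_nonneg hΘ (I1_nonneg (f (n - 1)))
      positivity
    have h6 : be (n - 1) * ((lam (n + 1) - lam (n - 1)) / lam (n - 1)) ≤ 4 := by
      have e1 : lam (n + 1) - lam (n - 1) = 4 * n + 2 := by
        unfold lam; rw [Nat.cast_sub (by omega)]; push_cast; ring
      have e2 : ((n - 1 : ℕ) : ℝ) = n - 1 := by rw [Nat.cast_sub (by omega)]; norm_num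
      rw [e1]
      unfold be
      rw [e2]
      have h7 : 0 < 2 * ((n:ℝ) - 1) + 1 := by linarith
      have h8 : lam (n - 1) / (2 * ((n:ℝ) - 1) + 1) * ((4 * (n:ℝ) + 2) / lam (n - 1)) =
          (4 * (n:ℝ) + 2) / (2 * ((n:ℝ) - 1) + 1) := by
        field_simp
      rw [h8, div_le_iff₀ h7]
      linarith
    constructor
    · calc ‖S1 + be (n - 1) • D‖ ≤ ‖S1‖ + be (n - 1) * ‖D‖ := by
            refine (norm_add_le _ _).trans ?_
            rw [norm_smul, Real.norm_of_nonneg hb]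
        _ ≤ (|Hm b0 n| + Θ * I1 (Hm f n)) + be (n - 1) * ((lam (n + 1) - lam (n - 1)) / lam (n - 1) * R) := by
            gcongr
        _ = (|Hm b0 n| + Θ * I1 (Hm f n)) + (be (n - 1) * ((lam (n + 1) - lam (n - 1)) / lam (n - 1))) * R := by
            ring
        _ ≤ _ := by gcongr
    · have h7 : I1 (S1 + be (n - 1) • D) ≤ I1 S1 + be (n - 1) * I1 D := by
        refine (I1_add_le _ _).trans ?_
        rw [I1_smul, abs_of_nonneg hb]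
      have h8 := I1_nonneg S1
      have h9 := I1_nonneg D
      have h10 := mul_nonneg hΘ (I1_nonneg (S1 + be (n - 1) • D))
      have h11 := lam_nonneg (n + 1)
      calc (lam n + 1) * (Θ * I1 (S1 + be (n - 1) • D))
          ≤ lam (n + 1) * (Θ * (I1 S1 + be (n - 1) * I1 D)) := by gcongr
        _ = lam (n + 1) * (Θ * I1 S1) + be (n - 1) * (lam (n + 1) * (Θ * I1 D)) := by ring
        _ ≤ (|Hm b0 n| + Θ * I1 (Hm f n)) + be (n - 1) * ((lam (n + 1) - lam (n - 1)) / lam (n - 1) * R) := by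
            gcongr
        _ = (|Hm b0 n| + Θ * I1 (Hm f n)) + (be (n - 1) * ((lam (n + 1) - lam (n - 1)) / lam (n - 1))) * R := by
            ring
        _ ≤ _ := by gcongr

theorem Hm_Bn_nu (hΘ : 0 ≤ Θ) (hq : 1 ≤ q) (hq2 : q ≤ 2) (b0 : ℕ → ℝ) (f : ℕ → CI) :
    nu q N (fun n => ENNReal.ofReal ((|Hm b0 n| + Θ * I1 (Hm f n)) +
      (if n = 0 then 0 else 4 * (|b0 (n - 1)| + Θ * I1 (f (n - 1)))))) ≤
      (nR q N (Hm b0) + nL Θ q N (Hm f)) + 12 * (nR q N b0 + nL Θ q N f) := by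
  have h1 : nu q N (fun n => ENNReal.ofReal ((|Hm b0 n| + Θ * I1 (Hm f n)) +
      (if n = 0 then 0 else 4 * (|b0 (n - 1)| + Θ * I1 (f (n - 1)))))) ≤
      nu q N (fun n => (‖Hm b0 n‖ₑ + ENNReal.ofReal (Θ * I1 (Hm f n))) +
        (if n = 0 then 0 else (fun n => 4 * (‖b0 n‖ₑ + ENNReal.ofReal (Θ * I1 (f n)))) (n - 1))) := by
    refine nu_mono fun n => le_of_eq ?_
    have t1 := mul_nonneg hΘ (I1_nonneg (Hm f n))
    have t2 := mul_nonneg hΘ (I1_nonneg (f (n - 1)))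
    rw [ENNReal.ofReal_add (by positivity) (by split_ifs <;> positivity),
      ENNReal.ofReal_add (abs_nonneg _) t1, ← Real.enorm_eq_ofReal_abs]
    congr 1
    split_ifs with h
    · simp
    · simp only
      rw [ENNReal.ofReal_mul (by norm_num), ENNReal.ofReal_add (abs_nonneg _) t2,
        ← Real.enorm_eq_ofReal_abs]
      simp
  refine h1.trans ((nu_add _ _).trans (add_le_add (nu_add _ _) ((nu_down hq hq2
    (fun n => 4 * (‖b0 n‖ₑ + ENNReal.ofReal (Θ * I1 (f n))))).trans ?_)))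
  rw [nu_smul]
  calc 3 * (4 * nu q N fun n => ‖b0 n‖ₑ + ENNReal.ofReal (Θ * I1 (f n)))
      ≤ 3 * (4 * (nR q N b0 + nL Θ q N f)) := by
        gcongr
        exact nu_add _ _
    _ = _ := by ring

theorem Hm_Bn_nS (hΘ : 0 ≤ Θ) (hq : 1 ≤ q) (hq2 : q ≤ 2) (b0 : ℕ → ℝ) (f : ℕ → CI) :
    nS q N (Hm (Bn Θ b0 f)) ≤ (nR q N (Hm b0) + nL Θ q N (Hm f)) + 12 * (nR q N b0 + nL Θ q N f) := by
  refine (nu_mono fun n => ?_).trans (Hm_Bn_nu hΘ hq hq2 b0 f)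
  rw [← ofReal_norm]
  exact ENNReal.ofReal_le_ofReal (Hm_Bn_bound hΘ b0 f n).1

theorem Hm_Bn_nI (hΘ : 0 ≤ Θ) (hq : 1 ≤ q) (hq2 : q ≤ 2) (b0 : ℕ → ℝ) (f : ℕ → CI) :
    nI Θ q N (Hm (Bn Θ b0 f)) ≤ (nR q N (Hm b0) + nL Θ q N (Hm f)) + 12 * (nR q N b0 + nL Θ q N f) := by
  refine (nu_mono fun n => ?_).trans (Hm_Bn_nu hΘ hq hq2 b0 f)
  have := lam_nonneg n
  rw [← ENNReal.ofReal_mul (by linarith)]
  exact ENNReal.ofReal_le_ofReal (Hm_Bn_bound hΘ b0 f n).2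

/-- the solution operator -/
def Ph (Θ : ℝ) (a0 b0 : ℕ → ℝ) (g f : ℕ → CI) : St :=
  (An Θ a0 (fun n => (1 / 2 : ℝ) • Hm (Bn Θ b0 f) n + g n), Bn Θ b0 f)

theorem nX_Ph (hΘ : 0 ≤ Θ) (hq : 1 ≤ q) (hq2 : q ≤ 2) (a0 b0 : ℕ → ℝ) (g f : ℕ → CI) :
    nX Θ q N (Ph Θ a0 b0 g f) ≤ 80 * ((nR q N a0 + nR q N b0 + nR q N (Hm b0)) +
      (nL Θ q N g + nL Θ q N f + nL Θ q N (Hm f))) := by
  set Ib := nR q N b0 + nL Θ q N f with hIb
  set Ih := nR q N (Hm b0) + nL Θ q N (Hm f) with hIh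
  have b1 : nS q N (Bn Θ b0 f) ≤ Ib := Bn_nS hΘ b0 f
  have b2 : nI Θ q N (Bn Θ b0 f) ≤ 2 * Ib := Bn_nI hΘ b0 f
  have b3 : nS q N (Hm (Bn Θ b0 f)) ≤ Ih + 12 * Ib := Hm_Bn_nS hΘ hq hq2 b0 f
  have b4 : nI Θ q N (Hm (Bn Θ b0 f)) ≤ Ih + 12 * Ib := Hm_Bn_nI hΘ hq hq2 b0 f
  have c1 : nL Θ q N (fun n => (1 / 2 : ℝ) • Hm (Bn Θ b0 f) n + g n) ≤ (Ih + 12 * Ib) + nL Θ q N g := by
    refine (nL_add hΘ _ _).trans (add_le_add ?_ le_rfl)
    rw [nL_smul]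
    have e : ‖(1 / 2 : ℝ)‖ₑ ≤ 1 := by
      rw [Real.enorm_eq_ofReal_abs, ← ENNReal.ofReal_one]
      exact ENNReal.ofReal_le_ofReal (by norm_num [abs_le])
    calc _ ≤ 1 * nL Θ q N (Hm (Bn Θ b0 f)) := mul_le_mul_left e _
      _ ≤ _ := by rw [one_mul]; exact (nL_le_nI _).trans b4
  have a1 := An_nS (q := q) (N := N) hΘ a0 (fun n => (1 / 2 : ℝ) • Hm (Bn Θ b0 f) n + g n)
  have a2 := An_nI (q := q) (N := N) hΘ a0 (fun n => (1 / 2 : ℝ) • Hm (Bn Θ b0 f) n + g n)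
  unfold nX Ph
  simp only
  calc _ ≤ (nR q N a0 + ((Ih + 12 * Ib) + nL Θ q N g)) + 3 * (nR q N a0 + ((Ih + 12 * Ib) + nL Θ q N g)) +
        Ib + 2 * Ib + (Ih + 12 * Ib) + (Ih + 12 * Ib) := by
        gcongr
        · exact a1.trans (by gcongr)
        · exact a2.trans (by gcongr)
    _ = 4 * nR q N a0 + 4 * nL Θ q N g + 6 * Ih + 75 * Ib := by ring
    _ ≤ 80 * nR q N a0 + 80 * nL Θ q N g + 80 * Ih + 80 * Ib := by
        gcongr <;> norm_num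
    _ = _ := by rw [hIb, hIh]; ring

theorem Ph_sub (Θ : ℝ) (a0 b0 : ℕ → ℝ) (g f g' f' : ℕ → CI) :
    Ph Θ a0 b0 g f - Ph Θ a0 b0 g' f' = Ph Θ 0 0 (fun n => g n - g' n) (fun n => f n - f' n) := by
  have hB : ∀ n, Bn Θ b0 f n - Bn Θ b0 f' n = Bn Θ 0 (fun n => f n - f' n) n := by
    intro n
    unfold Bn
    split_ifs
    · simp
    · rw [Sv_sub]; simp
  have hH : ∀ n, Hm (Bn Θ b0 f) n - Hm (Bn Θ b0 f') n = Hm (Bn Θ 0 (fun n => f n - f' n)) n := by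
    intro n
    have h1 := congrFun (Hm_sub (Bn Θ b0 f) (Bn Θ b0 f')) n
    rw [← h1]
    congr 1
    funext m
    exact hB m
  have hA : ∀ (u v : ℕ → CI) n, An Θ a0 u n - An Θ a0 v n = An Θ 0 (fun n => u n - v n) n := by
    intro u v n
    unfold An
    split_ifs
    · rw [refl_sub, map_sub, refl_sub, smul_sub]; abel
    · rw [Sv_sub]; simp
  have hE : (fun n => ((1 / 2 : ℝ) • Hm (Bn Θ b0 f) n + g n) - ((1 / 2 : ℝ) • Hm (Bn Θ b0 f') n + g' n)) =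
      fun n => (1 / 2 : ℝ) • Hm (Bn Θ 0 (fun n => f n - f' n)) n + (g n - g' n) := by
    funext m
    rw [← hH m, smul_sub]
    abel
  have hB' : (fun n => Bn Θ b0 f n - Bn Θ b0 f' n) = Bn Θ 0 (fun n => f n - f' n) := funext hB
  have hA' : (fun n => An Θ a0 (fun n => (1 / 2 : ℝ) • Hm (Bn Θ b0 f) n + g n) n -
      An Θ a0 (fun n => (1 / 2 : ℝ) • Hm (Bn Θ b0 f') n + g' n) n) =
      An Θ 0 (fun n => (1 / 2 : ℝ) • Hm (Bn Θ 0 (fun n => f n - f' n)) n + (g n - g' n)) := by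
    rw [← hE]
    exact funext fun n => hA _ _ n
  exact Prod.ext hA' hB'

end

end

end Pool.Agent.H786
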