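import Mathlib
import Pool.Agent.H786.Duh
import Pool.Agent.H786.G.R_pool_sql_team_seeded_63374d34.N535.Fix

set_option autoImplicit false
set_option linter.all false
open Finset Set Filter Topology MeasureTheory
open scoped ENNReal NNReal

namespace Pool.Agent.H786

open Pool.Agent.N535 (PK SS bil I1 I1_nonneg I1_add_le I1_smul I1_neg continuous_I1 half_pow_tendsto)
open Pool.Agent.H858R2 (CI ev evH)

noncomputable section

variable {Θ q N : ℝ}

/-- pointwise quantity -/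
def nXt (Θ : ℝ) (F : St) (n : ℕ) : ℝ≥0∞ := ‖F.1 n‖ₑ + ‖F.2 n‖ₑ

theorem nX_le1 (hq : 1 ≤ q) (F : St) (n : ℕ) : ‖F.1 n‖ₑ ≤ nX Θ q N F :=
  (le_nu hq (fun n => ‖F.1 n‖ₑ) n).trans nX_1
theorem nX_le2 (hq : 1 ≤ q) (F : St) (n : ℕ) : ‖F.2 n‖ₑ ≤ nX Θ q N F :=
  (le_nu hq (fun n => ‖F.2 n‖ₑ) n).trans nX_3

theorem nX_add (hΘ : 0 ≤ Θ) (F G : St) : nX Θ q N (F + G) ≤ nX Θ q N F + nX Θ q N G := by
  have h1 : nS q N (F + G).1 ≤ nS q N F.1 + nS q N G.1 := nS_add _ _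
  have h2 : nI Θ q N (F + G).1 ≤ nI Θ q N F.1 + nI Θ q N G.1 := nI_add hΘ _ _
  have h3 : nS q N (F + G).2 ≤ nS q N F.2 + nS q N G.2 := nS_add _ _
  have h4 : nI Θ q N (F + G).2 ≤ nI Θ q N F.2 + nI Θ q N G.2 := nI_add hΘ _ _
  have e : Hm (F + G).2 = fun n => Hm F.2 n + Hm G.2 n := Hm_add F.2 G.2
  have h5 : nS q N (Hm (F + G).2) ≤ nS q N (Hm F.2) + nS q N (Hm G.2) := by rw [e]; exact nS_add _ _
  have h6 : nI Θ q N (Hm (F + G).2) ≤ nI Θ q N (Hm F.2) + nI Θ q N (Hm G.2) := by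
    rw [e]; exact nI_add hΘ _ _
  unfold nX
  refine (add_le_add (add_le_add (add_le_add (add_le_add (add_le_add h1 h2) h3) h4) h5) h6).trans
    (le_of_eq ?_)
  ring

theorem nS_neg (F : ℕ → CI) : nS q N (fun n => - F n) = nS q N F := by
  unfold nS
  congr 1
  funext n
  rw [enorm_neg]

theorem nI_neg (F : ℕ → CI) : nI Θ q N (fun n => - F n) = nI Θ q N F := by
  unfold nI
  congr 1
  funext n
  rw [I1_neg]

theorem nX_neg (F : St) : nX Θ q N (-F) = nX Θ q N F := by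
  have e : Hm (-F).2 = fun n => - Hm F.2 n := Hm_neg F.2
  unfold nX
  rw [e, nS_neg, nI_neg]
  show nS q N (fun n => - F.1 n) + nI Θ q N (fun n => - F.1 n) + nS q N (fun n => - F.2 n) +
    nI Θ q N (fun n => - F.2 n) + _ + _ = _
  rw [nS_neg, nI_neg, nS_neg, nI_neg]

theorem nX_zero : nX Θ q N 0 = 0 := by
  have hI : I1 (0 : CI) = 0 := by unfold N535.I1; simp
  have e : Hm (0 : St).2 = fun _ => (0 : CI) := by
    funext n
    rw [Hm_apply]
    show be (n + 1) • (0 : CI) - be (n - 1) • (0 : CI) = 0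
    simp
  have h1 : nS q N (fun _ => (0 : CI)) = 0 := by
    unfold nS; simp only [enorm_zero]; exact nu_zero
  have h2 : nI Θ q N (fun _ => (0 : CI)) = 0 := by
    unfold nI; simp only [hI, mul_zero, ENNReal.ofReal_zero]; exact nu_zero
  unfold nX
  rw [e]
  show nS q N (fun _ => (0 : CI)) + nI Θ q N (fun _ => (0 : CI)) + nS q N (fun _ => (0 : CI)) +
    nI Θ q N (fun _ => (0 : CI)) + _ + _ = 0
  rw [h1, h2]; simp

theorem nX_sub_comm (F G : St) : nX Θ q N (F - G) = nX Θ q N (G - F) := by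
  rw [← nX_neg, neg_sub]

theorem nX_tri (hΘ : 0 ≤ Θ) (F G H : St) : nX Θ q N (F - H) ≤ nX Θ q N (F - G) + nX Θ q N (G - H) := by
  have h := nX_add (q := q) (N := N) hΘ (F - G) (G - H)
  rwa [sub_add_sub_cancel] at h

theorem nu_eq (q N : ℝ) (x : ℕ → ℝ≥0∞) : nu q N x =
    ⨆ p : Finset ℕ × ℕ, ((∑ n ∈ p.1, ENNReal.ofReal (q ^ n) * x n) +
      ENNReal.ofReal N * (ENNReal.ofReal (2 * (p.2:ℝ) + 1) * x p.2)) := by
  apply le_antisymm
  · unfold nu
    rw [ENNReal.tsum_eq_iSup_sum, ENNReal.mul_iSup]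
    exact ENNReal.iSup_add_iSup_le fun s m => le_iSup (fun p : Finset ℕ × ℕ =>
      ((∑ n ∈ p.1, ENNReal.ofReal (q ^ n) * x n) +
      ENNReal.ofReal N * (ENNReal.ofReal (2 * (p.2:ℝ) + 1) * x p.2))) (s, m)
  · refine iSup_le fun p => ?_
    unfold nu
    refine add_le_add (ENNReal.sum_le_tsum p.1) (mul_le_mul_right ?_ _)
    exact le_iSup (fun n : ℕ => ENNReal.ofReal (2 * (n:ℝ) + 1) * x n) p.2

/-- `nu` is lower semicontinuous: eventually large -/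
theorem nu_ev {f : ℕ → ℕ → ℝ≥0∞} {x : ℕ → ℝ≥0∞} (h : ∀ n, Tendsto (fun k => f k n) atTop (𝓝 (x n)))
    {c : ℝ≥0∞} (hc : c < nu q N x) : ∀ᶠ k in atTop, c < nu q N (f k) := by
  rw [nu_eq, lt_iSup_iff] at hc
  obtain ⟨p, hp⟩ := hc
  have ht : Tendsto (fun k => (∑ n ∈ p.1, ENNReal.ofReal (q ^ n) * f k n) +
        ENNReal.ofReal N * (ENNReal.ofReal (2 * (p.2:ℝ) + 1) * f k p.2)) atTop
        (𝓝 ((∑ n ∈ p.1, ENNReal.ofReal (q ^ n) * x n) +
          ENNReal.ofReal N * (ENNReal.ofReal (2 * (p.2:ℝ) + 1) * x p.2))) := by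
    refine Tendsto.add (tendsto_finset_sum _ fun n _ => ?_) ?_
    · exact ENNReal.Tendsto.const_mul (h n) (Or.inr ENNReal.ofReal_ne_top)
    · exact ENNReal.Tendsto.const_mul (ENNReal.Tendsto.const_mul (h p.2) (Or.inr ENNReal.ofReal_ne_top))
        (Or.inr ENNReal.ofReal_ne_top)
  filter_upwards [ht.eventually (lt_mem_nhds hp)] with k hk
  refine lt_of_lt_of_le hk ?_
  rw [nu_eq]
  exact le_iSup (fun p : Finset ℕ × ℕ => ((∑ n ∈ p.1, ENNReal.ofReal (q ^ n) * f k n) +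
      ENNReal.ofReal N * (ENNReal.ofReal (2 * (p.2:ℝ) + 1) * f k p.2))) p

/-- eventually large -/
def LS (u : ℕ → ℝ≥0∞) (U : ℝ≥0∞) : Prop := ∀ c, c < U → ∀ᶠ k in atTop, c < u k

theorem LS.add {u v : ℕ → ℝ≥0∞} {U V : ℝ≥0∞} (hu : LS u U) (hv : LS v V) : LS (fun k => u k + v k) (U + V) := by
  intro c hc
  by_cases h1 : U = 0
  · rw [h1, zero_add] at hc
    filter_upwards [hv c hc] with k hk
    exact lt_of_lt_of_le hk le_add_self
  by_cases h2 : V = 0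
  · rw [h2, add_zero] at hc
    filter_upwards [hu c hc] with k hk
    exact lt_of_lt_of_le hk le_self_add
  obtain ⟨a, ha, b, hb, hab⟩ := ENNReal.exists_lt_add_of_lt_add hc h1 h2
  filter_upwards [hu a ha, hv b hb] with k hk1 hk2
  exact hab.trans_le (add_le_add hk1.le hk2.le)

theorem LS.le {u : ℕ → ℝ≥0∞} {U B : ℝ≥0∞} (hu : LS u U) (h : ∀ k, u k ≤ B) : U ≤ B := by
  by_contra hc
  push Not at hc
  obtain ⟨k, hk⟩ := (hu B hc).exists
  exact absurd (h k) (not_le.2 hk)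

theorem nS_LS {f : ℕ → ℕ → CI} {x : ℕ → CI} (h : ∀ n, Tendsto (fun k => f k n) atTop (𝓝 (x n))) :
    LS (fun k => nS q N (f k)) (nS q N x) := fun c hc =>
  nu_ev (f := fun k n => ‖f k n‖ₑ) (fun n => (continuous_enorm.tendsto _).comp (h n)) hc

theorem nI_LS {f : ℕ → ℕ → CI} {x : ℕ → CI} (h : ∀ n, Tendsto (fun k => f k n) atTop (𝓝 (x n))) :
    LS (fun k => nI Θ q N (f k)) (nI Θ q N x) := fun c hc =>
  nu_ev (f := fun k n => ENNReal.ofReal (lam n + 1) * ENNReal.ofReal (Θ * I1 (f k n))) (fun n => by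
    refine ENNReal.Tendsto.const_mul (ENNReal.tendsto_ofReal ?_) (Or.inr ENNReal.ofReal_ne_top)
    exact ((continuous_I1.tendsto _).comp (h n)).const_mul Θ) hc

theorem nX_lsc {G : ℕ → St} {F : St} (h1 : ∀ n, Tendsto (fun k => (G k).1 n) atTop (𝓝 (F.1 n)))
    (h2 : ∀ n, Tendsto (fun k => (G k).2 n) atTop (𝓝 (F.2 n)))
    {B : ℝ≥0∞} (hB : ∀ k, nX Θ q N (G k) ≤ B) : nX Θ q N F ≤ B := by
  have h3 : ∀ n, Tendsto (fun k => Hm (G k).2 n) atTop (𝓝 (Hm F.2 n)) := by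
    intro n
    have e : (fun k => Hm (G k).2 n) = fun k => be (n + 1) • (G k).2 (n + 1) - be (n - 1) • (G k).2 (n - 1) :=
      funext fun k => Hm_apply _ n
    rw [e, Hm_apply]
    exact ((h2 (n + 1)).const_smul _).sub ((h2 (n - 1)).const_smul _)
  refine LS.le (u := fun k => nX Θ q N (G k)) ?_ hB
  unfold nX
  exact (((((nS_LS h1).add (nI_LS h1)).add (nS_LS h2)).add (nI_LS h2)).add (nS_LS h3)).add (nI_LS h3)

theorem picard (hΘ : 0 ≤ Θ) (hq : 1 ≤ q) (Φ : St → St) (P : ℝ≥0∞)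
    (hP : P ≠ ∞) (hball : ∀ F, nX Θ q N F ≤ P → nX Θ q N (Φ F) ≤ P)
    (hcon : ∀ F G, nX Θ q N F ≤ P → nX Θ q N G ≤ P →
      nX Θ q N (Φ F - Φ G) ≤ 2⁻¹ * nX Θ q N (F - G)) :
    ∃ F, nX Θ q N F ≤ P ∧ Φ F = F := by
  set f : ℕ → St := fun m => Φ^[m] 0 with hf
  have hf0 : f 0 = 0 := rfl
  have hfs : ∀ m, f (m + 1) = Φ (f m) := fun m => Function.iterate_succ_apply' Φ m _
  have hfP : ∀ m, nX Θ q N (f m) ≤ P := by
    intro m
    induction m with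
    | zero => rw [hf0, nX_zero]; exact zero_le
    | succ m ih => rw [hfs]; exact hball _ ih
  have hd : ∀ m j, nX Θ q N (f (m + j) - f m) ≤ 2⁻¹ ^ m * P := by
    intro m
    induction m with
    | zero =>
      intro j
      rw [hf0]
      simpa using hfP j
    | succ m ih =>
      intro j
      have e1 : m + 1 + j = m + j + 1 := by ring
      rw [e1, hfs, hfs]
      refine (hcon _ _ (hfP _) (hfP _)).trans ?_
      rw [pow_succ, mul_comm (2⁻¹ ^ m) 2⁻¹, mul_assoc]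
      exact mul_le_mul_right (ih j) _
  have hr : ∀ m, (2⁻¹ ^ m * P : ℝ≥0∞).toReal = P.toReal * (2⁻¹ : ℝ) ^ m := by
    intro m
    rw [ENNReal.toReal_mul, ENNReal.toReal_pow]
    simp only [ENNReal.toReal_inv, ENNReal.toReal_ofNat]
    ring
  have hne : ∀ m, (2⁻¹ ^ m * P : ℝ≥0∞) ≠ ∞ := fun m => ENNReal.mul_ne_top (by
      apply ENNReal.pow_ne_top; norm_num) hP
  have hcau1 : ∀ n, CauchySeq fun m => (f m).1 n := by
    intro n
    refine cauchySeq_of_le_geometric (2⁻¹ : ℝ) P.toReal (by norm_num) fun m => ?_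
    rw [dist_comm, dist_eq_norm, ← hr, ← toReal_enorm]
    exact ENNReal.toReal_mono (hne m) ((nX_le1 hq (f (m + 1) - f m) n).trans (hd m 1))
  have hcau2 : ∀ n, CauchySeq fun m => (f m).2 n := by
    intro n
    refine cauchySeq_of_le_geometric (2⁻¹ : ℝ) P.toReal (by norm_num) fun m => ?_
    rw [dist_comm, dist_eq_norm, ← hr, ← toReal_enorm]
    exact ENNReal.toReal_mono (hne m) ((nX_le2 hq (f (m + 1) - f m) n).trans (hd m 1))
  choose F1 hF1 using fun n => cauchySeq_tendsto_of_complete (hcau1 n)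
  choose F2 hF2 using fun n => cauchySeq_tendsto_of_complete (hcau2 n)
  set F : St := (F1, F2) with hFdef
  have hFm : ∀ m, nX Θ q N (F - f m) ≤ 2⁻¹ ^ m * P := by
    intro m
    refine nX_lsc (G := fun k => f (m + k) - f m) (fun n => ?_) (fun n => ?_) (fun k => hd m k)
    · refine Tendsto.sub_const ?_ _
      have := (tendsto_add_atTop_iff_nat (f := fun k => (f k).1 n) m).2 (hF1 n)
      refine this.congr fun k => ?_
      rw [add_comm]
    · refine Tendsto.sub_const ?_ _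
      have := (tendsto_add_atTop_iff_nat (f := fun k => (f k).2 n) m).2 (hF2 n)
      refine this.congr fun k => ?_
      rw [add_comm]
  have hFP : nX Θ q N F ≤ P := nX_lsc hF1 hF2 hfP
  refine ⟨F, hFP, ?_⟩
  have h3 : ∀ m, nX Θ q N (Φ F - F) ≤ 2 * (2⁻¹ ^ m * P) := by
    intro m
    calc nX Θ q N (Φ F - F)
        ≤ nX Θ q N (Φ F - f (m + 1)) + nX Θ q N (f (m + 1) - F) := nX_tri hΘ _ _ _
      _ ≤ 2⁻¹ ^ m * P + 2⁻¹ ^ m * P := by
          refine add_le_add ?_ ?_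
          · rw [hfs]
            refine (hcon _ _ hFP (hfP m)).trans ?_
            calc 2⁻¹ * nX Θ q N (F - f m) ≤ 1 * (2⁻¹ ^ m * P) :=
                  mul_le_mul' (by norm_num) (hFm m)
              _ = _ := one_mul _
          · rw [nX_sub_comm]
            refine (hFm (m + 1)).trans ?_
            refine mul_le_mul_left ?_ _
            rw [pow_succ]
            calc (2⁻¹:ℝ≥0∞) ^ m * 2⁻¹ ≤ 2⁻¹ ^ m * 1 := mul_le_mul_right (by norm_num) _
              _ = _ := mul_one _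
      _ = _ := by ring
  have h4 : nX Θ q N (Φ F - F) = 0 := by
    refine le_antisymm ?_ zero_le
    have ht : Tendsto (fun m : ℕ => 2 * ((2⁻¹ : ℝ≥0∞) ^ m * P)) atTop (𝓝 (2 * 0)) :=
      ENNReal.Tendsto.const_mul (half_pow_tendsto hP) (Or.inr (by norm_num))
    rw [mul_zero] at ht
    exact ge_of_tendsto' ht h3
  have h5 : ∀ n, (Φ F - F).1 n = 0 := by
    intro n
    have h5 := nX_le1 (Θ := Θ) (N := N) hq (Φ F - F) n
    rw [h4] at h5
    have := le_antisymm h5 zero_le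
    simpa using this
  have h6 : ∀ n, (Φ F - F).2 n = 0 := by
    intro n
    have h5 := nX_le2 (Θ := Θ) (N := N) hq (Φ F - F) n
    rw [h4] at h5
    have := le_antisymm h5 zero_le
    simpa using this
  rw [← sub_eq_zero]
  exact Prod.ext (funext h5) (funext h6)

/-- the solution of the integral equations -/
theorem sol_exists : ∃ C : ℝ, 1 ≤ C ∧ ∃ ε₀ : ℝ, 0 < ε₀ ∧ ∀ Θ q N ε : ℝ, 0 < Θ → 1 < q → q ≤ 2 → 0 ≤ ε →
    ε ≤ ε₀ → ∀ a0 b0 : ℕ → ℝ, nR q N a0 + nR q N b0 + nR q N (Hm b0) ≤ ENNReal.ofReal ε →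
    ∃ a b : ℕ → CI, nX Θ q N (a, b) ≤ ENNReal.ofReal (C * ε) ∧
      Ph Θ a0 b0 (Nm a (Hm b)) (Nb a b) = (a, b) := by
  obtain ⟨C1, h1⟩ := Nm_L
  obtain ⟨C2, h2⟩ := Nb_L
  obtain ⟨C3, h3⟩ := HNb_L
  set K : ℝ≥0 := C1 + C2 + C3 + 1 with hK
  have hK1 : (1:ℝ) ≤ K := by rw [hK]; push_cast; linarith [C1.2, C2.2, C3.2]
  refine ⟨160, by norm_num, 1 / (160 * 160 * K), by positivity, fun Θ q N ε hΘ hq hq2 hε hεs a0 b0 hab => ?_⟩
  have hε2 : 160 * 160 * (K:ℝ) * ε ≤ 1 := by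
    have := mul_le_mul_of_nonneg_left hεs (by positivity : (0:ℝ) ≤ 160 * 160 * K)
    rwa [mul_one_div_cancel (by positivity)] at this
  set P : ℝ≥0∞ := ENNReal.ofReal (160 * ε) with hPd
  have hP1 : P ≤ 1 := by
    rw [hPd, ← ENNReal.ofReal_one]
    refine ENNReal.ofReal_le_ofReal ?_
    nlinarith
  have hP : P ≠ ∞ := ENNReal.ofReal_ne_top
  have hKe : (K : ℝ≥0∞) = ENNReal.ofReal K := by simp
  have h80 : (80 : ℝ≥0∞) = ENNReal.ofReal 80 := by simp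
  have h2i : (2⁻¹ : ℝ≥0∞) = ENNReal.ofReal (2⁻¹) := by
    rw [ENNReal.ofReal_inv_of_pos (by norm_num)]; simp
  have hKP : 80 * ((K : ℝ≥0∞) * P) ≤ 2⁻¹ := by
    rw [hPd, hKe, h80, h2i, ← ENNReal.ofReal_mul (by positivity), ← ENNReal.ofReal_mul (by norm_num)]
    refine ENNReal.ofReal_le_ofReal ?_
    nlinarith
  have hPe : 80 * ENNReal.ofReal ε = 2⁻¹ * P := by
    rw [hPd, h80, h2i, ← ENNReal.ofReal_mul (by norm_num), ← ENNReal.ofReal_mul (by norm_num)]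
    congr 1; ring
  have hC : ∀ x : ℝ≥0∞, (C1 : ℝ≥0∞) * x + C2 * x + C3 * x ≤ K * x := by
    intro x
    rw [← add_mul, ← add_mul]
    refine mul_le_mul_left ?_ _
    rw [hK]; push_cast; exact le_self_add
  obtain ⟨F, hF1, hF2⟩ := picard (q := q) (N := N) hΘ.le hq.le
    (fun F => Ph Θ a0 b0 (Nm F.1 (Hm F.2)) (Nb F.1 F.2)) P hP (by
    intro F hF
    obtain ⟨-, u1, -⟩ := h1 Θ q N hΘ.le hq hq2 P hP1 F F hF hF
    obtain ⟨-, u2, -⟩ := h2 Θ q N hΘ.le hq hq2 P hP1 F F hF hF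
    obtain ⟨-, u3, -⟩ := h3 Θ q N hΘ.le hq hq2 P hP1 F F hF hF
    refine (nX_Ph hΘ.le hq.le hq2 _ _ _ _).trans ?_
    calc _ ≤ 80 * (ENNReal.ofReal ε + (C1 * P ^ (1 + 1) + C2 * P ^ (1 + 1) + C3 * P ^ (1 + 1))) := by
          refine mul_le_mul_right (add_le_add hab (add_le_add (add_le_add u1 u2) u3)) _
      _ ≤ 80 * (ENNReal.ofReal ε + K * P ^ (1 + 1)) := by gcongr; exact hC _
      _ = 80 * ENNReal.ofReal ε + 80 * (K * P) * P := by ring
      _ ≤ 2⁻¹ * P + 2⁻¹ * P := by rw [hPe]; gcongr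
      _ = P := by rw [← add_mul, ENNReal.inv_two_add_inv_two, one_mul]) (by
    intro F G hF hG
    obtain ⟨-, -, u1⟩ := h1 Θ q N hΘ.le hq hq2 P hP1 F G hF hG
    obtain ⟨-, -, u2⟩ := h2 Θ q N hΘ.le hq hq2 P hP1 F G hF hG
    obtain ⟨-, -, u3⟩ := h3 Θ q N hΘ.le hq hq2 P hP1 F G hF hG
    rw [Ph_sub]
    refine (nX_Ph hΘ.le hq.le hq2 _ _ _ _).trans ?_
    have z1 : nR q N (0 : ℕ → ℝ) = 0 := by unfold nR; simp only [Pi.zero_apply, enorm_zero]; exact nu_zero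
    have z2 : Hm (0 : ℕ → ℝ) = 0 := by
      funext n; rw [Hm_apply]; simp
    have e3 : Hm (fun n => Nb F.1 F.2 n - Nb G.1 G.2 n) = fun n => Hm (Nb F.1 F.2) n - Hm (Nb G.1 G.2) n :=
      Hm_sub _ _
    rw [z2, z1, e3, add_zero, add_zero, zero_add]
    set δ := nX Θ q N (F - G)
    calc _ ≤ 80 * (C1 * P ^ 1 * δ + C2 * P ^ 1 * δ + C3 * P ^ 1 * δ) :=
          mul_le_mul_right (add_le_add (add_le_add u1 u2) u3) _
      _ = 80 * (C1 * (P * δ) + C2 * (P * δ) + C3 * (P * δ)) := by ring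
      _ ≤ 80 * (K * (P * δ)) := by gcongr; exact hC _
      _ = 80 * (K * P) * δ := by ring
      _ ≤ _ := by gcongr)
  exact ⟨F.1, F.2, hF1, hF2⟩

end

end Pool.Agent.H786
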