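import Mathlib
import Pool.Agent.H786.Alg

set_option autoImplicit false
set_option linter.all false
open Set Filter Topology Polynomial
open scoped ENNReal ContDiff

namespace Pool.Agent.H786

open Pool.Agent.N535 (PK SS bil bb one_lt_bb)

noncomputable section

/-- coefficients of the Green function -/
def cn (n : ℕ) : ℝ := (2 * (n:ℝ) + 1) / lam n
def ga (h : ℝ) (n : ℕ) : ℝ := cn n * h ^ n

theorem cn_zero : cn 0 = 0 := by simp [cn, lam]
theorem ga_zero (h : ℝ) : ga h 0 = 0 := by simp [ga, cn_zero]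
theorem cn_nonneg (n : ℕ) : 0 ≤ cn n := div_nonneg (by positivity) (lam_nonneg n)
theorem lam_cn {n : ℕ} (h : n ≠ 0) : lam n * cn n = 2 * n + 1 := by
  unfold cn
  rw [mul_div_cancel₀ _ (lam_pos h).ne']
theorem cn_be {n : ℕ} (h : n ≠ 0) : be n * cn n = 1 := by
  unfold cn be
  have := (lam_pos h).ne'
  have h2 : (2 * (n:ℝ) + 1) ≠ 0 := by positivity
  field_simp
theorem cn_le (n : ℕ) : (2 * (n:ℝ) + 1) * cn n ≤ 9 / 2 := by
  rcases Nat.eq_zero_or_pos n with h | h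
  · subst h; rw [cn_zero]; norm_num
  · have h1 : (1:ℝ) ≤ n := by exact_mod_cast h
    have h2 := lam_pos (n := n) (by omega)
    unfold cn
    rw [mul_div_assoc', div_le_iff₀ h2]
    unfold lam
    nlinarith
theorem cn_le' (n : ℕ) : cn n ≤ 9 / 2 := by
  have h1 := cn_le n
  have h2 := cn_nonneg n
  have h3 : (0:ℝ) ≤ n := Nat.cast_nonneg n
  nlinarith
theorem ga_nonneg {h : ℝ} (hh : 0 ≤ h) (n : ℕ) : 0 ≤ ga h n := mul_nonneg (cn_nonneg n) (by positivity)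

section
variable {h q ρ z : ℝ}

theorem SS_pw (hh : 0 ≤ h) (hqh : q * h ≤ 1) : SS q (fun n : ℕ => h ^ n) := by
  intro r h1 hr
  rcases hh.eq_or_lt with h0 | h0
  · subst h0
    refine summable_of_ne_finset_zero (s := {0}) fun n hn => ?_
    have : n ≠ 0 := by simpa using hn
    simp [this]
  · have h2 : r * h < 1 := lt_of_lt_of_le (mul_lt_mul_of_pos_right hr h0) hqh
    have h3 := summable_geometric_of_lt_one (by positivity : 0 ≤ r * h) h2
    refine h3.congr fun n => ?_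
    rw [Real.norm_eq_abs, abs_of_nonneg (by positivity), mul_pow]

theorem SS_nw (hh : 0 ≤ h) (hqh : q * h ≤ 1) : SS q (fun n : ℕ => (2 * (n:ℝ) + 1) * h ^ n) := by
  have h1 := (SS_pw hh hqh).mulp (l := fun n => 2 * (n:ℝ) + 1) ⟨2, 1, by norm_num, fun n => by
    rw [abs_of_nonneg (by positivity), pow_one]; linarith⟩
  exact h1

theorem SS_ga (hh : 0 ≤ h) (hqh : q * h ≤ 1) : SS q (ga h) := by
  have h1 := (SS_pw hh hqh).mulp (l := cn) ⟨9 / 2, 0, by norm_num, fun n => by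
    rw [abs_of_nonneg (cn_nonneg n), pow_zero, mul_one]; exact cn_le' n⟩
  exact h1

theorem shift1 {f : ℕ → ℝ} (hf : Summable f) : ∑' n, f (n + 1) = ∑' n, f n - f 0 := by
  rw [hf.tsum_eq_zero_add]; ring
theorem shift2 {f : ℕ → ℝ} (hf : Summable f) : ∑' n, f (n + 2) = ∑' n, f n - f 0 - f 1 := by
  have h1 : Summable fun n => f (n + 1) := (summable_nat_add_iff 1).2 hf
  rw [hf.tsum_eq_zero_add, h1.tsum_eq_zero_add]
  ring

theorem sv_rec (n : ℕ) (t : ℝ) : ((n:ℝ) + 2) * sv 0 (n + 2) t =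
    (2 * (n:ℝ) + 3) * (t * sv 0 (n + 1) t) - ((n:ℝ) + 1) * sv 0 n t := by
  have h1 := congrArg (Polynomial.eval t) (lg_rec2 n)
  simp only [eval_mul, eval_sub, eval_C, eval_X] at h1
  exact h1

theorem sv_recD (n : ℕ) (t : ℝ) : sv 1 (n + 2) t + sv 1 n t = 2 * t * sv 1 (n + 1) t + sv 0 (n + 1) t := by
  have h1 := congrArg (Polynomial.eval t) (lg_D1 (n + 1))
  have h2 := congrArg (Polynomial.eval t) (lg_D2 n)
  simp only [eval_mul, eval_sub, eval_add, eval_C, eval_X] at h1 h2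
  push_cast at h1
  have e1 : ∀ m, sv 1 m t = (derivative (lg m)).eval t := fun m => rfl
  have e0 : ∀ m, sv 0 m t = (lg m).eval t := fun m => rfl
  rw [e1, e1, e1, e0, h1, h2]
  ring

theorem sv0_0 (t : ℝ) : sv 0 0 t = 1 := by simp [sv, lg_zero]
theorem sv0_1 (t : ℝ) : sv 0 1 t = t := by simp [sv, lg_one]
theorem sv1_0 (t : ℝ) : sv 1 0 t = 0 := by simp [sv, lg_zero]
theorem sv1_1 (t : ℝ) : sv 1 1 t = 1 := by simp [sv, lg_one]

/-- differential equation of the generating function -/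
theorem gen_dz (hh : 0 ≤ h) (hqh : q * h ≤ 1) (hρ : 1 < ρ) (hq : ρ < q) (hz : |z| ≤ bb ρ) :
    (1 - 2 * h * z + h ^ 2) * evk 1 (fun n : ℕ => h ^ n) z = h * evk 0 (fun n : ℕ => h ^ n) z := by
  have s1 := (evk_summ hρ.le hq (SS_pw hh hqh) 1 hz).of_norm
  have s0 := (evk_summ hρ.le hq (SS_pw hh hqh) 0 hz).of_norm
  have e1 : ∑' n : ℕ, h ^ (n + 2) * sv 1 (n + 2) z = evk 1 (fun n : ℕ => h ^ n) z - h := by
    have := shift2 s1
    simp only [sv1_0, sv1_1, mul_zero, mul_one, pow_one, sub_zero] at this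
    exact this
  have e2 : ∑' n : ℕ, h ^ (n + 1) * sv 1 (n + 1) z = evk 1 (fun n : ℕ => h ^ n) z := by
    have := shift1 s1
    simp only [sv1_0, mul_zero, sub_zero] at this
    exact this
  have e3 : ∑' n : ℕ, h ^ (n + 1) * sv 0 (n + 1) z = evk 0 (fun n : ℕ => h ^ n) z - 1 := by
    have := shift1 s0
    simp only [sv0_0, pow_zero, mul_one] at this
    exact this
  have t1 : Summable fun n : ℕ => h ^ (n + 1) * sv 1 (n + 1) z := (summable_nat_add_iff 1).2 s1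
  have t0 : Summable fun n : ℕ => h ^ (n + 1) * sv 0 (n + 1) z := (summable_nat_add_iff 1).2 s0
  have e4 : ∑' n : ℕ, h ^ (n + 2) * sv 1 (n + 2) z =
      2 * z * h * evk 1 (fun n : ℕ => h ^ n) z + h * (evk 0 (fun n : ℕ => h ^ n) z - 1)
        - h ^ 2 * evk 1 (fun n : ℕ => h ^ n) z := by
    rw [← e3]
    nth_rewrite 1 [← e2]
    unfold evk
    rw [← tsum_mul_left, ← tsum_mul_left, ← tsum_mul_left, ← (t1.mul_left _).tsum_add (t0.mul_left _),
      ← ((t1.mul_left _).add (t0.mul_left _)).tsum_sub (s1.mul_left _)]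
    refine tsum_congr fun n => ?_
    have := sv_recD n z
    have e : sv 1 (n + 2) z = 2 * z * sv 1 (n + 1) z + sv 0 (n + 1) z - sv 1 n z := by linarith
    rw [e]; ring
  rw [e1] at e4
  linear_combination e4

theorem gen_K (hh : 0 ≤ h) (hqh : q * h ≤ 1) (hρ : 1 < ρ) (hq : ρ < q) (hz : |z| ≤ bb ρ) :
    (1 - 2 * h * z + h ^ 2) * evk 0 (fun n : ℕ => (2 * (n:ℝ) + 1) * h ^ n) z =
      (1 - h ^ 2) * evk 0 (fun n : ℕ => h ^ n) z := by
  have s0 := (evk_summ hρ.le hq (SS_pw hh hqh) 0 hz).of_norm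
  have sK := (evk_summ hρ.le hq (SS_nw hh hqh) 0 hz).of_norm
  have sA : Summable fun n : ℕ => (n:ℝ) * (h ^ n * sv 0 n z) := by
    have := (sK.sub s0).mul_left (1 / 2)
    refine this.congr fun n => ?_
    ring
  set A := ∑' n : ℕ, (n:ℝ) * (h ^ n * sv 0 n z) with hA
  have eK : evk 0 (fun n : ℕ => (2 * (n:ℝ) + 1) * h ^ n) z = 2 * A + evk 0 (fun n : ℕ => h ^ n) z := by
    unfold evk
    rw [hA, ← tsum_mul_left, ← (sA.mul_left 2).tsum_add s0]
    exact tsum_congr fun n => by ring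
  have e1 : ∑' n : ℕ, ((n + 2 : ℕ):ℝ) * (h ^ (n + 2) * sv 0 (n + 2) z) = A - h * z := by
    have := shift2 sA
    simp only [Nat.cast_zero, zero_mul, sub_zero, Nat.cast_one, one_mul, pow_one, sv0_1] at this
    exact this
  have e2 : ∑' n : ℕ, ((n + 1 : ℕ):ℝ) * (h ^ (n + 1) * sv 0 (n + 1) z) = A := by
    have := shift1 sA
    simp only [Nat.cast_zero, zero_mul, sub_zero] at this
    exact this
  have e3 : ∑' n : ℕ, h ^ (n + 1) * sv 0 (n + 1) z = evk 0 (fun n : ℕ => h ^ n) z - 1 := by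
    have := shift1 s0
    simp only [sv0_0, pow_zero, mul_one] at this
    exact this
  have t1 : Summable fun n : ℕ => ((n + 1 : ℕ):ℝ) * (h ^ (n + 1) * sv 0 (n + 1) z) := (summable_nat_add_iff 1).2 sA
  have t0 : Summable fun n : ℕ => h ^ (n + 1) * sv 0 (n + 1) z := (summable_nat_add_iff 1).2 s0
  have e4 : ∑' n : ℕ, ((n + 2 : ℕ):ℝ) * (h ^ (n + 2) * sv 0 (n + 2) z) =
      h * z * 2 * A + h * z * (evk 0 (fun n : ℕ => h ^ n) z - 1) - (h ^ 2 * A + h ^ 2 * evk 0 (fun n : ℕ => h ^ n) z) := by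
    rw [← e3]
    nth_rewrite 1 [← e2]
    rw [hA]
    unfold evk
    rw [← tsum_mul_left, ← tsum_mul_left, ← tsum_mul_left, ← tsum_mul_left, ← (t1.mul_left _).tsum_add (t0.mul_left _),
      ← (sA.mul_left _).tsum_add (s0.mul_left _),
      ← ((t1.mul_left _).add (t0.mul_left _)).tsum_sub ((sA.mul_left _).add (s0.mul_left _))]
    refine tsum_congr fun n => ?_
    have := sv_rec n z
    have e : ((n + 2 : ℕ):ℝ) * (h ^ (n + 2) * sv 0 (n + 2) z) = h ^ (n + 2) * (((n:ℝ) + 2) * sv 0 (n + 2) z) := by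
      push_cast; ring
    rw [e, this]; push_cast; ring
  rw [e1] at e4
  rw [eK]
  linear_combination 2 * e4

end

/-- `s = √(1 - 2hz + h²)` -/
def sz (h z : ℝ) : ℝ := Real.sqrt (1 - 2 * h * z + h ^ 2)

section
variable {h q ρ z : ℝ}

theorem rad_pos (h0 : 0 ≤ h) (h1 : h < 1) (hz : z ≤ 1) : 0 < 1 - 2 * h * z + h ^ 2 := by
  nlinarith [mul_nonneg h0 (sub_nonneg.2 hz)]
theorem sz_pos (h0 : 0 ≤ h) (h1 : h < 1) (hz : z ≤ 1) : 0 < sz h z := Real.sqrt_pos.2 (rad_pos h0 h1 hz)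
theorem sz_sq (h0 : 0 ≤ h) (h1 : h < 1) (hz : z ≤ 1) : sz h z ^ 2 = 1 - 2 * h * z + h ^ 2 :=
  Real.sq_sqrt (rad_pos h0 h1 hz).le

theorem sz_deriv (h0 : 0 ≤ h) (h1 : h < 1) (hz : z ≤ 1) : HasDerivAt (sz h) (-h / sz h z) z := by
  have e1 : HasDerivAt (fun z : ℝ => 1 - 2 * h * z + h ^ 2) (-(2 * h)) z := by
    have := (((hasDerivAt_id z).const_mul (2 * h)).const_sub 1).add_const (h ^ 2)
    simpa using this
  have e2 := e1.sqrt (rad_pos h0 h1 hz).ne'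
  have e3 : -(2 * h) / (2 * Real.sqrt (1 - 2 * h * z + h ^ 2)) = -h / sz h z := by
    unfold sz
    have := (sz_pos h0 h1 hz).ne'
    unfold sz at this
    field_simp
  rw [e3] at e2
  exact e2

theorem sz_one (h1 : h < 1) : sz h 1 = 1 - h := by
  unfold sz
  rw [show 1 - 2 * h * 1 + h ^ 2 = (1 - h) ^ 2 by ring, Real.sqrt_sq (by linarith)]
theorem sz_neg_one (h0 : 0 ≤ h) : sz h (-1) = 1 + h := by
  unfold sz
  rw [show 1 - 2 * h * (-1) + h ^ 2 = (1 + h) ^ 2 by ring, Real.sqrt_sq (by linarith)]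

theorem const_Icc {f : ℝ → ℝ} (hf : ∀ x ∈ Icc (-1:ℝ) 1, HasDerivAt f 0 x) {x : ℝ} (hx : x ∈ Icc (-1:ℝ) 1) :
    f x = f (-1) := by
  refine constant_of_has_deriv_right_zero (fun y hy => (hf y hy).continuousAt.continuousWithinAt)
    (fun y hy => (hf y ⟨hy.1, hy.2.le⟩).hasDerivWithinAt) x hx

theorem gen_F (h0 : 0 ≤ h) (h1 : h < 1) (hqh : q * h ≤ 1) (hρ : 1 < ρ) (hq : ρ < q) (hz : z ∈ Icc (-1:ℝ) 1) :
    evk 0 (fun n : ℕ => h ^ n) z * sz h z = 1 := by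
  have hb : ∀ x ∈ Icc (-1:ℝ) 1, |x| < bb ρ := fun x hx => (abs_le.2 hx).trans_lt (one_lt_bb hρ)
  have hd : ∀ x ∈ Icc (-1:ℝ) 1, HasDerivAt (fun x => evk 0 (fun n : ℕ => h ^ n) x * sz h x) 0 x := by
    intro x hx
    have e1 := (evk_deriv hρ hq (SS_pw h0 hqh) 0 (hb x hx)).mul (sz_deriv h0 h1 hx.2)
    refine e1.congr_deriv ?_
    have e2 := gen_dz h0 hqh hρ hq (hb x hx).le
    have hs := sz_pos h0 h1 hx.2
    rw [← sz_sq h0 h1 hx.2] at e2
    have : (0 + 1) = 1 := rfl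
    field_simp
    linear_combination e2
  have e1 := const_Icc hd hz
  have e2 := const_Icc hd (x := 1) ⟨by norm_num, le_rfl⟩
  rw [e1, ← e2, sz_one h1]
  have : evk 0 (fun n : ℕ => h ^ n) 1 = (1 - h)⁻¹ := by
    unfold evk
    rw [← tsum_geometric_of_lt_one h0 h1]
    refine tsum_congr fun n => ?_
    have : sv 0 n 1 = 1 := lg_eval_one n
    rw [this, mul_one]
  rw [this]
  exact inv_mul_cancel₀ (by linarith)

/-- the kernel `K` -/
def Kz (h z : ℝ) : ℝ := (1 - h ^ 2) / sz h z ^ 3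

theorem gen_K' (h0 : 0 ≤ h) (h1 : h < 1) (hqh : q * h ≤ 1) (hρ : 1 < ρ) (hq : ρ < q) (hz : z ∈ Icc (-1:ℝ) 1) :
    evk 0 (fun n : ℕ => (2 * (n:ℝ) + 1) * h ^ n) z = Kz h z := by
  have hb : |z| ≤ bb ρ := ((abs_le.2 hz).trans_lt (one_lt_bb hρ)).le
  have e1 := gen_K h0 hqh hρ hq hb
  have e2 := gen_F h0 h1 hqh hρ hq hz
  have hs := sz_pos h0 h1 hz.2
  rw [← sz_sq h0 h1 hz.2] at e1
  unfold Kz
  rw [eq_div_iff (by positivity)]
  calc evk 0 (fun n : ℕ => (2 * (n:ℝ) + 1) * h ^ n) z * sz h z ^ 3 =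
      (sz h z ^ 2 * evk 0 (fun n : ℕ => (2 * (n:ℝ) + 1) * h ^ n) z) * sz h z := by ring
    _ = (1 - h ^ 2) * (evk 0 (fun n : ℕ => h ^ n) z * sz h z) := by rw [e1]; ring
    _ = 1 - h ^ 2 := by rw [e2, mul_one]

theorem gen_lmul (h0 : 0 ≤ h) (h1 : h < 1) (hqh : q * h ≤ 1) (hρ : 1 < ρ) (hq : ρ < q) (hz : z ∈ Icc (-1:ℝ) 1) :
    evk 0 (lmul (ga h)) z = Kz h z - 1 := by
  have hb : |z| ≤ bb ρ := ((abs_le.2 hz).trans_lt (one_lt_bb hρ)).le
  rw [← gen_K' h0 h1 hqh hρ hq hz]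
  have e1 : lmul (ga h) = fun n : ℕ => (2 * (n:ℝ) + 1) * h ^ n - dl 0 n := by
    funext n
    unfold lmul ga dl
    by_cases hn : n = 0
    · subst hn; simp [lam_zero]
    · rw [if_neg hn, sub_zero, smul_eq_mul, ← mul_assoc, lam_cn hn]
  rw [e1, evk_sub hρ.le hq (SS_nw h0 hqh) (SS_dl q 0) 0 hb, tsum_sv_dl, sv0_0]

/-- `g = (1-z²) G'` -/
def gz (h z : ℝ) : ℝ := (1 + z) - (1 - h ^ 2) / (h * sz h z) + (1 - h) / h

theorem gz_deriv (h0 : 0 < h) (h1 : h < 1) (hz : z ≤ 1) : HasDerivAt (gz h) (1 - Kz h z) z := by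
  have hs := sz_pos h0.le h1 hz
  have e1 := ((hasDerivAt_id z).const_add 1).sub
    ((hasDerivAt_const z (1 - h ^ 2)).div ((sz_deriv h0.le h1 hz).const_mul h) (by positivity))
  have e2 := e1.add_const ((1 - h) / h)
  refine (e2.congr_of_eventuallyEq (Filter.Eventually.of_forall fun x => rfl)).congr_deriv ?_
  unfold Kz
  field_simp
  ring

theorem gen_g (h0 : 0 < h) (h1 : h < 1) (hqh : q * h ≤ 1) (hρ : 1 < ρ) (hq : ρ < q) (hz : z ∈ Icc (-1:ℝ) 1) :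
    (1 - z ^ 2) * evk 1 (ga h) z = gz h z := by
  have hb : ∀ x ∈ Icc (-1:ℝ) 1, |x| < bb ρ := fun x hx => (abs_le.2 hx).trans_lt (one_lt_bb hρ)
  have hd : ∀ x ∈ Icc (-1:ℝ) 1, HasDerivAt (fun x => (1 - x ^ 2) * evk 1 (ga h) x - gz h x) 0 x := by
    intro x hx
    have e1 := (((((hasDerivAt_id x).pow 2).const_sub 1).mul
      (evk_deriv hρ hq (SS_ga h0.le hqh) 1 (hb x hx))).sub (gz_deriv h0 h1 hx.2))
    refine (e1.congr_of_eventuallyEq (Filter.Eventually.of_forall fun x => rfl)).congr_deriv ?_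
    have e2 := gen_lmul h0.le h1 hqh hρ hq hx
    rw [evk_lmul hρ.le hq (SS_ga h0.le hqh) (hb x hx).le] at e2
    simp only [id, Pi.pow_apply, Nat.reduceSub, pow_one, Nat.cast_ofNat, Nat.reduceAdd]
    linear_combination -e2
  have e1 := const_Icc hd hz
  have e2 : gz h (-1) = 0 := by
    unfold gz
    rw [sz_neg_one h0.le]
    have : 1 + h ≠ 0 := by positivity
    field_simp
    ring
  rw [e2] at e1
  norm_num at e1
  linarith

/-- closed forms in terms of `s` -/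
theorem gz_eq (h0 : 0 < h) (h1 : h < 1) (hz : z ≤ 1) :
    gz h z = (1 + h - sz h z) * (sz h z - 1 + h) * (sz h z + 2) / (2 * sz h z * h) := by
  have hs := sz_pos h0.le h1 hz
  have e1 := sz_sq h0.le h1 hz
  unfold gz
  have e2 : z = (1 + h ^ 2 - sz h z ^ 2) / (2 * h) := by
    rw [e1]; field_simp; ring
  generalize sz h z = s at *
  subst e2
  field_simp
  ring

theorem one_sub_z (h0 : 0 < h) (h1 : h < 1) (hz : z ≤ 1) :
    1 - z = (sz h z ^ 2 - (1 - h) ^ 2) / (2 * h) := by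
  rw [sz_sq h0.le h1 hz]; field_simp; ring
theorem one_add_z (h0 : 0 < h) (h1 : h < 1) (hz : z ≤ 1) :
    1 + z = ((1 + h) ^ 2 - sz h z ^ 2) / (2 * h) := by
  rw [sz_sq h0.le h1 hz]; field_simp; ring

theorem sz_ge (h0 : 0 ≤ h) (h1 : h < 1) (hz : z ≤ 1) : 1 - h ≤ sz h z := by
  refine Real.le_sqrt_of_sq_le ?_
  nlinarith [mul_nonneg h0 (sub_nonneg.2 hz)]
theorem sz_le (h0 : 0 ≤ h) (hz : -1 ≤ z) : sz h z ≤ 1 + h := by
  unfold sz
  rw [← Real.sqrt_sq (by linarith : 0 ≤ 1 + h)]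
  refine Real.sqrt_le_sqrt ?_
  nlinarith [mul_nonneg h0 (by linarith : 0 ≤ 1 + z)]

theorem gz_nonneg (h0 : 0 < h) (h1 : h < 1) (hz : z ∈ Icc (-1:ℝ) 1) : 0 ≤ gz h z := by
  rw [gz_eq h0 h1 hz.2]
  have hs := sz_pos h0.le h1 hz.2
  have h2 := sz_ge h0.le h1 hz.2
  have h3 := sz_le h0.le hz.1
  have : 0 ≤ 1 + h - sz h z := by linarith
  have : 0 ≤ sz h z - 1 + h := by linarith
  positivity

theorem gz_le (h0 : 0 < h) (h1 : h < 1) (hz : z ∈ Icc (-1:ℝ) 1) : gz h z ≤ 4 := by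
  rw [gz_eq h0 h1 hz.2]
  have hs := sz_pos h0.le h1 hz.2
  have h2 := sz_ge h0.le h1 hz.2
  have h3 := sz_le h0.le hz.1
  rw [div_le_iff₀ (by positivity)]
  have a1 : 0 ≤ 1 + h - sz h z := by linarith
  have a2 : 0 ≤ sz h z - 1 + h := by linarith
  have a3 : 1 + h - sz h z ≤ 2 * h := by linarith
  have a4 : sz h z - 1 + h ≤ sz h z := by linarith
  have a5 : sz h z + 2 ≤ 4 := by linarith
  calc (1 + h - sz h z) * (sz h z - 1 + h) * (sz h z + 2) ≤ 2 * h * sz h z * 4 := by gcongr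
    _ = _ := by ring

/-- `G'` -/
theorem gen_G1 (h0 : 0 < h) (h1 : h < 1) (hqh : q * h ≤ 1) (hρ : 1 < ρ) (hq : ρ < q) (hz : z ∈ Ioo (-1:ℝ) 1) :
    evk 1 (ga h) z * (sz h z * ((sz h z + 1) ^ 2 - h ^ 2)) = 2 * h * (sz h z + 2) := by
  have hz' : z ∈ Icc (-1:ℝ) 1 := ⟨hz.1.le, hz.2.le⟩
  have e1 := gen_g h0 h1 hqh hρ hq hz'
  rw [gz_eq h0 h1 hz.2.le] at e1
  have e2 := one_sub_z h0 h1 hz.2.le
  have e3 := one_add_z h0 h1 hz.2.le
  have hs := sz_pos h0.le h1 hz.2.le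
  have e4 : 1 - z ^ 2 = (1 - z) * (1 + z) := by ring
  rw [e4, e2, e3] at e1
  have p1 : 0 < 1 - z := by linarith [hz.2]
  have p2 : 0 < 1 + z := by linarith [hz.1]
  rw [e2] at p1; rw [e3] at p2
  have q1 : sz h z - (1 - h) ≠ 0 := by
    intro h4
    rw [show sz h z ^ 2 - (1 - h) ^ 2 = (sz h z - (1 - h)) * (sz h z + (1 - h)) by ring, h4] at p1
    simp at p1
  have q2 : 1 + h - sz h z ≠ 0 := by
    intro h4
    rw [show (1 + h) ^ 2 - sz h z ^ 2 = (1 + h - sz h z) * (1 + h + sz h z) by ring, h4] at p2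
    simp at p2
  generalize sz h z = s at *
  generalize evk 1 (ga h) z = w at *
  field_simp at e1
  apply mul_left_cancel₀ (mul_ne_zero q1 q2)
  linear_combination e1

end

end

end Pool.Agent.H786
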