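import Mathlib
import Pool.Agent.H786.Gn

set_option autoImplicit false
set_option linter.all false
open Set Filter Topology Polynomial
open scoped ENNReal ContDiff

namespace Pool.Agent.H786

open Pool.Agent.N535 (PK SS bil bb one_lt_bb)

noncomputable section

section
variable {h q ρ z : ℝ}

theorem den_pos (h0 : 0 < h) (h1 : h < 1) (hz : z ≤ 1) : 0 < sz h z * ((sz h z + 1) ^ 2 - h ^ 2) := by
  have hs := sz_pos h0.le h1 hz
  have : 0 < (sz h z + 1) ^ 2 - h ^ 2 := by nlinarith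
  positivity

theorem G1_nonneg (h0 : 0 < h) (h1 : h < 1) (hqh : q * h ≤ 1) (hρ : 1 < ρ) (hq : ρ < q) (hz : z ∈ Ioo (-1:ℝ) 1) :
    0 ≤ evk 1 (ga h) z := by
  have e1 := gen_G1 h0 h1 hqh hρ hq hz
  have hd := den_pos h0 h1 hz.2.le
  have hs := sz_pos h0.le h1 hz.2.le
  by_contra hc
  push Not at hc
  have := mul_neg_of_neg_of_pos hc hd
  rw [e1] at this
  have : 0 < 2 * h * (sz h z + 2) := by positivity
  linarith

theorem G1_le (h0 : 1 / 2 ≤ h) (h1 : h < 1) (hqh : q * h ≤ 1) (hρ : 1 < ρ) (hq : ρ < q) (hz : z ∈ Ioo (-1:ℝ) 1) :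
    evk 1 (ga h) z ≤ 1 / (1 - z + (1 - h) ^ 2) := by
  have h0' : 0 < h := by linarith
  have e1 := gen_G1 h0' h1 hqh hρ hq hz
  have hd := den_pos h0' h1 hz.2.le
  have hs := sz_pos h0'.le h1 hz.2.le
  have hs1 := sz_ge h0'.le h1 hz.2.le
  have e2 := one_sub_z h0' h1 hz.2.le
  have hz1 : 0 < 1 - z := by linarith [hz.2]
  have hp : 0 < 1 - z + (1 - h) ^ 2 := by positivity
  rw [le_div_iff₀ hp]
  have e3 : evk 1 (ga h) z = 2 * h * (sz h z + 2) / (sz h z * ((sz h z + 1) ^ 2 - h ^ 2)) := by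
    rw [eq_div_iff hd.ne', e1]
  rw [e3, div_mul_eq_mul_div, div_le_one hd]
  have e4 : 2 * h * (1 - z) = sz h z ^ 2 - (1 - h) ^ 2 := by rw [e2]; field_simp
  generalize sz h z = s at *
  have e5 : 2 * h * (s + 2) * (1 - z + (1 - h) ^ 2) = (s + 2) * (s ^ 2 - (1 - 2 * h) * (1 - h) ^ 2) := by
    linear_combination (s + 2) * e4
  rw [e5]
  -- difference
  have e6 : s * ((s + 1) ^ 2 - h ^ 2) - (s + 2) * (s ^ 2 - (1 - 2 * h) * (1 - h) ^ 2) =
      (1 - h) * ((1 + h) * s - (2 * h - 1) * (1 - h) * (s + 2)) := by ring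
  have e7 : 0 ≤ (1 + h) * s - (2 * h - 1) * (1 - h) * (s + 2) := by
    have a1 : (2 * h - 1) * (1 - h) * (s + 2) = (2 * h - 1) * (1 - h) * s + 2 * (2 * h - 1) * (1 - h) := by ring
    have a2 : 2 * (2 * h - 1) * (1 - h) ≤ 2 * (2 * h - 1) * s :=
      mul_le_mul_of_nonneg_left hs1 (by linarith)
    have a3 : (2 * h - 1) * (1 - h) * s ≤ (1 - h) * s := by
      have : (2 * h - 1) * (1 - h) ≤ 1 * (1 - h) := mul_le_mul_of_nonneg_right (by linarith) (by linarith)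
      nlinarith
    nlinarith
  nlinarith [mul_nonneg (by linarith : 0 ≤ 1 - h) e7]

theorem G1_le2 (h0 : 1 / 2 ≤ h) (h1 : h < 1) (hqh : q * h ≤ 1) (hρ : 1 < ρ) (hq : ρ < q) (hz : z ∈ Ioo (-1:ℝ) 1)
    (hz2 : z ≤ 1 / 2) : evk 1 (ga h) z ≤ 2 := by
  refine (G1_le h0 h1 hqh hρ hq hz).trans ?_
  have : 1 / 2 ≤ 1 - z + (1 - h) ^ 2 := by nlinarith [sq_nonneg (1 - h)]
  rw [div_le_iff₀ (by linarith)]; linarith

theorem ga_summ (h0 : 0 ≤ h) (h1 : h < 1) : Summable (ga h) := by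
  have := (summable_geometric_of_lt_one h0 h1).mul_left (9 / 2)
  refine Summable.of_nonneg_of_le (fun n => ga_nonneg h0 n) (fun n => ?_) this
  exact mul_le_mul_of_nonneg_right (cn_le' n) (by positivity)

theorem G_one : evk 0 (ga h) 1 = ∑' n, ga h n := by
  unfold evk
  refine tsum_congr fun n => ?_
  have : sv 0 n 1 = 1 := lg_eval_one n
  rw [this, mul_one]

theorem ga_succ (n : ℕ) : ga h (n + 1) = h ^ (n + 1) / (n + 1) + h ^ (n + 1) / (n + 2) := by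
  unfold ga cn lam
  push_cast
  have : (n:ℝ) + 1 ≠ 0 := by positivity
  have : (n:ℝ) + 2 ≠ 0 := by positivity
  have e : (n:ℝ) + 1 + 1 = n + 2 := by ring
  rw [e]
  field_simp
  ring

theorem lgs (h0 : 0 ≤ h) (h1 : h < 1) : HasSum (fun n : ℕ => h ^ (n + 1) / ((n:ℝ) + 1)) (-Real.log (1 - h)) :=
  Real.hasSum_pow_div_log_of_abs_lt_one (by rw [abs_of_nonneg h0]; exact h1)

/-- lower bound of `G(1)` -/
theorem ga_lower (h0 : 0 ≤ h) (h1 : h < 1) : -2 * Real.log (1 - h) - 1 ≤ ∑' n, ga h n := by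
  have s0 := ga_summ h0 h1
  have e1 := shift1 s0
  rw [ga_zero, sub_zero] at e1
  rw [← e1]
  have hl := lgs h0 h1
  have hl2 : HasSum (fun n : ℕ => h ^ (n + 2) / ((n:ℝ) + 2)) (-Real.log (1 - h) - h) := by
    have := (hasSum_nat_add_iff' (f := fun n : ℕ => h ^ (n + 1) / ((n:ℝ) + 1)) 1).2 hl
    simp only [Finset.range_one, Finset.sum_singleton, Nat.cast_zero, zero_add, pow_one, div_one] at this
    refine this.congr_fun ?_ |> id
    intro n
    push_cast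
    ring_nf
  have hsum := hl.add hl2
  have := hsum.tsum_eq
  calc -2 * Real.log (1 - h) - 1 ≤ -Real.log (1 - h) + (-Real.log (1 - h) - h) := by linarith
    _ = ∑' n : ℕ, (h ^ (n + 1) / ((n:ℝ) + 1) + h ^ (n + 2) / ((n:ℝ) + 2)) := this.symm
    _ ≤ ∑' n, ga h (n + 1) := by
        refine hsum.summable.tsum_le_tsum (fun n => ?_) ((summable_nat_add_iff 1).2 s0)
        rw [ga_succ]
        have : h ^ (n + 2) / ((n:ℝ) + 2) ≤ h ^ (n + 1) / ((n:ℝ) + 2) := by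
          refine div_le_div_of_nonneg_right ?_ (by positivity)
          exact pow_le_pow_of_le_one h0 h1.le (by omega)
        linarith

theorem ga_upper (h0 : 0 ≤ h) (h1 : h < 1) : ∑' n, ga h n ≤ -2 * Real.log (1 - h) := by
  have s0 := ga_summ h0 h1
  have e1 := shift1 s0
  rw [ga_zero, sub_zero] at e1
  rw [← e1]
  have hl := (lgs h0 h1).mul_left 2
  have e2 : 2 * -Real.log (1 - h) = -2 * Real.log (1 - h) := by ring
  rw [← e2, ← hl.tsum_eq]
  refine ((summable_nat_add_iff 1).2 s0).tsum_le_tsum (fun n => ?_) hl.summable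
  rw [ga_succ]
  have : h ^ (n + 1) / ((n:ℝ) + 2) ≤ h ^ (n + 1) / ((n:ℝ) + 1) :=
    div_le_div_of_nonneg_left (by positivity) (by positivity) (by linarith)
  linarith

theorem bbI (hρ : 1 < ρ) {x : ℝ} (hx : x ∈ Icc (-1:ℝ) 1) : |x| < bb ρ := (abs_le.2 hx).trans_lt (one_lt_bb hρ)

theorem G_upper (h0 : 0 ≤ h) (h1 : h < 1) (hz : z ∈ Icc (-1:ℝ) 1) : evk 0 (ga h) z ≤ ∑' n, ga h n := by
  have s0 := ga_summ h0 h1
  have hb : ∀ n, |ga h n * sv 0 n z| ≤ ga h n := by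
    intro n
    rw [abs_mul, abs_of_nonneg (ga_nonneg h0 n)]
    have : |sv 0 n z| ≤ 1 := lg_bound_one (abs_le.2 hz) n
    exact mul_le_of_le_one_right (ga_nonneg h0 n) this
  unfold evk
  refine Summable.tsum_le_tsum (fun n => (le_abs_self _).trans (hb n)) ?_ s0
  exact Summable.of_norm_bounded s0 hb

/-- lower bound of `G` -/
theorem G_lower (h0 : 1 / 2 ≤ h) (h1 : h < 1) (hqh : q * h ≤ 1) (hρ : 1 < ρ) (hq : ρ < q) (hz : z ∈ Icc (-1:ℝ) 1) :
    -Real.log (1 - z + (1 - h) ^ 2) - 1 ≤ evk 0 (ga h) z := by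
  have h0' : 0 < h := by linarith
  have hh : 0 < 1 - h := by linarith
  have hp : ∀ x ∈ Icc (-1:ℝ) 1, 0 < 1 - x + (1 - h) ^ 2 := fun x hx => by
    have : 0 ≤ 1 - x := by linarith [hx.2]
    positivity
  have hd : ∀ x ∈ Icc (-1:ℝ) 1, HasDerivAt (fun x => evk 0 (ga h) x + Real.log (1 - x + (1 - h) ^ 2))
      (evk 1 (ga h) x + -1 / (1 - x + (1 - h) ^ 2)) x := by
    intro x hx
    have e1 : HasDerivAt (fun x : ℝ => 1 - x + (1 - h) ^ 2) (-1) x := by
      have := ((hasDerivAt_id x).const_sub 1).add_const ((1 - h) ^ 2)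
      simpa using this
    exact (evk_deriv hρ hq (SS_ga h0'.le hqh) 0 (bbI hρ hx)).add (e1.log (hp x hx).ne')
  have hanti : AntitoneOn (fun x => evk 0 (ga h) x + Real.log (1 - x + (1 - h) ^ 2)) (Icc (-1:ℝ) 1) := by
    refine antitoneOn_of_deriv_nonpos (convex_Icc _ _) (fun x hx => (hd x hx).continuousAt.continuousWithinAt) ?_ ?_
    · rw [interior_Icc]
      exact fun x hx => (hd x ⟨hx.1.le, hx.2.le⟩).differentiableAt.differentiableWithinAt
    · rw [interior_Icc]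
      intro x hx
      rw [(hd x ⟨hx.1.le, hx.2.le⟩).deriv]
      have := G1_le h0 h1 hqh hρ hq hx
      rw [neg_div]; linarith
  have e1 := hanti hz (⟨by norm_num, le_rfl⟩ : (1:ℝ) ∈ Icc (-1:ℝ) 1) hz.2
  simp only [G_one] at e1
  have e2 := ga_lower h0'.le h1
  have e3 : Real.log (1 - 1 + (1 - h) ^ 2) = 2 * Real.log (1 - h) := by
    rw [sub_self, zero_add, Real.log_pow]; norm_num
  rw [e3] at e1
  linarith

theorem G_ge (h0 : 1 / 2 ≤ h) (h1 : h < 1) (hqh : q * h ≤ 1) (hρ : 1 < ρ) (hq : ρ < q) (hz : z ∈ Icc (-1:ℝ) 1) :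
    -3 ≤ evk 0 (ga h) z := by
  have e1 := G_lower h0 h1 hqh hρ hq hz
  have hh : 0 < 1 - h := by linarith
  have hp : 0 < 1 - z + (1 - h) ^ 2 := by
    have : 0 ≤ 1 - z := by linarith [hz.2]
    positivity
  have e2 := Real.log_le_sub_one_of_pos hp
  have e3 : (1 - h) ^ 2 ≤ 1 := by nlinarith
  linarith [hz.1]

/-- `K (1-z)` is bounded -/
theorem K_mul (h0 : 1 / 2 ≤ h) (h1 : h < 1) (hz : z ≤ 1) : Kz h z * (1 - z) ≤ 3 / 2 := by
  have h0' : 0 < h := by linarith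
  have hs := sz_pos h0'.le h1 hz
  have hs1 := sz_ge h0'.le h1 hz
  have e2 := one_sub_z h0' h1 hz
  unfold Kz
  rw [e2, div_mul_div_comm, div_le_iff₀ (by positivity)]
  generalize sz h z = s at *
  have a1 : (1 - h ^ 2) * (s ^ 2 - (1 - h) ^ 2) ≤ (1 + h) * (s * s ^ 2) := by
    have : (1 - h ^ 2) * (s ^ 2 - (1 - h) ^ 2) ≤ (1 + h) * ((1 - h) * s ^ 2) := by
      have : 0 ≤ (1 - h ^ 2) * (1 - h) ^ 2 := mul_nonneg (by nlinarith) (sq_nonneg _)
      nlinarith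
    refine this.trans ?_
    gcongr
  have a2 : 0 < s ^ 3 := by positivity
  nlinarith

theorem K_nonneg (h0 : 0 ≤ h) (h1 : h < 1) (hz : z ≤ 1) : 0 ≤ Kz h z := by
  unfold Kz
  have := sz_pos h0 h1 hz
  have : 0 ≤ 1 - h ^ 2 := by nlinarith
  positivity

/-- away from the pole `K` is bounded -/
theorem K_far {c : ℝ} (h0 : 1 / 2 ≤ h) (h1 : h < 1) (hz : z ≤ 1) (hc : 0 < c) (hc1 : c ≤ 1)
    (hcz : c ≤ 1 - z + (1 - h) ^ 2) : Kz h z ≤ 1 / c ^ 2 := by
  have h0' : 0 < h := by linarith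
  have hs := sz_pos h0'.le h1 hz
  have e1 := sz_sq h0'.le h1 hz
  have e2 : c ≤ sz h z ^ 2 := by
    rw [e1]
    nlinarith [mul_nonneg (by linarith : 0 ≤ 2 * h - 1) (by linarith : 0 ≤ 1 - z)]
  unfold Kz
  have a1 : c ≤ sz h z := by
    by_contra hcc
    push Not at hcc
    nlinarith
  have a2 : c ^ 2 ≤ sz h z ^ 3 := by
    calc c ^ 2 = c * c := by ring
      _ ≤ sz h z * sz h z ^ 2 := mul_le_mul a1 e2 hc.le hs.le
      _ = _ := by ring
  rw [div_le_div_iff₀ (by positivity) (by positivity), one_mul]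
  nlinarith [sq_nonneg h, pow_pos hc 2]

theorem K_le_neg (h0 : 1 / 2 ≤ h) (h1 : h < 1) (hz : z ≤ 0) : Kz h z ≤ 1 := by
  have := K_far (c := 1) h0 h1 (by linarith) one_pos le_rfl (by nlinarith [sq_nonneg (1 - h)])
  simpa using this

end

end

end Pool.Agent.H786
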