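import Mathlib
import Pool.Agent.H786.Gb
import Pool.Agent.H786.Duh

set_option autoImplicit false
set_option linter.all false
open Set Filter Topology Polynomial
open scoped ENNReal ContDiff

namespace Pool.Agent.H786

open Pool.Agent.N535 (PK SS bil bb one_lt_bb)

noncomputable section

/-- tails -/
def Tn (h : ℝ) (n : ℕ) : ℝ := ∑' j : ℕ, ga h (n + 1 + 2 * j)
/-- second order part -/
def bt (h : ℝ) (n : ℕ) : ℝ := -(cn n * Tn h n)

section
variable {h q ρ z r e : ℝ}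

theorem tail_summ (h0 : 0 ≤ h) (h1 : h < 1) (n : ℕ) : Summable fun j : ℕ => ga h (n + 1 + 2 * j) :=
  (ga_summ h0 h1).comp_injective (i := fun j : ℕ => n + 1 + 2 * j) fun a b hab => by
    have : n + 1 + 2 * a = n + 1 + 2 * b := hab
    omega

theorem Tn_nonneg (h0 : 0 ≤ h) (n : ℕ) : 0 ≤ Tn h n := tsum_nonneg fun j => ga_nonneg h0 _

theorem Tn_rec (h0 : 0 ≤ h) (h1 : h < 1) (n : ℕ) : Tn h n = ga h (n + 1) + Tn h (n + 2) := by
  unfold Tn
  rw [(tail_summ h0 h1 n).tsum_eq_zero_add]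
  congr 1
  exact tsum_congr fun j => congrArg (ga h) (by ring)

theorem Tn_01 (h0 : 0 ≤ h) (h1 : h < 1) : Tn h 0 + Tn h 1 = ∑' n, ga h n := by
  have s0 := ga_summ h0 h1
  have i1 : Function.Injective (fun j : ℕ => 2 * j) := fun a b hab => by
    have : 2 * a = 2 * b := hab
    omega
  have i2 : Function.Injective (fun j : ℕ => 2 * j + 1) := fun a b hab => by
    have : 2 * a + 1 = 2 * b + 1 := hab
    omega
  have se : Summable fun j : ℕ => ga h (2 * j) := s0.comp_injective i1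
  have so : Summable fun j : ℕ => ga h (2 * j + 1) := s0.comp_injective i2
  rw [← tsum_even_add_odd se so]
  have e0 : Tn h 0 = ∑' j : ℕ, ga h (2 * j + 1) := tsum_congr fun j => congrArg (ga h) (by ring)
  have e1 : Tn h 1 = ∑' j : ℕ, ga h (2 * j) := by
    rw [se.tsum_eq_zero_add, mul_zero, ga_zero, zero_add]
    exact tsum_congr fun j => congrArg (ga h) (by ring)
  rw [e0, e1]; ring

theorem Tn_le_all (h0 : 0 ≤ h) (h1 : h < 1) (n : ℕ) : Tn h n ≤ ∑' m, ga h m := by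
  unfold Tn
  have i1 : Function.Injective (fun j : ℕ => n + 1 + 2 * j) := fun a b hab => by
    have : n + 1 + 2 * a = n + 1 + 2 * b := hab
    omega
  exact tsum_comp_le_tsum_of_inj (ga_summ h0 h1) (fun m => ga_nonneg h0 m) i1

theorem ga_pow4 (m : ℕ) : ga (r ^ 4) m = (r ^ 3) ^ m * ga r m := by
  unfold ga
  have : (r ^ 4) ^ m = (r ^ 3) ^ m * r ^ m := by rw [← mul_pow]; ring
  rw [this]; ring

theorem Tn_le (h0 : 0 ≤ r) (h1 : r < 1) (n : ℕ) : Tn (r ^ 4) n ≤ (r ^ 3) ^ n * ∑' m, ga r m := by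
  have h2 : r ^ 4 < 1 := pow_lt_one₀ h0 h1 (by norm_num)
  calc Tn (r ^ 4) n ≤ ∑' j : ℕ, (r ^ 3) ^ n * ga r (n + 1 + 2 * j) := by
        unfold Tn
        refine (tail_summ (by positivity) h2 n).tsum_le_tsum (fun j => ?_) ((tail_summ h0 h1 n).mul_left _)
        rw [ga_pow4]
        refine mul_le_mul_of_nonneg_right ?_ (ga_nonneg h0 _)
        exact pow_le_pow_of_le_one (by positivity) (pow_le_one₀ h0 h1.le) (by omega)
    _ = (r ^ 3) ^ n * Tn r n := by rw [tsum_mul_left]; rfl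
    _ ≤ _ := mul_le_mul_of_nonneg_left (Tn_le_all h0 h1 n) (by positivity)

/-- explicit form of `Hm` -/
theorem Hm_apply' (F : ℕ → ℝ) (n : ℕ) :
    Hm F n = be (n + 1) * F (n + 1) - if n = 0 then 0 else be (n - 1) * F (n - 1) := by
  rw [Hm_apply]
  rcases n with _ | n
  · simp [be_zero]
  · simp

theorem be_ga {n : ℕ} (hn : n ≠ 0) : be n * ga h n = h ^ n := by
  unfold ga
  rw [← mul_assoc, cn_be hn, one_mul]

theorem Hm_ga (n : ℕ) : Hm (ga h) n = h ^ (n + 1) - if n ≤ 1 then 0 else h ^ (n - 1) := by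
  rw [Hm_apply', be_ga (by omega)]
  congr 1
  rcases n with _ | _ | n
  · simp
  · simp [be_zero]
  · rw [if_neg (by omega), if_neg (by omega), be_ga (by omega)]

theorem Hm_bt (h0 : 0 ≤ h) (h1 : h < 1) (n : ℕ) :
    Hm (bt h) n = ga h n - (Tn h 0 * dl 1 n + Tn h 1 * dl 0 n) := by
  have hb : ∀ m : ℕ, m ≠ 0 → be m * bt h m = -Tn h m := by
    intro m hm
    unfold bt
    have := cn_be hm
    linear_combination (-Tn h m) * this
  rw [Hm_apply', hb _ (by omega)]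
  rcases n with _ | _ | n
  · simp only [if_true, dl, ga_zero]
    simp
  · simp only [dl]
    have := Tn_rec h0 h1 0
    simp only [zero_add] at this
    simp [be_zero]
    linarith
  · rw [if_neg (by omega), hb _ (by omega)]
    have := Tn_rec h0 h1 (n + 1)
    have e1 : n + 1 + 1 = n + 2 := rfl
    have e2 : n + 1 + 2 = n + 3 := rfl
    have e3 : n + 1 + 1 - 1 = n + 1 := rfl
    rw [e1, e2] at this
    simp only [dl]
    rw [e3, this]
    simp

/-- norm bounds -/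
theorem nR_le {q N A B : ℝ} (hq : 0 ≤ q) (hN : 0 ≤ N) {x y : ℕ → ℝ} (hx : ∀ n, q ^ n * |x n| ≤ y n)
    (hy : Summable y) (hA : ∑' n, y n ≤ A) (hB : ∀ n : ℕ, (2 * (n:ℝ) + 1) * |x n| ≤ B) :
    nR q N x ≤ ENNReal.ofReal (A + N * B) := by
  have hB0 : 0 ≤ B := le_trans (by positivity) (hB 0)
  have hy0 : ∀ n, 0 ≤ y n := fun n => le_trans (by positivity) (hx n)
  have hA0 : 0 ≤ A := (tsum_nonneg hy0).trans hA
  unfold nR nu
  rw [ENNReal.ofReal_add hA0 (by positivity), ENNReal.ofReal_mul hN]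
  refine add_le_add ?_ (mul_le_mul_right (iSup_le fun n => ?_) _)
  · calc ∑' n, ENNReal.ofReal (q ^ n) * ‖x n‖ₑ ≤ ∑' n, ENNReal.ofReal (y n) := by
          refine ENNReal.tsum_le_tsum fun n => ?_
          rw [Real.enorm_eq_ofReal_abs, ← ENNReal.ofReal_mul (by positivity)]
          exact ENNReal.ofReal_le_ofReal (hx n)
      _ = ENNReal.ofReal (∑' n, y n) := (ENNReal.ofReal_tsum_of_nonneg hy0 hy).symm
      _ ≤ _ := ENNReal.ofReal_le_ofReal hA
  · show ENNReal.ofReal (2 * (n:ℝ) + 1) * ‖x n‖ₑ ≤ _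
    rw [Real.enorm_eq_ofReal_abs, ← ENNReal.ofReal_mul (by positivity)]
    exact ENNReal.ofReal_le_ofReal (hB n)

/-- the initial data -/
def ia (e r : ℝ) (n : ℕ) : ℝ := e * ga (r ^ 4) n
def ib (e r : ℝ) (n : ℕ) : ℝ := -4 * (e * ga (r ^ 4) n) + 200 * e ^ 2 * bt (r ^ 4) n
def qq (r : ℝ) : ℝ := (r ^ 2)⁻¹

theorem qq_gt (h0 : 0 < r) (h1 : r < 1) : 1 < qq r := by
  unfold qq
  exact (one_lt_inv₀ (by positivity)).2 (pow_lt_one₀ h0.le h1 (by norm_num))
theorem qq_le (h0 : 9 / 10 ≤ r) : qq r ≤ 2 := by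
  unfold qq
  rw [inv_le_comm₀ (by positivity) (by norm_num)]
  nlinarith
theorem qq_mul (h0 : 0 < r) : qq r * r ^ 2 = 1 := inv_mul_cancel₀ (by positivity)
theorem qq_h (h0 : 0 < r) (h1 : r < 1) : qq r * r ^ 4 ≤ 1 := by
  have e1 : qq r * r ^ 4 = (qq r * r ^ 2) * r ^ 2 := by ring
  rw [e1, qq_mul h0, one_mul]
  exact pow_le_one₀ h0.le h1.le

theorem qn_ga (h0 : 0 < r) (h1 : r < 1) (n : ℕ) : qq r ^ n * ga (r ^ 4) n ≤ ga r n := by
  have e1 : qq r ^ n * ga (r ^ 4) n = cn n * (r ^ 2) ^ n := by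
    unfold ga
    have : (r ^ 4) ^ n = (r ^ 2) ^ n * (r ^ 2) ^ n := by rw [← mul_pow]; ring
    rw [this]
    have h3 : qq r ^ n * (r ^ 2) ^ n = 1 := by rw [← mul_pow, qq_mul h0, one_pow]
    linear_combination (cn n * (r ^ 2) ^ n) * h3
  rw [e1]
  unfold ga
  refine mul_le_mul_of_nonneg_left ?_ (cn_nonneg n)
  exact pow_le_pow_left₀ (by positivity) (by nlinarith) n

theorem qn_bt (h0 : 0 < r) (h1 : r < 1) (n : ℕ) :
    qq r ^ n * |bt (r ^ 4) n| ≤ (∑' m, ga r m) * ga r n := by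
  have hq : 0 < qq r := by linarith [qq_gt h0 h1]
  have e0 : |bt (r ^ 4) n| = cn n * Tn (r ^ 4) n := by
    unfold bt
    rw [abs_neg, abs_of_nonneg (mul_nonneg (cn_nonneg n) (Tn_nonneg (by positivity) n))]
  rw [e0]
  calc qq r ^ n * (cn n * Tn (r ^ 4) n) ≤ qq r ^ n * (cn n * ((r ^ 3) ^ n * ∑' m, ga r m)) := by
        refine mul_le_mul_of_nonneg_left (mul_le_mul_of_nonneg_left (Tn_le h0.le h1 n) (cn_nonneg n)) (by positivity)
    _ = (qq r ^ n * (r ^ 2) ^ n) * (cn n * (r ^ n * ∑' m, ga r m)) := by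
        have : (r ^ 3) ^ n = (r ^ 2) ^ n * r ^ n := by rw [← mul_pow]; ring
        rw [this]; ring
    _ = _ := by
        rw [← mul_pow, qq_mul h0, one_pow, one_mul]
        unfold ga; ring

theorem abs_bt (h0 : 0 < r) (h1 : r < 1) (n : ℕ) :
    (2 * (n:ℝ) + 1) * |bt (r ^ 4) n| ≤ 9 / 2 * ∑' m, ga r m := by
  have e0 : |bt (r ^ 4) n| = cn n * Tn (r ^ 4) n := by
    unfold bt
    rw [abs_neg, abs_of_nonneg (mul_nonneg (cn_nonneg n) (Tn_nonneg (by positivity) n))]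
  have hl : 0 ≤ ∑' m, ga r m := tsum_nonneg fun m => ga_nonneg h0.le m
  have h2 : Tn (r ^ 4) n ≤ ∑' m, ga r m := by
    refine (Tn_le h0.le h1 n).trans ?_
    exact mul_le_of_le_one_left hl (pow_le_one₀ (by positivity) (pow_le_one₀ h0.le h1.le))
  rw [e0, ← mul_assoc]
  exact mul_le_mul (cn_le n) h2 (Tn_nonneg (by positivity) n) (by norm_num)

theorem geo_n {h : ℝ} (h0 : 0 ≤ h) (h1 : h ≤ 1) (n : ℕ) : (n:ℝ) * h ^ (n - 1) * (1 - h) ≤ 1 := by
  rcases n with _ | n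
  · simp
  · have h2 : ((n + 1 : ℕ):ℝ) * h ^ n ≤ ∑ j ∈ Finset.range (n + 1), h ^ j := by
      calc ((n + 1 : ℕ):ℝ) * h ^ n = ∑ j ∈ Finset.range (n + 1), h ^ n := by simp
        _ ≤ _ := Finset.sum_le_sum fun j hj => pow_le_pow_of_le_one h0 h1 (by
            have := Finset.mem_range.1 hj
            omega)
    have h3 : (∑ j ∈ Finset.range (n + 1), h ^ j) * (1 - h) = 1 - h ^ (n + 1) := by
      have := geom_sum_mul h (n + 1)
      linarith
    have h4 : n + 1 - 1 = n := rfl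
    rw [h4]
    calc ((n + 1 : ℕ):ℝ) * h ^ n * (1 - h) ≤ (∑ j ∈ Finset.range (n + 1), h ^ j) * (1 - h) :=
          mul_le_mul_of_nonneg_right h2 (by linarith)
      _ = 1 - h ^ (n + 1) := h3
      _ ≤ 1 := by have : 0 ≤ h ^ (n + 1) := by positivity
                  linarith

theorem abs_Hga (h0 : 0 ≤ h) (h1 : h < 1) (n : ℕ) : (2 * (n:ℝ) + 1) * |Hm (ga h) n| ≤ 6 := by
  rw [Hm_ga]
  rcases n with _ | _ | n
  · simp only [Nat.cast_zero, mul_zero, zero_add, pow_one, zero_le_one, if_true, sub_zero, one_mul]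
    rw [abs_of_nonneg h0]; linarith
  · rw [if_pos (by omega), sub_zero, abs_of_nonneg (by positivity)]
    have : h ^ 2 ≤ 1 := pow_le_one₀ h0 h1.le
    norm_num
    linarith
  · rw [if_neg (by omega)]
    have e1 : h ^ (n + 1 + 1 + 1) - h ^ (n + 1 + 1 - 1) = -(h ^ (n + 1) * (1 - h) * (1 + h)) := by
      have : n + 1 + 1 - 1 = n + 1 := rfl
      rw [this]; ring
    have hp : 0 ≤ h ^ (n + 1) * (1 - h) * (1 + h) := by
      have : 0 ≤ 1 - h := by linarith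
      positivity
    rw [e1, abs_neg, abs_of_nonneg hp]
    have h3 := geo_n h0 h1.le (n + 2)
    have e2 : n + 2 - 1 = n + 1 := rfl
    rw [e2] at h3
    push_cast at h3 ⊢
    have h4 : 0 ≤ h ^ (n + 1) * (1 - h) := by
      have : 0 ≤ 1 - h := by linarith
      positivity
    have h5 : (2 * ((n:ℝ) + 1 + 1) + 1) ≤ 3 * ((n:ℝ) + 2) := by
      have : (0:ℝ) ≤ n := Nat.cast_nonneg n
      linarith
    calc (2 * ((n:ℝ) + 1 + 1) + 1) * (h ^ (n + 1) * (1 - h) * (1 + h))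
        ≤ (3 * ((n:ℝ) + 2)) * (h ^ (n + 1) * (1 - h) * 2) := by
          refine mul_le_mul h5 (mul_le_mul_of_nonneg_left (by linarith) h4) hp (by positivity)
      _ = 6 * (((n:ℝ) + 2) * h ^ (n + 1) * (1 - h)) := by ring
      _ ≤ 6 * 1 := by linarith
      _ = 6 := by norm_num

theorem qn_Hga (h0 : 9 / 10 ≤ r) (h1 : r < 1) (n : ℕ) : qq r ^ n * |Hm (ga (r ^ 4)) n| ≤
    (dl 0 n + dl 1 n) + 16 * ((1 - r ^ 2) * (r ^ 2) ^ n) := by
  have h0' : 0 < r := by linarith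
  have hq := qq_gt h0' h1
  have hqm := qq_mul h0'
  have hr2 : 1 / 2 ≤ r ^ 2 := by nlinarith
  have hr21 : r ^ 2 ≤ 1 := pow_le_one₀ h0'.le h1.le
  rw [Hm_ga]
  have hpos : 0 ≤ 16 * ((1 - r ^ 2) * (r ^ 2) ^ n) := by
    have : 0 ≤ 1 - r ^ 2 := by linarith
    positivity
  rcases n with _ | _ | n
  · simp only [dl] at *
    simp only [pow_zero, one_mul, zero_le_one, if_true, sub_zero, zero_add, pow_one] at *
    rw [abs_of_nonneg (by positivity)]
    have : r ^ 4 ≤ 1 := pow_le_one₀ h0'.le h1.le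
    norm_num
    linarith
  · rw [if_pos (by omega), sub_zero, abs_of_nonneg (by positivity)]
    have e1 : qq r ^ (0 + 1) * (r ^ 4) ^ (0 + 1 + 1) = r ^ 6 := by
      have : qq r ^ (0 + 1) * (r ^ 4) ^ (0 + 1 + 1) = (qq r * r ^ 2) * r ^ 6 := by ring
      rw [this, hqm, one_mul]
    rw [e1]
    have : r ^ 6 ≤ 1 := pow_le_one₀ h0'.le h1.le
    simp only [dl]
    norm_num at hpos ⊢
    linarith
  · rw [if_neg (by omega)]
    have e1 : (r ^ 4) ^ (n + 1 + 1 + 1) - (r ^ 4) ^ (n + 1 + 1 - 1) = -((r ^ 4) ^ (n + 1) * (1 - r ^ 8)) := by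
      have : n + 1 + 1 - 1 = n + 1 := rfl
      rw [this]; ring
    have hp : 0 ≤ (r ^ 4) ^ (n + 1) * (1 - r ^ 8) := by
      have : r ^ 8 ≤ 1 := pow_le_one₀ h0'.le h1.le
      have : 0 ≤ 1 - r ^ 8 := by linarith
      positivity
    rw [e1, abs_neg, abs_of_nonneg hp]
    have e2 : qq r ^ (n + 1 + 1) * ((r ^ 4) ^ (n + 1) * (1 - r ^ 8)) =
        qq r * ((r ^ 2) ^ (n + 1) * (1 - r ^ 8)) := by
      have h3 : qq r ^ (n + 1) * (r ^ 2) ^ (n + 1) = 1 := by rw [← mul_pow, hqm, one_pow]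
      have h4 : (r ^ 4) ^ (n + 1) = (r ^ 2) ^ (n + 1) * (r ^ 2) ^ (n + 1) := by rw [← mul_pow]; ring
      rw [h4, pow_succ (qq r) (n + 1)]
      linear_combination (qq r * (r ^ 2) ^ (n + 1) * (1 - r ^ 8)) * h3
    rw [e2]
    have h5 : 1 - r ^ 8 ≤ 4 * (1 - r ^ 2) := by
      have e : 1 - r ^ 8 = (1 - r ^ 2) * (1 + r ^ 2 + r ^ 4 + r ^ 6) := by ring
      have h6 : r ^ 4 ≤ 1 := pow_le_one₀ h0'.le h1.le
      have h7 : r ^ 6 ≤ 1 := pow_le_one₀ h0'.le h1.le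
      rw [e, mul_comm]
      exact mul_le_mul_of_nonneg_right (by linarith) (by linarith)
    have h8 : qq r * (r ^ 2) ^ (n + 1) ≤ 4 * (r ^ 2) ^ (n + 1 + 1) := by
      have h9 : qq r ≤ 2 := qq_le h0
      have h10 : qq r ≤ 4 * r ^ 2 := by linarith
      calc qq r * (r ^ 2) ^ (n + 1) ≤ (4 * r ^ 2) * (r ^ 2) ^ (n + 1) :=
            mul_le_mul_of_nonneg_right h10 (by positivity)
        _ = _ := by ring
    have hd : (0:ℝ) ≤ dl 0 (n + 1 + 1) + dl 1 (n + 1 + 1) := by simp [dl]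
    have : qq r * ((r ^ 2) ^ (n + 1) * (1 - r ^ 8)) ≤ 16 * ((1 - r ^ 2) * (r ^ 2) ^ (n + 1 + 1)) := by
      calc qq r * ((r ^ 2) ^ (n + 1) * (1 - r ^ 8)) = (qq r * (r ^ 2) ^ (n + 1)) * (1 - r ^ 8) := by ring
        _ ≤ (4 * (r ^ 2) ^ (n + 1 + 1)) * (4 * (1 - r ^ 2)) := by
            refine mul_le_mul h8 h5 ?_ (by positivity)
            have : r ^ 8 ≤ 1 := pow_le_one₀ h0'.le h1.le
            linarith
        _ = _ := by ring
    linarith

theorem dl_summ (i : ℕ) : Summable (dl i : ℕ → ℝ) :=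
  summable_of_ne_finset_zero (s := {i}) fun n hn => by
    have : n ≠ i := by simpa using hn
    simp [dl, this]
theorem dl_tsum (i : ℕ) : ∑' n, (dl i n : ℝ) = 1 := by
  rw [tsum_eq_single i (fun n hn => by simp [dl, hn])]
  simp [dl]

/-- size of the initial data -/
theorem ini_norm {e r : ℝ} (he : 0 ≤ e) (h0 : 9 / 10 ≤ r) (h1 : r < 1) (hl : 1 ≤ ∑' m, ga r m)
    (hs : e * ∑' m, ga r m ≤ 1) :
    nR (qq r) (∑' m, ga r m) (ia e r) + nR (qq r) (∑' m, ga r m) (ib e r) +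
      nR (qq r) (∑' m, ga r m) (Hm (ib e r)) ≤ ENNReal.ofReal (6000 * (e * ∑' m, ga r m)) := by
  have h0' : 0 < r := by linarith
  have hh1 : r ^ 4 < 1 := pow_lt_one₀ h0'.le h1 (by norm_num)
  have hq := qq_gt h0' h1
  have hq2 := qq_le h0
  set ℓ := ∑' m, ga r m with hℓ
  have hℓ0 : 0 ≤ ℓ := by linarith
  have sr := ga_summ h0'.le h1
  have heℓ : e ≤ e * ℓ := le_mul_of_one_le_right he hl
  have hT0 : Tn (r ^ 4) 0 ≤ ℓ := by simpa using Tn_le h0'.le h1 0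
  have hT1 : Tn (r ^ 4) 1 ≤ ℓ := by
    have := Tn_le h0'.le h1 1
    rw [← hℓ] at this
    exact this.trans (mul_le_of_le_one_left hℓ0 (pow_le_one₀ (by positivity) (pow_le_one₀ h0'.le h1.le)))
  have hT0' := Tn_nonneg (h := r ^ 4) (by positivity) 0
  have hT1' := Tn_nonneg (h := r ^ 4) (by positivity) 1
  -- first
  have n1 : nR (qq r) ℓ (ia e r) ≤ ENNReal.ofReal (e * ℓ + ℓ * (9 / 2 * e)) := by
    refine nR_le (by linarith) hℓ0 (y := fun n => e * ga r n) (fun n => ?_) (sr.mul_left e) ?_ (fun n => ?_)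
    · unfold ia
      rw [abs_mul, abs_of_nonneg he, abs_of_nonneg (ga_nonneg (by positivity) n)]
      have := mul_le_mul_of_nonneg_left (qn_ga h0' h1 n) he
      linarith
    · rw [tsum_mul_left]
    · unfold ia
      rw [abs_mul, abs_of_nonneg he, abs_of_nonneg (ga_nonneg (by positivity) n)]
      have h3 : (2 * (n:ℝ) + 1) * ga (r ^ 4) n ≤ 9 / 2 := by
        unfold ga
        have h4 : (r ^ 4) ^ n ≤ 1 := pow_le_one₀ (by positivity) hh1.le
        calc (2 * (n:ℝ) + 1) * (cn n * (r ^ 4) ^ n) = ((2 * (n:ℝ) + 1) * cn n) * (r ^ 4) ^ n := by ring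
          _ ≤ 9 / 2 * 1 := mul_le_mul (cn_le n) h4 (by positivity) (by norm_num)
          _ = 9 / 2 := by norm_num
      have := mul_le_mul_of_nonneg_left h3 he
      linarith
  have h3 : ∀ n : ℕ, (2 * (n:ℝ) + 1) * ga (r ^ 4) n ≤ 9 / 2 := by
    intro n
    unfold ga
    have h4 : (r ^ 4) ^ n ≤ 1 := pow_le_one₀ (by positivity) hh1.le
    calc (2 * (n:ℝ) + 1) * (cn n * (r ^ 4) ^ n) = ((2 * (n:ℝ) + 1) * cn n) * (r ^ 4) ^ n := by ring
      _ ≤ 9 / 2 * 1 := mul_le_mul (cn_le n) h4 (by positivity) (by norm_num)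
      _ = 9 / 2 := by norm_num
  -- second
  have abs2 : ∀ n, |ib e r n| ≤ 4 * e * ga (r ^ 4) n + 200 * e ^ 2 * |bt (r ^ 4) n| := by
    intro n
    unfold ib
    refine (abs_add_le _ _).trans ?_
    rw [abs_mul, abs_mul, abs_mul, abs_of_nonneg he, abs_of_nonneg (ga_nonneg (by positivity) n),
      abs_of_nonneg (by positivity : 0 ≤ 200 * e ^ 2)]
    norm_num
    linarith
  have n2 : nR (qq r) ℓ (ib e r) ≤ ENNReal.ofReal ((4 * e * ℓ + 200 * e ^ 2 * (ℓ * ℓ)) +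
      ℓ * (18 * e + 200 * e ^ 2 * (9 / 2 * ℓ))) := by
    refine nR_le (by linarith) hℓ0 (y := fun n => 4 * e * ga r n + 200 * e ^ 2 * (ℓ * ga r n)) (fun n => ?_)
      ((sr.mul_left _).add ((sr.mul_left _).mul_left _)) ?_ (fun n => ?_)
    · have a1 := qn_ga h0' h1 n
      have a2 := qn_bt h0' h1 n
      calc qq r ^ n * |ib e r n| ≤ qq r ^ n * (4 * e * ga (r ^ 4) n + 200 * e ^ 2 * |bt (r ^ 4) n|) :=
            mul_le_mul_of_nonneg_left (abs2 n) (by positivity)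
        _ = 4 * e * (qq r ^ n * ga (r ^ 4) n) + 200 * e ^ 2 * (qq r ^ n * |bt (r ^ 4) n|) := by ring
        _ ≤ _ := by gcongr
    · rw [(sr.mul_left _).tsum_add ((sr.mul_left _).mul_left _), tsum_mul_left, tsum_mul_left, tsum_mul_left]
    · have a2 := abs_bt h0' h1 n
      have a1 := h3 n
      calc (2 * (n:ℝ) + 1) * |ib e r n| ≤ (2 * (n:ℝ) + 1) * (4 * e * ga (r ^ 4) n + 200 * e ^ 2 * |bt (r ^ 4) n|) :=
            mul_le_mul_of_nonneg_left (abs2 n) (by positivity)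
        _ = 4 * e * ((2 * (n:ℝ) + 1) * ga (r ^ 4) n) + 200 * e ^ 2 * ((2 * (n:ℝ) + 1) * |bt (r ^ 4) n|) := by ring
        _ ≤ 4 * e * (9 / 2) + 200 * e ^ 2 * (9 / 2 * ℓ) := by gcongr
        _ = _ := by ring
  -- third
  have hHib : ∀ n, Hm (ib e r) n = -4 * e * Hm (ga (r ^ 4)) n + 200 * e ^ 2 * Hm (bt (r ^ 4)) n := by
    intro n
    rw [Hm_apply', Hm_apply', Hm_apply']
    unfold ib
    split_ifs <;> ring
  have abs3 : ∀ n, |Hm (ib e r) n| ≤ 4 * e * |Hm (ga (r ^ 4)) n| +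
      200 * e ^ 2 * (ga (r ^ 4) n + ℓ * dl 1 n + ℓ * dl 0 n) := by
    intro n
    rw [hHib n]
    refine (abs_add_le _ _).trans ?_
    rw [abs_mul, abs_mul, abs_mul, abs_of_nonneg he, abs_of_nonneg (by positivity : 0 ≤ 200 * e ^ 2)]
    have hd0 : (0:ℝ) ≤ dl 0 n := by unfold dl; split_ifs <;> norm_num
    have hd1 : (0:ℝ) ≤ dl 1 n := by unfold dl; split_ifs <;> norm_num
    have hg := ga_nonneg (h := r ^ 4) (by positivity) n
    have : |Hm (bt (r ^ 4)) n| ≤ ga (r ^ 4) n + ℓ * dl 1 n + ℓ * dl 0 n := by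
      rw [Hm_bt (by positivity) hh1]
      have a1 : Tn (r ^ 4) 0 * dl 1 n ≤ ℓ * dl 1 n := mul_le_mul_of_nonneg_right hT0 hd1
      have a2 : Tn (r ^ 4) 1 * dl 0 n ≤ ℓ * dl 0 n := mul_le_mul_of_nonneg_right hT1 hd0
      have a3 : 0 ≤ Tn (r ^ 4) 0 * dl 1 n := mul_nonneg hT0' hd1
      have a4 : 0 ≤ Tn (r ^ 4) 1 * dl 0 n := mul_nonneg hT1' hd0
      rw [abs_le]
      constructor <;> linarith
    have e4 : |(-4:ℝ)| = 4 := by norm_num
    rw [e4]
    gcongr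
  have sg : Summable fun n : ℕ => (1 - r ^ 2) * (r ^ 2) ^ n :=
    (summable_geometric_of_lt_one (by positivity) (by nlinarith)).mul_left _
  have sgv : ∑' n : ℕ, (1 - r ^ 2) * (r ^ 2) ^ n = 1 := by
    rw [tsum_mul_left, tsum_geometric_of_lt_one (by positivity) (by nlinarith)]
    exact mul_inv_cancel₀ (by nlinarith)
  have n3 : nR (qq r) ℓ (Hm (ib e r)) ≤ ENNReal.ofReal ((4 * e * 18 + 200 * e ^ 2 * (ℓ + 2 * ℓ + ℓ)) +
      ℓ * (4 * e * 6 + 200 * e ^ 2 * (9 / 2 + 3 * ℓ + 3 * ℓ))) := by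
    refine nR_le (by linarith) hℓ0 (y := fun n => 4 * e * ((dl 0 n + dl 1 n) + 16 * ((1 - r ^ 2) * (r ^ 2) ^ n)) +
      200 * e ^ 2 * (ga r n + 2 * ℓ * dl 1 n + ℓ * dl 0 n)) (fun n => ?_)
      (((((dl_summ 0).add (dl_summ 1)).add (sg.mul_left 16)).mul_left _).add
        (((sr.add ((dl_summ 1).mul_left _)).add ((dl_summ 0).mul_left _)).mul_left _)) ?_ (fun n => ?_)
    · have a1 := qn_ga h0' h1 n
      have a2 := qn_Hga h0 h1 n
      have a3 : qq r ^ n * (ℓ * dl 1 n) ≤ 2 * ℓ * dl 1 n := by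
        by_cases hn : n = 1
        · subst hn; simp [dl]; nlinarith
        · simp [dl, hn]
      have a4 : qq r ^ n * (ℓ * dl 0 n) ≤ ℓ * dl 0 n := by
        by_cases hn : n = 0
        · subst hn; simp [dl]
        · simp [dl, hn]
      calc qq r ^ n * |Hm (ib e r) n| ≤ qq r ^ n * (4 * e * |Hm (ga (r ^ 4)) n| +
            200 * e ^ 2 * (ga (r ^ 4) n + ℓ * dl 1 n + ℓ * dl 0 n)) :=
            mul_le_mul_of_nonneg_left (abs3 n) (by positivity)
        _ = 4 * e * (qq r ^ n * |Hm (ga (r ^ 4)) n|) + 200 * e ^ 2 * (qq r ^ n * ga (r ^ 4) n +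
            qq r ^ n * (ℓ * dl 1 n) + qq r ^ n * (ℓ * dl 0 n)) := by ring
        _ ≤ _ := by gcongr
    · rw [((((dl_summ 0).add (dl_summ 1)).add (sg.mul_left 16)).mul_left _).tsum_add
        (((sr.add ((dl_summ 1).mul_left _)).add ((dl_summ 0).mul_left _)).mul_left _),
        tsum_mul_left, tsum_mul_left, ((dl_summ 0).add (dl_summ 1)).tsum_add (sg.mul_left 16),
        (dl_summ 0).tsum_add (dl_summ 1), tsum_mul_left, sgv,
        (sr.add ((dl_summ 1).mul_left _)).tsum_add ((dl_summ 0).mul_left _),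
        sr.tsum_add ((dl_summ 1).mul_left _), tsum_mul_left, tsum_mul_left, dl_tsum, dl_tsum]
      apply le_of_eq
      ring
    · have a1 := h3 n
      have a2 := abs_Hga (h := r ^ 4) (by positivity) hh1 n
      have a3 : (2 * (n:ℝ) + 1) * (ℓ * dl 1 n) ≤ 3 * ℓ := by
        by_cases hn : n = 1
        · subst hn; simp [dl]; linarith
        · simp [dl, hn]; linarith
      have a4 : (2 * (n:ℝ) + 1) * (ℓ * dl 0 n) ≤ 3 * ℓ := by
        by_cases hn : n = 0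
        · subst hn; simp [dl]; linarith
        · simp [dl, hn]; linarith
      calc (2 * (n:ℝ) + 1) * |Hm (ib e r) n| ≤ (2 * (n:ℝ) + 1) * (4 * e * |Hm (ga (r ^ 4)) n| +
            200 * e ^ 2 * (ga (r ^ 4) n + ℓ * dl 1 n + ℓ * dl 0 n)) :=
            mul_le_mul_of_nonneg_left (abs3 n) (by positivity)
        _ = 4 * e * ((2 * (n:ℝ) + 1) * |Hm (ga (r ^ 4)) n|) + 200 * e ^ 2 * ((2 * (n:ℝ) + 1) * ga (r ^ 4) n +
            (2 * (n:ℝ) + 1) * (ℓ * dl 1 n) + (2 * (n:ℝ) + 1) * (ℓ * dl 0 n)) := by ring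
        _ ≤ _ := by gcongr
  refine (add_le_add (add_le_add n1 n2) n3).trans ?_
  rw [← ENNReal.ofReal_add (by positivity) (by positivity), ← ENNReal.ofReal_add (by positivity) (by positivity)]
  refine ENNReal.ofReal_le_ofReal ?_
  set x := e * ℓ with hx
  have hx0 : 0 ≤ x := by positivity
  have hx2 : x * x ≤ x := mul_le_of_le_one_left hx0 hs
  have hex : e * x ≤ x * x := mul_le_mul_of_nonneg_right heℓ hx0
  have : e * ℓ + ℓ * (9 / 2 * e) + ((4 * e * ℓ + 200 * e ^ 2 * (ℓ * ℓ)) +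
      ℓ * (18 * e + 200 * e ^ 2 * (9 / 2 * ℓ))) + ((4 * e * 18 + 200 * e ^ 2 * (ℓ + 2 * ℓ + ℓ)) +
      ℓ * (4 * e * 6 + 200 * e ^ 2 * (9 / 2 + 3 * ℓ + 3 * ℓ))) =
      (1 + 9 / 2 + 4 + 18 + 24) * x + (200 + 900 + 1200) * (x * x) + 72 * e + 1700 * (e * x) := by
    rw [hx]; ring
  rw [this]
  nlinarith

end

end

end Pool.Agent.H786
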