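import Mathlib
import Pool.Agent.H786.Idt

set_option autoImplicit false
set_option linter.all false
open Set Filter Topology Polynomial
open scoped ENNReal ContDiff

namespace Pool.Agent.H786

open Pool.Agent.N535 (PK SS bil bb one_lt_bb)

noncomputable section

/-- half of the scalar curvature -/
def RhF (x m m1 m2 k1 k2 : ℝ) : ℝ :=
  3 * m ^ 2 * (1 + (1 - x ^ 2) * k1) + 8 * m * (1 + (1 - x ^ 2) * k1) * ((1 - x ^ 2) * m2 - 2 * x * m1)
    - 12 * (1 + (1 - x ^ 2) * k1) * ((1 - x ^ 2) * m1 ^ 2) + 2 * x * m ^ 2 * (-2 * x * k1 + (1 - x ^ 2) * k2)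
    + 4 * ((1 - x ^ 2) * (m * m1 * (-2 * x * k1 + (1 - x ^ 2) * k2)))

/-- algebra of the lower bound -/
theorem algR {z m G1 g K Y e T0 c : ℝ} (he : 0 ≤ e) (he1 : e ≤ 1) (hc : 1 ≤ c) (hce : c * e ≤ 1 / 4)
    (hz1 : -1 ≤ z) (hz2 : z ≤ 1) (hm1 : 1 - c * e ≤ m) (hm2 : m ≤ 2) (hY1 : 1 - c * e ≤ Y) (hY2 : Y ≤ 2)
    (hg0 : 0 ≤ g) (hg4 : g ≤ 4) (hG0 : 0 ≤ G1) (hG2 : z ≤ 1 / 2 → G1 ≤ 2)
    (hQ : -c ≤ K * (-Y + z * m + 2 * e * g)) (hT0 : 0 ≤ T0) (hT1 : e * T0 ≤ 1) :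
    3 - (25 * c + 12000) * e ≤ 3 * m ^ 2 * Y + 8 * m * Y * (e * (1 - K)) - 12 * Y * ((e * g) * (e * G1))
      + 2 * z * m ^ 2 * (-4 * e * (1 - K) + 200 * e ^ 2 * (G1 - T0))
      + 4 * (m * (e * g) * (-4 * e * (1 - K) + 200 * e ^ 2 * (G1 - T0))) := by
  have hm : 3 / 4 ≤ m := by linarith
  have hY : 3 / 4 ≤ Y := by linarith
  have hm0 : 0 < m := by linarith
  have key : 3 * m ^ 2 * Y + 8 * m * Y * (e * (1 - K)) - 12 * Y * ((e * g) * (e * G1))
      + 2 * z * m ^ 2 * (-4 * e * (1 - K) + 200 * e ^ 2 * (G1 - T0))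
      + 4 * (m * (e * g) * (-4 * e * (1 - K) + 200 * e ^ 2 * (G1 - T0))) =
      3 * m ^ 2 * Y + 8 * m * Y * e + 8 * m * e * (K * (-Y + z * m + 2 * e * g))
      + e ^ 2 * G1 * (400 * z * m ^ 2 - 12 * Y * g) + 800 * (m * g * G1 * e ^ 3) - 8 * e * (z * m ^ 2)
      - 400 * e * (e * T0) * (z * m ^ 2) - 16 * (m * g) * e ^ 2 - 800 * (m * g) * e ^ 2 * (e * T0) := by ring
  rw [key]
  have t1 : 3 - 9 * (c * e) ≤ 3 * m ^ 2 * Y := by
    set u := c * e with hu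
    have hu0 : 0 ≤ u := by positivity
    have a1 : 1 - 2 * u ≤ m ^ 2 := by nlinarith
    have a2 : (1 - 2 * u) * (1 - u) ≤ m ^ 2 * Y := mul_le_mul a1 hY1 (by linarith) (by positivity)
    nlinarith
  have t2 : 0 ≤ 8 * m * Y * e := by positivity
  have t3 : -(16 * c * e) ≤ 8 * m * e * (K * (-Y + z * m + 2 * e * g)) := by
    have a1 : 8 * m * e * (-c) ≤ 8 * m * e * (K * (-Y + z * m + 2 * e * g)) :=
      mul_le_mul_of_nonneg_left hQ (by positivity)
    have a2 : m * (e * c) ≤ 2 * (e * c) := mul_le_mul_of_nonneg_right hm2 (by positivity)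
    linarith
  have hm24 : m ^ 2 ≤ 4 := by nlinarith
  have hzm : |z * m ^ 2| ≤ 4 := by
    rw [abs_mul, abs_of_nonneg (by positivity : 0 ≤ m ^ 2)]
    have := abs_le.2 ⟨hz1, hz2⟩
    calc |z| * m ^ 2 ≤ 1 * 4 := mul_le_mul this hm24 (by positivity) zero_le_one
      _ = 4 := by norm_num
  obtain ⟨z1, z2⟩ := abs_le.1 hzm
  have he2 : e ^ 2 ≤ e := by nlinarith
  have t4 : -(3392 * e) ≤ e ^ 2 * G1 * (400 * z * m ^ 2 - 12 * Y * g) := by
    have hYg : Y * g ≤ 8 := by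
      calc Y * g ≤ 2 * 4 := mul_le_mul hY2 hg4 hg0 (by norm_num)
        _ = 8 := by norm_num
    by_cases h : z ≤ 1 / 2
    · have h2 := hG2 h
      have a1 : -(1696) ≤ 400 * z * m ^ 2 - 12 * Y * g := by linarith
      have a2 : 0 ≤ e ^ 2 * G1 := by positivity
      have a3 : e ^ 2 * G1 ≤ e * 2 := mul_le_mul he2 h2 hG0 he
      nlinarith
    · push Not at h
      have a1 : 0 ≤ 400 * z * m ^ 2 - 12 * Y * g := by
        have b1 : 9 / 16 ≤ m ^ 2 := by nlinarith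
        have b2 : 1 / 2 * (9 / 16) ≤ z * m ^ 2 := mul_le_mul h.le b1 (by norm_num) (by linarith)
        linarith
      have : 0 ≤ e ^ 2 * G1 * (400 * z * m ^ 2 - 12 * Y * g) := by positivity
      linarith
  have t5 : 0 ≤ 800 * (m * g * G1 * e ^ 3) := by positivity
  have t6 : 8 * e * (z * m ^ 2) ≤ 32 * e := by nlinarith
  have heT : 0 ≤ e * T0 := by positivity
  have t7 : 400 * e * (e * T0) * (z * m ^ 2) ≤ 1600 * e := by
    have a1 : e * (e * T0) * (z * m ^ 2) ≤ e * (e * T0) * 4 := mul_le_mul_of_nonneg_left z2 (by positivity)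
    have a2 : e * (e * T0) ≤ e * 1 := mul_le_mul_of_nonneg_left hT1 he
    nlinarith
  have hmg : m * g ≤ 8 := by
    calc m * g ≤ 2 * 4 := mul_le_mul hm2 hg4 hg0 (by norm_num)
      _ = 8 := by norm_num
  have hmg0 : 0 ≤ m * g := by positivity
  have t8 : 16 * (m * g) * e ^ 2 ≤ 128 * e := by
    have : (m * g) * e ^ 2 ≤ 8 * e := mul_le_mul hmg he2 (by positivity) (by norm_num)
    linarith
  have t9 : 800 * (m * g) * e ^ 2 * (e * T0) ≤ 6400 * e := by
    have a1 : (m * g) * e ^ 2 ≤ 8 * e := mul_le_mul hmg he2 (by positivity) (by norm_num)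
    have a2 : (m * g) * e ^ 2 * (e * T0) ≤ 8 * e * 1 := mul_le_mul a1 hT1 heT (by positivity)
    linarith
  linarith

section
variable {h q ρ z r e α ca : ℝ}

/-- the coefficient of the kernel -/
theorem algQ (hca : 0 ≤ ca) : ∃ e₀ : ℝ, 0 < e₀ ∧ e₀ ≤ 1 / 400 ∧ (ca + 3) * e₀ ≤ 1 / 4 ∧
    ∀ {h z e α G K g B T0 T1 L Y m : ℝ}, 1 / 2 ≤ h → h < 1 → -1 ≤ z → z ≤ 1 → 0 < e → e ≤ e₀ →
    |α| ≤ ca * e → -Real.log (1 - z + (1 - h) ^ 2) - 1 ≤ G → -3 ≤ G → G ≤ T0 + T1 → e * G ≤ 1 / 2 →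
    K = Kz h z → 0 ≤ g → 0 ≤ T0 → e * T0 ≤ 1 / 2 →
    Y = 1 - 4 * e * g + 200 * e ^ 2 * (G - T0 * z - T1) → m = 1 + α + e * G →
    -4 ≤ K * (-Y + z * m + 2 * e * g) := by
  set κ := Real.exp (-1 - ca) with hκ
  have hκ0 : 0 < κ := Real.exp_pos _
  have hκ1 : κ ≤ 1 := Real.exp_le_one_iff.2 (by linarith)
  refine ⟨min (1 / 400) (κ ^ 2 / (4 * (2 * ca + 3))), by positivity, min_le_left _ _, ?_, ?_⟩
  · have h1 : min (1 / 400) (κ ^ 2 / (4 * (2 * ca + 3))) ≤ κ ^ 2 / (4 * (2 * ca + 3)) := min_le_right _ _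
    have h2 : κ ^ 2 ≤ 1 := pow_le_one₀ hκ0.le hκ1
    calc (ca + 3) * min (1 / 400) (κ ^ 2 / (4 * (2 * ca + 3))) ≤ (ca + 3) * (κ ^ 2 / (4 * (2 * ca + 3))) := by gcongr
      _ ≤ (2 * ca + 3) * (1 / (4 * (2 * ca + 3))) := by gcongr; linarith
      _ = 1 / 4 := by field_simp
  · intro h z e α G K g B T0 T1 L Y m hh hh1 hz1 hz2 he he0 hα hG hG3 hGT heG hK hg hT0 heT hY hm
    have he4 : e ≤ 1 / 400 := he0.trans (min_le_left _ _)
    have heκ : e * (4 * (2 * ca + 3)) ≤ κ ^ 2 := by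
      have := he0.trans (min_le_right _ _)
      rwa [le_div_iff₀ (by positivity)] at this
    have hK0 : 0 ≤ K := by rw [hK]; exact K_nonneg (by linarith) hh1 hz2
    have hK1 : K * (1 - z) ≤ 3 / 2 := by rw [hK]; exact K_mul hh hh1 hz2
    obtain ⟨α1, α2⟩ := abs_le.1 hα
    have hcae : 0 ≤ ca * e := by positivity
    have hG3e : e * (-3) ≤ e * G := mul_le_mul_of_nonneg_left hG3 he.le
    have hce : ca * e ≤ 1 / 4 := by
      have : κ ^ 2 ≤ 1 := pow_le_one₀ hκ0.le hκ1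
      linarith
    have e1 : K * (-Y + z * m + 2 * e * g) = -(K * (1 - z)) + 6 * (e * (g * K)) +
        200 * e ^ 2 * (K * (T0 + T1 - G)) - 200 * e * (e * T0) * (K * (1 - z)) + K * (z * (α + e * G)) := by
      rw [hY, hm]; ring
    rw [e1]
    have s1 : 0 ≤ 6 * (e * (g * K)) := by positivity
    have s2 : 0 ≤ 200 * e ^ 2 * (K * (T0 + T1 - G)) := by
      have : 0 ≤ T0 + T1 - G := by linarith
      positivity
    have hKz : 0 ≤ K * (1 - z) := mul_nonneg hK0 (by linarith)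
    have s3 : 200 * e * (e * T0) * (K * (1 - z)) ≤ 1 := by
      have a1 : 200 * e ≤ 1 / 2 := by linarith
      have a2 : 200 * e * (e * T0) ≤ 1 / 2 * (1 / 2) := mul_le_mul a1 heT (by positivity) (by norm_num)
      calc 200 * e * (e * T0) * (K * (1 - z)) ≤ (1 / 2 * (1 / 2)) * (3 / 2) :=
            mul_le_mul a2 hK1 hKz (by norm_num)
        _ ≤ 1 := by norm_num
    have s4 : -1 ≤ K * (z * (α + e * G)) := by
      by_cases hz : z ≤ 0
      · have k1 : K ≤ 1 := by rw [hK]; exact K_le_neg hh hh1 hz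
        have a1 : |z * (α + e * G)| ≤ 1 := by
          rw [abs_mul]
          have b1 : |z| ≤ 1 := abs_le.2 ⟨hz1, hz2⟩
          have b2 : |α + e * G| ≤ 1 := by
            rw [abs_le]
            constructor <;> linarith
          calc |z| * |α + e * G| ≤ 1 * 1 := mul_le_mul b1 b2 (abs_nonneg _) zero_le_one
            _ = 1 := one_mul 1
        have a2 := (abs_le.1 a1).1
        by_cases hs : 0 ≤ z * (α + e * G)
        · have := mul_nonneg hK0 hs; linarith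
        · push Not at hs; nlinarith
      · push Not at hz
        by_cases hGc : ca ≤ G
        · have : 0 ≤ α + e * G := by
            have := mul_le_mul_of_nonneg_left hGc he.le
            linarith
          have : 0 ≤ K * (z * (α + e * G)) := by positivity
          linarith
        · push Not at hGc
          have hw : κ ≤ 1 - z + (1 - h) ^ 2 := by
            have p : 0 < 1 - z + (1 - h) ^ 2 := by
              have : 0 < (1 - h) ^ 2 := by
                have : 0 < 1 - h := by linarith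
                positivity
              linarith
            rw [hκ, ← Real.le_log_iff_exp_le p]
            linarith
          have k1 : K ≤ 1 / κ ^ 2 := by rw [hK]; exact K_far hh hh1 hz2 hκ0 hκ1 hw
          have a1 : |z * (α + e * G)| ≤ (2 * ca + 3) * e := by
            rw [abs_mul]
            have b1 : |z| ≤ 1 := abs_le.2 ⟨hz1, hz2⟩
            have b2 : |α + e * G| ≤ (2 * ca + 3) * e := by
              have := mul_le_mul_of_nonneg_left hGc.le he.le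
              rw [abs_le]
              constructor
              · linarith
              · linarith
            calc |z| * |α + e * G| ≤ 1 * ((2 * ca + 3) * e) := mul_le_mul b1 b2 (abs_nonneg _) zero_le_one
              _ = _ := one_mul _
          have a2 : |K * (z * (α + e * G))| ≤ 1 := by
            rw [abs_mul, abs_of_nonneg hK0]
            calc K * |z * (α + e * G)| ≤ 1 / κ ^ 2 * ((2 * ca + 3) * e) :=
                  mul_le_mul k1 a1 (abs_nonneg _) (by positivity)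
              _ ≤ 1 := by
                  rw [div_mul_eq_mul_div, one_mul, div_le_one (by positivity)]
                  linarith
          exact (abs_le.1 a2).1
    linarith

/-- the sequences at time zero -/
theorem evk_ia (k : ℕ) (z : ℝ) : evk k (ia e r) z = e * evk k (ga (r ^ 4)) z := by
  have : ia e r = fun n => e • ga (r ^ 4) n := rfl
  rw [this, evk_smul]

theorem SS_bt (h0 : 0 < r) (h1 : r < 1) : SS (qq r) (bt (r ^ 4)) := by
  intro s hs1 hs2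
  have := (ga_summ h0.le h1).mul_left (∑' m, ga r m)
  refine Summable.of_nonneg_of_le (fun n => by positivity) (fun n => ?_) this
  refine le_trans ?_ (qn_bt h0 h1 n)
  rw [Real.norm_eq_abs]
  exact mul_le_mul_of_nonneg_right (pow_le_pow_left₀ (by linarith) hs2.le n) (abs_nonneg _)

theorem SS_ib (h0 : 0 < r) (h1 : r < 1) : SS (qq r) (ib e r) := by
  have s1 := ((SS_ga (h := r ^ 4) (by positivity) (qq_h h0 h1)).smul (-4 * e)).add ((SS_bt h0 h1).smul (200 * e ^ 2))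
  have : ib e r = fun n => (-4 * e) • ga (r ^ 4) n + (200 * e ^ 2) • bt (r ^ 4) n := by
    funext n; simp only [ib, smul_eq_mul]; ring
  rw [this]; exact s1

theorem ib_eq : ib e r = fun n => (-4 * e) • ga (r ^ 4) n + (200 * e ^ 2) • bt (r ^ 4) n := by
  funext n; simp only [ib, smul_eq_mul]; ring

theorem evk_ib (h0 : 0 < r) (h1 : r < 1) (hρ : 1 < ρ) (hq : ρ < qq r) (k : ℕ) (hz : |z| ≤ bb ρ) :
    evk k (ib e r) z = -4 * e * evk k (ga (r ^ 4)) z + 200 * e ^ 2 * evk k (bt (r ^ 4)) z := by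
  rw [ib_eq, evk_add hρ.le hq ((SS_ga (h := r ^ 4) (by positivity) (qq_h h0 h1)).smul (-4 * e))
    ((SS_bt h0 h1).smul (200 * e ^ 2)) k hz, evk_smul, evk_smul]

theorem bt_one (h0 : 0 < r) (h1 : r < 1) (hρ : 1 < ρ) (hq : ρ < qq r) (hz : |z| ≤ bb ρ) :
    (1 - z ^ 2) * evk 1 (bt (r ^ 4)) z = evk 0 (ga (r ^ 4)) z - (Tn (r ^ 4) 0 * z + Tn (r ^ 4) 1) := by
  have hh : (0:ℝ) ≤ r ^ 4 := by positivity
  have hh1 : r ^ 4 < 1 := pow_lt_one₀ h0.le h1 (by norm_num)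
  rw [← ev_Hm hρ.le hq (SS_bt h0 h1) hz]
  have e1 : Hm (bt (r ^ 4)) = fun n => ga (r ^ 4) n - ((Tn (r ^ 4) 0) • dl 1 n + (Tn (r ^ 4) 1) • dl 0 n) := by
    funext n; rw [Hm_bt hh hh1]; simp only [smul_eq_mul]
  rw [e1, evk_sub hρ.le hq (SS_ga hh (qq_h h0 h1)) (((SS_dl _ 1).smul _).add ((SS_dl _ 0).smul _)) 0 hz,
    evk_add hρ.le hq ((SS_dl _ 1).smul _) ((SS_dl _ 0).smul _) 0 hz, evk_smul, evk_smul, tsum_sv_dl, tsum_sv_dl,
    sv0_0, sv0_1]
  ring

theorem bt_two (h0 : 0 < r) (h1 : r < 1) (hρ : 1 < ρ) (hq : ρ < qq r) (hz : |z| < bb ρ) :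
    -2 * z * evk 1 (bt (r ^ 4)) z + (1 - z ^ 2) * evk 2 (bt (r ^ 4)) z =
      evk 1 (ga (r ^ 4)) z - Tn (r ^ 4) 0 := by
  have hh : (0:ℝ) ≤ r ^ 4 := by positivity
  have d1 : HasDerivAt (fun x => (1 - x ^ 2) * evk 1 (bt (r ^ 4)) x)
      (-2 * z * evk 1 (bt (r ^ 4)) z + (1 - z ^ 2) * evk 2 (bt (r ^ 4)) z) z := by
    have e1 := (((hasDerivAt_id z).pow 2).const_sub 1).mul (evk_deriv hρ hq (SS_bt h0 h1) 1 hz)
    refine (e1.congr_of_eventuallyEq (Filter.Eventually.of_forall fun x => rfl)).congr_deriv ?_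
    simp only [id, Pi.pow_apply, Nat.reduceSub, pow_one, Nat.cast_ofNat, Nat.reduceAdd]
    ring
  have d2 : HasDerivAt (fun x => evk 0 (ga (r ^ 4)) x - (Tn (r ^ 4) 0 * x + Tn (r ^ 4) 1))
      (evk 1 (ga (r ^ 4)) z - Tn (r ^ 4) 0) z := by
    have e1 := (evk_deriv hρ hq (SS_ga hh (qq_h h0 h1)) 0 hz).sub
      (((hasDerivAt_id z).const_mul (Tn (r ^ 4) 0)).add_const (Tn (r ^ 4) 1))
    refine (e1.congr_of_eventuallyEq (Filter.Eventually.of_forall fun x => rfl)).congr_deriv ?_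
    simp
  have hev : (fun x => (1 - x ^ 2) * evk 1 (bt (r ^ 4)) x) =ᶠ[𝓝 z]
      fun x => evk 0 (ga (r ^ 4)) x - (Tn (r ^ 4) 0 * x + Tn (r ^ 4) 1) := by
    have : ∀ᶠ x in 𝓝 z, |x| < bb ρ := continuous_abs.continuousAt.eventually_lt continuousAt_const hz
    filter_upwards [this] with x hx using bt_one h0 h1 hρ hq hx.le
  exact (d1.congr_of_eventuallyEq hev.symm).unique d2

theorem ib_one (h0 : 0 < r) (h1 : r < 1) (hρ : 1 < ρ) (hq : ρ < qq r) (hz : z ∈ Icc (-1:ℝ) 1) :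
    (1 - z ^ 2) * evk 1 (ib e r) z = -4 * e * gz (r ^ 4) z +
      200 * e ^ 2 * (evk 0 (ga (r ^ 4)) z - Tn (r ^ 4) 0 * z - Tn (r ^ 4) 1) := by
  have hh : (0:ℝ) < r ^ 4 := by positivity
  have hh1 : r ^ 4 < 1 := pow_lt_one₀ h0.le h1 (by norm_num)
  have hb := (bbI hρ hz).le
  rw [evk_ib h0 h1 hρ hq 1 hb]
  have e1 := bt_one h0 h1 hρ hq hb
  have e2 := gen_g hh hh1 (qq_h h0 h1) hρ hq hz
  linear_combination (200 * e ^ 2) * e1 - (4 * e) * e2

theorem ib_two (h0 : 0 < r) (h1 : r < 1) (hρ : 1 < ρ) (hq : ρ < qq r) (hz : z ∈ Icc (-1:ℝ) 1) :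
    -2 * z * evk 1 (ib e r) z + (1 - z ^ 2) * evk 2 (ib e r) z = -4 * e * (1 - Kz (r ^ 4) z) +
      200 * e ^ 2 * (evk 1 (ga (r ^ 4)) z - Tn (r ^ 4) 0) := by
  have hh : (0:ℝ) < r ^ 4 := by positivity
  have hh1 : r ^ 4 < 1 := pow_lt_one₀ h0.le h1 (by norm_num)
  have hb := (bbI hρ hz)
  rw [evk_ib h0 h1 hρ hq 1 hb.le, evk_ib h0 h1 hρ hq 2 hb.le]
  have e1 := bt_two h0 h1 hρ hq hb
  have e2 := gen_lmul hh.le hh1 (qq_h h0 h1) hρ hq hz
  rw [evk_lmul hρ.le hq (SS_ga hh.le (qq_h h0 h1)) hb.le] at e2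
  linear_combination (200 * e ^ 2) * e1 + (4 * e) * e2

end

end

end Pool.Agent.H786
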