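import Mathlib
import Pool.Agent.H786.Ivl

set_option autoImplicit false
set_option linter.all false
open Set Filter Topology Polynomial
open scoped ENNReal ContDiff

namespace Pool.Agent.H786

open Pool.Agent.N535 (PK SS bil bb one_lt_bb)

noncomputable section

theorem RhF_contOn {X : Type} [TopologicalSpace X] {s : Set X} {f0 f1 f2 f3 f4 f5 : X → ℝ}
    (h0 : ContinuousOn f0 s) (h1 : ContinuousOn f1 s) (h2 : ContinuousOn f2 s) (h3 : ContinuousOn f3 s)
    (h4 : ContinuousOn f4 s) (h5 : ContinuousOn f5 s) :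
    ContinuousOn (fun x => RhF (f0 x) (f1 x) (f2 x) (f3 x) (f4 x) (f5 x)) s := by
  unfold RhF
  fun_prop

section
variable {h q ρ z r e α ca : ℝ}

theorem evk_contOn (hρ : 1 < ρ) (hq : ρ < q) {x : ℕ → ℝ} (hx : SS q x) (k : ℕ) :
    ContinuousOn (evk k x) (Icc (-1:ℝ) 1) := fun z hz =>
  (evk_deriv hρ hq hx k (bbI hρ hz)).continuousAt.continuousWithinAt

theorem SS_ia (h0 : 0 < r) (h1 : r < 1) : SS (qq r) (ia e r) :=
  (SS_ga (h := r ^ 4) (by positivity) (qq_h h0 h1)).smul e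

set_option maxHeartbeats 400000 in
/-- bounds of the initial data -/
theorem ini_bounds (hca : 0 ≤ ca) : ∃ C e₀ : ℝ, 1 ≤ C ∧ 0 < e₀ ∧ C * e₀ ≤ 1 / 4 ∧
    ∀ {r e α ρ : ℝ}, 9 / 10 ≤ r → r < 1 → 0 < e → e ≤ e₀ → (e * ∑' n, ga r n) ≤ 1 / 2 → |α| ≤ ca * e →
    1 < ρ → ρ < qq r → ∀ z ∈ Icc (-1:ℝ) 1,
      1 - C * e ≤ 1 + (α + evk 0 (ia e r) z) ∧ 1 - C * e ≤ 1 + (1 - z ^ 2) * evk 1 (ib e r) z ∧
      3 - C * e ≤ RhF z (1 + (α + evk 0 (ia e r) z)) (evk 1 (ia e r) z) (evk 2 (ia e r) z)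
        (evk 1 (ib e r) z) (evk 2 (ib e r) z) := by
  obtain ⟨e₁, he1, he2, he3, hQ⟩ := algQ hca
  set c : ℝ := ca + 220 with hc
  refine ⟨25 * c + 12000, min e₁ (1 / (4 * (25 * c + 12000))), by linarith, by positivity, ?_, ?_⟩
  · have hp : 0 < 25 * c + 12000 := by positivity
    calc (25 * c + 12000) * min e₁ (1 / (4 * (25 * c + 12000))) ≤ (25 * c + 12000) * (1 / (4 * (25 * c + 12000))) :=
          mul_le_mul_of_nonneg_left (min_le_right _ _) hp.le
      _ = 1 / 4 := by field_simp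
  intro r e α ρ hr0 hr1 he hee hel hα hρ hq z hz
  have h0 : 0 < r := by linarith
  have he1' : e ≤ e₁ := hee.trans (min_le_left _ _)
  have he400 : e ≤ 1 / 400 := he1'.trans he2
  have hCe : (25 * c + 12000) * e ≤ 1 / 4 := by
    have := hee.trans (min_le_right _ _)
    rw [le_div_iff₀ (by positivity)] at this
    linarith
  have hce : c * e ≤ 1 / 4 := by nlinarith
  have hca3 : (ca + 3) * e ≤ 1 / 4 := by nlinarith
  have hh : (0:ℝ) < r ^ 4 := by positivity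
  have hh1 : r ^ 4 < 1 := pow_lt_one₀ h0.le hr1 (by norm_num)
  have hhh : 1 / 2 ≤ r ^ 4 := by
    have : (9 / 10 : ℝ) ^ 4 ≤ r ^ 4 := pow_le_pow_left₀ (by norm_num) hr0 4
    norm_num at this; linarith
  have hqh := qq_h h0 hr1
  set ℓ := ∑' n, ga r n with hℓ
  have hgar : ∀ n, ga (r ^ 4) n ≤ ga r n := fun n => by
    rw [ga_pow4]
    exact mul_le_of_le_one_left (ga_nonneg h0.le n) (pow_le_one₀ (by positivity) (pow_le_one₀ h0.le hr1.le))
  have hℓ4 : ∑' n, ga (r ^ 4) n ≤ ℓ := (ga_summ hh.le hh1).tsum_le_tsum hgar (ga_summ h0.le hr1)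
  have hℓ0 : 0 ≤ ∑' n, ga (r ^ 4) n := tsum_nonneg fun n => ga_nonneg hh.le n
  have hT := Tn_01 hh.le hh1
  have hT0 := Tn_nonneg (h := r ^ 4) hh.le 0
  have hT1 := Tn_nonneg (h := r ^ 4) hh.le 1
  have heT : e * Tn (r ^ 4) 0 ≤ 1 / 2 := (mul_le_mul_of_nonneg_left (by linarith) he.le).trans hel
  have heT01 : e * (Tn (r ^ 4) 0 + Tn (r ^ 4) 1) ≤ 1 / 2 := by
    rw [hT]; exact (mul_le_mul_of_nonneg_left hℓ4 he.le).trans hel
  obtain ⟨α1, α2⟩ := abs_le.1 hα
  -- general point of `Icc`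
  have gen : ∀ x ∈ Icc (-1:ℝ) 1, 1 - c * e ≤ 1 + (α + evk 0 (ia e r) x) ∧ 1 + (α + evk 0 (ia e r) x) ≤ 2 ∧
      1 - c * e ≤ 1 + (1 - x ^ 2) * evk 1 (ib e r) x ∧ 1 + (1 - x ^ 2) * evk 1 (ib e r) x ≤ 2 := by
    intro x hx
    have hGl := G_ge hhh hh1 hqh hρ hq hx
    have hGu := G_upper hh.le hh1 hx
    have a1 : e * (-3) ≤ e * evk 0 (ga (r ^ 4)) x := mul_le_mul_of_nonneg_left hGl he.le
    have a2 : e * evk 0 (ga (r ^ 4)) x ≤ 1 / 2 :=
      (mul_le_mul_of_nonneg_left (hGu.trans hℓ4) he.le).trans hel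
    have g0 := gz_nonneg hh hh1 hx
    have g4 := gz_le hh hh1 hx
    rw [evk_ia, ib_one h0 hr1 hρ hq hx]
    set G := evk 0 (ga (r ^ 4)) x with hG
    set T0 := Tn (r ^ 4) 0
    set T1 := Tn (r ^ 4) 1
    refine ⟨by nlinarith, by linarith, ?_, ?_⟩
    · have b1 : e * gz (r ^ 4) x ≤ e * 4 := mul_le_mul_of_nonneg_left g4 he.le
      have b2 : T0 * x ≤ T0 := mul_le_of_le_one_right hT0 hx.2
      have b3 : e * (e * (T0 * x + T1 - G)) ≤ e * 1 := by
        refine mul_le_mul_of_nonneg_left ?_ he.le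
        have : e * (T0 * x + T1 - G) ≤ e * (T0 + T1 + 3) := mul_le_mul_of_nonneg_left (by linarith) he.le
        linarith
      have b4 : 1 + (-4 * e * gz (r ^ 4) x + 200 * e ^ 2 * (G - T0 * x - T1)) =
        1 - 4 * (e * gz (r ^ 4) x) - 200 * (e * (e * (T0 * x + T1 - G))) := by ring
      rw [b4]
      nlinarith
    · have b1 : 0 ≤ e * gz (r ^ 4) x := mul_nonneg he.le g0
      have b2 : -T0 ≤ T0 * x := by nlinarith [hx.1]
      have b3 : -e ≤ e * (e * (T0 * x + T1 - G)) := by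
        have : -(e * T0 * 2) ≤ e * (T0 * x + T1 - G) := by
          have : e * (-T0 * 2) ≤ e * (T0 * x + T1 - G) := mul_le_mul_of_nonneg_left (by linarith) he.le
          linarith
        have c1 : -1 ≤ e * (T0 * x + T1 - G) := by linarith
        have := mul_le_mul_of_nonneg_left c1 he.le
        linarith
      have b4 : 1 + (-4 * e * gz (r ^ 4) x + 200 * e ^ 2 * (G - T0 * x - T1)) =
        1 - 4 * (e * gz (r ^ 4) x) - 200 * (e * (e * (T0 * x + T1 - G))) := by ring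
      rw [b4]
      linarith
  have hcC : c * e ≤ (25 * c + 12000) * e := mul_le_mul_of_nonneg_right (by linarith) he.le
  refine ⟨by linarith [(gen z hz).1], by linarith [(gen z hz).2.2.1], ?_⟩
  -- the curvature
  have hopen : ∀ x ∈ Ioo (-1:ℝ) 1, 3 - (25 * c + 12000) * e ≤
      RhF x (1 + (α + evk 0 (ia e r) x)) (evk 1 (ia e r) x) (evk 2 (ia e r) x)
        (evk 1 (ib e r) x) (evk 2 (ib e r) x) := by
    intro x hx
    have hx' : x ∈ Icc (-1:ℝ) 1 := ⟨hx.1.le, hx.2.le⟩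
    obtain ⟨m1, m2, y1, y2⟩ := gen x hx'
    have hGl := G_ge hhh hh1 hqh hρ hq hx'
    have hGlog := G_lower hhh hh1 hqh hρ hq hx'
    have hGu := G_upper hh.le hh1 hx'
    have a2 : e * evk 0 (ga (r ^ 4)) x ≤ 1 / 2 :=
      (mul_le_mul_of_nonneg_left (hGu.trans hℓ4) he.le).trans hel
    have g0 := gz_nonneg hh hh1 hx'
    have g4 := gz_le hh hh1 hx'
    have eg := gen_g hh hh1 hqh hρ hq hx'
    have eY := ib_one (e := e) h0 hr1 hρ hq hx'
    have eY1 := ib_two (e := e) h0 hr1 hρ hq hx'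
    have eL := gen_lmul hh.le hh1 hqh hρ hq hx'
    rw [evk_lmul hρ.le hq (SS_ga hh.le hqh) (bbI hρ hx').le] at eL
    have hQ' := hQ (h := r ^ 4) (z := x) (e := e) (α := α) (G := evk 0 (ga (r ^ 4)) x) (K := Kz (r ^ 4) x)
      (g := gz (r ^ 4) x) (B := 0) (T0 := Tn (r ^ 4) 0) (T1 := Tn (r ^ 4) 1) (L := 0)
      (Y := 1 + (1 - x ^ 2) * evk 1 (ib e r) x) (m := 1 + (α + evk 0 (ia e r) x)) hhh hh1 hx'.1 hx'.2 he he1' hα
      hGlog hGl (by rw [hT]; exact hGu) a2 rfl g0 hT0 heT (by rw [eY]; ring) (by rw [evk_ia]; ring)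
    have key := algR (z := x) (m := 1 + (α + evk 0 (ia e r) x)) (G1 := evk 1 (ga (r ^ 4)) x)
      (g := gz (r ^ 4) x) (K := Kz (r ^ 4) x) (Y := 1 + (1 - x ^ 2) * evk 1 (ib e r) x) (e := e)
      (T0 := Tn (r ^ 4) 0) (c := c) he.le (by linarith) (by linarith) hce hx'.1 hx'.2 m1 m2 y1 y2 g0 g4
      (G1_nonneg hh hh1 hqh hρ hq hx) (fun h2 => G1_le2 hhh hh1 hqh hρ hq hx h2) (by linarith) hT0 (by linarith)
    refine key.trans (le_of_eq ?_)
    unfold RhF
    rw [eY1, evk_ia 1, evk_ia 2]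
    generalize evk 1 (ib e r) x = k1
    generalize evk 0 (ia e r) x = a0
    rw [← eg]
    generalize evk 1 (ga (r ^ 4)) x = w1 at *
    generalize evk 2 (ga (r ^ 4)) x = w2 at *
    generalize Kz (r ^ 4) x = kz at *
    generalize Tn (r ^ 4) 0 = t0
    have : (1 - x ^ 2) * (e * w2) - 2 * x * (e * w1) = e * (1 - kz) := by linear_combination (-e) * eL
    rw [this]
    ring
  have hcont : ContinuousOn (fun x => RhF x (1 + (α + evk 0 (ia e r) x)) (evk 1 (ia e r) x) (evk 2 (ia e r) x)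
        (evk 1 (ib e r) x) (evk 2 (ib e r) x)) (Icc (-1:ℝ) 1) := by
    have c0 := evk_contOn hρ hq (SS_ia (e := e) h0 hr1) 0
    have c1 := evk_contOn hρ hq (SS_ia (e := e) h0 hr1) 1
    have c2 := evk_contOn hρ hq (SS_ia (e := e) h0 hr1) 2
    have d1 := evk_contOn hρ hq (SS_ib (e := e) h0 hr1) 1
    have d2 := evk_contOn hρ hq (SS_ib (e := e) h0 hr1) 2
    exact RhF_contOn continuousOn_id (continuousOn_const.add (continuousOn_const.add c0)) c1 c2 d1 d2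
  have hcl : closure (Ioo (-1:ℝ) 1) = Icc (-1) 1 := closure_Ioo (by norm_num)
  rw [← hcl] at hcont hz
  exact le_on_closure (s := Ioo (-1:ℝ) 1) (f := fun _ => 3 - (25 * c + 12000) * e)
    (g := fun x => RhF x (1 + (α + evk 0 (ia e r) x)) (evk 1 (ia e r) x) (evk 2 (ia e r) x)
        (evk 1 (ib e r) x) (evk 2 (ib e r) x)) hopen
    continuousOn_const hcont hz

theorem m_one (hr0 : 9 / 10 ≤ r) (hr1 : r < 1) (he : 0 ≤ e) :
    e * (∑' n, ga r n) - 4 * e ≤ evk 0 (ia e r) 1 := by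
  have h0 : 0 < r := by linarith
  have hh : (0:ℝ) < r ^ 4 := by positivity
  have hh1 : r ^ 4 < 1 := pow_lt_one₀ h0.le hr1 (by norm_num)
  rw [evk_ia, G_one]
  have e1 := ga_lower hh.le hh1
  have e2 := ga_upper h0.le hr1
  have e3 : Real.log (1 - r ^ 4) ≤ Real.log 4 + Real.log (1 - r) := by
    rw [← Real.log_mul (by norm_num) (by linarith)]
    refine Real.log_le_log (by linarith) ?_
    have : 1 - r ^ 4 = (1 + r + r ^ 2 + r ^ 3) * (1 - r) := by ring
    rw [this]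
    refine mul_le_mul_of_nonneg_right ?_ (by linarith)
    have : r ^ 2 ≤ 1 := pow_le_one₀ h0.le hr1.le
    have : r ^ 3 ≤ 1 := pow_le_one₀ h0.le hr1.le
    linarith
  have e4 : Real.log 4 ≤ 3 / 2 := by
    have : (4:ℝ) = 2 ^ 2 := by norm_num
    rw [this, Real.log_pow]
    have := Real.log_two_lt_d9
    push_cast
    linarith
  have : (∑' n, ga r n) - 4 ≤ ∑' n, ga (r ^ 4) n := by linarith
  have := mul_le_mul_of_nonneg_left this he
  linarith

/-- `ℓ` is unbounded -/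
theorem ell_large (M : ℝ) (hM : 10 ≤ M) : ∃ r : ℝ, 9 / 10 ≤ r ∧ r < 1 ∧ M ≤ ∑' n, ga r n := by
  refine ⟨1 - Real.exp (-M), ?_, by have := Real.exp_pos (-M); linarith, ?_⟩
  · have h1 : Real.exp (-M) ≤ 1 / 10 := by
      rw [Real.exp_neg, inv_le_comm₀ (Real.exp_pos _) (by norm_num)]
      have := Real.add_one_le_exp M
      norm_num
      linarith
    linarith
  · have h1 : 0 ≤ 1 - Real.exp (-M) := by
      have : Real.exp (-M) ≤ 1 := Real.exp_le_one_iff.2 (by linarith)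
      linarith
    have := ga_lower h1 (by have := Real.exp_pos (-M); linarith)
    rw [sub_sub_cancel, Real.log_exp] at this
    linarith

end

end

end Pool.Agent.H786
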