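import Mathlib
import Pool.Agent.H786.Fix
import Pool.Agent.H786.G.R_pool_sql_team_seeded_63374d34.N535.Smo

set_option autoImplicit false
set_option linter.all false
open Finset Set Filter Topology
open scoped ENNReal ContDiff

namespace Pool.Agent.H786

open Pool.Agent.N535 (PK SS bil E1 toE toE_single norm_single_one toE_apply SMC cont_evH I1 refl ev_refl DL_deriv)
open Pool.Agent.H858R2 (CI ev evH abs_ev_le norm_evH_le continuous_ev ev_one ev_zero ev_of ev_add ev_sub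
  ev_neg ev_smul ev_mul)
open Pool.Agent.H858R2.Duh83 (DL)

noncomputable section

section
variable {k : ℕ} {q : ℝ} {f g h : ℕ → ℝ → ℝ}

theorem SMC_Hm (hq : 1 < q) (hf : SMC k q f) : SMC k q (fun n s => Hm (fun m => f m s) n) :=
  hf.bil PK_kH (SMC.const (SS_dl q 1)) hq
theorem SMC_Dm (hq : 1 < q) (hf : SMC k q f) : SMC k q (fun n s => Dm (fun m => f m s) n) :=
  hf.bil PK_kD (SMC.const (SS_dl q 0)) hq
theorem SMC_lmul (hf : SMC k q f) : SMC k q (fun n s => lmul (fun m => f m s) n) := hf.mulp lam_poly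
theorem SMC_Mm (hq : 1 < q) (hf : SMC k q f) : SMC k q (fun n s => Mm (fun m => f m s) n) :=
  (hf.smul 2).add (hf.bil PK_kc hf hq)
theorem SMC_Ww (hq : 1 < q) (hf : SMC k q f) (hg : SMC k q g) :
    SMC k q (fun n s => Ww (fun m => f m s) (fun m => g m s) n) :=
  (hf.add hg).add (hf.bil PK_kc hg hq)
theorem SMC_Uu (hq : 1 < q) (hf : SMC k q f) (hg : SMC k q g) :
    SMC k q (fun n s => Uu (fun m => f m s) (fun m => g m s) n) :=
  ((SMC_Mm hq hf).add hg).add ((SMC_Mm hq hf).bil PK_kc hg hq)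
theorem SMC_Zz (hq : 1 < q) (hf : SMC k q f) (hg : SMC k q g) :
    SMC k q (fun n s => Zz (fun m => f m s) (fun m => g m s) n) :=
  ((((hf.smul 3).add (hf.bil PK_kc hf hq)).add (hg.smul 3)).add ((hf.bil PK_kc hg hq).smul 3)).add
    ((hf.bil PK_kc hf hq).bil PK_kc hg hq)
theorem SMC_Nm (hq : 1 < q) (hf : SMC k q f) (hg : SMC k q g) :
    SMC k q (fun n s => Nm (fun m => f m s) (fun m => g m s) n) :=
  (((SMC_Zz hq hf hg).bil PK_kc hf hq).smul _).sub (((SMC_Uu hq hf hg).bil PK_kc (SMC_lmul hf) hq).add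
    ((hf.bil PK_kg hf hq).add ((SMC_Ww hq hf hg).bil PK_kc (hf.bil PK_kg hf hq) hq)))
theorem SMC_Nb (hq : 1 < q) (hf : SMC k q f) (hg : SMC k q g) :
    SMC k q (fun n s => Nb (fun m => f m s) (fun m => g m s) n) := by
  have hh := SMC_Hm hq hg
  have e1 := (SMC_lmul hg).bil PK_kb hh hq
  have e2 := (SMC_Dm hq hf).bil PK_kb hf hq
  have e3 := (SMC_lmul hg).bil PK_kb hf hq
  exact ((e1.add ((SMC_Mm hq hf).bil PK_kb e1 hq)).smul _).sub
    ((((SMC_Uu hq hf hh).bil PK_kb (SMC_lmul hg) hq).add ((e2.add ((SMC_Mm hq hh).bil PK_kb e2 hq)).smul _)).add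
      ((e3.add ((SMC_Ww hq hf hh).bil PK_kb e3 hq)).smul _))

end

/-! ### values of the nonlinear terms -/

section
variable {q : ℝ} {a b h : ℕ → CI}

/-- coefficients at time `s` -/
def cf (c : ℕ → CI) (s : ℝ) (n : ℕ) : ℝ := ev (c n) s

theorem cf_bil (hq : 1 < q) {k : ℕ → ℕ → ℕ → ℝ} (hk : PK k) (ha : SS q a) (hb : SS q b) (s : ℝ) :
    cf (bil k a b) s = bil k (cf a s) (cf b s) := funext fun n => ev_bil hq hk ha hb n s
theorem cf_add (a b : ℕ → CI) (s : ℝ) : cf (fun n => a n + b n) s = fun n => cf a s n + cf b s n := rfl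
theorem cf_smul (c : ℝ) (a : ℕ → CI) (s : ℝ) : cf (fun n => c • a n) s = fun n => c • cf a s n := rfl
theorem cf_Hm (hq : 1 < q) (ha : SS q a) (s : ℝ) : cf (Hm a) s = Hm (cf a s) :=
  funext fun n => ev_Hm' hq ha s n
theorem cf_Dm (hq : 1 < q) (ha : SS q a) (s : ℝ) : cf (Dm a) s = Dm (cf a s) :=
  funext fun n => ev_Dm' hq ha s n
theorem cf_lmul (a : ℕ → CI) (s : ℝ) : cf (lmul a) s = lmul (cf a s) := rfl
theorem SS_cf (ha : SS q a) (s : ℝ) : SS q (cf a s) := SS_ev ha s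

theorem cf_Mm (hq : 1 < q) (ha : SS q a) (s : ℝ) : cf (Mm a) s = Mm (cf a s) := by
  funext n
  have h1 := congrFun (cf_bil hq PK_kc ha ha s) n
  unfold Mm
  show (2:ℝ) • cf a s n + cf (bil kc a a) s n = _
  rw [h1]
theorem cf_Ww (hq : 1 < q) (ha : SS q a) (hh : SS q h) (s : ℝ) : cf (Ww a h) s = Ww (cf a s) (cf h s) := by
  funext n
  have h1 := congrFun (cf_bil hq PK_kc ha hh s) n
  unfold Ww
  show cf a s n + cf h s n + cf (bil kc a h) s n = _
  rw [h1]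
theorem cf_Uu (hq : 1 < q) (ha : SS q a) (hh : SS q h) (s : ℝ) : cf (Uu a h) s = Uu (cf a s) (cf h s) := by
  funext n
  have h1 := congrFun (cf_bil hq PK_kc (SS_Mm hq ha) hh s) n
  unfold Uu
  show cf (Mm a) s n + cf h s n + cf (bil kc (Mm a) h) s n = _
  rw [h1, cf_Mm hq ha]
theorem cf_Zz (hq : 1 < q) (ha : SS q a) (hh : SS q h) (s : ℝ) : cf (Zz a h) s = Zz (cf a s) (cf h s) := by
  funext n
  have h1 := congrFun (cf_bil hq PK_kc ha ha s) n
  have h2 := congrFun (cf_bil hq PK_kc ha hh s) n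
  have h3 := congrFun (cf_bil hq PK_kc (ha.bil hq PK_kc ha) hh s) n
  have h4 := cf_bil hq PK_kc ha ha s
  unfold Zz
  show (3:ℝ) • cf a s n + cf (bil kc a a) s n + (3:ℝ) • cf h s n + (3:ℝ) • cf (bil kc a h) s n +
    cf (bil kc (bil kc a a) h) s n = _
  rw [h3, h1, h2, h4]
theorem cf_Nm (hq : 1 < q) (ha : SS q a) (hh : SS q h) (s : ℝ) : cf (Nm a h) s = Nm (cf a s) (cf h s) := by
  funext n
  have h1 := congrFun (cf_bil hq PK_kc (SS_Zz hq ha hh) ha s) n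
  have h2 := congrFun (cf_bil hq PK_kc (SS_Uu hq ha hh) (SS_lmul ha) s) n
  have h3 := congrFun (cf_bil hq PK_kg ha ha s) n
  have h3' := cf_bil hq PK_kg ha ha s
  have h4 := congrFun (cf_bil hq PK_kc (SS_Ww hq ha hh) (ha.bil hq PK_kg ha) s) n
  unfold Nm
  show (1 / 2:ℝ) • cf (bil kc (Zz a h) a) s n - (cf (bil kc (Uu a h) (lmul a)) s n +
    (cf (bil kg a a) s n + cf (bil kc (Ww a h) (bil kg a a)) s n)) = _
  rw [h1, h2, h3, h4, h3', cf_Zz hq ha hh, cf_Uu hq ha hh, cf_Ww hq ha hh, cf_lmul]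
theorem cf_Nb (hq : 1 < q) (ha : SS q a) (hb : SS q b) (s : ℝ) : cf (Nb a b) s = Nb (cf a s) (cf b s) := by
  have hh := SS_Hm hq hb
  have s1 := (SS_lmul hb).bil hq PK_kb hh
  have s2 := (SS_Dm hq ha).bil hq PK_kb ha
  have s3 := (SS_lmul hb).bil hq PK_kb ha
  have e1 := cf_bil hq PK_kb (SS_lmul hb) hh s
  have e2 := cf_bil hq PK_kb (SS_Dm hq ha) ha s
  have e3 := cf_bil hq PK_kb (SS_lmul hb) ha s
  have f1 := cf_bil hq PK_kb (SS_Mm hq ha) s1 s
  have f2 := cf_bil hq PK_kb (SS_Mm hq hh) s2 s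
  have f3 := cf_bil hq PK_kb (SS_Ww hq ha hh) s3 s
  have f4 := cf_bil hq PK_kb (SS_Uu hq ha hh) (SS_lmul hb) s
  funext n
  unfold Nb
  show (1 / 2 : ℝ) • (cf (bil kb (lmul b) (Hm b)) s n + cf (bil kb (Mm a) (bil kb (lmul b) (Hm b))) s n)
    - (cf (bil kb (Uu a (Hm b)) (lmul b)) s n +
      (2:ℝ) • (cf (bil kb (Dm a) a) s n + cf (bil kb (Mm (Hm b)) (bil kb (Dm a) a)) s n) +
      (2:ℝ) • (cf (bil kb (lmul b) a) s n + cf (bil kb (Ww a (Hm b)) (bil kb (lmul b) a)) s n)) = _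
  rw [f1, f2, f3, f4, e1, e2, e3, cf_lmul, cf_Hm hq hb, cf_Dm hq ha, cf_Mm hq ha, cf_Mm hq hh,
    cf_Ww hq ha hh, cf_Uu hq ha hh, cf_Hm hq hb]

end

/-! ### the equations -/

/-- solutions of the integral equations -/
structure IsSol (Θ q : ℝ) (a0 b0 : ℕ → ℝ) (a b : ℕ → CI) : Prop where
  ssa : SS q a
  ssb : SS q b
  eq : Ph Θ a0 b0 (Nm a (Hm b)) (Nb a b) = (a, b)

/-- right sides -/
def GA (Θ : ℝ) {R : Type} [NormedCommRing R] [NormedAlgebra ℝ R] (a b : ℕ → R) (n : ℕ) : R :=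
  Θ • ((-(lam n - 1)) • a n + ((1 / 2 : ℝ) • Hm b n + Nm a (Hm b) n))
def GB (Θ : ℝ) {R : Type} [NormedCommRing R] [NormedAlgebra ℝ R] (a b : ℕ → R) (n : ℕ) : R :=
  Θ • ((-lam n) • b n + Nb a b n)

theorem nlam_poly : ∃ (C : ℝ) (p : ℕ), 0 ≤ C ∧ ∀ n : ℕ, |-lam n| ≤ C * ((n : ℝ) + 1) ^ p := by
  obtain ⟨C, p, h1, h2⟩ := lam_poly
  exact ⟨C, p, h1, fun n => by rw [abs_neg]; exact h2 n⟩
theorem nlam1_poly : ∃ (C : ℝ) (p : ℕ), 0 ≤ C ∧ ∀ n : ℕ, |-(lam n - 1)| ≤ C * ((n : ℝ) + 1) ^ p := by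
  refine ⟨1, 2, zero_le_one, fun n => ?_⟩
  have h1 := lam_le n
  have h2 := lam_nonneg n
  have h3 : (0:ℝ) ≤ n := Nat.cast_nonneg n
  rw [abs_neg, abs_le]
  constructor <;> nlinarith

section
variable {Θ q : ℝ} {a0 b0 : ℕ → ℝ} {a b : ℕ → CI}

theorem SS_GA {R : Type} [NormedCommRing R] [NormedAlgebra ℝ R] [CompleteSpace R] {a b : ℕ → R}
    (hq : 1 < q) (ha : SS q a) (hb : SS q b) : SS q (GA Θ a b) :=
  ((ha.mulp nlam1_poly).add (((SS_Hm hq hb).smul _).add (SS_Nm hq ha (SS_Hm hq hb)))).smul Θ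
theorem SS_GB {R : Type} [NormedCommRing R] [NormedAlgebra ℝ R] [CompleteSpace R] {a b : ℕ → R}
    (hq : 1 < q) (ha : SS q a) (hb : SS q b) : SS q (GB Θ a b) :=
  ((hb.mulp nlam_poly).add (SS_Nb hq ha hb)).smul Θ

theorem cf_GA (hq : 1 < q) (ha : SS q a) (hb : SS q b) (s : ℝ) :
    cf (GA Θ a b) s = GA Θ (cf a s) (cf b s) := by
  funext n
  have h1 := congrFun (cf_Nm hq ha (SS_Hm hq hb) s) n
  have h2 := cf_Hm hq hb s
  unfold GA
  show Θ • ((-(lam n - 1)) • cf a s n + ((1 / 2 : ℝ) • cf (Hm b) s n + cf (Nm a (Hm b)) s n)) = _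
  rw [h1, h2]
theorem cf_GB (hq : 1 < q) (ha : SS q a) (hb : SS q b) (s : ℝ) :
    cf (GB Θ a b) s = GB Θ (cf a s) (cf b s) := by
  funext n
  have h1 := congrFun (cf_Nb hq ha hb s) n
  unfold GB
  show Θ • ((-lam n) • cf b s n + cf (Nb a b) s n) = _
  rw [h1]

theorem kb_zero' (J K : ℕ) : kb J K 0 = 0 := by unfold kb; rw [lam_zero]; simp

theorem Nb_zero' (a b : ℕ → CI) : Nb a b 0 = 0 := by
  have h1 : ∀ f g : ℕ → CI, bil kb f g 0 = 0 := fun f g => by unfold N535.bil; simp [kb_zero']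
  unfold Nb
  simp only [h1]
  simp

theorem hasDerivAt_ev_zero (s : ℝ) : HasDerivAt (ev (0 : CI)) 0 s := by
  have : ev (0 : CI) = fun _ => 0 := by funext s; exact ev_zero s
  rw [this]
  exact hasDerivAt_const s 0

theorem IsSol.dera (h : IsSol Θ q a0 b0 a b) (n : ℕ) {s : ℝ} (hs : s ∈ Ioo (0:ℝ) 1) :
    HasDerivAt (ev (a n)) (ev (GA Θ a b n) s) s := by
  have e0 := h.eq
  have eb : Bn Θ b0 (Nb a b) = b := congrArg Prod.snd e0
  have ea : An Θ a0 (fun n => (1 / 2 : ℝ) • Hm (Bn Θ b0 (Nb a b)) n + Nm a (Hm b) n) = a :=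
    congrArg Prod.fst e0
  rw [eb] at ea
  set f : ℕ → CI := fun n => (1 / 2 : ℝ) • Hm b n + Nm a (Hm b) n with hf
  have key : HasDerivAt (ev (An Θ a0 f n)) (Θ * (-(lam n - 1) * ev (An Θ a0 f n) s + ev (f n) s)) s := by
    by_cases hn : n = 0
    · subst hn
      unfold An
      rw [if_pos rfl, lam_zero]
      have ht' : 1 - s ∈ Ioo (0:ℝ) 1 := ⟨by linarith [hs.2], by linarith [hs.1]⟩
      have h1 := DL_deriv Θ (refl (f 0)) ht'
      have h2 : HasDerivAt (fun s : ℝ => 1 - s) (-1) s := by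
        simpa using (hasDerivAt_id s).const_sub 1
      have h3 : HasDerivAt (fun s => -(Θ * ev (DL Θ (refl (f 0))) (1 - s)))
          (-(Θ * ((-Θ * ev (DL Θ (refl (f 0))) (1 - s) + ev (refl (f 0)) (1 - s)) * (-1)))) s :=
        ((HasDerivAt.comp s h1 h2).const_mul Θ).neg
      have hin : s ∈ Icc (0:ℝ) 1 := ⟨hs.1.le, hs.2.le⟩
      have e1 : ev (refl (f 0)) (1 - s) = ev (f 0) s := by
        rw [ev_refl (f 0) ⟨ht'.1.le, ht'.2.le⟩]
        congr 1; ring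
      have e2 : ev (-(Θ • refl (DL Θ (refl (f 0))))) s = -(Θ * ev (DL Θ (refl (f 0))) (1 - s)) := by
        rw [ev_neg, ev_smul, ev_refl _ hin]
      rw [e2]
      rw [e1] at h3
      refine (h3.congr_of_eventuallyEq ?_).congr_deriv ?_
      · filter_upwards [isOpen_Ioo.mem_nhds hs] with τ hτ
        rw [ev_neg, ev_smul, ev_refl _ ⟨hτ.1.le, hτ.2.le⟩]
      · ring
    · unfold An
      rw [if_neg hn]
      exact Sv_deriv _ _ hs
  rw [ea] at key
  exact key.congr_deriv rfl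

theorem IsSol.derb (h : IsSol Θ q a0 b0 a b) (n : ℕ) {s : ℝ} (hs : s ∈ Ioo (0:ℝ) 1) :
    HasDerivAt (ev (b n)) (ev (GB Θ a b n) s) s := by
  have eb : Bn Θ b0 (Nb a b) = b := congrArg Prod.snd h.eq
  by_cases hn : n = 0
  · subst hn
    have e1 : b 0 = 0 := by rw [← eb]; unfold Bn; rw [if_pos rfl]
    have e2 : ev (GB Θ a b 0) s = 0 := by
      unfold GB
      rw [Nb_zero', e1]
      simp
    rw [e2, e1]
    exact hasDerivAt_ev_zero s
  · have key : HasDerivAt (ev (Bn Θ b0 (Nb a b) n)) (Θ * (-lam n * ev (Bn Θ b0 (Nb a b) n) s + ev (Nb a b n) s)) s := by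
      unfold Bn
      rw [if_neg hn]
      exact Sv_deriv _ _ hs
    rw [eb] at key
    refine key.congr_deriv ?_
    unfold GB
    rw [ev_smul, ev_add, ev_smul]

/-- derivative of curves -/
theorem curve_deriv {c G : ℕ → CI} (hc : SS q c) (hG : SS q G)
    (hd : ∀ n, ∀ s ∈ Ioo (0:ℝ) 1, HasDerivAt (ev (c n)) (ev (G n) s) s)
    {r : ℝ} (h1 : 1 ≤ r) (h2 : r < q) {s : ℝ} (hs : s ∈ Ioo (0:ℝ) 1) :
    HasDerivAt (fun s => toE r (cf c s)) (toE r (cf G s)) s := by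
  have hr : 0 ≤ r := by linarith
  have hus : Summable fun n => r ^ n * ‖G n‖ := hG r h1 h2
  have hGb : ∀ s ∈ Ioo (0:ℝ) 1, ∀ n, r ^ n * |cf G s n| ≤ r ^ n * ‖G n‖ := by
    intro s hs n
    exact mul_le_mul_of_nonneg_left (abs_ev_le _ _) (pow_nonneg hr n)
  have hGs : ∀ s, Summable fun n => r ^ n * ‖cf G s n‖ := fun s => (SS_cf hG s) r h1 h2
  have hcs : ∀ s, Summable fun n => r ^ n * ‖cf c s n‖ := fun s => (SS_cf hc s) r h1 h2
  have key := hasDerivAt_tsum_of_isPreconnected (𝕜 := ℝ) (F := E1) (u := fun n => r ^ n * ‖G n‖)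
    (g := fun n s => (r ^ n * cf c s n) • (lp.single 1 n (1:ℝ) : E1))
    (g' := fun n s => (r ^ n * cf G s n) • (lp.single 1 n (1:ℝ) : E1))
    (t := Ioo (0:ℝ) 1) (y₀ := s) hus isOpen_Ioo isPreconnected_Ioo
    (fun n y hy => ((hd n y hy).const_mul (r ^ n)).smul_const _)
    (fun n y hy => by
      rw [norm_smul, norm_single_one, mul_one, Real.norm_eq_abs, abs_mul,
        abs_of_nonneg (pow_nonneg hr n)]
      exact hGb y hy n)
    hs (by
      refine Summable.of_norm ?_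
      refine (hcs s).congr fun n => ?_
      rw [norm_smul, norm_single_one, mul_one, norm_mul, Real.norm_of_nonneg (pow_nonneg hr n)])
    hs
  have e1 : (fun s => toE r (cf c s)) =
      fun s => ∑' n, (r ^ n * cf c s n) • (lp.single 1 n (1:ℝ) : E1) :=
    funext fun s => toE_single hr (hcs s)
  rw [e1, toE_single hr (hGs s)]
  exact key

theorem IsSol.cda (h : IsSol Θ q a0 b0 a b) (hq : 1 < q) {r : ℝ} (h1 : 1 ≤ r) (h2 : r < q) {s : ℝ}
    (hs : s ∈ Ioo (0:ℝ) 1) : HasDerivAt (fun s => toE r (cf a s)) (toE r (GA Θ (cf a s) (cf b s))) s := by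
  rw [← cf_GA hq h.ssa h.ssb]
  exact curve_deriv h.ssa (SS_GA hq h.ssa h.ssb) (fun n s hs => h.dera n hs) h1 h2 hs

theorem IsSol.cdb (h : IsSol Θ q a0 b0 a b) (hq : 1 < q) {r : ℝ} (h1 : 1 ≤ r) (h2 : r < q) {s : ℝ}
    (hs : s ∈ Ioo (0:ℝ) 1) : HasDerivAt (fun s => toE r (cf b s)) (toE r (GB Θ (cf a s) (cf b s))) s := by
  rw [← cf_GB hq h.ssa h.ssb]
  exact curve_deriv h.ssb (SS_GB hq h.ssa h.ssb) (fun n s hs => h.derb n hs) h1 h2 hs

theorem IsSol.smc (h : IsSol Θ q a0 b0 a b) (hq : 1 < q) (k : ℕ) :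
    SMC k q (fun n s => cf a s n) ∧ SMC k q (fun n s => cf b s n) := by
  induction k with
  | zero =>
    constructor
    · refine ⟨fun s _ => SS_cf h.ssa s, fun r h1 h2 => ?_⟩
      rw [Nat.cast_zero, contDiffOn_zero]
      exact fun s hs => (h.cda hq h1 h2 hs).continuousAt.continuousWithinAt
    · refine ⟨fun s _ => SS_cf h.ssb s, fun r h1 h2 => ?_⟩
      rw [Nat.cast_zero, contDiffOn_zero]
      exact fun s hs => (h.cdb hq h1 h2 hs).continuousAt.continuousWithinAt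
  | succ k ih =>
    have hk : ((k + 1 : ℕ) : WithTop ℕ∞) = (k : WithTop ℕ∞) + 1 := by push_cast; rfl
    have hGA : SMC k q (fun n s => GA Θ (cf a s) (cf b s) n) := by
      unfold GA
      exact ((ih.1.mulp nlam1_poly).add (((SMC_Hm hq ih.2).smul _).add (SMC_Nm hq ih.1 (SMC_Hm hq ih.2)))).smul Θ
    have hGB : SMC k q (fun n s => GB Θ (cf a s) (cf b s) n) := by
      unfold GB
      exact ((ih.2.mulp nlam_poly).add (SMC_Nb hq ih.1 ih.2)).smul Θ
    constructor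
    · refine ⟨fun s _ => SS_cf h.ssa s, fun r h1 h2 => ?_⟩
      rw [hk, contDiffOn_succ_iff_deriv_of_isOpen isOpen_Ioo]
      refine ⟨fun s hs => (h.cda hq h1 h2 hs).differentiableAt.differentiableWithinAt, ?_, ?_⟩
      · intro hω
        exact absurd hω (by simp)
      · exact (hGA.2 r h1 h2).congr fun s hs => (h.cda hq h1 h2 hs).deriv
    · refine ⟨fun s _ => SS_cf h.ssb s, fun r h1 h2 => ?_⟩
      rw [hk, contDiffOn_succ_iff_deriv_of_isOpen isOpen_Ioo]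
      refine ⟨fun s hs => (h.cdb hq h1 h2 hs).differentiableAt.differentiableWithinAt, ?_, ?_⟩
      · intro hω
        exact absurd hω (by simp)
      · exact (hGB.2 r h1 h2).congr fun s hs => (h.cdb hq h1 h2 hs).deriv

/-- initial values -/
theorem IsSol.init_b (h : IsSol Θ q a0 b0 a b) {n : ℕ} (hn : n ≠ 0) : cf b 0 n = b0 n := by
  have eb : Bn Θ b0 (Nb a b) = b := congrArg Prod.snd h.eq
  unfold cf
  rw [← eb]
  unfold Bn
  rw [if_neg hn, Sv_zero]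
theorem IsSol.init_b0 (h : IsSol Θ q a0 b0 a b) (s : ℝ) : cf b s 0 = 0 := by
  have eb : Bn Θ b0 (Nb a b) = b := congrArg Prod.snd h.eq
  unfold cf
  rw [← eb]
  unfold Bn
  rw [if_pos rfl, ev_zero]
theorem IsSol.init_a (h : IsSol Θ q a0 b0 a b) {n : ℕ} (hn : n ≠ 0) : cf a 0 n = a0 n := by
  have ea := congrArg Prod.fst h.eq
  unfold Ph at ea
  simp only at ea
  unfold cf
  conv_lhs => rw [← ea]
  unfold An
  rw [if_neg hn, Sv_zero]

end

end

end Pool.Agent.H786
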