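import Mathlib
import Pool.Agent.H786.Smo
import Pool.Agent.H786.G.R_pool_sql_team_seeded_63374d34.N535.Eva

set_option autoImplicit false
set_option linter.all false
open Finset Set Filter Topology Polynomial
open scoped ENNReal ContDiff

namespace Pool.Agent.H786

open Pool.Agent.N535 (PK SS bil bb one_lt_bb E1 toE toE_apply SMC cL cL_apply norm_cL_le)
open Pool.Agent.H858R2 (CI ev evH abs_ev_le norm_evH_le continuous_ev)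

noncomputable section

/-- evaluation functionals -/
def Ak (k : ℕ) (r t : ℝ) : E1 →L[ℝ] ℝ := ∑' n, (sv k n t / r ^ n) • cL n

section
variable {ρ r q : ℝ}

theorem Ak_bound (hρ : 1 < ρ) (h : ρ < r) (k : ℕ) :
    ∃ u : ℕ → ℝ, Summable u ∧ ∀ n, ∀ t : ℝ, |t| ≤ bb ρ → ‖(sv k n t / r ^ n) • cL n‖ ≤ u n := by
  obtain ⟨r', h1, h2⟩ := exists_between h
  obtain ⟨C, hC, hb⟩ := sv_geom hρ.le h1 k
  have hr' : 0 < r' := by linarith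
  have hr : 0 < r := by linarith
  refine ⟨fun n => C * (r' / r) ^ n, ?_, fun n t ht => ?_⟩
  · exact (summable_geometric_of_lt_one (by positivity) ((div_lt_one hr).2 h2)).mul_left C
  · rw [norm_smul, norm_div, Real.norm_eq_abs, Real.norm_of_nonneg (by positivity : (0:ℝ) ≤ r ^ n)]
    have h3 := hb n t ht
    have h4 := norm_cL_le n
    calc |sv k n t| / r ^ n * ‖cL n‖ ≤ (C * r' ^ n) / r ^ n * 1 := by gcongr
      _ = C * (r' / r) ^ n := by rw [div_pow]; ring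

theorem Ak_deriv (hρ : 1 < ρ) (h : ρ < r) (k : ℕ) {t : ℝ} (ht : t ∈ Ioo (-bb ρ) (bb ρ)) :
    HasDerivAt (Ak k r) (Ak (k + 1) r t) t := by
  obtain ⟨u, hu, hb⟩ := Ak_bound hρ h (k + 1)
  obtain ⟨u', hu', hb'⟩ := Ak_bound hρ h k
  unfold Ak
  refine hasDerivAt_tsum_of_isPreconnected hu isOpen_Ioo isPreconnected_Ioo
    (fun n y _ => (((sv_deriv k n y).div_const (r ^ n)).smul_const (cL n))) (fun n y hy => ?_) ht ?_ ht
  · exact hb n y (abs_lt.2 hy).le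
  · exact Summable.of_norm_bounded hu' fun n => hb' n t (abs_lt.2 ht).le

theorem Ak_smooth (hρ : 1 < ρ) (h : ρ < r) (m : ℕ) :
    ∀ k, ContDiffOn ℝ m (Ak k r) (Ioo (-bb ρ) (bb ρ)) := by
  induction m with
  | zero =>
    intro k
    rw [Nat.cast_zero, contDiffOn_zero]
    exact fun t ht => (Ak_deriv hρ h k ht).continuousAt.continuousWithinAt
  | succ m ih =>
    intro k
    have : ((m + 1 : ℕ) : WithTop ℕ∞) = (m : WithTop ℕ∞) + 1 := by push_cast; rfl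
    rw [this, contDiffOn_succ_iff_deriv_of_isOpen isOpen_Ioo]
    refine ⟨fun t ht => (Ak_deriv hρ h k ht).differentiableAt.differentiableWithinAt, ?_, ?_⟩
    · intro hω
      exact absurd hω (by simp)
    · exact (ih (k + 1)).congr fun t ht => (Ak_deriv hρ h k ht).deriv

theorem Ak_apply (hρ : 1 < ρ) (h : ρ < r) (k : ℕ) {t : ℝ} (ht : |t| ≤ bb ρ) {x : ℕ → ℝ}
    (hx : Summable fun n => r ^ n * ‖x n‖) : Ak k r t (toE r x) = evk k x t := by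
  obtain ⟨u, hu, hb⟩ := Ak_bound hρ h k
  have hs : Summable fun n => (sv k n t / r ^ n) • cL n :=
    Summable.of_norm_bounded hu fun n => hb n t ht
  have hr : 0 < r := by linarith
  unfold Ak
  have h1 := (ContinuousLinearMap.apply ℝ ℝ (toE r x)).map_tsum hs
  have h2 : (ContinuousLinearMap.apply ℝ ℝ (toE r x)) (∑' n, (sv k n t / r ^ n) • cL n) =
      (∑' n, (sv k n t / r ^ n) • cL n) (toE r x) := rfl
  rw [← h2, h1]
  unfold evk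
  refine tsum_congr fun n => ?_
  show ((sv k n t / r ^ n) • cL n) (toE r x) = _
  rw [ContinuousLinearMap.smul_apply, cL_apply, toE_apply hr.le hx, smul_eq_mul]
  have : r ^ n ≠ 0 := by positivity
  field_simp

theorem evk_smooth (hρ : 1 < ρ) (h : ρ < q) {f : ℕ → ℝ → ℝ} (hf : ∀ m, SMC m q f) (k : ℕ) :
    ContDiffOn ℝ ∞ (fun p : ℝ × ℝ => evk k (fun n => f n p.1) p.2)
      (Set.Ioo 0 1 ×ˢ Set.Ioo (-bb ρ) (bb ρ)) := by
  obtain ⟨r, h1, h2⟩ := exists_between h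
  rw [contDiffOn_infty]
  intro m
  have a1 : ContDiffOn ℝ m (fun p : ℝ × ℝ => Ak k r p.2) (Set.Ioo 0 1 ×ˢ Set.Ioo (-bb ρ) (bb ρ)) :=
    (Ak_smooth hρ h1 m k).comp contDiff_snd.contDiffOn fun p hp => hp.2
  have a2 : ContDiffOn ℝ m (fun p : ℝ × ℝ => toE r (fun n => f n p.1))
      (Set.Ioo 0 1 ×ˢ Set.Ioo (-bb ρ) (bb ρ)) :=
    ((hf m).2 r (by linarith) h2).comp contDiff_fst.contDiffOn fun p hp => hp.1
  refine (a1.clm_apply a2).congr fun p hp => ?_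
  exact (Ak_apply hρ h1 k (abs_lt.2 hp.2).le ((hf m).1 p.1 hp.1 r (by linarith) h2)).symm

end

/-! ### values of the right sides -/

section
variable {Θ q ρ : ℝ} {x y : ℕ → ℝ}

theorem ev_Nm (hρ : 1 ≤ ρ) (hq : ρ < q) {h : ℕ → ℝ} (hx : SS q x) (hh : SS q h) {t : ℝ} (ht : |t| ≤ bb ρ)
    (m Y m1 L : ℝ) (hm : m = 1 + evk 0 x t) (hY : Y = 1 + evk 0 h t) (hm1 : m1 = evk 1 x t)
    (hL : L = (1 - t ^ 2) * evk 2 x t - 2 * t * evk 1 x t) :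
    evk 0 (Nm x h) t = Y * (m ^ 2 * L - m * ((1 - t ^ 2) * m1 ^ 2) + 1 / 2 * m ^ 3)
      - (L + (m - 1) + 1 / 2 * (Y - 1)) - 1 / 2 * m := by
  have hq1 : 1 < q := hρ.trans_lt hq
  have sxx := hx.bil hq1 PK_kc hx
  have sM := SS_Mm hq1 hx
  have sU := SS_Uu hq1 hx hh
  have sZ := SS_Zz hq1 hx hh
  have sW := SS_Ww hq1 hx hh
  have sg := hx.bil hq1 PK_kg hx
  have eM : evk 0 (Mm x) t = 2 * evk 0 x t + evk 0 x t ^ 2 := by
    unfold Mm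
    rw [evk_add hρ hq (hx.smul 2) sxx 0 ht, evk_smul, ev_kc hρ hq hx hx ht]; ring
  have eU : evk 0 (Uu x h) t = evk 0 (Mm x) t + evk 0 h t + evk 0 (Mm x) t * evk 0 h t := by
    unfold Uu
    rw [evk_add hρ hq (sM.add hh) (sM.bil hq1 PK_kc hh) 0 ht, evk_add hρ hq sM hh 0 ht,
      ev_kc hρ hq sM hh ht]
  have eW : evk 0 (Ww x h) t = evk 0 x t + evk 0 h t + evk 0 x t * evk 0 h t := by
    unfold Ww
    rw [evk_add hρ hq (hx.add hh) (hx.bil hq1 PK_kc hh) 0 ht, evk_add hρ hq hx hh 0 ht,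
      ev_kc hρ hq hx hh ht]
  have eZ : evk 0 (Zz x h) t = 3 * evk 0 x t + evk 0 x t ^ 2 + 3 * evk 0 h t + 3 * (evk 0 x t * evk 0 h t) +
      evk 0 x t ^ 2 * evk 0 h t := by
    unfold Zz
    have sxh := hx.bil hq1 PK_kc hh
    rw [evk_add hρ hq ((((hx.smul 3).add sxx).add (hh.smul 3)).add (sxh.smul 3)) (sxx.bil hq1 PK_kc hh) 0 ht,
      evk_add hρ hq (((hx.smul 3).add sxx).add (hh.smul 3)) (sxh.smul 3) 0 ht,
      evk_add hρ hq ((hx.smul 3).add sxx) (hh.smul 3) 0 ht, evk_add hρ hq (hx.smul 3) sxx 0 ht,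
      evk_smul, evk_smul, evk_smul, ev_kc hρ hq sxx hh ht, ev_kc hρ hq hx hx ht, ev_kc hρ hq hx hh ht]
    ring
  unfold Nm
  rw [evk_sub hρ hq ((sZ.bil hq1 PK_kc hx).smul _) ((sU.bil hq1 PK_kc (SS_lmul hx)).add
    (sg.add (sW.bil hq1 PK_kc sg))) 0 ht, evk_smul, ev_kc hρ hq sZ hx ht,
    evk_add hρ hq (sU.bil hq1 PK_kc (SS_lmul hx)) (sg.add (sW.bil hq1 PK_kc sg)) 0 ht,
    evk_add hρ hq sg (sW.bil hq1 PK_kc sg) 0 ht, ev_kc hρ hq sU (SS_lmul hx) ht,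
    ev_kc hρ hq sW sg ht, ev_kg hρ hq hx hx ht, evk_lmul hρ hq hx ht, eZ, eU, eW, eM, hm, hY, hm1, hL]
  ring

theorem ev_GA (hρ : 1 ≤ ρ) (hq : ρ < q) (hx : SS q x) (hy : SS q y) {t : ℝ} (ht : |t| ≤ bb ρ)
    (m Y m1 L : ℝ) (hm : m = 1 + evk 0 x t) (hY : Y = 1 + evk 0 (Hm y) t) (hm1 : m1 = evk 1 x t)
    (hL : L = (1 - t ^ 2) * evk 2 x t - 2 * t * evk 1 x t) :
    evk 0 (GA Θ x y) t = Θ * (Y * (m ^ 2 * L - m * ((1 - t ^ 2) * m1 ^ 2) + 1 / 2 * m ^ 3) - 1 / 2 * m) := by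
  have hq1 : 1 < q := hρ.trans_lt hq
  have sh := SS_Hm hq1 hy
  have e1 : evk 0 (fun n => (-(lam n - 1)) • x n) t = evk 0 x t - evk 0 (lmul x) t := by
    rw [← evk_sub hρ hq hx (SS_lmul hx) 0 ht]
    congr 1
    funext n
    unfold lmul
    simp only [smul_eq_mul]
    ring
  unfold GA
  rw [evk_smul, evk_add hρ hq (hx.mulp nlam1_poly) ((sh.smul _).add (SS_Nm hq1 hx sh)) 0 ht,
    evk_add hρ hq (sh.smul _) (SS_Nm hq1 hx sh) 0 ht, evk_smul, e1,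
    ev_Nm hρ hq hx sh ht m Y m1 L hm hY hm1 hL, evk_lmul hρ hq hx ht, hm, hY, hL]
  ring

theorem evk_H1 (hρ : 1 < ρ) (hq : ρ < q) (hy : SS q y) {t : ℝ} (ht : |t| ≤ bb ρ) :
    evk 0 (lmul y) t = -evk 1 (Hm y) t := by
  have hq1 : 1 < q := hρ.trans hq
  have h := rDm_Hm hq1 hy
  have h2 := ev_Dm hρ.le hq (SS_Hm hq1 hy) ht
  rw [h, evk_neg] at h2
  linarith

theorem evk_H2 (hρ : 1 < ρ) (hq : ρ < q) (hy : SS q y) {t : ℝ} (ht : |t| < bb ρ) :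
    evk 1 (lmul y) t = -evk 2 (Hm y) t := by
  have hq1 : 1 < q := hρ.trans hq
  have e1 := evk_deriv hρ hq (SS_lmul hy) 0 ht
  have e2 := (evk_deriv hρ hq (SS_Hm hq1 hy) 1 ht).neg
  have e3 : evk 0 (lmul y) =ᶠ[𝓝 t] fun t => -evk 1 (Hm y) t := by
    have : {y : ℝ | |y| < bb ρ} ∈ 𝓝 t := (isOpen_lt continuous_abs continuous_const).mem_nhds ht
    filter_upwards [this] with s hs
    exact evk_H1 hρ hq hy (le_of_lt hs)
  exact e1.unique (e2.congr_of_eventuallyEq e3)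

theorem ev_Nb (hρ : 1 < ρ) (hq : ρ < q) (hx : SS q x) (hy : SS q y) {t : ℝ} (ht : |t| < bb ρ)
    (m Y m1 Y1 Y2 : ℝ) (hm : m = 1 + evk 0 x t) (hY : Y = 1 + evk 0 (Hm y) t) (hm1 : m1 = evk 1 x t)
    (hY1 : Y1 = evk 1 (Hm y) t) (hY2 : Y2 = evk 2 (Hm y) t) :
    evk 1 (Nb x y) t = m ^ 2 * Y * Y2 - 1 / 2 * (m ^ 2 * Y1 ^ 2) - 2 * (Y ^ 2 * m1 ^ 2) +
      2 * (m * Y * (m1 * Y1)) - Y2 := by
  have hq1 : 1 < q := hρ.trans hq
  have ht' := ht.le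
  have hρ' := hρ.le
  have hh := SS_Hm hq1 hy
  have sl := SS_lmul hy
  have s1 := sl.bil hq1 PK_kb hh
  have s2 := (SS_Dm hq1 hx).bil hq1 PK_kb hx
  have s3 := sl.bil hq1 PK_kb hx
  have sM := SS_Mm hq1 hx
  have sV := SS_Mm hq1 hh
  have sU := SS_Uu hq1 hx hh
  have sW := SS_Ww hq1 hx hh
  have m1' := sM.bil hq1 PK_kb s1
  have m2' := sV.bil hq1 PK_kb s2
  have m3' := sW.bil hq1 PK_kb s3
  have m4' := sU.bil hq1 PK_kb sl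
  have eMm : ∀ {z : ℕ → ℝ}, SS q z → evk 0 (Mm z) t = 2 * evk 0 z t + evk 0 z t ^ 2 := by
    intro z hz
    unfold Mm
    rw [evk_add hρ' hq (hz.smul 2) (hz.bil hq1 PK_kc hz) 0 ht', evk_smul, ev_kc hρ' hq hz hz ht']; ring
  have eU : evk 0 (Uu x (Hm y)) t = evk 0 (Mm x) t + evk 0 (Hm y) t + evk 0 (Mm x) t * evk 0 (Hm y) t := by
    unfold Uu
    rw [evk_add hρ' hq (sM.add hh) (sM.bil hq1 PK_kc hh) 0 ht', evk_add hρ' hq sM hh 0 ht',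
      ev_kc hρ' hq sM hh ht']
  have eW : evk 0 (Ww x (Hm y)) t = evk 0 x t + evk 0 (Hm y) t + evk 0 x t * evk 0 (Hm y) t := by
    unfold Ww
    rw [evk_add hρ' hq (hx.add hh) (hx.bil hq1 PK_kc hh) 0 ht', evk_add hρ' hq hx hh 0 ht',
      ev_kc hρ' hq hx hh ht']
  unfold Nb
  rw [evk_sub hρ' hq ((s1.add m1').smul _) ((m4'.add ((s2.add m2').smul _)).add ((s3.add m3').smul _)) 1 ht',
    evk_smul, evk_add hρ' hq s1 m1' 1 ht',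
    evk_add hρ' hq (m4'.add ((s2.add m2').smul _)) ((s3.add m3').smul _) 1 ht',
    evk_add hρ' hq m4' ((s2.add m2').smul _) 1 ht', evk_smul, evk_smul, evk_add hρ' hq s2 m2' 1 ht',
    evk_add hρ' hq s3 m3' 1 ht', ev_kb hρ' hq sM s1 ht', ev_kb hρ' hq sl hh ht', ev_kb hρ' hq sU sl ht',
    ev_kb hρ' hq sV s2 ht', ev_kb hρ' hq (SS_Dm hq1 hx) hx ht', ev_kb hρ' hq sW s3 ht',
    ev_kb hρ' hq sl hx ht', ev_Dm hρ' hq hx ht', evk_H1 hρ hq hy ht', evk_H2 hρ hq hy ht, eU, eW,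
    eMm hx, eMm hh, hm, hY, hm1, hY1, hY2]
  ring

theorem ev_GB (hρ : 1 < ρ) (hq : ρ < q) (hx : SS q x) (hy : SS q y) {t : ℝ} (ht : |t| < bb ρ)
    (m Y m1 Y1 Y2 : ℝ) (hm : m = 1 + evk 0 x t) (hY : Y = 1 + evk 0 (Hm y) t) (hm1 : m1 = evk 1 x t)
    (hY1 : Y1 = evk 1 (Hm y) t) (hY2 : Y2 = evk 2 (Hm y) t) :
    evk 1 (GB Θ x y) t = Θ * (m ^ 2 * Y * Y2 - 1 / 2 * (m ^ 2 * Y1 ^ 2) - 2 * (Y ^ 2 * m1 ^ 2) +
      2 * (m * Y * (m1 * Y1))) := by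
  have hq1 : 1 < q := hρ.trans hq
  have e1 : evk 1 (fun n => (-lam n) • y n) t = -evk 1 (lmul y) t := by
    rw [← evk_neg]
    congr 1
    funext n
    unfold lmul
    simp only [smul_eq_mul]
    ring
  unfold GB
  rw [evk_smul, evk_add hρ.le hq (hy.mulp nlam_poly) (SS_Nb hq1 hx hy) 1 ht.le, e1,
    ev_Nb hρ hq hx hy ht m Y m1 Y1 Y2 hm hY hm1 hY1 hY2, evk_H2 hρ hq hy ht, hY2]
  ring

end

/-! ### the solution as functions -/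

/-- `1 + μ` -/
def Mf (a : ℕ → CI) (s x : ℝ) : ℝ := 1 + evk 0 (cf a s) x
/-- `κ` -/
def Kf (b : ℕ → CI) (s x : ℝ) : ℝ := evk 1 (cf b s) x
/-- `Y = 1 + (1-x²) κ` -/
def Yf (b : ℕ → CI) (s x : ℝ) : ℝ := 1 + (1 - x ^ 2) * Kf b s x

section
variable {Θ q ρ : ℝ} {a0 b0 : ℕ → ℝ} {a b : ℕ → CI}

theorem Mf_dx (hρ : 1 < ρ) (hq : ρ < q) (ha : SS q a) (s : ℝ) {x : ℝ} (hx : |x| < bb ρ) :
    HasDerivAt (Mf a s) (evk 1 (cf a s) x) x := by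
  unfold Mf
  exact (evk_deriv hρ hq (SS_cf ha s) 0 hx).const_add 1

theorem nhds_bb {x : ℝ} (hx : |x| < bb ρ) : {y : ℝ | |y| < bb ρ} ∈ 𝓝 x :=
  (isOpen_lt continuous_abs continuous_const).mem_nhds hx

theorem Mf_deriv2 (hρ : 1 < ρ) (hq : ρ < q) (ha : SS q a) (s : ℝ) {x : ℝ} (hx : |x| < bb ρ) :
    HasDerivAt (deriv (Mf a s)) (evk 2 (cf a s) x) x := by
  refine (evk_deriv hρ hq (SS_cf ha s) 1 hx).congr_of_eventuallyEq ?_
  filter_upwards [nhds_bb hx] with y hy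
  exact (Mf_dx hρ hq ha s hy).deriv

theorem Yf_eq (hρ : 1 < ρ) (hq : ρ < q) (hb : SS q b) (s : ℝ) {x : ℝ} (hx : |x| ≤ bb ρ) :
    Yf b s x = 1 + evk 0 (Hm (cf b s)) x := by
  unfold Yf Kf
  rw [ev_Hm hρ.le hq (SS_cf hb s) hx]

theorem Yf_dx (hρ : 1 < ρ) (hq : ρ < q) (hb : SS q b) (s : ℝ) {x : ℝ} (hx : |x| < bb ρ) :
    HasDerivAt (Yf b s) (evk 1 (Hm (cf b s)) x) x := by
  refine ((evk_deriv hρ hq (SS_Hm (hρ.trans hq) (SS_cf hb s)) 0 hx).const_add 1).congr_of_eventuallyEq ?_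
  filter_upwards [nhds_bb hx] with y hy
  exact Yf_eq hρ hq hb s (le_of_lt hy)

theorem Yf_deriv2 (hρ : 1 < ρ) (hq : ρ < q) (hb : SS q b) (s : ℝ) {x : ℝ} (hx : |x| < bb ρ) :
    HasDerivAt (deriv (Yf b s)) (evk 2 (Hm (cf b s)) x) x := by
  refine (evk_deriv hρ hq (SS_Hm (hρ.trans hq) (SS_cf hb s)) 1 hx).congr_of_eventuallyEq ?_
  filter_upwards [nhds_bb hx] with y hy
  exact (Yf_dx hρ hq hb s hy).deriv

theorem Mf_ds (h : IsSol Θ q a0 b0 a b) (hρ : 1 < ρ) (hq : ρ < q) {s : ℝ} (hs : s ∈ Ioo (0:ℝ) 1) {x : ℝ}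
    (hx : |x| < bb ρ) :
    HasDerivAt (fun s => Mf a s x)
      (Θ * (Yf b s x * (Mf a s x ^ 2 * ((1 - x ^ 2) * deriv (deriv (Mf a s)) x - 2 * x * deriv (Mf a s) x)
        - Mf a s x * ((1 - x ^ 2) * deriv (Mf a s) x ^ 2) + 1 / 2 * Mf a s x ^ 3) - 1 / 2 * Mf a s x)) s := by
  have hq1 : 1 < q := hρ.trans hq
  rw [(Mf_deriv2 hρ hq h.ssa s hx).deriv, (Mf_dx hρ hq h.ssa s hx).deriv]
  rw [← ev_GA (Θ := Θ) hρ.le hq (SS_cf h.ssa s) (SS_cf h.ssb s) hx.le (Mf a s x) _ _ _ rfl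
    (Yf_eq hρ hq h.ssb s hx.le) rfl rfl]
  obtain ⟨r, hr1, hr2⟩ := exists_between hq
  have h1 := h.cda hq1 (by linarith : 1 ≤ r) hr2 hs
  have h2 := (Ak 0 r x).hasFDerivAt.comp_hasDerivAt s h1
  have e1 : (fun s => Mf a s x) = fun s => 1 + (Ak 0 r x) (toE r (cf a s)) := by
    funext s'
    exact congrArg (fun z => 1 + z) (Ak_apply hρ hr1 0 hx.le ((SS_cf h.ssa s') r (by linarith) hr2)).symm
  rw [e1, ← Ak_apply hρ hr1 0 hx.le ((SS_GA hq1 (SS_cf h.ssa s) (SS_cf h.ssb s)) r (by linarith) hr2)]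
  exact h2.const_add 1

theorem Kf_ds (h : IsSol Θ q a0 b0 a b) (hρ : 1 < ρ) (hq : ρ < q) {s : ℝ} (hs : s ∈ Ioo (0:ℝ) 1) {x : ℝ}
    (hx : |x| < bb ρ) :
    HasDerivAt (fun s => Kf b s x)
      (Θ * (Mf a s x ^ 2 * Yf b s x * deriv (deriv (Yf b s)) x - 1 / 2 * (Mf a s x ^ 2 * deriv (Yf b s) x ^ 2)
        - 2 * (Yf b s x ^ 2 * deriv (Mf a s) x ^ 2)
        + 2 * (Mf a s x * Yf b s x * (deriv (Mf a s) x * deriv (Yf b s) x)))) s := by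
  have hq1 : 1 < q := hρ.trans hq
  rw [(Yf_deriv2 hρ hq h.ssb s hx).deriv, (Yf_dx hρ hq h.ssb s hx).deriv, (Mf_dx hρ hq h.ssa s hx).deriv]
  rw [← ev_GB (Θ := Θ) hρ hq (SS_cf h.ssa s) (SS_cf h.ssb s) hx (Mf a s x) _ _ _ _ rfl
    (Yf_eq hρ hq h.ssb s hx.le) rfl rfl rfl]
  obtain ⟨r, hr1, hr2⟩ := exists_between hq
  have h1 := h.cdb hq1 (by linarith : 1 ≤ r) hr2 hs
  have h2 := (Ak 1 r x).hasFDerivAt.comp_hasDerivAt s h1
  have e1 : (fun s => Kf b s x) = fun s => (Ak 1 r x) (toE r (cf b s)) := by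
    funext s'
    exact (Ak_apply hρ hr1 1 hx.le ((SS_cf h.ssb s') r (by linarith) hr2)).symm
  rw [e1, ← Ak_apply hρ hr1 1 hx.le ((SS_GB hq1 (SS_cf h.ssa s) (SS_cf h.ssb s)) r (by linarith) hr2)]
  exact h2

theorem Mf_smooth (h : IsSol Θ q a0 b0 a b) (hρ : 1 < ρ) (hq : ρ < q) :
    ContDiffOn ℝ ∞ (fun p : ℝ × ℝ => Mf a p.1 p.2) (Set.Ioo 0 1 ×ˢ Set.Ioo (-bb ρ) (bb ρ)) := by
  unfold Mf
  exact contDiffOn_const.add (evk_smooth hρ hq (f := fun n s => cf a s n)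
    (fun m => (h.smc (hρ.trans hq) m).1) 0)

theorem Kf_smooth (h : IsSol Θ q a0 b0 a b) (hρ : 1 < ρ) (hq : ρ < q) :
    ContDiffOn ℝ ∞ (fun p : ℝ × ℝ => Kf b p.1 p.2) (Set.Ioo 0 1 ×ˢ Set.Ioo (-bb ρ) (bb ρ)) := by
  unfold Kf
  exact evk_smooth hρ hq (f := fun n s => cf b s n) (fun m => (h.smc (hρ.trans hq) m).2) 1

end

end

end Pool.Agent.H786
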