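import Mathlib
import Pool.Agent.H786.Pde
import Pool.Agent.H786.G.R_pool_sql_team_seeded_63374d34.N535.Flow

set_option autoImplicit false
set_option linter.all false
open Set Filter Topology
open scoped ENNReal ContDiff

namespace Pool.Agent.H786

open Pool.Agent.N535 (PK SS bil bb one_lt_bb stt Tf tf Tf_pos sub_pos' stt_mem stt_deriv stt_smooth stt_tf
  sub_tf tf_pos)
open Pool.Agent.H858R2 (CI ev evH)

noncomputable section

/-- the functions in the original time variable -/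
def mm (a : ℕ → CI) (A Θ t x : ℝ) : ℝ := (Real.sqrt (A - 4 * t))⁻¹ * Mf a (stt A (Θ / 4) t) x
def kk (b : ℕ → CI) (A Θ t x : ℝ) : ℝ := Kf b (stt A (Θ / 4) t) x
def yy (b : ℕ → CI) (A Θ t x : ℝ) : ℝ := 1 + (1 - x ^ 2) * kk b A Θ t x

section
variable {Θ q ρ A : ℝ} {a0 b0 : ℕ → ℝ} {a b : ℕ → CI}

theorem mm_smooth (h : IsSol Θ q a0 b0 a b) (hA : 0 < A) (hΘ : 0 < Θ) (hρ : 1 < ρ) (hq : ρ < q) :
    ContDiffOn ℝ ∞ (fun p : ℝ × ℝ => mm a A Θ p.1 p.2) (Ioo 0 (Tf A (Θ / 4)) ×ˢ Ioo (-bb ρ) (bb ρ)) := by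
  have hΘ' : 0 < Θ / 4 := by positivity
  unfold mm
  refine ContDiffOn.mul ?_ ?_
  · refine ContDiffOn.inv (ContDiffOn.sqrt ?_ ?_) ?_
    · exact (contDiff_const.sub (contDiff_const.mul contDiff_fst)).contDiffOn
    · intro p hp; exact (sub_pos' hA hp.1.2).ne'
    · intro p hp; exact (Real.sqrt_pos.2 (sub_pos' hA hp.1.2)).ne'
  · have h1 : ContDiffOn ℝ ∞ (fun p : ℝ × ℝ => (stt A (Θ / 4) p.1, p.2))
        (Ioo 0 (Tf A (Θ / 4)) ×ˢ Ioo (-bb ρ) (bb ρ)) := by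
      refine ContDiffOn.prodMk ?_ contDiff_snd.contDiffOn
      exact (stt_smooth (Θ := Θ / 4) hA).comp contDiff_fst.contDiffOn fun p hp => hp.1.2
    exact (Mf_smooth h hρ hq).comp h1 fun p hp => ⟨stt_mem hA hΘ' hp.1, hp.2⟩

theorem kk_smooth (h : IsSol Θ q a0 b0 a b) (hA : 0 < A) (hΘ : 0 < Θ) (hρ : 1 < ρ) (hq : ρ < q) :
    ContDiffOn ℝ ∞ (fun p : ℝ × ℝ => kk b A Θ p.1 p.2) (Ioo 0 (Tf A (Θ / 4)) ×ˢ Ioo (-bb ρ) (bb ρ)) := by
  have hΘ' : 0 < Θ / 4 := by positivity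
  unfold kk
  have h1 : ContDiffOn ℝ ∞ (fun p : ℝ × ℝ => (stt A (Θ / 4) p.1, p.2))
      (Ioo 0 (Tf A (Θ / 4)) ×ˢ Ioo (-bb ρ) (bb ρ)) := by
    refine ContDiffOn.prodMk ?_ contDiff_snd.contDiffOn
    exact (stt_smooth (Θ := Θ / 4) hA).comp contDiff_fst.contDiffOn fun p hp => hp.1.2
  exact (Kf_smooth h hρ hq).comp h1 fun p hp => ⟨stt_mem hA hΘ' hp.1, hp.2⟩

theorem mm_deriv (A Θ t x : ℝ) :
    deriv (mm a A Θ t) x = (Real.sqrt (A - 4 * t))⁻¹ * deriv (Mf a (stt A (Θ / 4) t)) x := by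
  have : mm a A Θ t = fun x => (Real.sqrt (A - 4 * t))⁻¹ * Mf a (stt A (Θ / 4) t) x := rfl
  rw [this, deriv_const_mul_field]

theorem mm_deriv2 (A Θ t x : ℝ) : deriv (deriv (mm a A Θ t)) x =
    (Real.sqrt (A - 4 * t))⁻¹ * deriv (deriv (Mf a (stt A (Θ / 4) t))) x := by
  have : deriv (mm a A Θ t) = fun x => (Real.sqrt (A - 4 * t))⁻¹ * deriv (Mf a (stt A (Θ / 4) t)) x :=
    funext fun x => mm_deriv A Θ t x
  rw [this, deriv_const_mul_field]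

theorem yy_eq (A Θ t : ℝ) : yy b A Θ t = Yf b (stt A (Θ / 4) t) := rfl

theorem mm_dt (h : IsSol Θ q a0 b0 a b) (hA : 0 < A) (hΘ : 0 < Θ) (hρ : 1 < ρ) (hq : ρ < q) {t : ℝ}
    (ht : t ∈ Ioo 0 (Tf A (Θ / 4))) {x : ℝ} (hx : |x| < bb ρ) :
    HasDerivAt (fun s => mm a A Θ s x)
      (4 * (yy b A Θ t x * (mm a A Θ t x ^ 2 * ((1 - x ^ 2) * deriv (deriv (mm a A Θ t)) x -
        2 * x * deriv (mm a A Θ t) x) - mm a A Θ t x * ((1 - x ^ 2) * deriv (mm a A Θ t) x ^ 2) +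
        1 / 2 * mm a A Θ t x ^ 3))) t := by
  have hΘ' : 0 < Θ / 4 := by positivity
  have hy := sub_pos' hA ht.2
  have hS : 0 < Real.sqrt (A - 4 * t) := Real.sqrt_pos.2 hy
  have h1 : HasDerivAt (fun s : ℝ => A - 4 * s) (-4) t := by
    have := ((hasDerivAt_id t).const_mul 4).const_sub A
    simpa using this
  have h2 : HasDerivAt (fun y => (Real.sqrt (A - 4 * y))⁻¹)
      (-(-4 / (2 * Real.sqrt (A - 4 * t))) / Real.sqrt (A - 4 * t) ^ 2) t :=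
    (h1.sqrt hy.ne').inv hS.ne'
  have h3 := (Mf_ds h hρ hq (stt_mem hA hΘ' ht) hx).comp t (stt_deriv hA hΘ' ht.2)
  have h4 := h2.mul h3
  refine (h4.congr_of_eventuallyEq (Filter.Eventually.of_forall fun s => rfl)).congr_deriv ?_
  rw [mm_deriv, mm_deriv2, yy_eq]
  unfold mm
  simp only [Function.comp]
  set S := Real.sqrt (A - 4 * t) with hSdef
  have hS2 : A - 4 * t = S ^ 2 := (Real.sq_sqrt hy.le).symm
  rw [hS2]
  generalize Mf a (stt A (Θ / 4) t) x = W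
  generalize deriv (Mf a (stt A (Θ / 4) t)) x = W1
  generalize deriv (deriv (Mf a (stt A (Θ / 4) t))) x = W2
  generalize Yf b (stt A (Θ / 4) t) x = J
  have hS0 := hS.ne'
  have hΘ0 := hΘ.ne'
  field_simp
  ring

theorem kk_dt (h : IsSol Θ q a0 b0 a b) (hA : 0 < A) (hΘ : 0 < Θ) (hρ : 1 < ρ) (hq : ρ < q) {t : ℝ}
    (ht : t ∈ Ioo 0 (Tf A (Θ / 4))) {x : ℝ} (hx : |x| < bb ρ) :
    HasDerivAt (fun s => kk b A Θ s x)
      (4 * (mm a A Θ t x ^ 2 * yy b A Θ t x * deriv (deriv (yy b A Θ t)) x -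
        1 / 2 * (mm a A Θ t x ^ 2 * deriv (yy b A Θ t) x ^ 2)
        - 2 * (yy b A Θ t x ^ 2 * deriv (mm a A Θ t) x ^ 2)
        + 2 * (mm a A Θ t x * yy b A Θ t x * (deriv (mm a A Θ t) x * deriv (yy b A Θ t) x)))) t := by
  have hΘ' : 0 < Θ / 4 := by positivity
  have hy := sub_pos' hA ht.2
  have hS : 0 < Real.sqrt (A - 4 * t) := Real.sqrt_pos.2 hy
  have h3 := (Kf_ds h hρ hq (stt_mem hA hΘ' ht) hx).comp t (stt_deriv hA hΘ' ht.2)
  refine h3.congr_deriv ?_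
  rw [mm_deriv, yy_eq]
  unfold mm
  set S := Real.sqrt (A - 4 * t) with hSdef
  have hS2 : A - 4 * t = S ^ 2 := (Real.sq_sqrt hy.le).symm
  rw [hS2]
  generalize Mf a (stt A (Θ / 4) t) x = W
  generalize deriv (Mf a (stt A (Θ / 4) t)) x = W1
  generalize Yf b (stt A (Θ / 4) t) x = J
  generalize deriv (Yf b (stt A (Θ / 4) t)) x = J1
  generalize deriv (deriv (Yf b (stt A (Θ / 4) t))) x = J2
  have hS0 := hS.ne'
  have hΘ0 := hΘ.ne'
  field_simp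

end

end

end Pool.Agent.H786
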