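import Mathlib
import Pool.Agent.H786.Ivm
import Pool.Agent.H786.Fix
import Pool.Agent.H786.Tme

set_option autoImplicit false
set_option linter.all false
open Set Filter Topology
open scoped ENNReal ContDiff

namespace Pool.Agent.H786

open Pool.Agent.N535 (PK SS bil bb one_lt_bb stt Tf tf Tf_pos tf_pos)
open Pool.Agent.H858R2 (CI ev evH abs_ev_le continuous_ev)

noncomputable section

section
variable {Θ q N B ρ : ℝ} {F a b : ℕ → CI}

theorem seq_bound (hq : 1 ≤ q) (hB : 0 ≤ B) (h : nS q N F ≤ ENNReal.ofReal B) (s : ℝ) {x : ℝ}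
    (hx : x ∈ Icc (-1:ℝ) 1) : |evk 0 (cf F s) x| ≤ B := by
  have h1 : ‖evk 0 (cf F s) x‖ₑ ≤ ENNReal.ofReal B := by
    unfold evk
    refine (enorm_tsum_le_tsum_enorm).trans ?_
    refine le_trans (ENNReal.tsum_le_tsum fun n => ?_) ((sum1_le_nu (N := N) hq (fun n => ‖F n‖ₑ)).trans h)
    rw [enorm_mul]
    have e1 : ‖cf F s n‖ₑ ≤ ‖F n‖ₑ := by
      rw [enorm_le_iff_norm_le]
      exact abs_ev_le _ _
    have e2 : ‖sv 0 n x‖ₑ ≤ 1 := by
      rw [Real.enorm_eq_ofReal_abs, ENNReal.ofReal_le_one]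
      exact lg_bound_one (abs_le.2 hx) n
    calc ‖cf F s n‖ₑ * ‖sv 0 n x‖ₑ ≤ ‖F n‖ₑ * 1 := mul_le_mul' e1 e2
      _ = _ := mul_one _
  rw [Real.enorm_eq_ofReal_abs, ENNReal.ofReal_le_ofReal_iff hB] at h1
  exact h1

theorem weak0 (hq : 1 ≤ q) (hN : 0 < N) (hB : 0 ≤ B) (h : nS q N F ≤ ENNReal.ofReal (N * B)) : ‖F 0‖ ≤ B := by
  have h1 := (weak_le_nu (q := q) (N := N) (fun n => ‖F n‖ₑ) 0).trans h
  simp only [Nat.cast_zero, mul_zero, zero_add, ENNReal.ofReal_one, one_mul] at h1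
  rw [ENNReal.ofReal_mul hN.le, ENNReal.mul_le_mul_iff_right (by simpa using hN) ENNReal.ofReal_ne_top,
    ← ofReal_norm, ENNReal.ofReal_le_ofReal_iff hB] at h1
  exact h1

/-- joint continuity -/
theorem evk_joint (hρ : 1 < ρ) (hq : ρ < q) (hF : SS q F) (k : ℕ) :
    ContinuousOn (fun p : ℝ × ℝ => evk k (cf F p.1) p.2) (univ ×ˢ Icc (-1:ℝ) 1) := by
  obtain ⟨C, hC, hb⟩ := sv_geom hρ.le hq k
  obtain ⟨r, hr1, hr2⟩ := exists_between hq
  obtain ⟨C, hC, hb⟩ := sv_geom hρ.le hr1 k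
  unfold evk
  refine continuousOn_tsum (u := fun n => C * (r ^ n * ‖F n‖)) (fun n => ?_)
    ((hF r (by linarith) hr2).mul_left C) (fun n p hp => ?_)
  · have h1 : Continuous (sv k n) := by
      unfold sv; exact Polynomial.continuous _
    exact (((continuous_ev (F n)).comp continuous_fst).mul (h1.comp continuous_snd)).continuousOn
  · rw [norm_mul]
    have e1 : ‖cf F p.1 n‖ ≤ ‖F n‖ := abs_ev_le _ _
    have e2 : ‖sv k n p.2‖ ≤ C * r ^ n := hb n p.2 (bbI hρ hp.2).le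
    calc ‖cf F p.1 n‖ * ‖sv k n p.2‖ ≤ ‖F n‖ * (C * r ^ n) := by gcongr
      _ = _ := by ring

theorem tube {f : ℝ × ℝ → ℝ} (hf : ContinuousOn f (univ ×ˢ Icc (-1:ℝ) 1)) {c : ℝ}
    (h : ∀ x ∈ Icc (-1:ℝ) 1, c < f (0, x)) : ∀ᶠ s in 𝓝[>] (0:ℝ), ∀ x ∈ Icc (-1:ℝ) 1, c < f (s, x) := by
  set g : ℝ × ℝ → ℝ := fun p => f (p.1, (projIcc (-1:ℝ) 1 (by norm_num) p.2 : ℝ)) with hg
  have hgc : Continuous g := by
    refine hf.comp_continuous (continuous_fst.prodMk (continuous_subtype_val.comp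
      (continuous_projIcc.comp continuous_snd))) fun p => ⟨mem_univ _, (projIcc (-1:ℝ) 1 (by norm_num) p.2).2⟩
  have hgv : ∀ s, ∀ x ∈ Icc (-1:ℝ) 1, g (s, x) = f (s, x) := by
    intro s x hx
    simp only [hg]
    rw [projIcc_of_mem (by norm_num) hx]
  have key : ∀ᶠ s in 𝓝 (0:ℝ), ∀ x ∈ Icc (-1:ℝ) 1, c < g (s, x) := by
    refine isCompact_Icc.eventually_forall_of_forall_eventually (P := fun s x => c < g (s, x)) ?_
    intro y hy
    have h1 : c < g (0, y) := by rw [hgv 0 y hy]; exact h y hy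
    exact continuousAt_const.eventually_lt hgc.continuousAt h1
  filter_upwards [nhdsWithin_le_nhds key] with s hs x hx
  rw [← hgv s x hx]
  exact hs x hx

end

theorem evk_time0 {Θ q ρ : ℝ} {a0 b0 : ℕ → ℝ} {a b : ℕ → CI} (h : IsSol Θ q a0 b0 a b) (ha0 : a0 0 = 0)
    (hs : SS q a0) (hρ : 1 < ρ) (hq : ρ < q) (k : ℕ) {x : ℝ} (hx : |x| ≤ bb ρ) :
    evk k (cf a 0) x = cf a 0 0 * sv k 0 x + evk k a0 x := by
  have e : cf a 0 = fun n => (cf a 0 0) • dl 0 n + a0 n := by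
    funext n
    by_cases hn : n = 0
    · subst hn; simp [dl, ha0]
    · rw [h.init_a hn]; simp [dl, hn]
  rw [e, evk_add hρ.le hq ((SS_dl q 0).smul _) hs k hx, evk_smul, tsum_sv_dl]
  simp [dl, ha0]

theorem sv_succ_0 (k : ℕ) (x : ℝ) : sv (k + 1) 0 x = 0 := by
  unfold sv
  rw [lg_zero, Function.iterate_succ_apply, Polynomial.derivative_one, Polynomial.iterate_derivative_zero]
  simp


/-- the analytic part of the construction -/
theorem ana : ∃ ε₁ : ℝ, 0 < ε₁ ∧ ε₁ ≤ 1 / 2 ∧ ∀ η : ℝ, 0 < η →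
    ∃ (A Θ ρ q s₀ : ℝ) (a0 b0 : ℕ → ℝ) (a b : ℕ → CI), IsSol Θ q a0 b0 a b ∧ 1 < ρ ∧ ρ < q ∧ 0 < Θ ∧
      s₀ ∈ Ioo (0:ℝ) 1 ∧ 0 < A ∧ 1 - η ≤ A ∧ A ≤ 1 ∧ Real.exp (-Θ) ≤ η ∧ tf A (Θ / 4) s₀ ≤ η ∧
      (∀ s, ∀ x ∈ Icc (-1:ℝ) 1, 1 / 2 ≤ Mf a s x ∧ 1 / 2 ≤ Yf b s x) ∧
      (∀ x ∈ Icc (-1:ℝ) 1, 1 - η ≤ Mf a s₀ x ∧ 1 - η ≤ Yf b s₀ x ∧
        3 * A ≤ RhF x (Mf a s₀ x) (evk 1 (cf a s₀) x) (evk 2 (cf a s₀) x) (Kf b s₀ x) (evk 2 (cf b s₀) x)) ∧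
      1 + ε₁ / 2 ≤ Mf a s₀ 1 := by
  obtain ⟨C, hC, ε₀, hε₀, hsol⟩ := sol_exists
  obtain ⟨x₀, hx0, hx1, hx2, hx3⟩ : ∃ x₀ : ℝ, 0 < x₀ ∧ x₀ ≤ 1 / 2 ∧ 6000 * x₀ ≤ ε₀ ∧ C * (6000 * x₀) ≤ 1 / 2 := by
    refine ⟨min (1 / 2) (min (ε₀ / 6000) (1 / (12000 * C))), by positivity, min_le_left _ _, ?_, ?_⟩
    · have : min (1 / 2) (min (ε₀ / 6000) (1 / (12000 * C))) ≤ ε₀ / 6000 := (min_le_right _ _).trans (min_le_left _ _)
      linarith
    · have h1 : min (1 / 2) (min (ε₀ / 6000) (1 / (12000 * C))) ≤ 1 / (12000 * C) :=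
        (min_le_right _ _).trans (min_le_right _ _)
      calc C * (6000 * min (1 / 2) (min (ε₀ / 6000) (1 / (12000 * C)))) ≤ C * (6000 * (1 / (12000 * C))) := by gcongr
        _ = 1 / 2 := by field_simp; norm_num
  set ca : ℝ := 6000 * C with hca
  obtain ⟨C', e₀, hC', he₀, hCe, hini⟩ := ini_bounds (ca := ca) (by positivity)
  refine ⟨x₀, hx0, hx1, fun η hη => ?_⟩
  -- choice of r
  obtain ⟨M, hM10, hM1, hM2, hM3⟩ : ∃ M : ℝ, 10 ≤ M ∧ x₀ / M ≤ e₀ ∧ (C' + 1) * (x₀ / M) ≤ min η (1 / 2) ∧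
      (4 + ca) * (x₀ / M) < x₀ / 2 := by
    have hη' : 0 < min η (1 / 2) := by positivity
    refine ⟨max 10 (max (x₀ / e₀) (max ((C' + 1) * x₀ / min η (1 / 2)) (2 * (4 + ca) + 1))), le_max_left _ _, ?_, ?_, ?_⟩
    · rw [div_le_comm₀ (by positivity) he₀]
      exact (le_max_left _ _).trans (le_max_right _ _)
    · rw [mul_div_assoc', div_le_comm₀ (by positivity) hη']
      exact (le_max_left _ _).trans ((le_max_right _ _).trans (le_max_right _ _))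
    · rw [mul_div_assoc', div_lt_iff₀ (by positivity)]
      have : 2 * (4 + ca) + 1 ≤ max 10 (max (x₀ / e₀) (max ((C' + 1) * x₀ / min η (1 / 2)) (2 * (4 + ca) + 1))) :=
        (le_max_right _ _).trans ((le_max_right _ _).trans (le_max_right _ _))
      nlinarith
  obtain ⟨r, hr0, hr1, hrM⟩ := ell_large M hM10
  have h0 : 0 < r := by linarith
  set ℓ := ∑' n, ga r n with hℓ
  have hℓ0 : 0 < ℓ := by linarith
  have hℓ1 : 1 ≤ ℓ := by linarith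
  set e := x₀ / ℓ with he
  have he0 : 0 < e := by positivity
  have heℓ : e * ℓ = x₀ := by rw [he]; field_simp
  have heM : e ≤ x₀ / M := div_le_div_of_nonneg_left hx0.le (by linarith) hrM
  have hq1 := qq_gt h0 hr1
  have hq2 := qq_le hr0
  obtain ⟨ρ, hρ, hρq⟩ := exists_between hq1
  obtain ⟨Θ, hΘ, hΘe⟩ : ∃ Θ : ℝ, 0 < Θ ∧ Real.exp (-Θ) ≤ η := by
    refine ⟨η⁻¹, by positivity, ?_⟩
    rw [Real.exp_neg, inv_le_comm₀ (Real.exp_pos _) hη]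
    have h1 := Real.add_one_le_exp (η⁻¹)
    linarith
  have hn := ini_norm he0.le hr0 hr1 hℓ1 (by rw [← hℓ, heℓ]; linarith)
  rw [← hℓ, heℓ] at hn
  obtain ⟨a, b, hX, hP⟩ := hsol Θ (qq r) ℓ (6000 * x₀) hΘ hq1 hq2 (by positivity) hx2 (ia e r) (ib e r) hn
  have hnS1 : nS (qq r) ℓ a ≤ ENNReal.ofReal (C * (6000 * x₀)) := (nX_1 (Θ := Θ) (F := (a, b))).trans hX
  have hnS3 : nS (qq r) ℓ b ≤ ENNReal.ofReal (C * (6000 * x₀)) := (nX_3 (Θ := Θ) (F := (a, b))).trans hX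
  have hnS5 : nS (qq r) ℓ (Hm b) ≤ ENNReal.ofReal (C * (6000 * x₀)) := (nX_5 (Θ := Θ) (F := (a, b))).trans hX
  have hS : IsSol Θ (qq r) (ia e r) (ib e r) a b :=
    ⟨SS_of_nS hq1.le (ne_top_of_le_ne_top ENNReal.ofReal_ne_top hnS1),
      SS_of_nS hq1.le (ne_top_of_le_ne_top ENNReal.ofReal_ne_top hnS3), hP⟩
  have hCx : 0 ≤ C * (6000 * x₀) := by positivity
  have hMb : ∀ s, ∀ x ∈ Icc (-1:ℝ) 1, 1 / 2 ≤ Mf a s x := by
    intro s x hx
    have := (abs_le.1 (seq_bound hq1.le hCx hnS1 s hx)).1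
    unfold Mf; linarith
  have hYb : ∀ s, ∀ x ∈ Icc (-1:ℝ) 1, 1 / 2 ≤ Yf b s x := by
    intro s x hx
    have := (abs_le.1 (seq_bound hq1.le hCx hnS5 s hx)).1
    rw [Yf_eq hρ hρq hS.ssb s (bbI hρ hx).le, ← cf_Hm hq1 hS.ssb]
    linarith
  -- the free constant
  have hα : |cf a 0 0| ≤ ca * e := by
    refine (abs_ev_le (a 0) 0).trans ?_
    refine weak0 hq1.le hℓ0 (by positivity) (hnS1.trans (le_of_eq ?_))
    congr 1
    rw [hca, ← heℓ]; ring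
  have hia0 : ia e r 0 = 0 := by unfold ia; rw [ga_zero, mul_zero]
  have hib0 : ib e r 0 = 0 := by unfold ib bt; rw [ga_zero, cn_zero]; ring
  have hb0 : cf b 0 = ib e r := by
    funext n
    by_cases hn : n = 0
    · subst hn; rw [hS.init_b0, hib0]
    · exact hS.init_b hn
  have vM : ∀ x ∈ Icc (-1:ℝ) 1, Mf a 0 x = 1 + (cf a 0 0 + evk 0 (ia e r) x) := by
    intro x hx
    unfold Mf
    rw [evk_time0 hS hia0 (SS_ia h0 hr1) hρ hρq 0 (bbI hρ hx).le, sv0_0, mul_one]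
  have vM1 : ∀ k, ∀ x ∈ Icc (-1:ℝ) 1, evk (k + 1) (cf a 0) x = evk (k + 1) (ia e r) x := by
    intro k x hx
    rw [evk_time0 hS hia0 (SS_ia h0 hr1) hρ hρq (k + 1) (bbI hρ hx).le, sv_succ_0, mul_zero, zero_add]
  have hCM : (C' + 1) * e ≤ min η (1 / 2) := by
    refine le_trans ?_ hM2
    exact mul_le_mul_of_nonneg_left heM (by linarith)
  have hCη : (C' + 1) * e ≤ η := hCM.trans (min_le_left _ _)
  have hC2 : (C' + 1) * e ≤ 1 / 2 := hCM.trans (min_le_right _ _)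
  have hb := fun x hx => hini (r := r) (e := e) (α := cf a 0 0) (ρ := ρ) hr0 hr1 he0 (heM.trans hM1)
    (by rw [← hℓ, heℓ]; exact hx1) hα hρ hρq x hx
  -- continuity
  have j0 := evk_joint hρ hρq hS.ssa 0
  have j1 := evk_joint hρ hρq hS.ssa 1
  have j2 := evk_joint hρ hρq hS.ssa 2
  have l1 := evk_joint hρ hρq hS.ssb 1
  have l2 := evk_joint hρ hρq hS.ssb 2
  have cM : ContinuousOn (fun p : ℝ × ℝ => Mf a p.1 p.2) (univ ×ˢ Icc (-1:ℝ) 1) := continuousOn_const.add j0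
  have cY : ContinuousOn (fun p : ℝ × ℝ => Yf b p.1 p.2) (univ ×ˢ Icc (-1:ℝ) 1) :=
    continuousOn_const.add (((continuous_const.sub (continuous_snd.pow 2)).continuousOn).mul l1)
  have cR : ContinuousOn (fun p : ℝ × ℝ => RhF p.2 (Mf a p.1 p.2) (evk 1 (cf a p.1) p.2) (evk 2 (cf a p.1) p.2)
      (Kf b p.1 p.2) (evk 2 (cf b p.1) p.2)) (univ ×ˢ Icc (-1:ℝ) 1) :=
    RhF_contOn continuousOn_snd cM j1 j2 l1 l2
  have tM := tube (c := 1 - (C' + 1) * e) cM (fun x hx => by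
    have := (hb x hx).1
    show 1 - (C' + 1) * e < Mf a 0 x
    rw [vM x hx]; linarith)
  have tY := tube (c := 1 - (C' + 1) * e) cY (fun x hx => by
    have := (hb x hx).2.1
    show 1 - (C' + 1) * e < 1 + (1 - x ^ 2) * evk 1 (cf b 0) x
    rw [hb0]; linarith)
  have tR := tube (c := 3 - (C' + 1) * e) cR (fun x hx => by
    have := (hb x hx).2.2
    show 3 - (C' + 1) * e < RhF x (Mf a 0 x) (evk 1 (cf a 0) x) (evk 2 (cf a 0) x)
      (evk 1 (cf b 0) x) (evk 2 (cf b 0) x)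
    rw [vM x hx, vM1 0 x hx, vM1 1 x hx, hb0]
    linarith)
  have h1I : (1:ℝ) ∈ Icc (-1:ℝ) 1 := ⟨by norm_num, le_rfl⟩
  have t1 : ∀ᶠ s in 𝓝[>] (0:ℝ), 1 + x₀ / 2 < Mf a s 1 := by
    have h2 : 1 + x₀ / 2 < Mf a 0 1 := by
      rw [vM 1 h1I]
      have h3 := m_one hr0 hr1 he0.le
      rw [← hℓ, heℓ] at h3
      have h4 := (abs_le.1 hα).1
      have h5 : (4 + ca) * e < x₀ / 2 := lt_of_le_of_lt (mul_le_mul_of_nonneg_left heM (by positivity)) hM3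
      linarith
    have h6 : Continuous fun s : ℝ => Mf a s 1 := by
      have := cM.comp_continuous (f := fun s : ℝ => (s, (1:ℝ))) (by fun_prop) (fun s => ⟨mem_univ _, h1I⟩)
      exact this
    exact nhdsWithin_le_nhds (continuousAt_const.eventually_lt h6.continuousAt h2)
  set A := 1 - (C' + 1) * e with hA
  have hA0 : 0 < A := by rw [hA]; linarith
  have t2 : ∀ᶠ s in 𝓝[>] (0:ℝ), tf A (Θ / 4) s < η := by
    have h1 : Continuous (tf A (Θ / 4)) := by unfold tf; fun_prop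
    have h2 : tf A (Θ / 4) 0 < η := by unfold tf; simpa using hη
    exact nhdsWithin_le_nhds (h1.continuousAt.eventually_lt continuousAt_const h2)
  obtain ⟨s₀, q1, q2, q3, q4, q5, q6⟩ :=
    (tM.and (tY.and (tR.and (t1.and (t2.and (Ioo_mem_nhdsGT (zero_lt_one : (0:ℝ) < 1))))))).exists
  refine ⟨A, Θ, ρ, qq r, s₀, ia e r, ib e r, a, b, hS, hρ, hρq, hΘ, q6, hA0, by rw [hA]; linarith, ?_, hΘe,
    q5.le, fun s x hx => ⟨hMb s x hx, hYb s x hx⟩, fun x hx => ⟨?_, ?_, ?_⟩, q4.le⟩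
  · rw [hA]
    have : 0 ≤ (C' + 1) * e := by positivity
    linarith
  · have := q1 x hx
    linarith
  · have := q2 x hx
    linarith
  · have := q3 x hx
    have h7 : 0 ≤ (C' + 1) * e := by positivity
    refine le_trans ?_ this.le
    rw [hA]; linarith

end

end Pool.Agent.H786
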