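import Mathlib
import Pool.Agent.H786.G.R_pool_sql_team_seeded_63374d34.N564.RF3.Chart

set_option autoImplicit false
set_option linter.all false
open scoped ContDiff Manifold Topology Matrix RealInnerProductSpace
open Set

namespace Pool.Agent.H786

open Pool.Agent.QTot (Eu Mt pd Jac Gam Ric)
open Pool.Agent.QTot.N2
open Pool.Agent.H858R2 (En ctarget ctrn)
open Pool.Agent.N535 (S3 E4 Met JP Pinv amb)
open Pool.Agent.N564.RF3 (chart_pkg JP_mulVec JP_inj JP_comp JP_congr contDiff_JP d4 d4_comm tangent d4_smooth)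

/-- the function `z` -/
def zq (x : Fin 4 → ℝ) : ℝ := x 2 ^ 2 + x 3 ^ 2 - x 0 ^ 2 - x 1 ^ 2

/-- the gradient of `z` -/
def zc (x : Fin 4 → ℝ) (a : Fin 4) : ℝ :=
  match a with
  | 0 => -2 * x 0
  | 1 => -2 * x 1
  | 2 => 2 * x 2
  | 3 => 2 * x 3

def dc (P S : ℝ) (a : Fin 4) : ℝ :=
  match a with
  | 0 => P
  | 1 => P
  | 2 => S
  | 3 => S

/-- the ambient form `P(z)(dx₀²+dx₁²) + S(z)(dx₂²+dx₃²) + D(z)dz²` -/
noncomputable def amF (P S D : ℝ → ℝ) (x : Fin 4 → ℝ) : Matrix (Fin 4) (Fin 4) ℝ :=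
  Matrix.of fun a b => (if a = b then dc (P (zq x)) (S (zq x)) a else 0) + D (zq x) * (zc x a * zc x b)

/-- its pull-back -/
noncomputable def puF (Q : Eu 3 → (Fin 4 → ℝ)) (P S D : ℝ → ℝ) (y : Eu 3) : Mt 3 :=
  (JP Q y)ᵀ * amF P S D (Q y) * JP Q y

/-- coefficients in the coordinates `(z, θ, ψ)` -/
noncomputable def Ec (P S D : ℝ → ℝ) (x : ℝ) : ℝ := (P x / (1 - x) + S x / (1 + x)) / 8 + D x
noncomputable def Fc (P : ℝ → ℝ) (x : ℝ) : ℝ := P x * (1 - x) / 2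
noncomputable def Gc (S : ℝ → ℝ) (x : ℝ) : ℝ := S x * (1 + x) / 2

/-- positivity -/
def PosT (P S D : ℝ → ℝ) : Prop := ∀ x ∈ Icc (-1 : ℝ) 1, 0 < P x ∧ 0 < S x ∧
  0 < P x * (1 + x) + S x * (1 - x) + 8 * (1 - x ^ 2) * D x

def dA (v w : Fin 4 → ℝ) : ℝ := v 0 * w 0 + v 1 * w 1
def dB (v w : Fin 4 → ℝ) : ℝ := v 2 * w 2 + v 3 * w 3
/-- `dz` applied to a vector -/
def dz (x v : Fin 4 → ℝ) : ℝ := 2 * (x 2 * v 2 + x 3 * v 3 - x 0 * v 0 - x 1 * v 1)

theorem puF_entry (Q : Eu 3 → (Fin 4 → ℝ)) (P S D : ℝ → ℝ) (u : Eu 3) (i j : Fin 3) :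
    puF Q P S D u i j =
      P (zq (Q u)) * dA (fun a => JP Q u a i) (fun a => JP Q u a j)
      + S (zq (Q u)) * dB (fun a => JP Q u a i) (fun a => JP Q u a j)
      + D (zq (Q u)) * (dz (Q u) (fun a => JP Q u a i) * dz (Q u) (fun a => JP Q u a j)) := by
  simp only [puF, Matrix.mul_apply, amF, Matrix.of_apply, Matrix.transpose_apply, Fin.sum_univ_four,
    dA, dB, dz]
  simp [Fin.ext_iff, dc, zc]
  ring

theorem puF_symm (Q : Eu 3 → (Fin 4 → ℝ)) (P S D : ℝ → ℝ) (y : Eu 3) : (puF Q P S D y).IsSymm := by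
  ext i j
  rw [Matrix.transpose_apply, puF_entry, puF_entry]
  simp only [dA, dB, dz]
  ring

theorem puF_quad (Q : Eu 3 → (Fin 4 → ℝ)) (P S D : ℝ → ℝ) (u : Eu 3) (ξ : Eu 3) :
    ξ ⬝ᵥ (puF Q P S D u).mulVec ξ =
      P (zq (Q u)) * dA ((JP Q u).mulVec ξ) ((JP Q u).mulVec ξ)
      + S (zq (Q u)) * dB ((JP Q u).mulVec ξ) ((JP Q u).mulVec ξ)
      + D (zq (Q u)) * (dz (Q u) ((JP Q u).mulVec ξ)) ^ 2 := by
  have h1 : (puF Q P S D u).mulVec ξ = (JP Q u)ᵀ.mulVec ((amF P S D (Q u)).mulVec ((JP Q u).mulVec ξ)) := by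
    rw [Matrix.mulVec_mulVec, Matrix.mulVec_mulVec]
    rfl
  rw [h1, Matrix.dotProduct_mulVec, Matrix.vecMul_transpose]
  generalize (JP Q u).mulVec ξ = w
  simp only [Matrix.mulVec, dotProduct, amF, Matrix.of_apply, Fin.sum_univ_four, dA, dB, dz]
  simp [Fin.ext_iff, dc, zc]
  ring

theorem zq_mem {x : Fin 4 → ℝ} (hx : ∑ i, x i ^ 2 = 1) : zq x ∈ Icc (-1:ℝ) 1 := by
  rw [Fin.sum_univ_four] at hx
  unfold zq
  constructor <;> nlinarith [sq_nonneg (x 0), sq_nonneg (x 1), sq_nonneg (x 2), sq_nonneg (x 3)]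

theorem sq_A {x : Fin 4 → ℝ} (hx : ∑ i, x i ^ 2 = 1) : x 0 ^ 2 + x 1 ^ 2 = (1 - zq x) / 2 := by
  rw [Fin.sum_univ_four] at hx
  unfold zq; linarith
theorem sq_B {x : Fin 4 → ℝ} (hx : ∑ i, x i ^ 2 = 1) : x 2 ^ 2 + x 3 ^ 2 = (1 + zq x) / 2 := by
  rw [Fin.sum_univ_four] at hx
  unfold zq; linarith

/-- positivity on tangent vectors, in numbers -/
theorem num_pos {p s d z A B σ : ℝ} (hz1 : -1 ≤ z) (hz2 : z ≤ 1) (hp : 0 < p) (hs : 0 < s)
    (h : 0 < p * (1 + z) + s * (1 - z) + 8 * (1 - z ^ 2) * d) (hA : 0 ≤ A) (hB : 0 ≤ B) (hAB : 0 < A + B)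
    (h1 : σ ^ 2 ≤ A * (1 - z) / 2) (h2 : σ ^ 2 ≤ B * (1 + z) / 2) :
    0 < p * A + s * B + 16 * d * σ ^ 2 := by
  have hpos : 0 < p * A + s * B := by
    rcases hA.eq_or_lt with h0 | h0
    · have : 0 < B := by linarith
      have := mul_pos hs this
      rw [← h0]; linarith
    · have := mul_pos hp h0
      have := mul_nonneg hs.le hB
      linarith
  rcases le_or_gt 0 d with hd | hd
  · have : 0 ≤ 16 * d * σ ^ 2 := by positivity
    linarith
  rcases (sq_nonneg σ).eq_or_lt with h0 | h0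
  · rw [← h0]; linarith
  · have e1 : 0 < A * (1 - z) := by linarith
    have e2 : 0 < B * (1 + z) := by linarith
    have z1 : 0 < 1 - z := by
      by_contra hc
      push Not at hc
      nlinarith
    have z2 : 0 < 1 + z := by
      by_contra hc
      push Not at hc
      nlinarith
    have hzz : 0 < (1 - z) * (1 + z) := mul_pos z1 z2
    -- multiply by `(1-z)(1+z)`
    have key : 0 < (1 - z) * (1 + z) * (p * A + s * B + 16 * d * σ ^ 2) := by
      have a1 : p * (1 + z) * (2 * σ ^ 2) ≤ p * (1 + z) * (A * (1 - z)) :=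
        mul_le_mul_of_nonneg_left (by linarith) (mul_pos hp z2).le
      have a2 : s * (1 - z) * (2 * σ ^ 2) ≤ s * (1 - z) * (B * (1 + z)) :=
        mul_le_mul_of_nonneg_left (by linarith) (mul_pos hs z1).le
      have a3 : 0 < (p * (1 + z) + s * (1 - z) + 8 * (1 - z ^ 2) * d) * (2 * σ ^ 2) := by positivity
      nlinarith
    exact (mul_pos_iff_of_pos_left hzz).1 key

theorem formT_pos {p s d : ℝ} {x w : Fin 4 → ℝ} (hx : ∑ i, x i ^ 2 = 1) (hp : 0 < p) (hs : 0 < s)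
    (h : 0 < p * (1 + zq x) + s * (1 - zq x) + 8 * (1 - (zq x) ^ 2) * d) (ht : d4 x w = 0) (hw : w ≠ 0) :
    0 < p * dA w w + s * dB w w + d * (dz x w) ^ 2 := by
  have hz := zq_mem hx
  have hA := sq_A hx
  have hB := sq_B hx
  set σ := x 2 * w 2 + x 3 * w 3 with hσ
  have hσ2 : x 0 * w 0 + x 1 * w 1 = -σ := by
    simp only [d4] at ht; linarith
  have e1 : dz x w = 4 * σ := by unfold dz; linarith
  have c1 : σ ^ 2 ≤ dA w w * (1 - zq x) / 2 := by
    have : σ ^ 2 = (x 0 * w 0 + x 1 * w 1) ^ 2 := by rw [hσ2]; ring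
    rw [this]
    unfold dA
    have h3 : (x 0 * w 0 + x 1 * w 1) ^ 2 ≤ (x 0 ^ 2 + x 1 ^ 2) * (w 0 * w 0 + w 1 * w 1) := by
      nlinarith [sq_nonneg (x 0 * w 1 - x 1 * w 0)]
    rw [hA] at h3; linarith
  have c2 : σ ^ 2 ≤ dB w w * (1 + zq x) / 2 := by
    unfold dB
    have h3 : (x 2 * w 2 + x 3 * w 3) ^ 2 ≤ (x 2 ^ 2 + x 3 ^ 2) * (w 2 * w 2 + w 3 * w 3) := by
      nlinarith [sq_nonneg (x 2 * w 3 - x 3 * w 2)]
    rw [hB] at h3; rw [hσ]; linarith
  have hwA : 0 ≤ dA w w := by unfold dA; nlinarith [sq_nonneg (w 0), sq_nonneg (w 1)]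
  have hwB : 0 ≤ dB w w := by unfold dB; nlinarith [sq_nonneg (w 2), sq_nonneg (w 3)]
  have hAB : 0 < dA w w + dB w w := by
    refine lt_of_le_of_ne (by linarith) ?_
    intro h3
    apply hw
    simp only [dA, dB] at h3
    have a0 := mul_self_nonneg (w 0)
    have a1 := mul_self_nonneg (w 1)
    have a2 := mul_self_nonneg (w 2)
    have a3 := mul_self_nonneg (w 3)
    have b0 : w 0 = 0 := mul_self_eq_zero.1 (by linarith)
    have b1 : w 1 = 0 := mul_self_eq_zero.1 (by linarith)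
    have b2 : w 2 = 0 := mul_self_eq_zero.1 (by linarith)
    have b3 : w 3 = 0 := mul_self_eq_zero.1 (by linarith)
    ext a
    fin_cases a
    · exact b0
    · exact b1
    · exact b2
    · exact b3
  have := num_pos hz.1 hz.2 hp hs h hwA hwB hAB c1 c2
  rw [e1]
  linarith

theorem zq_smooth {Q : Eu 3 → (Fin 4 → ℝ)} (hQ : ContDiff ℝ ∞ Q) : ContDiff ℝ ∞ (fun y => zq (Q y)) := by
  unfold zq
  have h := contDiff_pi.1 hQ
  exact ((((h 2).pow 2).add ((h 3).pow 2)).sub ((h 0).pow 2)).sub ((h 1).pow 2)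

theorem dz_smooth {Q : Eu 3 → (Fin 4 → ℝ)} (hQ : ContDiff ℝ ∞ Q) (i : Fin 3) :
    ContDiff ℝ ∞ (fun y => dz (Q y) (fun a => JP Q y a i)) := by
  unfold dz
  have h := contDiff_pi.1 hQ
  have hj := fun a => contDiff_JP hQ a i
  exact contDiff_const.mul (((((h 2).mul (hj 2)).add ((h 3).mul (hj 3))).sub ((h 0).mul (hj 0))).sub
    ((h 1).mul (hj 1)))

theorem dA_smooth {Q : Eu 3 → (Fin 4 → ℝ)} (hQ : ContDiff ℝ ∞ Q) (i j : Fin 3) :
    ContDiff ℝ ∞ (fun y => dA (fun a => JP Q y a i) (fun a => JP Q y a j)) := by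
  simp only [dA]
  exact ((contDiff_JP hQ 0 i).mul (contDiff_JP hQ 0 j)).add ((contDiff_JP hQ 1 i).mul (contDiff_JP hQ 1 j))
theorem dB_smooth {Q : Eu 3 → (Fin 4 → ℝ)} (hQ : ContDiff ℝ ∞ Q) (i j : Fin 3) :
    ContDiff ℝ ∞ (fun y => dB (fun a => JP Q y a i) (fun a => JP Q y a j)) := by
  simp only [dB]
  exact ((contDiff_JP hQ 2 i).mul (contDiff_JP hQ 2 j)).add ((contDiff_JP hQ 3 i).mul (contDiff_JP hQ 3 j))

theorem puF_smooth {Q : Eu 3 → (Fin 4 → ℝ)} (hQ : ContDiff ℝ ∞ Q) (h1 : ∀ y, ∑ i, Q y i ^ 2 = 1)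
    {P S D : ℝ → ℝ} {O : Set ℝ} (hO : IsOpen O) (hI : Icc (-1 : ℝ) 1 ⊆ O)
    (hP : ContDiffOn ℝ ∞ P O) (hS : ContDiffOn ℝ ∞ S O) (hD : ContDiffOn ℝ ∞ D O) (i j : Fin 3) :
    ContDiff ℝ ∞ (fun y => puF Q P S D y i j) := by
  have hc : ∀ {φ : ℝ → ℝ}, ContDiffOn ℝ ∞ φ O → ContDiff ℝ ∞ (fun y => φ (zq (Q y))) := by
    intro φ hφ
    rw [contDiff_iff_contDiffAt]
    intro y
    exact (hφ.contDiffAt (hO.mem_nhds (hI (zq_mem (h1 y))))).comp y (zq_smooth hQ).contDiffAt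
  have e : (fun y => puF Q P S D y i j) = fun y =>
      P (zq (Q y)) * dA (fun a => JP Q y a i) (fun a => JP Q y a j)
      + S (zq (Q y)) * dB (fun a => JP Q y a i) (fun a => JP Q y a j)
      + D (zq (Q y)) * (dz (Q y) (fun a => JP Q y a i) * dz (Q y) (fun a => JP Q y a j)) := by
    funext y; exact puF_entry _ _ _ _ _ _ _
  rw [e]
  exact (((hc hP).mul (dA_smooth hQ i j)).add ((hc hS).mul (dB_smooth hQ i j))).add
    ((hc hD).mul ((dz_smooth hQ i).mul (dz_smooth hQ j)))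

theorem puF_cont {Q : Eu 3 → (Fin 4 → ℝ)} (hQ : ContDiff ℝ ∞ Q) (h1 : ∀ y, ∑ i, Q y i ^ 2 = 1)
    {P S D : ℝ → ℝ} (hP : ContinuousOn P (Icc (-1 : ℝ) 1)) (hS : ContinuousOn S (Icc (-1 : ℝ) 1))
    (hD : ContinuousOn D (Icc (-1 : ℝ) 1)) (i j : Fin 3) : Continuous (fun y => puF Q P S D y i j) := by
  have hc : ∀ {φ : ℝ → ℝ}, ContinuousOn φ (Icc (-1 : ℝ) 1) → Continuous (fun y => φ (zq (Q y))) := by
    intro φ hφ
    exact hφ.comp_continuous (zq_smooth hQ).continuous (fun y => zq_mem (h1 y))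
  have e : (fun y => puF Q P S D y i j) = fun y =>
      P (zq (Q y)) * dA (fun a => JP Q y a i) (fun a => JP Q y a j)
      + S (zq (Q y)) * dB (fun a => JP Q y a i) (fun a => JP Q y a j)
      + D (zq (Q y)) * (dz (Q y) (fun a => JP Q y a i) * dz (Q y) (fun a => JP Q y a j)) := by
    funext y; exact puF_entry _ _ _ _ _ _ _
  rw [e]
  exact (((hc hP).mul (dA_smooth hQ i j).continuous).add ((hc hS).mul (dB_smooth hQ i j).continuous)).add
    ((hc hD).mul ((dz_smooth hQ i).continuous.mul (dz_smooth hQ j).continuous))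

theorem tMetric {P S D : ℝ → ℝ} {O : Set ℝ} (hO : IsOpen O) (hI : Icc (-1 : ℝ) 1 ⊆ O)
    (hP : ContDiffOn ℝ ∞ P O) (hS : ContDiffOn ℝ ∞ S O) (hD : ContDiffOn ℝ ∞ D O) (hpos : PosT P S D) :
    ∃ g : Met, ∀ e, g.G e = puF (Pinv e) P S D := by
  refine ⟨⟨fun e => puF (Pinv e) P S D, ?_, ?_, ?_⟩, fun e => rfl⟩
  · intro e he i j
    obtain ⟨htar, Q, R, O', hQ, hO', hR, hPO, hRP, hP', hs, hR', hPR, h1⟩ := chart_pkg e he
    have hPe : Pinv e = Q := funext hP'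
    rw [hPe]
    exact (puF_smooth hQ h1 hO hI hP hS hD i j).contDiffOn
  · intro e he y hy
    obtain ⟨htar, Q, R, O', hQ, hO', hR, hPO, hRP, hP', hs, hR', hPR, h1⟩ := chart_pkg e he
    have hPe : Pinv e = Q := funext hP'
    rw [hPe]
    obtain ⟨p1, p2, p3⟩ := hpos _ (zq_mem (h1 y))
    have hPd : DifferentiableAt ℝ Q y := hQ.differentiable (by simp) y
    have hRd : DifferentiableAt ℝ R (Q y) :=
      (hR.contDiffAt (hO'.mem_nhds (hPO y))).differentiableAt (by simp)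
    refine Matrix.PosDef.of_dotProduct_mulVec_pos ?_ ?_
    · rw [Matrix.IsHermitian, Matrix.conjTranspose_eq_transpose_of_trivial]
      exact puF_symm Q P S D y
    · intro ξ hξ
      rw [star_trivial, puF_quad]
      refine formT_pos (h1 y) p1 p2 p3 (tangent hPd h1 ξ) ?_
      intro h0
      apply hξ
      apply JP_inj hPd hRd hRP
      rw [h0, Matrix.mulVec_zero]
  · intro e he e' he' y hy hs'
    obtain ⟨htar, Q, R, O', hQ, hO', hR, hPO, hRP, hP', hs, hR', hPR, h1⟩ := chart_pkg e he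
    obtain ⟨htar2, Q2, R2, O2, hQ2, hO2, hR2, hQO2, hRQ2, hQ', hs2, hR2', hQR2, h12⟩ :=
      chart_pkg e' he'
    have hPe : Pinv e = Q := funext hP'
    have hQe : Pinv e' = Q2 := funext hQ'
    simp only [hPe, hQe]
    have hin : Q y ∈ O2 := by rw [← hP' y]; exact (hs2 _).1 hs'
    have hc : ∀ z, Q z ∈ O2 → ctrn e e' z = R2 (Q z) := by
      intro z hz
      have hz' : e.symm (WithLp.toLp 2 z) ∈ e'.source := (hs2 _).2 (by rw [hP' z]; exact hz)
      rw [← hP' z]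
      exact hR2' _ hz'
    have hq : ∀ z, Q z ∈ O2 → Q2 (ctrn e e' z) = Q z := by
      intro z hz
      have hz' : e.symm (WithLp.toLp 2 z) ∈ e'.source := (hs2 _).2 (by rw [hP' z]; exact hz)
      rw [hc z hz, ← hP' z]
      exact hQR2 _ hz'
    have hnh : ∀ᶠ z in 𝓝 y, Q z ∈ O2 := hQ.continuous.continuousAt.eventually (hO2.mem_nhds hin)
    have hPd : DifferentiableAt ℝ Q y := hQ.differentiable (by simp) y
    have hRd : DifferentiableAt ℝ R2 (Q y) :=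
      (hR2.contDiffAt (hO2.mem_nhds hin)).differentiableAt (by simp)
    have hcd : DifferentiableAt ℝ (ctrn e e') y := by
      have h := hRd.comp y hPd
      exact h.congr_of_eventuallyEq (hnh.mono fun z hz => hc z hz)
    have hQd : DifferentiableAt ℝ Q2 (ctrn e e' y) := hQ2.differentiable (by simp) _
    have hJ : JP Q y = JP Q2 (ctrn e e' y) * Jac (ctrn e e') y := by
      rw [← JP_comp hcd hQd]
      exact JP_congr (hnh.mono fun z hz => (hq z hz).symm)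
    simp only [puF]
    rw [hJ, hq y hin, Matrix.transpose_mul]
    simp only [Matrix.mul_assoc]

end Pool.Agent.H786
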