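import Mathlib
import Pool.Agent.H786.G.R_pool_sql_team_seeded_63374d34.N564.RF3.Warp

set_option autoImplicit false
set_option linter.all false
open scoped ContDiff Manifold Topology Matrix
open Set

namespace Pool.Agent.H786.W

open Pool.Agent.QTot (Eu Mt pd Jac Gam Ric pull)
open Pool.Agent.QTot
open Pool.Agent.N535 (Krf)
open Pool.Agent.N564.RF3 (pd_fn diff_fn pd_const pd_neg pd_comp1 cd_coord)

/-- the metric `diag(A₀(x), A₁(x), A₂(x))`, `x` the first coordinate -/
noncomputable def DG (A : Fin 3 → ℝ → ℝ) (x : Eu 3) : Mt 3 := Matrix.diagonal fun i => A i (x 0)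

/-- curvature of the last two directions -/
noncomputable def K12 (E F G : ℝ → ℝ) (x : ℝ) : ℝ := -(deriv F x * deriv G x) / (4 * F x * G x * E x)

section
variable {A : Fin 3 → ℝ → ℝ} {u : Eu 3}

theorem pd_e (k i : Fin 3) {x : Eu 3} (h : DifferentiableAt ℝ (A k) (x 0)) :
    pd i (fun y => A k (y 0)) x = if i = 0 then deriv (A k) (x 0) else 0 := pd_fn h

theorem ev_u {p : ℝ → Prop} (h : ∀ᶠ t in 𝓝 (u 0), p t) : ∀ᶠ x : Eu 3 in 𝓝 u, p (x 0) := by
  have hc : ContinuousAt (fun x : Eu 3 => x 0) u := (cd_coord 0).continuous.continuousAt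
  exact hc.tendsto.eventually h

theorem ev_diff (hA : ∀ k, ContDiffAt ℝ ∞ (A k) (u 0)) (k : Fin 3) :
    ∀ᶠ t in 𝓝 (u 0), DifferentiableAt ℝ (A k) t := by
  have := ((hA k).of_le (m := 1) (by exact_mod_cast le_top)).eventually (by simp)
  exact this.mono fun t ht => ht.differentiableAt (by simp)

theorem pd_pd_e (hA : ∀ k, ContDiffAt ℝ ∞ (A k) (u 0)) (m i k : Fin 3) :
    pd m (pd i (fun y => A k (y 0))) u = if m = 0 ∧ i = 0 then deriv (deriv (A k)) (u 0) else 0 := by
  have e : pd i (fun y => A k (y 0)) =ᶠ[𝓝 u] fun x => if i = 0 then deriv (A k) (x 0) else 0 := by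
    filter_upwards [ev_u (ev_diff hA k)] with x hx
    exact pd_e k i hx
  rw [N2.pd_congr e]
  have hA1 : DifferentiableAt ℝ (deriv (A k)) (u 0) := by
    have h1 : ContDiffAt ℝ 1 (deriv (A k)) (u 0) := (contDiffAt_infty.1 (hA k) 2).derivWithin (by norm_num)
    exact h1.differentiableAt (by simp)
  by_cases h : i = 0
  · simp only [h, and_true, if_true]
    rw [pd_fn hA1]
  · simp only [h, and_false, if_false]
    exact pd_const

theorem gam_diag {x : Eu 3} (h : ∀ k, A k (x 0) ≠ 0) (k i j : Fin 3) :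
    Gam (DG A) k i j x = 1 / 2 * (A k (x 0))⁻¹ *
      ((if j = k then pd i (fun y => A k (y 0)) x else 0) + (if i = k then pd j (fun y => A k (y 0)) x else 0)
        - (if i = j then pd k (fun y => A i (y 0)) x else 0)) := by
  have hinv : (DG A x)⁻¹ = Matrix.diagonal fun i => (A i (x 0))⁻¹ := by
    apply Matrix.inv_eq_right_inv
    rw [DG, Matrix.diagonal_mul_diagonal]
    rw [← Matrix.diagonal_one]
    refine congrArg _ (funext fun i => ?_)
    exact mul_inv_cancel₀ (h i)
  have hpd : ∀ a i j, pd a (fun y => DG A y i j) x =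
      if i = j then pd a (fun y => A i (y 0)) x else 0 := by
    intro a i j
    by_cases hij : i = j
    · subst hij
      simp only [DG, Matrix.diagonal_apply_eq, if_true]
    · simp only [DG, Matrix.diagonal_apply_ne _ hij, hij, if_false]
      exact pd_const
  unfold Gam
  simp only [hinv, hpd, Matrix.diagonal_apply, ite_mul, zero_mul, Finset.sum_ite_eq,
    Finset.mem_univ, if_true]
  by_cases h1 : j = k <;> by_cases h2 : i = k <;> by_cases h3 : i = j <;>
    simp [h1, h2, h3] <;> try ring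

/-- the Christoffel symbols -/
noncomputable def Gv (A A1 : Fin 3 → ℝ) (k i j : Fin 3) : ℝ :=
  1 / 2 * (A k)⁻¹ * ((if j = k then (if i = 0 then A1 k else 0) else 0)
    + (if i = k then (if j = 0 then A1 k else 0) else 0)
    - (if i = j then (if k = 0 then A1 i else 0) else 0))

/-- their derivatives -/
noncomputable def dGv (A A1 A2 : Fin 3 → ℝ) (m k i j : Fin 3) : ℝ :=
  1 / 2 * (-(if m = 0 then A1 k else 0) * ((A k) ^ 2)⁻¹) *
    ((if j = k then (if i = 0 then A1 k else 0) else 0)
    + (if i = k then (if j = 0 then A1 k else 0) else 0)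
    - (if i = j then (if k = 0 then A1 i else 0) else 0)) +
  1 / 2 * (A k)⁻¹ * ((if j = k then (if m = 0 ∧ i = 0 then A2 k else 0) else 0) +
    (if i = k then (if m = 0 ∧ j = 0 then A2 k else 0) else 0)
    - (if i = j then (if m = 0 ∧ k = 0 then A2 i else 0) else 0))

theorem gam_u (hA : ∀ k, ContDiffAt ℝ ∞ (A k) (u 0)) (h0 : ∀ k, 0 < A k (u 0)) (k i j : Fin 3) :
    Gam (DG A) k i j u = Gv (fun k => A k (u 0)) (fun k => deriv (A k) (u 0)) k i j := by
  rw [gam_diag (fun k => (h0 k).ne')]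
  have hd : ∀ k, DifferentiableAt ℝ (A k) (u 0) := fun k => (hA k).differentiableAt (by simp)
  simp only [pd_e _ _ (hd _), Gv]

theorem pd_gam_u (hA : ∀ k, ContDiffAt ℝ ∞ (A k) (u 0)) (h0 : ∀ k, 0 < A k (u 0)) (m k i j : Fin 3) :
    pd m (Gam (DG A) k i j) u =
      dGv (fun k => A k (u 0)) (fun k => deriv (A k) (u 0)) (fun k => deriv (deriv (A k)) (u 0)) m k i j := by
  have hd0 : ∀ k, DifferentiableAt ℝ (A k) (u 0) := fun k => (hA k).differentiableAt (by simp)
  have hsm : ∀ k, ContDiffAt ℝ ∞ (fun y : Eu 3 => A k (y 0)) u := fun k =>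
    (hA k).comp u (cd_coord 0).contDiffAt
  have hne : ∀ᶠ x in 𝓝 u, ∀ k, A k (x 0) ≠ 0 := by
    rw [Filter.eventually_all]
    intro k
    exact (hsm k).continuousAt.eventually_ne (h0 k).ne'
  have e : Gam (DG A) k i j =ᶠ[𝓝 u] fun x => (1 / 2 * (A k (x 0))⁻¹) *
      ((if j = k then pd i (fun y => A k (y 0)) x else 0) + (if i = k then pd j (fun y => A k (y 0)) x else 0)
        - (if i = j then pd k (fun y => A i (y 0)) x else 0)) := by
    filter_upwards [hne] with x hx
    exact gam_diag hx k i j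
  rw [N2.pd_congr e]
  have hd : ∀ k, DifferentiableAt ℝ (fun y : Eu 3 => A k (y 0)) u := fun k =>
    (hsm k).differentiableAt (by simp)
  have hpd : ∀ i k, DifferentiableAt ℝ (pd i (fun y : Eu 3 => A k (y 0))) u := fun i k =>
    (N2.pd_smooth (k := 1) (contDiffAt_infty.1 (hsm k) 2)).differentiableAt (by simp)
  have hk : A k (u 0) ≠ 0 := (h0 k).ne'
  have hi : DifferentiableAt ℝ (fun x : Eu 3 => 1 / 2 * (A k (x 0))⁻¹) u := ((hd k).inv hk).const_mul _
  have t : ∀ (P : Prop) [Decidable P] (f : Eu 3 → ℝ), DifferentiableAt ℝ f u →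
      DifferentiableAt ℝ (fun x => if P then f x else 0) u := by
    intro P _ f hf
    split_ifs
    · exact hf
    · exact differentiableAt_const _
  have tp : ∀ (P : Prop) [Decidable P] (f : Eu 3 → ℝ),
      pd m (fun x => if P then f x else 0) u = if P then pd m f u else 0 := by
    intro P _ f
    split_ifs
    · rfl
    · exact pd_const
  have t1 := t (j = k) (pd i (fun y => A k (y 0))) (hpd i k)
  have t2 := t (i = k) (pd j (fun y => A k (y 0))) (hpd j k)
  have t3 := t (i = j) (pd k (fun y => A i (y 0))) (hpd k i)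
  have t12 : DifferentiableAt ℝ (fun x => (if j = k then pd i (fun y => A k (y 0)) x else 0)
      + (if i = k then pd j (fun y => A k (y 0)) x else 0)) u := t1.add t2
  have t123 : DifferentiableAt ℝ (fun x => (if j = k then pd i (fun y => A k (y 0)) x else 0)
      + (if i = k then pd j (fun y => A k (y 0)) x else 0)
      - (if i = j then pd k (fun y => A i (y 0)) x else 0)) u := t12.sub t3
  rw [N2.pd_mul' hi t123]
  have e3 : pd m (fun x => (if j = k then pd i (fun y => A k (y 0)) x else 0)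
      + (if i = k then pd j (fun y => A k (y 0)) x else 0)
      - (if i = j then pd k (fun y => A i (y 0)) x else 0)) u =
      (if j = k then pd m (pd i (fun y => A k (y 0))) u else 0)
      + (if i = k then pd m (pd j (fun y => A k (y 0))) u else 0)
      - (if i = j then pd m (pd k (fun y => A i (y 0))) u else 0) := by
    have s1 : (fun x => (if j = k then pd i (fun y => A k (y 0)) x else 0)
      + (if i = k then pd j (fun y => A k (y 0)) x else 0)
      - (if i = j then pd k (fun y => A i (y 0)) x else 0)) =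
      fun x => ((if j = k then pd i (fun y => A k (y 0)) x else 0)
      + (if i = k then pd j (fun y => A k (y 0)) x else 0))
      + (-(if i = j then pd k (fun y => A i (y 0)) x else 0)) := by
      funext x; ring
    have t3n : DifferentiableAt ℝ (fun x => -(if i = j then pd k (fun y => A i (y 0)) x else 0)) u :=
      t3.neg
    rw [s1, N2.pd_add' t12 t3n, N2.pd_add' t1 t2, pd_neg, tp, tp, tp]
    ring
  have e4 : pd m (fun x : Eu 3 => 1 / 2 * (A k (x 0))⁻¹) u =
      1 / 2 * (-(pd m (fun y => A k (y 0)) u) * ((A k (u 0)) ^ 2)⁻¹) := by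
    have hφ : HasDerivAt (fun t : ℝ => 1 / 2 * t⁻¹) (1 / 2 * (-((A k (u 0)) ^ 2)⁻¹)) (A k (u 0)) :=
      (hasDerivAt_inv hk).const_mul _
    rw [pd_comp1 (f := fun y : Eu 3 => A k (y 0)) hφ (hd k)]
    ring
  rw [e3, e4]
  simp only [pd_pd_e hA, pd_e _ _ (hd0 _), dGv]

/-- the curvature tensor, in numbers -/
theorem rm_u (hA : ∀ k, ContDiffAt ℝ ∞ (A k) (u 0)) (h0 : ∀ k, 0 < A k (u 0)) (a b c d : Fin 3) :
    N2.Rm (DG A) a b c d u =
      let B := fun k => A k (u 0)
      let B1 := fun k => deriv (A k) (u 0)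
      let B2 := fun k => deriv (deriv (A k)) (u 0)
      dGv B B1 B2 c a b d - dGv B B1 B2 d a b c +
        ∑ e, (Gv B B1 a c e * Gv B B1 e b d - Gv B B1 a d e * Gv B B1 e b c) := by
  simp only [N2.Rm, pd_gam_u hA h0, gam_u hA h0]

/-- the Ricci curvatures -/
noncomputable def RR (A : Fin 3 → ℝ → ℝ) (r : ℝ) (i : Fin 3) : ℝ :=
  match i with
  | 0 => Krf (A 0) (A 1) r + Krf (A 0) (A 2) r
  | 1 => Krf (A 0) (A 1) r + K12 (A 0) (A 1) (A 2) r
  | 2 => Krf (A 0) (A 2) r + K12 (A 0) (A 1) (A 2) r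

theorem Ric_DG (hA : ∀ k, ContDiffAt ℝ ∞ (A k) (u 0)) (h0 : ∀ k, 0 < A k (u 0)) (i j : Fin 3) :
    Ric (DG A) u i j = if i = j then A i (u 0) * RR A (u 0) i else 0 := by
  rw [N2.Ric_eq]
  simp only [rm_u hA h0]
  have n0 := (h0 0).ne'
  have n1 := (h0 1).ne'
  have n2 := (h0 2).ne'
  clear hA h0
  fin_cases i <;> fin_cases j <;>
    simp [dGv, Gv, Fin.sum_univ_three, Krf, K12, RR] <;>
    field_simp <;> ring

end

end Pool.Agent.H786.W
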