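import Mathlib
import Pool.Agent.H786.GChart
import Pool.Agent.H786.GWarp
import Pool.Agent.H786.G.R_pool_sql_team_seeded_63374d34.N564.RF3.Flow

set_option autoImplicit false
set_option linter.all false
open scoped ContDiff Manifold Topology Matrix
open Set

namespace Pool.Agent.H786

open Pool.Agent.QTot (Eu Mt pd Jac Gam Ric pull)
open Pool.Agent.QTot
open Pool.Agent.H858R2 (En ctarget ctrn)
open Pool.Agent.N535 (S3 E4 Met JP Pinv amb Krf)
open Pool.Agent.N564.RF3 (chart_pkg JP_mulVec JP_inj JP_comp JP_congr contDiff_JP pd_of_line pt Dm isOpen_Dm)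

/-- radii -/
noncomputable def ra (x : ℝ) : ℝ := Real.sqrt ((1 - x) / 2)
noncomputable def rb (x : ℝ) : ℝ := Real.sqrt ((1 + x) / 2)

section
variable {x : ℝ}

theorem ra_pos (hx : x ∈ Ioo (-1 : ℝ) 1) : 0 < ra x := Real.sqrt_pos.2 (by linarith [hx.2])
theorem rb_pos (hx : x ∈ Ioo (-1 : ℝ) 1) : 0 < rb x := Real.sqrt_pos.2 (by linarith [hx.1])
theorem ra_sq (hx : x ∈ Ioo (-1 : ℝ) 1) : ra x ^ 2 = (1 - x) / 2 := Real.sq_sqrt (by linarith [hx.2])
theorem rb_sq (hx : x ∈ Ioo (-1 : ℝ) 1) : rb x ^ 2 = (1 + x) / 2 := Real.sq_sqrt (by linarith [hx.1])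

theorem ra_hd (hx : x ∈ Ioo (-1 : ℝ) 1) : HasDerivAt ra (-1 / (4 * ra x)) x := by
  have h1 : HasDerivAt (fun x : ℝ => (1 - x) / 2) (-1 / 2) x :=
    ((hasDerivAt_id x).const_sub 1).div_const 2
  have h2 := h1.sqrt (by linarith [hx.2] : (1 - x) / 2 ≠ 0)
  refine h2.congr_deriv ?_
  have h3 : Real.sqrt ((1 - x) / 2) = ra x := rfl
  rw [h3]
  have := (ra_pos hx).ne'
  field_simp
  norm_num

theorem rb_hd (hx : x ∈ Ioo (-1 : ℝ) 1) : HasDerivAt rb (1 / (4 * rb x)) x := by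
  have h1 : HasDerivAt (fun x : ℝ => (1 + x) / 2) (1 / 2) x :=
    ((hasDerivAt_id x).const_add 1).div_const 2
  have h2 := h1.sqrt (by linarith [hx.1] : (1 + x) / 2 ≠ 0)
  refine h2.congr_deriv ?_
  have h3 : Real.sqrt ((1 + x) / 2) = rb x := rfl
  rw [h3]
  have := (rb_pos hx).ne'
  field_simp
  norm_num

theorem ra_smooth : ContDiffOn ℝ ∞ (fun u : Eu 3 => ra (u 0)) Dm := by
  intro u hu
  have h1 : ContDiffAt ℝ ∞ (fun u : Eu 3 => (1 - u 0) / 2) u :=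
    (contDiffAt_const.sub (contDiff_apply ℝ ℝ 0).contDiffAt).div_const 2
  have h2 : (1 - u 0) / 2 ≠ 0 := by
    have : u 0 < 1 := hu.2
    have : 0 < (1 - u 0) / 2 := by linarith
    exact this.ne'
  exact (h1.sqrt h2).contDiffWithinAt
theorem rb_smooth : ContDiffOn ℝ ∞ (fun u : Eu 3 => rb (u 0)) Dm := by
  intro u hu
  have h1 : ContDiffAt ℝ ∞ (fun u : Eu 3 => (1 + u 0) / 2) u :=
    (contDiffAt_const.add (contDiff_apply ℝ ℝ 0).contDiffAt).div_const 2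
  have h2 : (1 + u 0) / 2 ≠ 0 := by
    have : -1 < u 0 := hu.1
    have : 0 < (1 + u 0) / 2 := by linarith
    exact this.ne'
  exact (h1.sqrt h2).contDiffWithinAt

end

/-- the parametrization -/
noncomputable def Psi (a0 a1 b0 b1 : ℝ) (u : Eu 3) (a : Fin 4) : ℝ :=
  match a with
  | 0 => ra (u 0) * (a0 * Real.cos (u 1) - a1 * Real.sin (u 1))
  | 1 => ra (u 0) * (a1 * Real.cos (u 1) + a0 * Real.sin (u 1))
  | 2 => rb (u 0) * (b0 * Real.cos (u 2) - b1 * Real.sin (u 2))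
  | 3 => rb (u 0) * (b1 * Real.cos (u 2) + b0 * Real.sin (u 2))

/-- its Jacobian -/
noncomputable def PsJ (a0 a1 b0 b1 : ℝ) (u : Eu 3) (a : Fin 4) (i : Fin 3) : ℝ :=
  match a, i with
  | 0, 0 => (-1 / (4 * ra (u 0))) * (a0 * Real.cos (u 1) - a1 * Real.sin (u 1))
  | 1, 0 => (-1 / (4 * ra (u 0))) * (a1 * Real.cos (u 1) + a0 * Real.sin (u 1))
  | 2, 0 => (1 / (4 * rb (u 0))) * (b0 * Real.cos (u 2) - b1 * Real.sin (u 2))
  | 3, 0 => (1 / (4 * rb (u 0))) * (b1 * Real.cos (u 2) + b0 * Real.sin (u 2))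
  | 0, 1 => ra (u 0) * (-a0 * Real.sin (u 1) - a1 * Real.cos (u 1))
  | 1, 1 => ra (u 0) * (-a1 * Real.sin (u 1) + a0 * Real.cos (u 1))
  | 2, 1 => 0
  | 3, 1 => 0
  | 0, 2 => 0
  | 1, 2 => 0
  | 2, 2 => rb (u 0) * (-b0 * Real.sin (u 2) - b1 * Real.cos (u 2))
  | 3, 2 => rb (u 0) * (-b1 * Real.sin (u 2) + b0 * Real.cos (u 2))

section
variable {a0 a1 b0 b1 : ℝ}

theorem cs_smooth (k : Fin 3) : ContDiff ℝ ∞ (fun u : Eu 3 => Real.cos (u k)) :=
  Real.contDiff_cos.comp (contDiff_apply ℝ ℝ k)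
theorem sn_smooth (k : Fin 3) : ContDiff ℝ ∞ (fun u : Eu 3 => Real.sin (u k)) :=
  Real.contDiff_sin.comp (contDiff_apply ℝ ℝ k)

theorem Psi_smooth (a0 a1 b0 b1 : ℝ) : ContDiffOn ℝ ∞ (Psi a0 a1 b0 b1) Dm := by
  rw [contDiffOn_pi]
  intro a
  fin_cases a
  · exact ra_smooth.mul ((contDiff_const.mul (cs_smooth 1)).sub (contDiff_const.mul (sn_smooth 1))).contDiffOn
  · exact ra_smooth.mul ((contDiff_const.mul (cs_smooth 1)).add (contDiff_const.mul (sn_smooth 1))).contDiffOn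
  · exact rb_smooth.mul ((contDiff_const.mul (cs_smooth 2)).sub (contDiff_const.mul (sn_smooth 2))).contDiffOn
  · exact rb_smooth.mul ((contDiff_const.mul (cs_smooth 2)).add (contDiff_const.mul (sn_smooth 2))).contDiffOn

theorem hd_cs (p q t : ℝ) : HasDerivAt (fun t => p * Real.cos t - q * Real.sin t)
    (-p * Real.sin t - q * Real.cos t) t :=
  (((Real.hasDerivAt_cos t).const_mul p).sub ((Real.hasDerivAt_sin t).const_mul q)).congr_deriv (by ring)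
theorem hd_sc (p q t : ℝ) : HasDerivAt (fun t => q * Real.cos t + p * Real.sin t)
    (-q * Real.sin t + p * Real.cos t) t :=
  (((Real.hasDerivAt_cos t).const_mul q).add ((Real.hasDerivAt_sin t).const_mul p)).congr_deriv (by ring)

theorem JP_Psi (a0 a1 b0 b1 : ℝ) {u : Eu 3} (hu : u ∈ Dm) (a : Fin 4) (i : Fin 3) :
    JP (Psi a0 a1 b0 b1) u a i = PsJ a0 a1 b0 b1 u a i := by
  have hdiff : DifferentiableAt ℝ (fun y => Psi a0 a1 b0 b1 y a) u :=
    (((contDiffOn_pi.1 (Psi_smooth a0 a1 b0 b1) a).contDiffAt (isOpen_Dm.mem_nhds hu)).differentiableAt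
      (by simp))
  simp only [JP, Matrix.of_apply]
  refine pd_of_line i hdiff ?_
  have hu' : u 0 ∈ Ioo (-1 : ℝ) 1 := hu
  fin_cases a <;> fin_cases i <;> simp only [Psi, PsJ, Function.update_self, Fin.zero_eta, Fin.isValue, ne_eq,
      Fin.reduceEq, not_false_eq_true, Function.update_of_ne, Fin.mk_one, zero_ne_one, one_ne_zero,
      Fin.reduceFinMk]
  · exact (ra_hd hu').mul_const _
  · exact (hd_cs _ _ _).const_mul _
  · exact hasDerivAt_const _ _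
  · exact (ra_hd hu').mul_const _
  · exact (hd_sc _ _ _).const_mul _
  · exact hasDerivAt_const _ _
  · exact (rb_hd hu').mul_const _
  · exact hasDerivAt_const _ _
  · exact (hd_cs _ _ _).const_mul _
  · exact (rb_hd hu').mul_const _
  · exact hasDerivAt_const _ _
  · exact (hd_sc _ _ _).const_mul _

theorem sum_Psi (h1 : a0 ^ 2 + a1 ^ 2 = 1) (h2 : b0 ^ 2 + b1 ^ 2 = 1) {u : Eu 3} (hu : u ∈ Dm) :
    ∑ i, Psi a0 a1 b0 b1 u i ^ 2 = 1 := by
  have hu' : u 0 ∈ Ioo (-1 : ℝ) 1 := hu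
  have e1 := ra_sq hu'
  have e2 := rb_sq hu'
  have c1 := Real.cos_sq_add_sin_sq (u 1)
  have c2 := Real.cos_sq_add_sin_sq (u 2)
  rw [Fin.sum_univ_four]
  simp only [Psi]
  have t1 : (ra (u 0) * (a0 * Real.cos (u 1) - a1 * Real.sin (u 1))) ^ 2 +
      (ra (u 0) * (a1 * Real.cos (u 1) + a0 * Real.sin (u 1))) ^ 2 = (1 - u 0) / 2 := by
    calc _ = ra (u 0) ^ 2 * ((a0 ^ 2 + a1 ^ 2) * (Real.cos (u 1) ^ 2 + Real.sin (u 1) ^ 2)) := by ring
      _ = _ := by rw [e1, h1, c1]; ring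
  have t2 : (rb (u 0) * (b0 * Real.cos (u 2) - b1 * Real.sin (u 2))) ^ 2 +
      (rb (u 0) * (b1 * Real.cos (u 2) + b0 * Real.sin (u 2))) ^ 2 = (1 + u 0) / 2 := by
    calc _ = rb (u 0) ^ 2 * ((b0 ^ 2 + b1 ^ 2) * (Real.cos (u 2) ^ 2 + Real.sin (u 2) ^ 2)) := by ring
      _ = _ := by rw [e2, h2, c2]; ring
  linarith

theorem zq_Psi (h1 : a0 ^ 2 + a1 ^ 2 = 1) (h2 : b0 ^ 2 + b1 ^ 2 = 1) {u : Eu 3} (hu : u ∈ Dm) :
    zq (Psi a0 a1 b0 b1 u) = u 0 := by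
  have hu' : u 0 ∈ Ioo (-1 : ℝ) 1 := hu
  have e1 := ra_sq hu'
  have e2 := rb_sq hu'
  have c1 := Real.cos_sq_add_sin_sq (u 1)
  have c2 := Real.cos_sq_add_sin_sq (u 2)
  simp only [zq, Psi]
  have t1 : (ra (u 0) * (a0 * Real.cos (u 1) - a1 * Real.sin (u 1))) ^ 2 +
      (ra (u 0) * (a1 * Real.cos (u 1) + a0 * Real.sin (u 1))) ^ 2 = (1 - u 0) / 2 := by
    calc _ = ra (u 0) ^ 2 * ((a0 ^ 2 + a1 ^ 2) * (Real.cos (u 1) ^ 2 + Real.sin (u 1) ^ 2)) := by ring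
      _ = _ := by rw [e1, h1, c1]; ring
  have t2 : (rb (u 0) * (b0 * Real.cos (u 2) - b1 * Real.sin (u 2))) ^ 2 +
      (rb (u 0) * (b1 * Real.cos (u 2) + b0 * Real.sin (u 2))) ^ 2 = (1 + u 0) / 2 := by
    calc _ = rb (u 0) ^ 2 * ((b0 ^ 2 + b1 ^ 2) * (Real.cos (u 2) ^ 2 + Real.sin (u 2) ^ 2)) := by ring
      _ = _ := by rw [e2, h2, c2]; ring
  linarith

/-- the three coefficient functions -/
noncomputable def AA (P S D : ℝ → ℝ) (i : Fin 3) : ℝ → ℝ :=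
  match i with
  | 0 => Ec P S D
  | 1 => Fc P
  | 2 => Gc S

theorem pull_Psi (h1 : a0 ^ 2 + a1 ^ 2 = 1) (h2 : b0 ^ 2 + b1 ^ 2 = 1) (P S D : ℝ → ℝ) {u : Eu 3}
    (hu : u ∈ Dm) : puF (Psi a0 a1 b0 b1) P S D u = W.DG (AA P S D) u := by
  have hu' : u 0 ∈ Ioo (-1 : ℝ) 1 := hu
  have e1 := ra_sq hu'
  have e2 := rb_sq hu'
  have p1 := (ra_pos hu').ne'
  have p2 := (rb_pos hu').ne'
  have c1 := Real.cos_sq_add_sin_sq (u 1)
  have c2 := Real.cos_sq_add_sin_sq (u 2)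
  have q1 : (1 - u 0) ≠ 0 := by
    have : 0 < 1 - u 0 := by linarith [hu'.2]
    exact this.ne'
  have q2 : (1 + u 0) ≠ 0 := by
    have : 0 < 1 + u 0 := by linarith [hu'.1]
    exact this.ne'
  have n1 : (a0 * Real.cos (u 1) - a1 * Real.sin (u 1)) ^ 2 + (a1 * Real.cos (u 1) + a0 * Real.sin (u 1)) ^ 2 = 1 := by
    calc _ = (a0 ^ 2 + a1 ^ 2) * (Real.cos (u 1) ^ 2 + Real.sin (u 1) ^ 2) := by ring
      _ = _ := by rw [h1, c1]; ring
  have n2 : (b0 * Real.cos (u 2) - b1 * Real.sin (u 2)) ^ 2 + (b1 * Real.cos (u 2) + b0 * Real.sin (u 2)) ^ 2 = 1 := by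
    calc _ = (b0 ^ 2 + b1 ^ 2) * (Real.cos (u 2) ^ 2 + Real.sin (u 2) ^ 2) := by ring
      _ = _ := by rw [h2, c2]; ring
  have r1 : (1 / (4 * ra (u 0))) ^ 2 = 1 / (8 * (1 - u 0)) := by
    rw [div_pow, mul_pow, e1]; field_simp; ring
  have r2 : (1 / (4 * rb (u 0))) ^ 2 = 1 / (8 * (1 + u 0)) := by
    rw [div_pow, mul_pow, e2]; field_simp; ring
  have i1 : ra (u 0) * (1 / (4 * ra (u 0))) = 1 / 4 := by field_simp
  have i2 : rb (u 0) * (1 / (4 * rb (u 0))) = 1 / 4 := by field_simp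
  ext i j
  rw [puF_entry, zq_Psi h1 h2 hu]
  simp only [JP_Psi a0 a1 b0 b1 hu, dA, dB, dz]
  have hne : (-1 / (4 * ra (u 0))) = -(1 / (4 * ra (u 0))) := by ring
  set α := a0 * Real.cos (u 1) - a1 * Real.sin (u 1) with hα
  set β := a1 * Real.cos (u 1) + a0 * Real.sin (u 1) with hβ
  set γ := b0 * Real.cos (u 2) - b1 * Real.sin (u 2) with hγ
  set δ := b1 * Real.cos (u 2) + b0 * Real.sin (u 2) with hδ
  have m1 : -a0 * Real.sin (u 1) - a1 * Real.cos (u 1) = -β := by rw [hβ]; ring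
  have m2 : -a1 * Real.sin (u 1) + a0 * Real.cos (u 1) = α := by rw [hα]; ring
  have m3 : -b0 * Real.sin (u 2) - b1 * Real.cos (u 2) = -δ := by rw [hδ]; ring
  have m4 : -b1 * Real.sin (u 2) + b0 * Real.cos (u 2) = γ := by rw [hγ]; ring
  set R := 1 / (4 * ra (u 0)) with hR
  set T := 1 / (4 * rb (u 0)) with hT
  fin_cases i <;> fin_cases j <;>
    simp only [Psi, PsJ, W.DG, AA, Matrix.diagonal_apply, Fin.zero_eta, Fin.mk_one, Fin.reduceFinMk, hne, m1, m2,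
      m3, m4, ← hα, ← hβ, ← hγ, ← hδ, ← hR, ← hT, if_true, Fin.reduceEq, if_false, Fin.isValue, zero_ne_one, one_ne_zero]
  · have w : 2 * (rb (u 0) * γ * (T * γ) + rb (u 0) * δ * (T * δ) - ra (u 0) * α * (-R * α) -
        ra (u 0) * β * (-R * β)) = 1 := by
      linear_combination 2 * (γ ^ 2 + δ ^ 2) * i2 + 2 * (α ^ 2 + β ^ 2) * i1 + (1 / 2) * n2 + (1 / 2) * n1
    rw [w]
    unfold Ec
    have w1 : P (u 0) * (-R * α * (-R * α) + -R * β * (-R * β)) = P (u 0) / (1 - u 0) / 8 := by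
      calc _ = P (u 0) * (R ^ 2 * (α ^ 2 + β ^ 2)) := by ring
        _ = P (u 0) * (1 / (8 * (1 - u 0)) * 1) := by rw [n1, r1]
        _ = _ := by field_simp
    have w2 : S (u 0) * (T * γ * (T * γ) + T * δ * (T * δ)) = S (u 0) / (1 + u 0) / 8 := by
      calc _ = S (u 0) * (T ^ 2 * (γ ^ 2 + δ ^ 2)) := by ring
        _ = S (u 0) * (1 / (8 * (1 + u 0)) * 1) := by rw [n2, r2]
        _ = _ := by field_simp
    rw [w1, w2]; ring
  · ring
  · ring
  · ring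
  · unfold Fc
    linear_combination (P (u 0) * ra (u 0) ^ 2) * n1 + P (u 0) * e1
  · ring
  · ring
  · ring
  · unfold Gc
    linear_combination (S (u 0) * rb (u 0) ^ 2) * n2 + S (u 0) * e2

end

theorem param_exists (x : Fin 4 → ℝ) (hx : ∑ i, x i ^ 2 = 1) (h0 : zq x ∈ Ioo (-1 : ℝ) 1) :
    ∃ (Ψ : Eu 3 → (Fin 4 → ℝ)), ContDiffOn ℝ ∞ Ψ Dm ∧ Ψ (pt (zq x)) = x ∧
      (∀ u ∈ Dm, ∑ i, Ψ u i ^ 2 = 1) ∧
      ∀ (P S D : ℝ → ℝ), ∀ u ∈ Dm, puF Ψ P S D u = W.DG (AA P S D) u := by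
  have hA := sq_A hx
  have hB := sq_B hx
  have p1 := ra_pos h0
  have p2 := rb_pos h0
  have e1 := ra_sq h0
  have e2 := rb_sq h0
  have h1 : (x 0 / ra (zq x)) ^ 2 + (x 1 / ra (zq x)) ^ 2 = 1 := by
    rw [div_pow, div_pow, ← add_div, hA, e1, div_self]
    rw [← e1]; positivity
  have h2 : (x 2 / rb (zq x)) ^ 2 + (x 3 / rb (zq x)) ^ 2 = 1 := by
    rw [div_pow, div_pow, ← add_div, hB, e2, div_self]
    rw [← e2]; positivity
  refine ⟨Psi (x 0 / ra (zq x)) (x 1 / ra (zq x)) (x 2 / rb (zq x)) (x 3 / rb (zq x)), Psi_smooth _ _ _ _, ?_,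
    fun u hu => sum_Psi h1 h2 hu, fun P S D u hu => pull_Psi h1 h2 P S D hu⟩
  funext a
  have z0 : pt (zq x) 0 = zq x := by simp [pt]
  have z1 : pt (zq x) 1 = 0 := by simp [pt]
  have z2 : pt (zq x) 2 = 0 := by simp [pt]
  have q1 := p1.ne'
  have q2 := p2.ne'
  fin_cases a <;> simp only [Psi, z0, z1, z2, Real.cos_zero, Real.sin_zero, Fin.zero_eta, Fin.mk_one,
    Fin.reduceFinMk, mul_one, mul_zero, sub_zero, add_zero]
  · field_simp
  · field_simp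
  · field_simp
  · field_simp

theorem det_DG {u : Eu 3} (hu : u ∈ Dm) :
    (W.DG (AA (fun _ => 1) (fun _ => 1) (fun _ => 0)) u).det ≠ 0 := by
  rw [W.DG, Matrix.det_diagonal, Fin.prod_univ_three]
  have hu' : u 0 ∈ Ioo (-1 : ℝ) 1 := hu
  have q1 : 0 < 1 - u 0 := by linarith [hu'.2]
  have q2 : 0 < 1 + u 0 := by linarith [hu'.1]
  simp only [AA, Ec, Fc, Gc]
  have : 0 < (1 / (1 - u 0) + 1 / (1 + u 0)) / 8 + 0 := by positivity
  exact (mul_pos (mul_pos this (by positivity)) (by positivity)).ne'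

theorem pt_mem {r : ℝ} (hr : r ∈ Ioo (-1 : ℝ) 1) : pt r ∈ Dm := by
  show (pt r) 0 ∈ Ioo (-1 : ℝ) 1
  simpa [pt] using hr

theorem chart_pull (e : OpenPartialHomeomorph S3 (En 3)) (he : e ∈ atlas (En 3) S3) (y₀ : Eu 3)
    (h0 : zq (Pinv e y₀) ∈ Ioo (-1 : ℝ) 1) :
    ∃ (χ : Eu 3 → Eu 3), ContDiffAt ℝ ∞ χ (pt (zq (Pinv e y₀))) ∧ χ (pt (zq (Pinv e y₀))) = y₀ ∧
      (Jac χ (pt (zq (Pinv e y₀)))).det ≠ 0 ∧
      ∀ P S D : ℝ → ℝ, pull χ (puF (Pinv e) P S D) =ᶠ[𝓝 (pt (zq (Pinv e y₀)))] W.DG (AA P S D) := by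
  obtain ⟨htar, P, R, O, hP, hO, hR, hPO, hRP, hPe, hsrc, hRe, hPR, hsum⟩ := chart_pkg e he
  have hPinv : Pinv e = P := by
    funext y; exact hPe y
  rw [hPinv] at h0 ⊢
  obtain ⟨Ψ, hΨ, hΨx, hΨs, hΨG⟩ := param_exists (P y₀) (hsum y₀) h0
  set r := zq (P y₀) with hr
  have hpD : pt r ∈ Dm := pt_mem h0
  have hD : ∀ᶠ u in 𝓝 (pt r), u ∈ Dm := isOpen_Dm.mem_nhds hpD
  have hΨc : ContinuousAt Ψ (pt r) := (hΨ.contDiffAt (isOpen_Dm.mem_nhds hpD)).continuousAt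
  have hmem : ∀ᶠ u in 𝓝 (pt r), Ψ u ∈ O :=
    hΨc.eventually_mem (hO.mem_nhds (by rw [hΨx]; exact hPO y₀))
  have hPχ : ∀ u ∈ Dm, Ψ u ∈ O → P (R (Ψ u)) = Ψ u := by
    intro u huD hu
    have hmemS : (WithLp.toLp 2 (Ψ u) : EuclideanSpace ℝ (Fin 4)) ∈
        Metric.sphere (0 : EuclideanSpace ℝ (Fin 4)) 1 := by
      rw [mem_sphere_zero_iff_norm, EuclideanSpace.norm_eq]
      have : ∑ i, ‖(WithLp.toLp 2 (Ψ u) : EuclideanSpace ℝ (Fin 4)) i‖ ^ 2 = 1 := by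
        simpa using hΨs u huD
      rw [this, Real.sqrt_one]
    have h2 : N535.amb ⟨_, hmemS⟩ = Ψ u := rfl
    have h3 := hPR ⟨_, hmemS⟩ ((hsrc _).2 (by rw [h2]; exact hu))
    rw [h2] at h3
    exact h3
  have hχs : ∀ u ∈ Dm, Ψ u ∈ O → ContDiffAt ℝ ∞ (fun u => R (Ψ u)) u := by
    intro u huD hu
    exact ((hR.contDiffAt (hO.mem_nhds hu))).comp u (hΨ.contDiffAt (isOpen_Dm.mem_nhds huD))
  have hkey : ∀ P' S D : ℝ → ℝ, pull (fun u => R (Ψ u)) (puF P P' S D) =ᶠ[𝓝 (pt r)]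
      W.DG (AA P' S D) := by
    intro P' S D
    filter_upwards [hmem.eventually_nhds, hD.eventually_nhds] with u hu huD
    have hu0 : Ψ u ∈ O := hu.self_of_nhds
    have hu1 : u ∈ Dm := huD.self_of_nhds
    have h4 : (fun v => P (R (Ψ v))) =ᶠ[𝓝 u] Ψ := by
      filter_upwards [hu, huD] with v hv hv'
      exact hPχ v hv' hv
    have h5 : JP Ψ u = JP P (R (Ψ u)) * Jac (fun u => R (Ψ u)) u := by
      rw [← JP_congr h4]
      exact JP_comp (φ := fun u => R (Ψ u)) ((hχs u hu1 hu0).differentiableAt (by simp))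
        (hP.differentiable (by simp) _)
    rw [← hΨG P' S D u hu1]
    simp only [pull, puF]
    rw [h5, Matrix.transpose_mul, hPχ u hu1 hu0]
    simp only [Matrix.mul_assoc]
  refine ⟨fun u => R (Ψ u), hχs _ hpD hmem.self_of_nhds, ?_, ?_, hkey⟩
  · simp only
    rw [hΨx, hRP]
  · intro hdet
    have h6 := (hkey (fun _ => 1) (fun _ => 1) (fun _ => 0)).self_of_nhds
    apply det_DG hpD
    rw [← h6, pull, Matrix.det_mul, hdet, mul_zero]

theorem good_dense (e : OpenPartialHomeomorph S3 (En 3)) (he : e ∈ atlas (En 3) S3) :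
    Dense {y : Eu 3 | zq (Pinv e y) ∈ Ioo (-1 : ℝ) 1} := by
  obtain ⟨htar, P, R, O, hP, hO, hR, hPO, hRP, hPe, hsrc, hRe, hPR, hsum⟩ := chart_pkg e he
  have hPinv : Pinv e = P := by
    funext y; exact hPe y
  rw [hPinv]
  have hPχ : ∀ x : Fin 4 → ℝ, ∑ i, x i ^ 2 = 1 → x ∈ O → P (R x) = x := by
    intro x hx hxO
    have hmemS : (WithLp.toLp 2 x : EuclideanSpace ℝ (Fin 4)) ∈
        Metric.sphere (0 : EuclideanSpace ℝ (Fin 4)) 1 := by
      rw [mem_sphere_zero_iff_norm, EuclideanSpace.norm_eq]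
      have : ∑ i, ‖(WithLp.toLp 2 x : EuclideanSpace ℝ (Fin 4)) i‖ ^ 2 = 1 := by
        simpa using hx
      rw [this, Real.sqrt_one]
    have h2 : N535.amb ⟨_, hmemS⟩ = x := rfl
    have h3 := hPR ⟨_, hmemS⟩ ((hsrc _).2 (by rw [h2]; exact hxO))
    rw [h2] at h3
    exact h3
  -- a curve of good points converging to the given point
  have key : ∀ (y₀ : Eu 3) (c : ℝ → Fin 4 → ℝ), Continuous c → c 0 = P y₀ →
      (∀ t, ∑ i, c t i ^ 2 = 1) → (∀ᶠ t in 𝓝[>] (0:ℝ), zq (c t) ∈ Ioo (-1 : ℝ) 1) →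
      y₀ ∈ closure {y : Eu 3 | zq (P y) ∈ Ioo (-1 : ℝ) 1} := by
    intro y₀ c hc hc0 hcs hcz
    have hO1 : ∀ᶠ t in 𝓝 (0:ℝ), c t ∈ O :=
      hc.continuousAt.eventually_mem (hO.mem_nhds (by rw [hc0]; exact hPO y₀))
    have ht : Filter.Tendsto (fun t => R (c t)) (𝓝[>] (0:ℝ)) (𝓝 y₀) := by
      have h1 : ContinuousAt R (c 0) := by
        rw [hc0]; exact (hR.contDiffAt (hO.mem_nhds (hPO y₀))).continuousAt
      have h2 : ContinuousAt (fun t => R (c t)) 0 :=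
        ContinuousAt.comp (f := c) (g := R) h1 hc.continuousAt
      have h3 := h2.tendsto
      simp only [hc0, hRP] at h3
      exact h3.mono_left nhdsWithin_le_nhds
    refine mem_closure_of_tendsto ht ?_
    filter_upwards [hcz, hO1.filter_mono nhdsWithin_le_nhds] with t h1 h2
    show zq (P (R (c t))) ∈ Ioo (-1 : ℝ) 1
    rw [hPχ _ (hcs t) h2]
    exact h1
  intro y₀
  have hz := zq_mem (hsum y₀)
  have hA := sq_A (hsum y₀)
  have hB := sq_B (hsum y₀)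
  have hs1 := hsum y₀
  rw [Fin.sum_univ_four] at hs1
  have hsin : ∀ᶠ t in 𝓝[>] (0:ℝ), t ∈ Ioo (0:ℝ) 1 := Ioo_mem_nhdsGT one_pos
  have hcs : ∀ t ∈ Ioo (0:ℝ) 1, 0 < Real.sin t ∧ 0 < Real.cos t := by
    intro t ht
    have hpi := Real.pi_gt_three
    exact ⟨Real.sin_pos_of_pos_of_lt_pi ht.1 (by linarith [ht.2]),
      Real.cos_pos_of_mem_Ioo ⟨by linarith [ht.1], by linarith [ht.2]⟩⟩
  rcases hz.2.eq_or_lt with h1 | h1
  · -- `z = 1`
    have a0 : P y₀ 0 = 0 := by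
      rw [h1] at hA; nlinarith [sq_nonneg (P y₀ 0), sq_nonneg (P y₀ 1)]
    have a1 : P y₀ 1 = 0 := by
      rw [h1] at hA; nlinarith [sq_nonneg (P y₀ 0), sq_nonneg (P y₀ 1)]
    have hq : P y₀ 2 ^ 2 + P y₀ 3 ^ 2 = 1 := by rw [h1] at hB; linarith
    refine key y₀ (fun t => ![Real.sin t, 0, Real.cos t * P y₀ 2, Real.cos t * P y₀ 3]) ?_ ?_ ?_ ?_
    · refine continuous_pi fun a => ?_
      fin_cases a
      · exact Real.continuous_sin
      · exact continuous_const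
      · exact Real.continuous_cos.mul continuous_const
      · exact Real.continuous_cos.mul continuous_const
    · funext a
      fin_cases a <;> simp [a0, a1]
    · intro t
      rw [Fin.sum_univ_four]
      simp
      linear_combination (Real.cos t ^ 2) * hq + Real.sin_sq_add_cos_sq t
    · filter_upwards [hsin] with t ht
      obtain ⟨s1, s2⟩ := hcs t ht
      have hz : zq ![Real.sin t, 0, Real.cos t * P y₀ 2, Real.cos t * P y₀ 3] =
          Real.cos t ^ 2 - Real.sin t ^ 2 := by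
        unfold zq; simp
        linear_combination (Real.cos t ^ 2) * hq
      rw [hz]
      have := Real.sin_sq_add_cos_sq t
      constructor <;> nlinarith
  · rcases hz.1.eq_or_lt with h2 | h2
    · have a0 : P y₀ 2 = 0 := by
        rw [← h2] at hB; nlinarith [sq_nonneg (P y₀ 2), sq_nonneg (P y₀ 3)]
      have a1 : P y₀ 3 = 0 := by
        rw [← h2] at hB; nlinarith [sq_nonneg (P y₀ 2), sq_nonneg (P y₀ 3)]
      have hq : P y₀ 0 ^ 2 + P y₀ 1 ^ 2 = 1 := by rw [← h2] at hA; linarith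
      refine key y₀ (fun t => ![Real.cos t * P y₀ 0, Real.cos t * P y₀ 1, Real.sin t, 0]) ?_ ?_ ?_ ?_
      · refine continuous_pi fun a => ?_
        fin_cases a
        · exact Real.continuous_cos.mul continuous_const
        · exact Real.continuous_cos.mul continuous_const
        · exact Real.continuous_sin
        · exact continuous_const
      · funext a
        fin_cases a <;> simp [a0, a1]
      · intro t
        rw [Fin.sum_univ_four]
        simp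
        linear_combination (Real.cos t ^ 2) * hq + Real.sin_sq_add_cos_sq t
      · filter_upwards [hsin] with t ht
        obtain ⟨s1, s2⟩ := hcs t ht
        have hz : zq ![Real.cos t * P y₀ 0, Real.cos t * P y₀ 1, Real.sin t, 0] =
            Real.sin t ^ 2 - Real.cos t ^ 2 := by
          unfold zq; simp
          linear_combination (-Real.cos t ^ 2) * hq
        rw [hz]
        have := Real.sin_sq_add_cos_sq t
        constructor <;> nlinarith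
    · exact subset_closure ⟨h2, h1⟩

end Pool.Agent.H786
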