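import Mathlib
import Pool.Agent.H786.GParam

set_option autoImplicit false
set_option linter.all false
open scoped ContDiff Manifold Topology Matrix
open Set

namespace Pool.Agent.H786

open Pool.Agent.QTot (Eu Mt pd Jac Gam Ric pull)
open Pool.Agent.QTot
open Pool.Agent.H858R2 (En ctarget ctrn IsRicciFlow)
open Pool.Agent.N535 (S3 E4 Met JP Pinv amb Krf Scal)
open Pool.Agent.N564.RF3 (chart_pkg JP_mulVec JP_inj JP_comp JP_congr contDiff_JP pt inv_cont ric_cont conj_cancel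
  dot_trace scal_conj)

theorem puF_det (e : OpenPartialHomeomorph S3 (En 3)) (he : e ∈ atlas (En 3) S3)
    {P S D : ℝ → ℝ} {O : Set ℝ} (hO : IsOpen O) (hI : Icc (-1 : ℝ) 1 ⊆ O)
    (hP : ContDiffOn ℝ ∞ P O) (hS : ContDiffOn ℝ ∞ S O) (hD : ContDiffOn ℝ ∞ D O) (hpos : PosT P S D)
    (y : Eu 3) : (puF (Pinv e) P S D y).det ≠ 0 := by
  obtain ⟨g, hg⟩ := tMetric hO hI hP hS hD hpos
  have h1 := g.posDef e he y (by
    have := (chart_pkg e he).1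
    simp only [ctarget, mem_setOf_eq, this, mem_univ])
  rw [hg] at h1
  exact h1.det_pos.ne'

section
variable {P S D : ℝ → ℝ} {O : Set ℝ}

theorem om_pos {r : ℝ} (hr : r ∈ Ioo (-1 : ℝ) 1) : 0 < 1 - r := by linarith [hr.2]
theorem op_pos {r : ℝ} (hr : r ∈ Ioo (-1 : ℝ) 1) : 0 < 1 + r := by linarith [hr.1]

theorem Ec_smooth (hO : IsOpen O) (hI : Icc (-1 : ℝ) 1 ⊆ O) (hP : ContDiffOn ℝ ∞ P O)
    (hS : ContDiffOn ℝ ∞ S O) (hD : ContDiffOn ℝ ∞ D O) {r : ℝ} (hr : r ∈ Ioo (-1 : ℝ) 1) :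
    ContDiffAt ℝ ∞ (Ec P S D) r := by
  have hm := hO.mem_nhds (hI ⟨hr.1.le, hr.2.le⟩)
  exact ((((hP.contDiffAt hm).div (contDiffAt_const.sub contDiffAt_id) (om_pos hr).ne').add
    ((hS.contDiffAt hm).div (contDiffAt_const.add contDiffAt_id) (op_pos hr).ne')).div_const 8).add
    (hD.contDiffAt hm)

theorem Fc_smooth (hO : IsOpen O) (hI : Icc (-1 : ℝ) 1 ⊆ O) (hP : ContDiffOn ℝ ∞ P O)
    {r : ℝ} (hr : r ∈ Ioo (-1 : ℝ) 1) : ContDiffAt ℝ ∞ (Fc P) r :=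
  ((hP.contDiffAt (hO.mem_nhds (hI ⟨hr.1.le, hr.2.le⟩))).mul (contDiffAt_const.sub contDiffAt_id)).div_const 2

theorem Gc_smooth (hO : IsOpen O) (hI : Icc (-1 : ℝ) 1 ⊆ O) (hS : ContDiffOn ℝ ∞ S O)
    {r : ℝ} (hr : r ∈ Ioo (-1 : ℝ) 1) : ContDiffAt ℝ ∞ (Gc S) r :=
  ((hS.contDiffAt (hO.mem_nhds (hI ⟨hr.1.le, hr.2.le⟩))).mul (contDiffAt_const.add contDiffAt_id)).div_const 2

theorem AA_smooth (hO : IsOpen O) (hI : Icc (-1 : ℝ) 1 ⊆ O) (hP : ContDiffOn ℝ ∞ P O)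
    (hS : ContDiffOn ℝ ∞ S O) (hD : ContDiffOn ℝ ∞ D O) {r : ℝ} (hr : r ∈ Ioo (-1 : ℝ) 1) (k : Fin 3) :
    ContDiffAt ℝ ∞ (AA P S D k) r := by
  fin_cases k
  · exact Ec_smooth hO hI hP hS hD hr
  · exact Fc_smooth hO hI hP hr
  · exact Gc_smooth hO hI hS hr

theorem Ec_pos (hpos : PosT P S D) {r : ℝ} (hr : r ∈ Ioo (-1 : ℝ) 1) : 0 < Ec P S D r := by
  have h1 := (hpos r ⟨hr.1.le, hr.2.le⟩).2.2
  have h2 := om_pos hr
  have h3 := op_pos hr
  have e : Ec P S D r = (P r * (1 + r) + S r * (1 - r) + 8 * (1 - r ^ 2) * D r) / (8 * ((1 - r) * (1 + r))) := by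
    unfold Ec
    field_simp
    ring
  rw [e]
  positivity

theorem AA_pos (hpos : PosT P S D) {r : ℝ} (hr : r ∈ Ioo (-1 : ℝ) 1) (k : Fin 3) : 0 < AA P S D k r := by
  have h := hpos r ⟨hr.1.le, hr.2.le⟩
  have h2 := om_pos hr
  have h3 := op_pos hr
  fin_cases k
  · exact Ec_pos hpos hr
  · have := mul_pos h.1 h2
    show 0 < P r * (1 - r) / 2
    linarith
  · have := mul_pos h.2.1 h3
    show 0 < S r * (1 + r) / 2
    linarith

/-- naturality at a generic point -/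
theorem ric_good (e : OpenPartialHomeomorph S3 (En 3)) (he : e ∈ atlas (En 3) S3)
    (hO : IsOpen O) (hI : Icc (-1 : ℝ) 1 ⊆ O) (hP : ContDiffOn ℝ ∞ P O)
    (hS : ContDiffOn ℝ ∞ S O) (hD : ContDiffOn ℝ ∞ D O) (hpos : PosT P S D) (y : Eu 3)
    (hy : zq (Pinv e y) ∈ Ioo (-1 : ℝ) 1) :
    ∃ J : Mt 3, J.det ≠ 0 ∧
      (∀ P' S' D' : ℝ → ℝ, Jᵀ * puF (Pinv e) P' S' D' y * J = W.DG (AA P' S' D') (pt (zq (Pinv e y)))) ∧
      Jᵀ * Ric (puF (Pinv e) P S D) y * J = Ric (W.DG (AA P S D)) (pt (zq (Pinv e y))) := by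
  have hsm : ∀ i j, ContDiff ℝ ∞ (fun y => puF (Pinv e) P S D y i j) := by
    obtain ⟨htar, Q, R, O', hQ, hO', hR, hPO, hRP, hPe, hsrc, hRe, hPR, hsum⟩ := chart_pkg e he
    have hPinv : Pinv e = Q := by
      funext y; exact hPe y
    rw [hPinv]
    exact puF_smooth hQ hsum hO hI hP hS hD
  obtain ⟨χ, hχ, hχy, hdet, hpull⟩ := chart_pull e he y hy
  refine ⟨Jac χ (pt (zq (Pinv e y))), hdet, ?_, ?_⟩
  · intro P' S' D'
    have h := (hpull P' S' D').self_of_nhds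
    rw [pull, hχy] at h
    exact h
  · have hR := N2.ric_pull hχ hdet (G := puF (Pinv e) P S D) (fun i j => (hsm i j).contDiffAt)
      (Filter.Eventually.of_forall fun x => puF_symm _ _ _ _ x)
      (puF_det e he hO hI hP hS hD hpos _)
    rw [Pool.Agent.H858R2.MaxAux.Ric_congr (hpull P S D), hχy] at hR
    exact hR.symm

theorem scal_DG {A : Fin 3 → ℝ → ℝ} {u : Eu 3} (hA : ∀ k, ContDiffAt ℝ ∞ (A k) (u 0)) (h0 : ∀ k, 0 < A k (u 0)) :
    ((W.DG A u)⁻¹ * (Ric (W.DG A) u)ᵀ).trace =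
      2 * (Krf (A 0) (A 1) (u 0) + Krf (A 0) (A 2) (u 0) + W.K12 (A 0) (A 1) (A 2) (u 0)) := by
  have hinv : (W.DG A u)⁻¹ = Matrix.diagonal fun i => (A i (u 0))⁻¹ := by
    apply Matrix.inv_eq_right_inv
    rw [W.DG, Matrix.diagonal_mul_diagonal]
    rw [← Matrix.diagonal_one]
    refine congrArg _ (funext fun i => ?_)
    exact mul_inv_cancel₀ (h0 i).ne'
  have hric : (Ric (W.DG A) u)ᵀ = Matrix.diagonal fun i => A i (u 0) * W.RR A (u 0) i := by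
    ext i j
    rw [Matrix.transpose_apply, W.Ric_DG hA h0, Matrix.diagonal_apply]
    by_cases h : i = j
    · subst h; simp
    · rw [if_neg h, if_neg (Ne.symm h)]
  rw [hinv, hric, Matrix.diagonal_mul_diagonal, Matrix.trace_diagonal]
  have : ∀ i, (A i (u 0))⁻¹ * (A i (u 0) * W.RR A (u 0) i) = W.RR A (u 0) i := fun i => by
    rw [← mul_assoc, inv_mul_cancel₀ (h0 i).ne', one_mul]
  rw [Fin.sum_univ_three, this, this, this]
  simp only [W.RR]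
  ring

end

/-- lower bounds of the scalar curvature -/
theorem tScal {P S D : ℝ → ℝ} {O : Set ℝ} {c : ℝ} (hO : IsOpen O) (hI : Icc (-1 : ℝ) 1 ⊆ O)
    (hP : ContDiffOn ℝ ∞ P O) (hS : ContDiffOn ℝ ∞ S O) (hD : ContDiffOn ℝ ∞ D O) (hpos : PosT P S D)
    (hc : ∀ x ∈ Ioo (-1 : ℝ) 1, c ≤ 2 * (Krf (Ec P S D) (Fc P) x + Krf (Ec P S D) (Gc S) x +
      W.K12 (Ec P S D) (Fc P) (Gc S) x)) :
    ∀ e ∈ atlas (En 3) S3, ∀ y, c ≤ Scal (puF (Pinv e) P S D) y := by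
  intro e he
  have hsm : ∀ i j, ContDiff ℝ ∞ (fun y => puF (Pinv e) P S D y i j) := by
    obtain ⟨htar, Q, R, O', hQ, hO', hR, hPO, hRP, hPe, hsrc, hRe, hPR, hsum⟩ := chart_pkg e he
    have hPinv : Pinv e = Q := by
      funext y; exact hPe y
    rw [hPinv]
    exact puF_smooth hQ hsum hO hI hP hS hD
  have hdet := puF_det e he hO hI hP hS hD hpos
  have hcont : Continuous (fun y => Scal (puF (Pinv e) P S D) y) := by
    unfold Scal
    refine continuous_finset_sum _ fun i _ => continuous_finset_sum _ fun j _ => ?_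
    exact (inv_cont hsm hdet i j).mul (ric_cont hsm hdet i j)
  have hclosed : IsClosed {y | c ≤ Scal (puF (Pinv e) P S D) y} := isClosed_le continuous_const hcont
  have hsub : {y : Eu 3 | zq (Pinv e y) ∈ Ioo (-1 : ℝ) 1} ⊆ {y | c ≤ Scal (puF (Pinv e) P S D) y} := by
    intro y hy
    obtain ⟨J, hJ, h1, h2⟩ := ric_good e he hO hI hP hS hD hpos y hy
    show c ≤ Scal (puF (Pinv e) P S D) y
    have z0 : pt (zq (Pinv e y)) 0 = zq (Pinv e y) := by simp [pt]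
    rw [Scal, dot_trace, ← scal_conj hJ, h1, h2, scal_DG (by rw [z0]; exact AA_smooth hO hI hP hS hD hy)
      (by rw [z0]; exact AA_pos hpos hy), z0]
    exact hc _ hy
  intro y
  have := hclosed.closure_subset_iff.2 hsub
  rw [(good_dense e he).closure_eq] at this
  exact this (mem_univ y)

/-- the flow equation -/
theorem tRicci {t₁ t₂ : ℝ} {P S D : ℝ → ℝ → ℝ} {O : Set (ℝ × ℝ)} (hO : IsOpen O)
    (hI : Ioo t₁ t₂ ×ˢ Icc (-1 : ℝ) 1 ⊆ O)
    (hP : ContDiffOn ℝ ∞ (fun p : ℝ × ℝ => P p.1 p.2) O) (hS : ContDiffOn ℝ ∞ (fun p : ℝ × ℝ => S p.1 p.2) O)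
    (hD : ContDiffOn ℝ ∞ (fun p : ℝ × ℝ => D p.1 p.2) O)
    (hpos : ∀ t ∈ Ioo t₁ t₂, PosT (P t) (S t) (D t))
    (hE : ∀ t ∈ Ioo t₁ t₂, ∀ x ∈ Ioo (-1 : ℝ) 1, HasDerivAt (fun s => Ec (P s) (S s) (D s) x)
      (-2 * (W.RR (AA (P t) (S t) (D t)) x 0 * Ec (P t) (S t) (D t) x)) t)
    (hF : ∀ t ∈ Ioo t₁ t₂, ∀ x ∈ Ioo (-1 : ℝ) 1, HasDerivAt (fun s => Fc (P s) x)
      (-2 * (W.RR (AA (P t) (S t) (D t)) x 1 * Fc (P t) x)) t)
    (hG : ∀ t ∈ Ioo t₁ t₂, ∀ x ∈ Ioo (-1 : ℝ) 1, HasDerivAt (fun s => Gc (S s) x)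
      (-2 * (W.RR (AA (P t) (S t) (D t)) x 2 * Gc (S t) x)) t) :
    ∀ e ∈ atlas (En 3) S3,
    (∀ i j, ContDiffOn ℝ ∞ (fun p : ℝ × Eu 3 => puF (Pinv e) (P p.1) (S p.1) (D p.1) p.2 i j)
      (Ioo t₁ t₂ ×ˢ univ)) ∧
    ∀ t ∈ Ioo t₁ t₂, ∀ y i j, HasDerivAt (fun τ => puF (Pinv e) (P τ) (S τ) (D τ) y i j)
      (-2 * Ric (puF (Pinv e) (P t) (S t) (D t)) y i j) t := by
  intro e he
  obtain ⟨htar, Q, R, O', hQ, hO', hR, hPO, hRP, hPe, hsrc, hRe, hPR, hsum⟩ := chart_pkg e he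
  have hPinv : Pinv e = Q := by
    funext y; exact hPe y
  have hmemI : ∀ y, zq (Q y) ∈ Icc (-1 : ℝ) 1 := fun y => zq_mem (hsum y)
  refine ⟨?_, ?_⟩
  · rw [hPinv]
    intro i j
    have hmap : MapsTo (fun p : ℝ × Eu 3 => (p.1, zq (Q p.2))) (Ioo t₁ t₂ ×ˢ univ) O :=
      fun p hp => hI ⟨hp.1, hmemI p.2⟩
    have hsmap : ContDiffOn ℝ ∞ (fun p : ℝ × Eu 3 => (p.1, zq (Q p.2))) (Ioo t₁ t₂ ×ˢ univ) :=
      (contDiff_fst.prodMk ((zq_smooth hQ).comp contDiff_snd)).contDiffOn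
    have cP := hP.comp hsmap hmap
    have cS := hS.comp hsmap hmap
    have cD := hD.comp hsmap hmap
    have e1 : (fun p : ℝ × Eu 3 => puF Q (P p.1) (S p.1) (D p.1) p.2 i j) = fun p =>
        P p.1 (zq (Q p.2)) * dA (fun a => JP Q p.2 a i) (fun a => JP Q p.2 a j)
        + S p.1 (zq (Q p.2)) * dB (fun a => JP Q p.2 a i) (fun a => JP Q p.2 a j)
        + D p.1 (zq (Q p.2)) * (dz (Q p.2) (fun a => JP Q p.2 a i) * dz (Q p.2) (fun a => JP Q p.2 a j)) := by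
      funext p; exact puF_entry _ _ _ _ _ _ _
    rw [e1]
    have c1 : ContDiffOn ℝ ∞ (fun p : ℝ × Eu 3 => dA (fun a => JP Q p.2 a i) (fun a => JP Q p.2 a j))
        (Ioo t₁ t₂ ×ˢ univ) := ((dA_smooth hQ i j).comp contDiff_snd).contDiffOn
    have c2 : ContDiffOn ℝ ∞ (fun p : ℝ × Eu 3 => dB (fun a => JP Q p.2 a i) (fun a => JP Q p.2 a j))
        (Ioo t₁ t₂ ×ˢ univ) := ((dB_smooth hQ i j).comp contDiff_snd).contDiffOn
    have c3 : ContDiffOn ℝ ∞ (fun p : ℝ × Eu 3 => dz (Q p.2) (fun a => JP Q p.2 a i) *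
        dz (Q p.2) (fun a => JP Q p.2 a j)) (Ioo t₁ t₂ ×ˢ univ) :=
      (((dz_smooth hQ i).mul (dz_smooth hQ j)).comp contDiff_snd).contDiffOn
    exact ((cP.mul c1).add (cS.mul c2)).add (cD.mul c3)
  · intro t ht
    set Ot : Set ℝ := {s | (t, s) ∈ O} with hOt
    have hOto : IsOpen Ot := hO.preimage (by fun_prop)
    have hOtI : Icc (-1 : ℝ) 1 ⊆ Ot := fun s hs => hI ⟨ht, hs⟩
    have hslice : ∀ {X : ℝ → ℝ → ℝ}, ContDiffOn ℝ ∞ (fun p : ℝ × ℝ => X p.1 p.2) O →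
        ContDiffOn ℝ ∞ (X t) Ot := by
      intro X hX
      have : ContDiffOn ℝ ∞ (fun s : ℝ => (t, s)) Ot := (contDiff_const.prodMk contDiff_id).contDiffOn
      exact hX.comp this (fun s hs => hs)
    have htime : ∀ {X : ℝ → ℝ → ℝ}, ContDiffOn ℝ ∞ (fun p : ℝ × ℝ => X p.1 p.2) O →
        ∀ s ∈ Ot, HasDerivAt (fun τ => X τ s)
          (fderiv ℝ (fun p : ℝ × ℝ => X p.1 p.2) (t, s) (1, 0)) t := by
      intro X hX s hs
      have h1 : DifferentiableAt ℝ (fun p : ℝ × ℝ => X p.1 p.2) (t, s) :=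
        (hX.contDiffAt (hO.mem_nhds hs)).differentiableAt (by simp)
      have h2 : HasDerivAt (fun τ : ℝ => ((τ, s) : ℝ × ℝ)) ((1, 0) : ℝ × ℝ) t :=
        (hasDerivAt_id t).prodMk (hasDerivAt_const t s)
      exact h1.hasFDerivAt.comp_hasDerivAt t h2
    have hcont : ∀ {X : ℝ → ℝ → ℝ}, ContDiffOn ℝ ∞ (fun p : ℝ × ℝ => X p.1 p.2) O →
        ContinuousOn (fun s => fderiv ℝ (fun p : ℝ × ℝ => X p.1 p.2) (t, s) (1, 0))
          (Icc (-1 : ℝ) 1) := by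
      intro X hX
      have h1 := hX.continuousOn_fderiv_of_isOpen hO (by simp)
      have h2 : ContinuousOn (fun s : ℝ => fderiv ℝ (fun p : ℝ × ℝ => X p.1 p.2) (t, s))
          (Icc (-1 : ℝ) 1) :=
        h1.comp (by fun_prop) (fun s hs => hI ⟨ht, hs⟩)
      exact h2.clm_apply continuousOn_const
    set Pd : ℝ → ℝ := fun s => fderiv ℝ (fun p : ℝ × ℝ => P p.1 p.2) (t, s) (1, 0) with hPd
    set Sd : ℝ → ℝ := fun s => fderiv ℝ (fun p : ℝ × ℝ => S p.1 p.2) (t, s) (1, 0) with hSd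
    set Dd : ℝ → ℝ := fun s => fderiv ℝ (fun p : ℝ × ℝ => D p.1 p.2) (t, s) (1, 0) with hDd
    have hder : ∀ y i j, HasDerivAt (fun τ => puF (Pinv e) (P τ) (S τ) (D τ) y i j)
        (puF (Pinv e) Pd Sd Dd y i j) t := by
      intro y i j
      rw [hPinv, puF_entry]
      have e1 : (fun τ => puF Q (P τ) (S τ) (D τ) y i j) = fun τ =>
          P τ (zq (Q y)) * dA (fun a => JP Q y a i) (fun a => JP Q y a j)
          + S τ (zq (Q y)) * dB (fun a => JP Q y a i) (fun a => JP Q y a j)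
          + D τ (zq (Q y)) * (dz (Q y) (fun a => JP Q y a i) * dz (Q y) (fun a => JP Q y a j)) := by
        funext τ; exact puF_entry _ _ _ _ _ _ _
      rw [e1]
      exact (((htime hP _ (hOtI (hmemI y))).mul_const _).add
        ((htime hS _ (hOtI (hmemI y))).mul_const _)).add ((htime hD _ (hOtI (hmemI y))).mul_const _)
    have hsP := hslice hP
    have hsS := hslice hS
    have hsD := hslice hD
    have hgood : ∀ y, zq (Pinv e y) ∈ Ioo (-1 : ℝ) 1 →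
        puF (Pinv e) Pd Sd Dd y = (-2 : ℝ) • Ric (puF (Pinv e) (P t) (S t) (D t)) y := by
      intro y hy
      obtain ⟨J, hJ, h1, h2⟩ := ric_good e he hOto hOtI hsP hsS hsD (hpos t ht) y hy
      refine conj_cancel hJ ?_
      rw [h1, Matrix.mul_smul, Matrix.smul_mul, h2]
      set r := zq (Pinv e y) with hr
      have hrO : r ∈ Ot := hOtI ⟨hy.1.le, hy.2.le⟩
      have z0 : pt r 0 = r := by simp [pt]
      have dE : HasDerivAt (fun s => Ec (P s) (S s) (D s) r) (Ec Pd Sd Dd r) t := by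
        unfold Ec
        exact ((((htime hP r hrO).div_const _).add ((htime hS r hrO).div_const _)).div_const 8).add
          (htime hD r hrO)
      have dF : HasDerivAt (fun s => Fc (P s) r) (Fc Pd r) t := by
        unfold Fc
        exact ((htime hP r hrO).mul_const _).div_const 2
      have dG : HasDerivAt (fun s => Gc (S s) r) (Gc Sd r) t := by
        unfold Gc
        exact ((htime hS r hrO).mul_const _).div_const 2
      have eE := dE.unique (hE t ht r hy)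
      have eF := dF.unique (hF t ht r hy)
      have eG := dG.unique (hG t ht r hy)
      ext i j
      rw [Matrix.smul_apply, W.Ric_DG (by rw [z0]; exact AA_smooth hOto hOtI hsP hsS hsD hy)
        (by rw [z0]; exact AA_pos (hpos t ht) hy), z0, smul_eq_mul]
      by_cases hij : i = j
      · subst hij
        rw [if_pos rfl, W.DG, Matrix.diagonal_apply_eq, z0]
        fin_cases i
        · show Ec Pd Sd Dd r = -2 * (Ec (P t) (S t) (D t) r * W.RR _ r 0)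
          rw [eE]; ring
        · show Fc Pd r = -2 * (Fc (P t) r * W.RR _ r 1)
          rw [eF]; ring
        · show Gc Sd r = -2 * (Gc (S t) r * W.RR _ r 2)
          rw [eG]; ring
      · rw [if_neg hij, W.DG, Matrix.diagonal_apply_ne _ hij, mul_zero]
    intro y i j
    have hfun : (fun y => puF (Pinv e) Pd Sd Dd y i j) =
        fun y => -2 * Ric (puF (Pinv e) (P t) (S t) (D t)) y i j := by
      refine Continuous.ext_on (good_dense e he) ?_ ?_ ?_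
      · rw [hPinv]
        exact puF_cont hQ hsum (hcont hP) (hcont hS) (hcont hD) i j
      · refine continuous_const.mul (ric_cont ?_ (puF_det e he hOto hOtI hsP hsS hsD (hpos t ht)) i j)
        rw [hPinv]
        exact puF_smooth hQ hsum hOto hOtI hsP hsS hsD
      · intro y hy
        simp only
        rw [hgood y hy, Matrix.smul_apply, smul_eq_mul]
    have h3 : puF (Pinv e) Pd Sd Dd y i j =
        -2 * Ric (puF (Pinv e) (P t) (S t) (D t)) y i j := congrFun hfun y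
    rw [← h3]
    exact hder y i j

theorem puF_congr {Q : Eu 3 → (Fin 4 → ℝ)} {P P' S S' D D' : ℝ → ℝ} (y : Eu 3)
    (h1 : P (zq (Q y)) = P' (zq (Q y))) (h2 : S (zq (Q y)) = S' (zq (Q y))) (h3 : D (zq (Q y)) = D' (zq (Q y))) :
    puF Q P S D y = puF Q P' S' D' y := by
  unfold puF
  have : amF P S D (Q y) = amF P' S' D' (Q y) := by
    unfold amF
    rw [h1, h2, h3]
  rw [this]

theorem zPinv_mem (e : OpenPartialHomeomorph S3 (En 3)) (y : Eu 3) : zq (Pinv e y) ∈ Icc (-1 : ℝ) 1 := by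
  apply zq_mem
  unfold Pinv N535.amb
  set p : S3 := e.symm (WithLp.toLp 2 y)
  have h1 : ‖(p : E4)‖ = 1 := norm_eq_of_mem_sphere p
  have h2 := EuclideanSpace.norm_sq_eq (p : E4)
  rw [h1] at h2
  simp only [Real.norm_eq_abs, sq_abs, one_pow] at h2
  exact h2.symm

set_option maxHeartbeats 1600000 in
/-- construction of the Ricci flow -/
theorem tflow_of {t₁ t₀ t₂ : ℝ} (h10 : t₁ < t₀) (h02 : t₀ < t₂)
    {P S D : ℝ → ℝ → ℝ} {O : Set (ℝ × ℝ)} (hO : IsOpen O) (hI : Ioo t₁ t₂ ×ˢ Icc (-1 : ℝ) 1 ⊆ O)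
    (hP : ContDiffOn ℝ ∞ (fun p : ℝ × ℝ => P p.1 p.2) O) (hS : ContDiffOn ℝ ∞ (fun p : ℝ × ℝ => S p.1 p.2) O)
    (hD : ContDiffOn ℝ ∞ (fun p : ℝ × ℝ => D p.1 p.2) O)
    (hpos : ∀ t ∈ Ioo t₁ t₂, PosT (P t) (S t) (D t))
    (hE : ∀ t ∈ Ioo t₁ t₂, ∀ x ∈ Ioo (-1 : ℝ) 1, HasDerivAt (fun s => Ec (P s) (S s) (D s) x)
      (-2 * (W.RR (AA (P t) (S t) (D t)) x 0 * Ec (P t) (S t) (D t) x)) t)
    (hF : ∀ t ∈ Ioo t₁ t₂, ∀ x ∈ Ioo (-1 : ℝ) 1, HasDerivAt (fun s => Fc (P s) x)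
      (-2 * (W.RR (AA (P t) (S t) (D t)) x 1 * Fc (P t) x)) t)
    (hG : ∀ t ∈ Ioo t₁ t₂, ∀ x ∈ Ioo (-1 : ℝ) 1, HasDerivAt (fun s => Gc (S s) x)
      (-2 * (W.RR (AA (P t) (S t) (D t)) x 2 * Gc (S t) x)) t) :
    ∃ g : ℝ → Met, IsRicciFlow (t₂ - t₀) g ∧ ∀ e, (g 0).G e = puF (Pinv e) (P t₀) (S t₀) (D t₀) := by
  classical
  have HR := tRicci (P := P) (S := S) (D := D) hO hI hP hS hD hpos hE hF hG
  have hsl : ∀ t ∈ Ioo t₁ t₂, ∃ g : Met, ∀ e, g.G e = puF (Pinv e) (P t) (S t) (D t) := by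
    intro t ht
    have hcont : Continuous fun x : ℝ => (t, x) := by fun_prop
    refine tMetric (O := (fun x : ℝ => (t, x)) ⁻¹' O) (hO.preimage hcont) (fun x hx => hI ⟨ht, hx⟩)
      ?_ ?_ ?_ (hpos t ht)
    · exact hP.comp (contDiff_prodMk_right t).contDiffOn fun x hx => hx
    · exact hS.comp (contDiff_prodMk_right t).contDiffOn fun x hx => hx
    · exact hD.comp (contDiff_prodMk_right t).contDiffOn fun x hx => hx
  have ht0 : t₀ ∈ Ioo t₁ t₂ := ⟨h10, h02⟩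
  have hex : ∀ t : ℝ, ∃ g : Met, t ∈ Ico 0 (t₂ - t₀) → ∀ e, g.G e = puF (Pinv e) (P (t₀ + t)) (S (t₀ + t)) (D (t₀ + t)) := by
    intro t
    by_cases ht : t ∈ Ico 0 (t₂ - t₀)
    · obtain ⟨g, hg⟩ := hsl (t₀ + t) ⟨by linarith [ht.1], by linarith [ht.2]⟩
      exact ⟨g, fun _ => hg⟩
    · obtain ⟨g, hg⟩ := hsl t₀ ht0
      exact ⟨g, fun h => absurd h ht⟩
  choose g hg using hex
  have hin : ∀ t ∈ Ico 0 (t₂ - t₀), t₀ + t ∈ Ioo t₁ t₂ := fun t ht =>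
    ⟨by linarith [ht.1], by linarith [ht.2]⟩
  refine ⟨g, ⟨?_, ?_⟩, ?_⟩
  · intro e he i j
    have h1 := (HR e he).1 i j
    have h2 : ContDiffOn ℝ ∞ (fun p : ℝ × Eu 3 => puF (Pinv e) (P (t₀ + p.1)) (S (t₀ + p.1)) (D (t₀ + p.1)) p.2 i j)
        (Ico 0 (t₂ - t₀) ×ˢ ctarget e) := by
      have h3 : ContDiffOn ℝ ∞ (fun p : ℝ × Eu 3 => (t₀ + p.1, p.2)) (Ico 0 (t₂ - t₀) ×ˢ ctarget e) :=
        ((contDiff_const.add contDiff_fst).prodMk contDiff_snd).contDiffOn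
      exact h1.comp h3 fun p hp => ⟨hin p.1 hp.1, mem_univ _⟩
    refine h2.congr fun p hp => ?_
    rw [hg p.1 hp.1 e]
  · intro e he y hy t ht i j
    have h1 := (HR e he).2 (t₀ + t) (hin t ht) y i j
    have h2 : HasDerivAt (fun τ => puF (Pinv e) (P (t₀ + τ)) (S (t₀ + τ)) (D (t₀ + τ)) y i j)
        (-2 * Ric (puF (Pinv e) (P (t₀ + t)) (S (t₀ + t)) (D (t₀ + t))) y i j) t := by
      have h3 : HasDerivAt (fun τ : ℝ => t₀ + τ) 1 t := by
        simpa using (hasDerivAt_id t).const_add t₀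
      have h5 := HasDerivAt.comp (h₂ := fun τ => puF (Pinv e) (P τ) (S τ) (D τ) y i j) t h1 h3
      rw [mul_one] at h5
      exact h5
    have h4 := h2.hasDerivWithinAt (s := Ico 0 (t₂ - t₀))
    rw [hg t ht e]
    exact h4.congr (fun τ hτ => by rw [hg τ hτ e]) (by rw [hg t ht e])
  · intro e
    have := hg 0 ⟨le_rfl, by linarith⟩ e
    rw [add_zero] at this
    exact this

end Pool.Agent.H786
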