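import Mathlib
import Pool.Agent.H786.GFlow

set_option autoImplicit false
set_option linter.all false
open scoped ContDiff Manifold Topology Matrix RealInnerProductSpace ENNReal
open Set MeasureTheory

namespace Pool.Agent.H786

open Pool.Agent.QTot (Eu Mt pd Jac Gam Ric)
open Pool.Agent.QTot.N2
open Pool.Agent.H858R2 (En ctarget ctrn)
open Pool.Agent.N535 (S3 E4 Met JP Pinv amb rsq)
open Pool.Agent.N564.RF3 (chart_pkg JP_mulVec JP_inj JP_comp JP_congr contDiff_JP d4 d4_comm tangent d4_smooth)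

noncomputable section

/-- the extended norm on the tangent spaces belonging to a quadratic form -/
abbrev enQ (Q : ∀ p : S3, TangentSpace (𝓡 3) p → ℝ) (p : S3) : ENorm (TangentSpace (𝓡 3) p) :=
  ⟨fun u => ENNReal.ofReal (Real.sqrt (Q p u))⟩

/-- the Riemannian distance: infimum of the lengths of `C¹` paths, the length of a tangent vector
`u` at `p` being `√(Q p u)` -/
def dQ (Q : ∀ p : S3, TangentSpace (𝓡 3) p → ℝ) (x y : S3) : ℝ≥0∞ :=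
  letI : ∀ p : S3, ENorm (TangentSpace (𝓡 3) p) := enQ Q
  Manifold.riemannianEDist (𝓡 3) x y

section
variable {Q : ∀ p : S3, TangentSpace (𝓡 3) p → ℝ}

theorem enQ_smul (hQ : ∀ (p : S3) (c : ℝ) (u : TangentSpace (𝓡 3) p), Q p (c • u) = c ^ 2 * Q p u) (p : S3) :
    @ENormSMulClass ℝ (TangentSpace (𝓡 3) p) _ (enQ Q p) _ := by
  letI := enQ Q p
  refine ⟨fun c u => ?_⟩
  show ENNReal.ofReal (Real.sqrt (Q p (c • u))) = ‖c‖ₑ * ENNReal.ofReal (Real.sqrt (Q p u))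
  rw [hQ, Real.sqrt_mul (sq_nonneg c), Real.sqrt_sq_eq_abs, ENNReal.ofReal_mul (abs_nonneg c),
    Real.enorm_eq_ofReal_abs]

theorem dQ_le (hQ : ∀ (p : S3) (c : ℝ) (u : TangentSpace (𝓡 3) p), Q p (c • u) = c ^ 2 * Q p u)
    {γ : ℝ → S3} (hγ : ContMDiff 𝓘(ℝ, ℝ) (𝓡 3) 1 γ) {L κ : ℝ} (hL : 0 ≤ L) (hκ : 0 ≤ κ)
    (h : ∀ t ∈ Icc 0 L, Q (γ t) (mfderiv 𝓘(ℝ, ℝ) (𝓡 3) γ t (1:ℝ)) ≤ κ ^ 2) :
    dQ Q (γ 0) (γ L) ≤ ENNReal.ofReal (κ * L) := by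
  letI : ∀ p : S3, ENorm (TangentSpace (𝓡 3) p) := enQ Q
  haveI : ∀ p : S3, ENormSMulClass ℝ (TangentSpace (𝓡 3) p) := enQ_smul hQ
  show Manifold.riemannianEDist (𝓡 3) (γ 0) (γ L) ≤ _
  refine (Manifold.riemannianEDist_le_pathELength hγ.contMDiffOn rfl rfl hL).trans ?_
  rw [Manifold.pathELength_eq_lintegral_mfderiv_Icc]
  calc ∫⁻ t in Icc 0 L, ‖mfderiv 𝓘(ℝ, ℝ) (𝓡 3) γ t (1:ℝ)‖ₑ ≤ ∫⁻ t in Icc 0 L, ENNReal.ofReal κ := by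
        refine setLIntegral_mono' measurableSet_Icc fun t ht => ?_
        show ENNReal.ofReal (Real.sqrt (Q (γ t) (mfderiv 𝓘(ℝ, ℝ) (𝓡 3) γ t (1:ℝ)))) ≤ _
        refine ENNReal.ofReal_le_ofReal ?_
        rw [← Real.sqrt_sq hκ]
        exact Real.sqrt_le_sqrt (h t ht)
    _ = ENNReal.ofReal (κ * L) := by
        rw [setLIntegral_const, Real.volume_Icc, sub_zero, ← ENNReal.ofReal_mul hκ]

theorem dQ_triangle (hQ : ∀ (p : S3) (c : ℝ) (u : TangentSpace (𝓡 3) p), Q p (c • u) = c ^ 2 * Q p u)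
    (x y z : S3) : dQ Q x z ≤ dQ Q x y + dQ Q y z := by
  letI : ∀ p : S3, ENorm (TangentSpace (𝓡 3) p) := enQ Q
  haveI : ∀ p : S3, ENormSMulClass ℝ (TangentSpace (𝓡 3) p) := enQ_smul hQ
  exact Manifold.riemannianEDist_triangle

theorem dQ_path {x y : S3} {r : ℝ≥0∞} (h : dQ Q x y < r) : ∃ γ : ℝ → S3, γ 0 = x ∧ γ 1 = y ∧
    ContMDiffOn 𝓘(ℝ, ℝ) (𝓡 3) 1 γ (Icc 0 1) ∧
    ∫⁻ t in Ioo (0:ℝ) 1, ENNReal.ofReal (Real.sqrt (Q (γ t) (mfderiv 𝓘(ℝ, ℝ) (𝓡 3) γ t (1:ℝ)))) < r := by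
  letI : ∀ p : S3, ENorm (TangentSpace (𝓡 3) p) := enQ Q
  obtain ⟨γ, h0, h1, hγ, hlt⟩ := Manifold.exists_lt_of_riemannianEDist_lt (I := 𝓡 3) h
  refine ⟨γ, h0, h1, hγ, ?_⟩
  rw [Manifold.pathELength_eq_lintegral_mfderiv_Ioo] at hlt
  exact hlt

end

/-- the inclusion of the sphere -/
def inc (q : S3) : E4 := q

theorem inc_smooth : ContMDiff (𝓡 3) 𝓘(ℝ, E4) 1 inc := contMDiff_coe_sphere (E := E4) (n := 3) (m := 1)

/-- ambient image of a tangent vector -/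
def tv (p : S3) (u : TangentSpace (𝓡 3) p) : E4 := mfderiv (𝓡 3) 𝓘(ℝ, E4) inc p u

theorem rsq_eq (p : S3) (u : TangentSpace (𝓡 3) p) : rsq p u = ‖tv p u‖ ^ 2 := rfl

theorem tv_smul (p : S3) (c : ℝ) (u : TangentSpace (𝓡 3) p) : tv p (c • u) = c • tv p u := by
  unfold tv
  exact map_smul (mfderiv (𝓡 3) 𝓘(ℝ, E4) inc p) c u

/-- derivative of the ambient curve -/
theorem amb_deriv {γ : ℝ → S3} {t : ℝ} (h : MDifferentiableAt 𝓘(ℝ, ℝ) (𝓡 3) γ t) :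
    HasDerivAt (fun s => inc (γ s)) (tv (γ t) (mfderiv 𝓘(ℝ, ℝ) (𝓡 3) γ t (1:ℝ))) t := by
  have h1 : MDifferentiableAt (𝓡 3) 𝓘(ℝ, E4) inc (γ t) := inc_smooth.mdifferentiableAt (by simp)
  have h2 := (h1.hasMFDerivAt).comp t h.hasMFDerivAt
  obtain ⟨L, hL, hL1⟩ : ∃ L : ℝ →L[ℝ] E4, HasFDerivAt (fun s => inc (γ s)) L t ∧
      L 1 = tv (γ t) (mfderiv 𝓘(ℝ, ℝ) (𝓡 3) γ t (1:ℝ)) := ⟨_, h2.hasFDerivAt, rfl⟩
  rw [← hL1]
  exact hL.hasDerivAt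

end

end Pool.Agent.H786
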