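import Mathlib
import Pool.Agent.H786.Dst

set_option autoImplicit false
set_option linter.all false
open scoped ContDiff Manifold Topology Matrix InnerProductSpace ENNReal
open Set MeasureTheory Filter

namespace Pool.Agent.H786

open Pool.Agent.N535 (S3 E4 Met JP Pinv amb rsq)

noncomputable section

theorem inc_norm (p : S3) : ‖inc p‖ = 1 := norm_eq_of_mem_sphere p

/-- speed bound for `arcsin (ρ f)` -/
theorem speed {c x w : E4} (hc : ‖c‖ = 1) (hx : ‖x‖ = 1) (hcw : ⟪c, w⟫_ℝ = 0) {ρ : ℝ} (h0 : 0 ≤ ρ) (h1 : ρ < 1) :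
    |1 / Real.sqrt (1 - (ρ * ⟪c, x⟫_ℝ) ^ 2) * (ρ * ⟪w, x⟫_ℝ)| ≤ ‖w‖ := by
  set f := ⟪c, x⟫_ℝ with hf
  have hf1 : |f| ≤ 1 := by
    have := abs_real_inner_le_norm c x
    rwa [hc, hx, one_mul] at this
  have hf2 : f ^ 2 ≤ 1 := by
    rw [← sq_abs]; exact pow_le_one₀ (abs_nonneg _) hf1
  have hρ2 : ρ ^ 2 < 1 := pow_lt_one₀ h0 h1 (by norm_num)
  have hD : 0 < 1 - (ρ * f) ^ 2 := by
    rw [mul_pow]
    have : ρ ^ 2 * f ^ 2 ≤ ρ ^ 2 * 1 := mul_le_mul_of_nonneg_left hf2 (sq_nonneg _)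
    linarith
  have e1 : ⟪w, x⟫_ℝ = ⟪w, x - f • c⟫_ℝ := by
    rw [inner_sub_right, inner_smul_right, real_inner_comm c w, hcw, mul_zero, sub_zero]
  have e2 : ‖x - f • c‖ ^ 2 = 1 - f ^ 2 := by
    rw [@norm_sub_sq_real, norm_smul, hc, hx, inner_smul_right, real_inner_comm, ← hf, Real.norm_eq_abs, mul_one,
      sq_abs]
    ring
  have e3 : |⟪w, x⟫_ℝ| ≤ ‖w‖ * ‖x - f • c‖ := by
    rw [e1]; exact abs_real_inner_le_norm _ _
  have hsq : 0 < Real.sqrt (1 - (ρ * f) ^ 2) := Real.sqrt_pos.2 hD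
  rw [abs_mul, abs_mul, abs_of_pos (by positivity : 0 < 1 / Real.sqrt (1 - (ρ * f) ^ 2)), abs_of_nonneg h0,
    div_mul_eq_mul_div, one_mul, div_le_iff₀ hsq]
  have e4 : ρ * ‖x - f • c‖ ≤ Real.sqrt (1 - (ρ * f) ^ 2) := by
    refine Real.le_sqrt_of_sq_le ?_
    rw [mul_pow, mul_pow, e2]
    nlinarith
  calc ρ * |⟪w, x⟫_ℝ| ≤ ρ * (‖w‖ * ‖x - f • c‖) := mul_le_mul_of_nonneg_left e3 h0
    _ = ‖w‖ * (ρ * ‖x - f • c‖) := by ring
    _ ≤ _ := mul_le_mul_of_nonneg_left e4 (norm_nonneg _)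

theorem tv_perp {γ : ℝ → S3} {t : ℝ} (h : MDifferentiableAt 𝓘(ℝ, ℝ) (𝓡 3) γ t) :
    ⟪inc (γ t), tv (γ t) (mfderiv 𝓘(ℝ, ℝ) (𝓡 3) γ t (1:ℝ))⟫_ℝ = 0 := by
  have h1 := amb_deriv h
  have h2 := h1.inner ℝ h1
  have h3 : (fun s => ⟪inc (γ s), inc (γ s)⟫_ℝ) = fun _ => (1:ℝ) := by
    funext s
    rw [real_inner_self_eq_norm_sq, inc_norm]; norm_num
  rw [h3] at h2
  have h4 := h2.unique (hasDerivAt_const t (1:ℝ))
  rw [real_inner_comm] at h4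
  rw [real_inner_comm] at h4
  have h5 : ⟪tv (γ t) (mfderiv 𝓘(ℝ, ℝ) (𝓡 3) γ t (1:ℝ)), inc (γ t)⟫_ℝ =
    ⟪inc (γ t), tv (γ t) (mfderiv 𝓘(ℝ, ℝ) (𝓡 3) γ t (1:ℝ))⟫_ℝ := real_inner_comm _ _
  linarith

/-- antipodal points of the round sphere are at distance at least `π` -/
theorem round_lower (x y : S3) (hy : inc y = -inc x) : ENNReal.ofReal Real.pi ≤ dQ rsq x y := by
  by_contra hlt
  push Not at hlt
  obtain ⟨γ, h0, h1, hγ, hint⟩ := dQ_path hlt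
  set I := ∫⁻ t in Ioo (0:ℝ) 1, ENNReal.ofReal (Real.sqrt (rsq (γ t) (mfderiv 𝓘(ℝ, ℝ) (𝓡 3) γ t (1:ℝ)))) with hI
  have hd : ∀ t ∈ Ioo (0:ℝ) 1, MDifferentiableAt 𝓘(ℝ, ℝ) (𝓡 3) γ t := by
    intro t ht
    exact ((hγ t ⟨ht.1.le, ht.2.le⟩).contMDiffAt (Icc_mem_nhds ht.1 ht.2)).mdifferentiableAt (by simp)
  have hc : ContDiffOn ℝ 1 (fun s => inc (γ s)) (Icc 0 1) := by
    have := inc_smooth.comp_contMDiffOn hγ
    exact this.contDiffOn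
  have key : ∀ ρ ∈ Ioo (0:ℝ) 1, ENNReal.ofReal (2 * Real.arcsin ρ) ≤ I := by
    intro ρ hρ
    set Φ : ℝ → ℝ := fun s => Real.arcsin (ρ * ⟪inc (γ s), inc x⟫_ℝ) with hΦ
    have hb : ∀ s, |ρ * ⟪inc (γ s), inc x⟫_ℝ| < 1 := by
      intro s
      rw [abs_mul, abs_of_pos hρ.1]
      have h2 := abs_real_inner_le_norm (inc (γ s)) (inc x)
      rw [inc_norm, inc_norm, one_mul] at h2
      calc ρ * |⟪inc (γ s), inc x⟫_ℝ| ≤ ρ * 1 := mul_le_mul_of_nonneg_left h2 hρ.1.le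
        _ < 1 := by linarith [hρ.2]
    have hne : ∀ s, ρ * ⟪inc (γ s), inc x⟫_ℝ ≠ -1 ∧ ρ * ⟪inc (γ s), inc x⟫_ℝ ≠ 1 := fun s => by
      obtain ⟨a1, a2⟩ := abs_lt.1 (hb s)
      exact ⟨a1.ne', a2.ne⟩
    have hΦc : ContDiffOn ℝ 1 Φ (Icc 0 1) := by
      intro s hs
      have h2 : ContDiffWithinAt ℝ 1 (fun s => ρ * ⟪inc (γ s), inc x⟫_ℝ) (Icc 0 1) s :=
        contDiffWithinAt_const.mul ((hc s hs).inner ℝ contDiffWithinAt_const)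
      have h3 : ContDiffAt ℝ 1 Real.arcsin (ρ * ⟪inc (γ s), inc x⟫_ℝ) := Real.contDiffAt_arcsin (hne s).1 (hne s).2
      exact ContDiffAt.comp_contDiffWithinAt (g := Real.arcsin) s h3 h2
    have h3 := enorm_sub_le_lintegral_deriv_of_contDiffOn_Icc hΦc zero_le_one
    have e0 : Φ 0 = Real.arcsin ρ := by
      simp only [hΦ, h0]
      rw [real_inner_self_eq_norm_sq, inc_norm]
      norm_num
    have e1 : Φ 1 = -Real.arcsin ρ := by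
      simp only [hΦ, h1, hy]
      rw [inner_neg_left, real_inner_self_eq_norm_sq, inc_norm, ← Real.arcsin_neg]
      norm_num
    have e2 : ‖Φ 1 - Φ 0‖ₑ = ENNReal.ofReal (2 * Real.arcsin ρ) := by
      rw [e0, e1, Real.enorm_eq_ofReal_abs]
      have : 0 ≤ Real.arcsin ρ := Real.arcsin_nonneg.2 hρ.1.le
      have e3 : -Real.arcsin ρ - Real.arcsin ρ = -(2 * Real.arcsin ρ) := by ring
      rw [e3, abs_neg, abs_of_nonneg (by positivity)]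
    rw [e2] at h3
    refine h3.trans ?_
    rw [← restrict_Ioo_eq_restrict_Icc, hI]
    refine setLIntegral_mono' measurableSet_Ioo fun t ht => ?_
    have d1 := amb_deriv (hd t ht)
    have d2 : HasDerivAt (fun s => ρ * ⟪inc (γ s), inc x⟫_ℝ)
        (ρ * ⟪tv (γ t) (mfderiv 𝓘(ℝ, ℝ) (𝓡 3) γ t (1:ℝ)), inc x⟫_ℝ) t := by
      have := (d1.inner ℝ (hasDerivAt_const t (inc x))).const_mul ρ
      simpa using this
    have d3 := (Real.hasDerivAt_arcsin (hne t).1 (hne t).2).comp t d2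
    have d4 : HasDerivAt Φ (1 / Real.sqrt (1 - (ρ * ⟪inc (γ t), inc x⟫_ℝ) ^ 2) *
        (ρ * ⟪tv (γ t) (mfderiv 𝓘(ℝ, ℝ) (𝓡 3) γ t (1:ℝ)), inc x⟫_ℝ)) t := d3
    rw [d4.deriv, Real.enorm_eq_ofReal_abs, rsq_eq, Real.sqrt_sq (norm_nonneg _)]
    refine ENNReal.ofReal_le_ofReal ?_
    exact speed (inc_norm _) (inc_norm _) (tv_perp (hd t ht)) hρ.1.le hρ.2
  have hlim : Tendsto (fun ρ : ℝ => ENNReal.ofReal (2 * Real.arcsin ρ)) (𝓝[<] 1) (𝓝 (ENNReal.ofReal Real.pi)) := by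
    have h2 : Tendsto (fun ρ : ℝ => 2 * Real.arcsin ρ) (𝓝[<] 1) (𝓝 Real.pi) := by
      have h3 : Tendsto (fun ρ : ℝ => 2 * Real.arcsin ρ) (𝓝 1) (𝓝 (2 * Real.arcsin 1)) :=
        (Real.continuous_arcsin.const_mul 2).tendsto 1
      rw [Real.arcsin_one] at h3
      have e : 2 * (Real.pi / 2) = Real.pi := by ring
      rw [e] at h3
      exact h3.mono_left nhdsWithin_le_nhds
    exact (ENNReal.continuous_ofReal.tendsto _).comp h2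
  have hfin : ENNReal.ofReal Real.pi ≤ I := by
    refine le_of_tendsto hlim ?_
    filter_upwards [Ioo_mem_nhdsLT (zero_lt_one : (0:ℝ) < 1)] with ρ hρ using key ρ hρ
  exact absurd hint (not_lt.2 hfin)

end

end Pool.Agent.H786
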