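import Mathlib
import Pool.Agent.H786.Rnd

set_option autoImplicit false
set_option linter.all false
open scoped ContDiff Manifold Topology Matrix InnerProductSpace ENNReal
open Set MeasureTheory Filter

namespace Pool.Agent.H786

open Pool.Agent.QTot (Eu Mt pd Jac Gam Ric)
open Pool.Agent.H858R2 (En ctarget ctrn)
open Pool.Agent.N535 (S3 E4 Met JP Pinv amb rsq sq)
open Pool.Agent.N564.RF3 (chart_pkg JP_mulVec JP_inj JP_comp JP_congr contDiff_JP d4 d4_comm tangent d4_smooth)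

noncomputable section

/-- great circle -/
def gc (x v : E4) (t : ℝ) : E4 := Real.cos t • x + Real.sin t • v

section
variable {x v : E4}

theorem gc_norm (hx : ‖x‖ = 1) (hv : ‖v‖ = 1) (hxv : ⟪x, v⟫_ℝ = 0) (t : ℝ) : ‖gc x v t‖ = 1 := by
  have h : ‖gc x v t‖ ^ 2 = 1 := by
    unfold gc
    rw [@norm_add_sq_real, norm_smul, norm_smul, hx, hv, inner_smul_left, inner_smul_right, hxv]
    simp
  have h0 := norm_nonneg (gc x v t)
  nlinarith

/-- the great circle in the sphere -/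
def gcs (hx : ‖x‖ = 1) (hv : ‖v‖ = 1) (hxv : ⟪x, v⟫_ℝ = 0) : ℝ → S3 :=
  Set.codRestrict (gc x v) _ fun t => by
    rw [mem_sphere_zero_iff_norm]; exact gc_norm hx hv hxv t

theorem gc_smooth (x v : E4) : ContDiff ℝ 1 (gc x v) := by
  unfold gc
  exact (Real.contDiff_cos.smul contDiff_const).add (Real.contDiff_sin.smul contDiff_const)

theorem gcs_smooth (hx : ‖x‖ = 1) (hv : ‖v‖ = 1) (hxv : ⟪x, v⟫_ℝ = 0) :
    ContMDiff 𝓘(ℝ, ℝ) (𝓡 3) 1 (gcs hx hv hxv) := by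
  unfold gcs
  exact ContMDiff.codRestrict_sphere (n := 3) (gc_smooth x v).contMDiff _

theorem gcs_inc (hx : ‖x‖ = 1) (hv : ‖v‖ = 1) (hxv : ⟪x, v⟫_ℝ = 0) (t : ℝ) : inc (gcs hx hv hxv t) = gc x v t := rfl

theorem gc_deriv (x v : E4) (t : ℝ) : HasDerivAt (gc x v) ((-Real.sin t) • x + Real.cos t • v) t := by
  unfold gc
  exact ((Real.hasDerivAt_cos t).smul_const x).add ((Real.hasDerivAt_sin t).smul_const v)

theorem gcs_rsq (hx : ‖x‖ = 1) (hv : ‖v‖ = 1) (hxv : ⟪x, v⟫_ℝ = 0) (t : ℝ) :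
    rsq (gcs hx hv hxv t) (mfderiv 𝓘(ℝ, ℝ) (𝓡 3) (gcs hx hv hxv) t (1:ℝ)) = 1 := by
  have h1 : MDifferentiableAt 𝓘(ℝ, ℝ) (𝓡 3) (gcs hx hv hxv) t := (gcs_smooth hx hv hxv).mdifferentiableAt (by simp)
  have h2 := (amb_deriv h1).unique (gc_deriv x v t)
  rw [rsq_eq, h2, @norm_add_sq_real, norm_smul, norm_smul, hx, hv, inner_smul_left, inner_smul_right, hxv]
  simp

end

/-- a unit vector orthogonal to a given one -/
theorem exists_perp (x : E4) (hx : ‖x‖ = 1) : ∃ v : E4, ‖v‖ = 1 ∧ ⟪x, v⟫_ℝ = 0 := by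
  refine ⟨WithLp.toLp 2 ![-x 1, x 0, -x 3, x 2], ?_, ?_⟩
  · have h1 : ‖x‖ ^ 2 = 1 := by rw [hx]; norm_num
    rw [EuclideanSpace.norm_sq_eq, Fin.sum_univ_four] at h1
    have h2 : ‖(WithLp.toLp 2 ![-x 1, x 0, -x 3, x 2] : E4)‖ ^ 2 = 1 := by
      rw [EuclideanSpace.norm_sq_eq, Fin.sum_univ_four]
      simp only [Real.norm_eq_abs, sq_abs] at h1 ⊢
      simp
      linarith
    have h0 := norm_nonneg (WithLp.toLp 2 ![-x 1, x 0, -x 3, x 2] : E4)
    nlinarith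
  · rw [PiLp.inner_apply, Fin.sum_univ_four]
    simp
    ring

theorem gc_exists (x y : E4) (hx : ‖x‖ = 1) (hy : ‖y‖ = 1) :
    ∃ v : E4, ‖v‖ = 1 ∧ ⟪x, v⟫_ℝ = 0 ∧ gc x v (Real.arccos ⟪x, y⟫_ℝ) = y := by
  set c := ⟪x, y⟫_ℝ with hc
  have hc1 : |c| ≤ 1 := by
    have := abs_real_inner_le_norm x y
    rwa [hx, hy, one_mul] at this
  obtain ⟨c1, c2⟩ := abs_le.1 hc1
  have hns : ‖y - c • x‖ ^ 2 = 1 - c ^ 2 := by
    rw [@norm_sub_sq_real, norm_smul, hx, hy, inner_smul_right, real_inner_comm, ← hc, Real.norm_eq_abs, mul_one,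
      sq_abs]
    ring
  have hs2 : Real.sqrt (1 - c ^ 2) ^ 2 = 1 - c ^ 2 := Real.sq_sqrt (by nlinarith)
  unfold gc
  rw [Real.cos_arccos c1 c2, Real.sin_arccos]
  by_cases hs : Real.sqrt (1 - c ^ 2) = 0
  · rw [hs] at hs2
    have h0 : y - c • x = 0 := by
      rw [← norm_eq_zero]
      have : ‖y - c • x‖ ^ 2 = 0 := by rw [hns, ← hs2]; norm_num
      exact pow_eq_zero_iff (two_ne_zero) |>.1 this
    obtain ⟨v, hv, hxv⟩ := exists_perp x hx
    refine ⟨v, hv, hxv, ?_⟩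
    rw [hs, zero_smul, add_zero]
    exact (sub_eq_zero.1 h0).symm
  · have hs0 : 0 < Real.sqrt (1 - c ^ 2) := lt_of_le_of_ne (Real.sqrt_nonneg _) (Ne.symm hs)
    refine ⟨(Real.sqrt (1 - c ^ 2))⁻¹ • (y - c • x), ?_, ?_, ?_⟩
    · have hn : ‖y - c • x‖ = Real.sqrt (1 - c ^ 2) := by
        rw [← hns, Real.sqrt_sq (norm_nonneg _)]
      rw [norm_smul, norm_inv, Real.norm_eq_abs, abs_of_pos hs0, hn]
      exact inv_mul_cancel₀ hs
    · rw [inner_smul_right, inner_sub_right, inner_smul_right, real_inner_self_eq_norm_sq, hx, ← hc]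
      ring
    · rw [smul_smul, mul_inv_cancel₀ hs, one_smul]
      abel

section
variable {Q : ∀ p : S3, TangentSpace (𝓡 3) p → ℝ}

/-- upper bound by the round distance -/
theorem dQ_round (hQ : ∀ (p : S3) (c : ℝ) (u : TangentSpace (𝓡 3) p), Q p (c • u) = c ^ 2 * Q p u) {κ : ℝ}
    (hκ : 0 ≤ κ) (h : ∀ p u, Q p u ≤ κ ^ 2 * rsq p u) (x y : S3) :
    dQ Q x y ≤ ENNReal.ofReal (κ * Real.arccos ⟪inc x, inc y⟫_ℝ) := by
  obtain ⟨v, hv, hxv, hy⟩ := gc_exists (inc x) (inc y) (inc_norm x) (inc_norm y)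
  have h1 := dQ_le hQ (gcs_smooth (inc_norm x) hv hxv) (L := Real.arccos ⟪inc x, inc y⟫_ℝ) (κ := κ)
    (Real.arccos_nonneg _) hκ (fun t _ => by
      have := h (gcs (inc_norm x) hv hxv t) (mfderiv 𝓘(ℝ, ℝ) (𝓡 3) (gcs (inc_norm x) hv hxv) t (1:ℝ))
      rwa [gcs_rsq, mul_one] at this)
  have e0 : gcs (inc_norm x) hv hxv 0 = x := by
    apply Subtype.ext
    show gc (inc x) v 0 = inc x
    unfold gc; simp
  have e1 : gcs (inc_norm x) hv hxv (Real.arccos ⟪inc x, inc y⟫_ℝ) = y := Subtype.ext hy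
  rwa [e0, e1] at h1

/-- the circle `x₀ = x₁ = 0` -/
def OnC (p : S3) : Prop := inc p 0 = 0 ∧ inc p 1 = 0

/-- upper bound along the circle -/
theorem dQ_circle (hQ : ∀ (p : S3) (c : ℝ) (u : TangentSpace (𝓡 3) p), Q p (c • u) = c ^ 2 * Q p u) {θ : ℝ}
    (hθ : 0 ≤ θ) (h : ∀ p u, OnC p → Q p u ≤ θ ^ 2 * rsq p u) (x y : S3) (hx : inc x = WithLp.toLp 2 ![0, 0, 1, 0])
    (hy : OnC y) : dQ Q x y ≤ ENNReal.ofReal (θ * Real.pi) := by
  set σ : ℝ := if 0 ≤ inc y 3 then 1 else -1 with hσ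
  have hσ2 : σ ^ 2 = 1 := by rw [hσ]; split_ifs <;> norm_num
  set v : E4 := WithLp.toLp 2 ![0, 0, 0, σ] with hv0
  have hv : ‖v‖ = 1 := by
    have h2 : ‖v‖ ^ 2 = 1 := by
      rw [EuclideanSpace.norm_sq_eq, Fin.sum_univ_four]
      simp only [Real.norm_eq_abs, sq_abs]
      simp [hv0, hσ2]
    have h0 := norm_nonneg v
    nlinarith
  have hxv : ⟪inc x, v⟫_ℝ = 0 := by
    rw [hx, PiLp.inner_apply, Fin.sum_univ_four]
    simp [hv0]
  have hgc : ∀ t, OnC (gcs (inc_norm x) hv hxv t) := by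
    intro t
    have e : inc (gcs (inc_norm x) hv hxv t) = Real.cos t • (WithLp.toLp 2 ![0, 0, 1, 0] : E4) + Real.sin t • v := by
      rw [gcs_inc]; unfold gc; rw [hx]
    constructor
    · rw [e]; simp [hv0]
    · rw [e]; simp [hv0]
  have hy1 : inc y 2 ^ 2 + inc y 3 ^ 2 = 1 := by
    have h1 : ‖inc y‖ ^ 2 = 1 := by rw [inc_norm]; norm_num
    rw [EuclideanSpace.norm_sq_eq, Fin.sum_univ_four] at h1
    simp only [Real.norm_eq_abs, sq_abs, hy.1, hy.2] at h1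
    linarith
  have hb1 : -1 ≤ inc y 2 := by nlinarith [sq_nonneg (inc y 3)]
  have hb2 : inc y 2 ≤ 1 := by nlinarith [sq_nonneg (inc y 3)]
  have h1 := dQ_le hQ (gcs_smooth (inc_norm x) hv hxv) (L := Real.arccos (inc y 2)) (κ := θ)
    (Real.arccos_nonneg _) hθ (fun t _ => by
      have := h (gcs (inc_norm x) hv hxv t) (mfderiv 𝓘(ℝ, ℝ) (𝓡 3) (gcs (inc_norm x) hv hxv) t (1:ℝ)) (hgc t)
      rwa [gcs_rsq, mul_one] at this)
  have e0 : gcs (inc_norm x) hv hxv 0 = x := by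
    apply Subtype.ext
    show gc (inc x) v 0 = inc x
    unfold gc; simp
  have e1 : gcs (inc_norm x) hv hxv (Real.arccos (inc y 2)) = y := by
    apply Subtype.ext
    show gc (inc x) v (Real.arccos (inc y 2)) = inc y
    unfold gc
    rw [Real.cos_arccos hb1 hb2, Real.sin_arccos, hx]
    have h3 : Real.sqrt (1 - inc y 2 ^ 2) * σ = inc y 3 := by
      have : 1 - inc y 2 ^ 2 = inc y 3 ^ 2 := by linarith
      rw [this, Real.sqrt_sq_eq_abs, hσ]
      split_ifs with h4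
      · rw [abs_of_nonneg h4, mul_one]
      · rw [abs_of_neg (not_le.1 h4)]; ring
    ext i
    fin_cases i
    · simp [hv0]; exact hy.1.symm
    · simp [hv0]; exact hy.2.symm
    · simp [hv0]
    · simp [hv0]; exact h3
  rw [e0, e1] at h1
  refine h1.trans (ENNReal.ofReal_le_ofReal ?_)
  exact mul_le_mul_of_nonneg_left (Real.arccos_le_pi _) hθ

/-- the eccentricity estimate -/
theorem ecc (hQ : ∀ (p : S3) (c : ℝ) (u : TangentSpace (𝓡 3) p), Q p (c • u) = c ^ 2 * Q p u) {ε : ℝ}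
    (hε : 0 < ε) (hε2 : ε ≤ 1 / 2) (h1 : ∀ p u, Q p u ≤ (1 + ε / 32) ^ 2 * rsq p u)
    (h2 : ∀ p u, OnC p → Q p u ≤ ((1 + ε / 2)⁻¹) ^ 2 * rsq p u) (x y : S3)
    (hx : inc x = WithLp.toLp 2 ![0, 0, 1, 0]) : dQ Q x y ≤ ENNReal.ofReal (Real.pi - ε / 8) := by
  have hpi3 := Real.pi_gt_three
  have hpi4 := Real.pi_le_four
  have hny : inc y 0 ^ 2 + inc y 1 ^ 2 + inc y 2 ^ 2 + inc y 3 ^ 2 = 1 := by
    have h1 : ‖inc y‖ ^ 2 = 1 := by rw [inc_norm]; norm_num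
    rw [EuclideanSpace.norm_sq_eq, Fin.sum_univ_four] at h1
    simpa only [Real.norm_eq_abs, sq_abs] using h1
  set w := Real.sqrt (inc y 2 ^ 2 + inc y 3 ^ 2) with hw
  have hw2 : w ^ 2 = inc y 2 ^ 2 + inc y 3 ^ 2 := Real.sq_sqrt (by positivity)
  have hw0 : 0 ≤ w := Real.sqrt_nonneg _
  by_cases hc : Real.cos (ε / 4) ≤ w
  · have hcos : 0 < Real.cos (ε / 4) := Real.cos_pos_of_mem_Ioo ⟨by linarith, by linarith⟩
    have hwp : 0 < w := lt_of_lt_of_le hcos hc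
    have hz1 : (inc y 2 / w) ^ 2 + (inc y 3 / w) ^ 2 = 1 := by
      rw [div_pow, div_pow, ← add_div, ← hw2, div_self (by positivity)]
    have hzn : ‖(WithLp.toLp 2 ![0, 0, inc y 2 / w, inc y 3 / w] : E4)‖ = 1 := by
      have h2 : ‖(WithLp.toLp 2 ![0, 0, inc y 2 / w, inc y 3 / w] : E4)‖ ^ 2 = 1 := by
        rw [EuclideanSpace.norm_sq_eq, Fin.sum_univ_four]
        simp only [Real.norm_eq_abs, sq_abs]
        simp
        exact hz1
      have h0 := norm_nonneg (WithLp.toLp 2 ![0, 0, inc y 2 / w, inc y 3 / w] : E4)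
      nlinarith
    obtain ⟨z, hz⟩ : ∃ z : S3, inc z = WithLp.toLp 2 ![0, 0, inc y 2 / w, inc y 3 / w] :=
      ⟨⟨WithLp.toLp 2 ![0, 0, inc y 2 / w, inc y 3 / w], by rw [mem_sphere_zero_iff_norm]; exact hzn⟩, rfl⟩
    have hzC : OnC z := by constructor <;> rw [hz] <;> simp
    have l1 := dQ_circle hQ (θ := (1 + ε / 2)⁻¹) (by positivity) h2 x z hx hzC
    have l2 := dQ_round hQ (κ := 1 + ε / 32) (by positivity) h1 z y
    have hin : ⟪inc z, inc y⟫_ℝ = w := by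
      rw [hz, PiLp.inner_apply, Fin.sum_univ_four]
      simp
      have : inc y 2 * (inc y 2 / w) + inc y 3 * (inc y 3 / w) = w ^ 2 / w := by rw [hw2]; ring
      rw [this]; field_simp
    rw [hin] at l2
    have harc : Real.arccos w ≤ ε / 4 := by
      have := Real.arccos_le_arccos hc
      rwa [Real.arccos_cos (by linarith) (by linarith)] at this
    refine (dQ_triangle hQ x z y).trans ((add_le_add l1 l2).trans ?_)
    rw [← ENNReal.ofReal_add (by positivity) (mul_nonneg (by positivity) (Real.arccos_nonneg _))]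
    refine ENNReal.ofReal_le_ofReal ?_
    have a1 : (1 + ε / 2)⁻¹ ≤ 1 - ε / 4 := by
      rw [inv_le_iff_one_le_mul₀ (by positivity)]
      nlinarith
    have a2 : (1 + ε / 2)⁻¹ * Real.pi ≤ (1 - ε / 4) * Real.pi := mul_le_mul_of_nonneg_right a1 Real.pi_pos.le
    have a3 : (1 + ε / 32) * Real.arccos w ≤ (1 + ε / 32) * (ε / 4) := mul_le_mul_of_nonneg_left harc (by positivity)
    nlinarith
  · push Not at hc
    have l2 := dQ_round hQ (κ := 1 + ε / 32) (by positivity) h1 x y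
    have hin : ⟪inc x, inc y⟫_ℝ = inc y 2 := by
      rw [hx, PiLp.inner_apply, Fin.sum_univ_four]
      simp
    rw [hin] at l2
    have hy2 : -w ≤ inc y 2 := by
      have : |inc y 2| ≤ w := by
        rw [← Real.sqrt_sq_eq_abs, hw]
        exact Real.sqrt_le_sqrt (by nlinarith [sq_nonneg (inc y 3)])
      exact (abs_le.1 this).1
    have harc : Real.arccos (inc y 2) ≤ Real.pi - ε / 4 := by
      have h3 : Real.cos (Real.pi - ε / 4) ≤ inc y 2 := by
        rw [Real.cos_pi_sub]; linarith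
      have := Real.arccos_le_arccos h3
      rwa [Real.arccos_cos (by linarith) (by linarith)] at this
    refine l2.trans (ENNReal.ofReal_le_ofReal ?_)
    have a3 : (1 + ε / 32) * Real.arccos (inc y 2) ≤ (1 + ε / 32) * (Real.pi - ε / 4) :=
      mul_le_mul_of_nonneg_left harc (by positivity)
    nlinarith

end

end

end Pool.Agent.H786
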