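import Mathlib
import Pool.Agent.H786.G.R_pool_sql_team_seeded_63374d34.N99.RF3.GaugeC

set_option autoImplicit false
set_option linter.all false
open scoped ContDiff Topology
open Set

namespace Pool.Agent.H786.Gf

open Pool.Agent.N99.RF3

abbrev R5 : Type := ℝ × ℝ × ℝ × ℝ × ℝ

theorem flow5 {W P S R : ℝ × ℝ → ℝ} {ψ : ℝ → ℝ} (hW : ContDiff ℝ ∞ W) (hP : ContDiff ℝ ∞ P)
    (hS : ContDiff ℝ ∞ S) (hR : ContDiff ℝ ∞ R) (hψ : ContDiff ℝ ∞ ψ) (cW : HasCompactSupport W)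
    (cP : HasCompactSupport P) (cS : HasCompactSupport S) (cR : HasCompactSupport R)
    (cψ : HasCompactSupport ψ) (t₀ : ℝ) :
    ∃ Y Q L N : ℝ × ℝ → ℝ, ContDiff ℝ ∞ Y ∧ ContDiff ℝ ∞ Q ∧ ContDiff ℝ ∞ L ∧ ContDiff ℝ ∞ N ∧
      (∀ x, Y (t₀, x) = x ∧ Q (t₀, x) = 0 ∧ L (t₀, x) = 0 ∧ N (t₀, x) = 0) ∧
      ∀ t x, HasDerivAt (fun s => Y (s, x)) (W (t, Y (t, x))) t ∧
        HasDerivAt (fun s => Q (s, x)) (P (t, Y (t, x))) t ∧
        HasDerivAt (fun s => L (s, x)) (S (t, Y (t, x)) * ψ (Q (t, x))) t ∧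
        HasDerivAt (fun s => N (s, x)) (R (t, Y (t, x)) * ψ (Q (t, x))) t := by
  have cd3 : ∀ {S : ℝ × ℝ → ℝ}, ContDiff ℝ ∞ S → ContDiff ℝ ∞ (fun p : ℝ × ℝ × ℝ => S (p.1, p.2.1) * ψ p.2.2) := by
    intro S hS
    exact (hS.comp (contDiff_fst.prodMk (contDiff_fst.comp contDiff_snd))).mul
      (hψ.comp (contDiff_snd.comp contDiff_snd))
  have cc3 : ∀ {S : ℝ × ℝ → ℝ}, HasCompactSupport S →
      HasCompactSupport (fun p : ℝ × ℝ × ℝ => S (p.1, p.2.1) * ψ p.2.2) := by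
    intro S cS
    have hK : IsCompact ((fun p : (ℝ × ℝ) × ℝ => ((p.1.1, p.1.2, p.2) : ℝ × ℝ × ℝ)) ''
        (tsupport S ×ˢ tsupport ψ)) :=
      (cS.isCompact.prod cψ.isCompact).image (by fun_prop)
    refine HasCompactSupport.of_support_subset_isCompact hK ?_
    intro p hp
    have hp' : S (p.1, p.2.1) * ψ p.2.2 ≠ 0 := hp
    refine ⟨((p.1, p.2.1), p.2.2), ⟨?_, ?_⟩, rfl⟩
    · exact subset_tsupport _ (left_ne_zero_of_mul hp')
    · exact subset_tsupport _ (right_ne_zero_of_mul hp')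
  set T3 : ℝ × ℝ × ℝ → ℝ := fun p => S (p.1, p.2.1) * ψ p.2.2 with hT3
  set T4 : ℝ × ℝ × ℝ → ℝ := fun p => R (p.1, p.2.1) * ψ p.2.2 with hT4
  have hT : ContDiff ℝ ∞ T3 := cd3 hS
  have hT' : ContDiff ℝ ∞ T4 := cd3 hR
  obtain ⟨K1, M1, l1, b1⟩ := lip_bdd hW cW
  obtain ⟨K2, M2, l2, b2⟩ := lip_bdd hP cP
  obtain ⟨K3, M3, l3, b3⟩ := lip_bdd3 hT (cc3 cS)
  obtain ⟨K4, M4, l4, b4⟩ := lip_bdd3 hT' (cc3 cR)
  have pr2 : LipschitzWith 1 (fun p : R5 => ((p.1, p.2.1) : ℝ × ℝ)) := by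
    have := (LipschitzWith.prod_fst (α := ℝ) (β := ℝ × ℝ × ℝ × ℝ)).prodMk
      ((LipschitzWith.prod_fst (α := ℝ) (β := ℝ × ℝ × ℝ)).comp
        (LipschitzWith.prod_snd (α := ℝ) (β := ℝ × ℝ × ℝ × ℝ)))
    simpa using this
  have pr3 : LipschitzWith 1 (fun p : R5 => ((p.1, p.2.1, p.2.2.1) : ℝ × ℝ × ℝ)) := by
    have := (LipschitzWith.prod_fst (α := ℝ) (β := ℝ × ℝ × ℝ × ℝ)).prodMk
      (((LipschitzWith.prod_fst (α := ℝ) (β := ℝ × ℝ × ℝ)).comp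
        (LipschitzWith.prod_snd (α := ℝ) (β := ℝ × ℝ × ℝ × ℝ))).prodMk
        ((LipschitzWith.prod_fst (α := ℝ) (β := ℝ × ℝ)).comp
          ((LipschitzWith.prod_snd (α := ℝ) (β := ℝ × ℝ × ℝ)).comp
            (LipschitzWith.prod_snd (α := ℝ) (β := ℝ × ℝ × ℝ × ℝ)))))
    simpa using this
  set X : R5 → R5 := fun p => (1, W (p.1, p.2.1), P (p.1, p.2.1), T3 (p.1, p.2.1, p.2.2.1),
    T4 (p.1, p.2.1, p.2.2.1)) with hX
  have hXs : ContDiff ℝ ∞ X := by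
    refine contDiff_const.prodMk ((hW.comp ?_).prodMk ((hP.comp ?_).prodMk ((hT.comp ?_).prodMk
      (hT'.comp ?_))))
    · fun_prop
    · fun_prop
    · fun_prop
    · fun_prop
  obtain ⟨K, hK⟩ : ∃ K : NNReal, LipschitzWith K X :=
    ⟨_, (LipschitzWith.const (1 : ℝ)).prodMk ((l1.comp pr2).prodMk ((l2.comp pr2).prodMk
      ((l3.comp pr3).prodMk (l4.comp pr3))))⟩
  have hM' : ∀ x, ‖X x‖ ≤ (max 1 (max M1 (max M2 (max M3 M4))) : NNReal) := by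
    intro x
    simp only [hX, norm_prod_le_iff, norm_one]
    push_cast
    refine ⟨?_, ?_, ?_, ?_, ?_⟩
    · exact le_max_left _ _
    · exact (b1 _).trans ((le_max_left _ _).trans (le_max_right _ _))
    · exact (b2 _).trans ((le_max_left _ _).trans ((le_max_right _ _).trans (le_max_right _ _)))
    · exact (b3 _).trans ((le_max_left _ _).trans ((le_max_right _ _).trans ((le_max_right _ _).trans
        (le_max_right _ _))))
    · exact (b4 _).trans ((le_max_right _ _).trans ((le_max_right _ _).trans ((le_max_right _ _).trans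
        (le_max_right _ _))))
  choose g h0 h1 using fun p => Pool.Agent.GR.Flow.exists_solution hK hM' p
  have hfl : Pool.Agent.GR.Flow.IsFlowOf X (fun t p => g p t) := ⟨h0, h1⟩
  have hG : ContDiff ℝ ∞ (fun q : ℝ × R5 => g q.2 q.1) := by
    rw [contDiff_infty]
    intro m
    have key : ∀ m : ℕ, m ≠ 0 → ContDiff ℝ m (fun q : ℝ × R5 => g q.2 q.1) := by
      intro m hm
      exact Pool.Agent.GR.Flow.contDiff_flow (X := ⟨X, hXs.continuous⟩) hm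
        (hXs.of_le (by exact_mod_cast le_top)) hK hfl
    exact (key (m + 1) (by omega)).of_le (by exact_mod_cast Nat.le_succ m)
  set F : ℝ × ℝ → R5 := fun p => g (t₀, p.2, 0, 0, 0) (p.1 - t₀) with hF
  have hFs : ContDiff ℝ ∞ F := by
    have : ContDiff ℝ ∞ (fun p : ℝ × ℝ => ((p.1 - t₀, (t₀, p.2, 0, 0, 0)) : ℝ × R5)) := by fun_prop
    exact hG.comp this
  have hFd : ∀ t x, HasDerivAt (fun s => F (s, x)) (X (F (t, x))) t := by
    intro t x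
    have h2 := (h1 (t₀, x, 0, 0, 0) (t - t₀)).scomp t ((hasDerivAt_id t).sub_const t₀)
    rw [one_smul] at h2
    exact h2
  have hF0 : ∀ x, F (t₀, x) = (t₀, x, 0, 0, 0) := by
    intro x
    simp only [hF, sub_self, h0]
  have d1 : ∀ t x, HasDerivAt (fun s => (F (s, x)).1) 1 t := fun t x => (hFd t x).fst
  have f1 : ∀ t x, (F (t, x)).1 = t := by
    intro t x
    have h2 : ∀ s, HasDerivAt (fun s => (F (s, x)).1 - s) (1 - 1) s := fun s =>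
      (d1 s x).sub (hasDerivAt_id s)
    have h3 : (F (t, x)).1 - t = (F (t₀, x)).1 - t₀ := by
      refine is_const_of_deriv_eq_zero (f := fun s => (F (s, x)).1 - s)
        (fun s => (h2 s).differentiableAt) (fun s => ?_) t t₀
      rw [(h2 s).deriv]; norm_num
    rw [hF0] at h3
    simp at h3
    linarith
  refine ⟨fun p => (F p).2.1, fun p => (F p).2.2.1, fun p => (F p).2.2.2.1, fun p => (F p).2.2.2.2,
    ?_, ?_, ?_, ?_, ?_, ?_⟩
  · exact contDiff_fst.comp (contDiff_snd.comp hFs)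
  · exact contDiff_fst.comp (contDiff_snd.comp (contDiff_snd.comp hFs))
  · exact contDiff_fst.comp (contDiff_snd.comp (contDiff_snd.comp (contDiff_snd.comp hFs)))
  · exact contDiff_snd.comp (contDiff_snd.comp (contDiff_snd.comp (contDiff_snd.comp hFs)))
  · intro x
    simp only [hF0]
    exact ⟨trivial, trivial, trivial, trivial⟩
  · intro t x
    have h2 := hFd t x
    refine ⟨?_, ?_, ?_, ?_⟩
    · have h3 := h2.snd.fst
      simp only [hX, f1] at h3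
      exact h3
    · have h3 := h2.snd.snd.fst
      simp only [hX, f1] at h3
      exact h3
    · have h3 := h2.snd.snd.snd.fst
      simp only [hX, hT3, f1] at h3
      exact h3
    · have h3 := h2.snd.snd.snd.snd
      simp only [hX, hT4, f1] at h3
      exact h3

/-- the flow and its side functions; `N = (Y - x) / (1 - x²)` -/
structure Fm (Z : ℝ × ℝ → ℝ) (ψ : ℝ → ℝ) (t₀ : ℝ) (Y Q L N : ℝ × ℝ → ℝ) : Prop
    extends Fl Z ψ t₀ Y Q L where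
  sN : ContDiff ℝ ∞ N
  N0 : ∀ x, N (t₀, x) = 0
  dN : ∀ t x, HasDerivAt (fun s => N (s, x)) (Z (t, Y (t, x)) * ψ (Q (t, x))) t

theorem exists_fm {Z : ℝ × ℝ → ℝ} {ψ : ℝ → ℝ} (hZ : ContDiff ℝ ∞ Z) (cZ : HasCompactSupport Z)
    (hψ : ContDiff ℝ ∞ ψ) (cψ : HasCompactSupport ψ) (t₀ : ℝ) :
    ∃ Y Q L N : ℝ × ℝ → ℝ, Fm Z ψ t₀ Y Q L N := by
  have h1 : ContDiff ℝ ∞ (fun p : ℝ × ℝ => Z p * (1 - p.2 ^ 2)) := by fun_prop
  have h2 : ContDiff ℝ ∞ (fun p : ℝ × ℝ => (-2 * p.2) * Z p) := by fun_prop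
  have h3 : ContDiff ℝ ∞ (fun p : ℝ × ℝ => fderiv ℝ Z p (0, 1)) :=
    (hZ.fderiv_right (by simp)).clm_apply contDiff_const
  have c1 : HasCompactSupport (fun p : ℝ × ℝ => Z p * (1 - p.2 ^ 2)) := cZ.mul_right
  have c2 : HasCompactSupport (fun p : ℝ × ℝ => (-2 * p.2) * Z p) := cZ.mul_left
  have c3 : HasCompactSupport (fun p : ℝ × ℝ => fderiv ℝ Z p (0, 1)) :=
    HasCompactSupport.fderiv_apply ℝ cZ (0, 1)
  obtain ⟨Y, Q, L, N, sY, sQ, sL, sN, h0, hd⟩ := flow5 h1 h2 h3 hZ hψ c1 c2 c3 cZ cψ t₀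
  have F : Fl Z ψ t₀ Y Q L := ⟨hZ, sY, sQ, sL, fun x => (h0 x).1, fun x => (h0 x).2.1,
    fun x => (h0 x).2.2.1, fun t x => (hd t x).1, fun t x => (hd t x).2.1, fun t x => (hd t x).2.2.1⟩
  exact ⟨Y, Q, L, N, ⟨F, sN, fun x => (h0 x).2.2.2, fun t x => (hd t x).2.2.2⟩⟩

variable {Z : ℝ × ℝ → ℝ} {ψ : ℝ → ℝ} {t₀ : ℝ} {Y Q L N : ℝ × ℝ → ℝ}

theorem Fm.Y_eq (F : Fm Z ψ t₀ Y Q L N) {a b t x : ℝ} (h0 : t₀ ∈ Ioo a b) (ht : t ∈ Ioo a b)
    (hψ : ∀ s ∈ Ioo a b, ψ (Q (s, x)) = Real.exp (Q (s, x))) :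
    Y (t, x) = x + (1 - x ^ 2) * N (t, x) := by
  have h1 : ∀ s ∈ Ioo a b, HasDerivAt (fun s => Y (s, x) - (1 - x ^ 2) * N (s, x)) 0 s := by
    intro s hs
    have e1 := (F.dY s x).sub ((F.dN s x).const_mul (1 - x ^ 2))
    refine e1.congr_deriv ?_
    rw [hψ s hs, F.toFl.one_sub s x]
    ring
  have h2 := const_on h1 ht h0
  simp only [F.Y0, F.N0, mul_zero, sub_zero] at h2
  linarith

theorem Fm.uv_eq (F : Fm Z ψ t₀ Y Q L N) {a b t x : ℝ} (h0 : t₀ ∈ Ioo a b) (ht : t ∈ Ioo a b)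
    (hψ : ∀ s ∈ Ioo a b, ψ (Q (s, x)) = Real.exp (Q (s, x))) :
    (1 - (1 + x) * N (t, x)) * (1 + (1 - x) * N (t, x)) = Real.exp (Q (t, x)) := by
  have h1 : ∀ s ∈ Ioo a b, HasDerivAt (fun s => (1 - (1 + x) * N (s, x)) * (1 + (1 - x) * N (s, x))
      - Real.exp (Q (s, x))) 0 s := by
    intro s hs
    have e1 := ((((F.dN s x).const_mul (1 + x)).const_sub 1).mul
      (((F.dN s x).const_mul (1 - x)).const_add 1)).sub (F.dQ s x).exp
    refine e1.congr_deriv ?_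
    have e2 := F.Y_eq h0 hs hψ
    rw [hψ s hs, e2]
    ring
  have h2 := const_on h1 ht h0
  simp only [F.Q0, F.N0, mul_zero, sub_zero, Real.exp_zero] at h2
  linarith

theorem Fm.u_pos (F : Fm Z ψ t₀ Y Q L N) {a b t x : ℝ} (h0 : t₀ ∈ Ioo a b) (ht : t ∈ Ioo a b)
    (hψ : ∀ s ∈ Ioo a b, ψ (Q (s, x)) = Real.exp (Q (s, x))) (hx : x ∈ Icc (-1 : ℝ) 1) :
    0 < 1 - (1 + x) * N (t, x) ∧ 0 < 1 + (1 - x) * N (t, x) := by
  have h1 := F.uv_eq h0 ht hψ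
  set u := 1 - (1 + x) * N (t, x) with hu
  set v := 1 + (1 - x) * N (t, x) with hv
  have h2 : 0 < u * v := by rw [h1]; positivity
  have h3 : (1 - x) * u + (1 + x) * v = 2 := by rw [hu, hv]; ring
  have hx1 : 0 ≤ 1 - x := by linarith [hx.2]
  have hx2 : 0 ≤ 1 + x := by linarith [hx.1]
  rcases mul_pos_iff.1 h2 with h | h
  · exact h
  · exfalso
    have := mul_nonneg hx1 (neg_pos.2 h.1).le
    have := mul_nonneg hx2 (neg_pos.2 h.2).le
    linarith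

end Pool.Agent.H786.Gf
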