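import Mathlib
import Pool.Agent.H786.Gf

set_option autoImplicit false
set_option linter.all false
open scoped ContDiff Topology
open Set

namespace Pool.Agent.H786.Gf

theorem idF (z V p w J J1 J2 m m1 : ℝ) (hV : V ≠ 0) (hz1 : 1 - z ≠ 0) (hz2 : 1 + z ≠ 0) (hJ : J ≠ 0) (hm : m ≠ 0)
    (Vt Zt F0 F1 F2 G0 G1 E0 E1 KF KG : ℝ)
    (hVt : Vt = 4 * (J * (V ^ 2 * ((1 - z ^ 2) * w - 2 * z * p) - V * ((1 - z ^ 2) * p ^ 2) + 1 / 2 * V ^ 3)))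
    (hZt : Zt = (2 * V ^ 2 * J1 - 4 * V * J * p) * (1 - z ^ 2))
    (hF0 : F0 = (1 - z) / (2 * V ^ 2))
    (hF1 : F1 = (-1 / (2 * V ^ 2) - (1 - z) * p / V ^ 3) * m)
    (hF2 : F2 = (2 * p / V ^ 3 - (1 - z) * w / V ^ 3 + 3 * (1 - z) * p ^ 2 / V ^ 4) * m ^ 2
      + (-1 / (2 * V ^ 2) - (1 - z) * p / V ^ 3) * m1)
    (hG0 : G0 = (1 + z) / (2 * V ^ 2))
    (hG1 : G1 = (1 / (2 * V ^ 2) - (1 + z) * p / V ^ 3) * m)
    (hE0 : E0 = m ^ 2 / (4 * V ^ 2 * J * ((1 - z) * (1 + z))))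
    (hE1 : E1 = 2 * m * m1 / (4 * V ^ 2 * J * ((1 - z) * (1 + z))) - 2 * m ^ 3 * p / (4 * V ^ 3 * J * ((1 - z) * (1 + z)))
      - m ^ 3 * J1 / (4 * V ^ 2 * J ^ 2 * ((1 - z) * (1 + z)))
      + 2 * z * m ^ 3 / (4 * V ^ 2 * J * ((1 - z) * (1 + z)) ^ 2))
    (hKF : KF = -(F2 / (2 * F0) - F1 ^ 2 / (4 * F0 ^ 2) - F1 * E1 / (4 * F0 * E0)) / E0)
    (hKG : KG = -(F1 * G1) / (4 * F0 * G0 * E0)) :
    -Zt / (2 * V ^ 2) - (1 - z) * (Vt + p * Zt) / V ^ 3 = -2 * ((KF + KG) * F0) := by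
  subst hKF hKG hF0 hF1 hF2 hG0 hG1 hE0 hE1 hVt hZt
  field_simp
  ring_nf


theorem idG (z V p w J J1 J2 m m1 : ℝ) (hV : V ≠ 0) (hz1 : 1 - z ≠ 0) (hz2 : 1 + z ≠ 0) (hJ : J ≠ 0) (hm : m ≠ 0)
    (Vt Zt F0 F1 G0 G1 G2 E0 E1 KF KG : ℝ)
    (hVt : Vt = 4 * (J * (V ^ 2 * ((1 - z ^ 2) * w - 2 * z * p) - V * ((1 - z ^ 2) * p ^ 2) + 1 / 2 * V ^ 3)))
    (hZt : Zt = (2 * V ^ 2 * J1 - 4 * V * J * p) * (1 - z ^ 2))
    (hF0 : F0 = (1 - z) / (2 * V ^ 2))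
    (hF1 : F1 = (-1 / (2 * V ^ 2) - (1 - z) * p / V ^ 3) * m)
    (hG0 : G0 = (1 + z) / (2 * V ^ 2))
    (hG1 : G1 = (1 / (2 * V ^ 2) - (1 + z) * p / V ^ 3) * m)
    (hG2 : G2 = (-2 * p / V ^ 3 - (1 + z) * w / V ^ 3 + 3 * (1 + z) * p ^ 2 / V ^ 4) * m ^ 2
      + (1 / (2 * V ^ 2) - (1 + z) * p / V ^ 3) * m1)
    (hE0 : E0 = m ^ 2 / (4 * V ^ 2 * J * ((1 - z) * (1 + z))))
    (hE1 : E1 = 2 * m * m1 / (4 * V ^ 2 * J * ((1 - z) * (1 + z))) - 2 * m ^ 3 * p / (4 * V ^ 3 * J * ((1 - z) * (1 + z)))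
      - m ^ 3 * J1 / (4 * V ^ 2 * J ^ 2 * ((1 - z) * (1 + z)))
      + 2 * z * m ^ 3 / (4 * V ^ 2 * J * ((1 - z) * (1 + z)) ^ 2))
    (hKF : KF = -(G2 / (2 * G0) - G1 ^ 2 / (4 * G0 ^ 2) - G1 * E1 / (4 * G0 * E0)) / E0)
    (hKG : KG = -(F1 * G1) / (4 * F0 * G0 * E0)) :
    Zt / (2 * V ^ 2) - (1 + z) * (Vt + p * Zt) / V ^ 3 = -2 * ((KF + KG) * G0) := by
  subst hKF hKG hF0 hF1 hG0 hG1 hG2 hE0 hE1 hVt hZt
  field_simp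
  ring_nf

theorem idE (z V p w J J1 J2 m m1 : ℝ) (hV : V ≠ 0) (hz1 : 1 - z ≠ 0) (hz2 : 1 + z ≠ 0) (hJ : J ≠ 0) (hm : m ≠ 0)
    (Vt Jt Zt mt F0 F1 F2 G0 G1 G2 E0 E1 KF KG : ℝ)
    (hVt : Vt = 4 * (J * (V ^ 2 * ((1 - z ^ 2) * w - 2 * z * p) - V * ((1 - z ^ 2) * p ^ 2) + 1 / 2 * V ^ 3)))
    (hJt : Jt = (1 - z ^ 2) * (4 * (V ^ 2 * J * J2 - 1 / 2 * (V ^ 2 * J1 ^ 2) - 2 * (J ^ 2 * p ^ 2)
      + 2 * (V * J * (p * J1)))))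
    (hZt : Zt = (2 * V ^ 2 * J1 - 4 * V * J * p) * (1 - z ^ 2))
    (hmt : mt = ((2 * V ^ 2 * J2 - 4 * p ^ 2 * J - 4 * V * J * w) * (1 - z ^ 2)
      - 2 * z * (2 * V ^ 2 * J1 - 4 * V * J * p)) * m)
    (hF0 : F0 = (1 - z) / (2 * V ^ 2))
    (hF1 : F1 = (-1 / (2 * V ^ 2) - (1 - z) * p / V ^ 3) * m)
    (hF2 : F2 = (2 * p / V ^ 3 - (1 - z) * w / V ^ 3 + 3 * (1 - z) * p ^ 2 / V ^ 4) * m ^ 2
      + (-1 / (2 * V ^ 2) - (1 - z) * p / V ^ 3) * m1)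
    (hG0 : G0 = (1 + z) / (2 * V ^ 2))
    (hG1 : G1 = (1 / (2 * V ^ 2) - (1 + z) * p / V ^ 3) * m)
    (hG2 : G2 = (-2 * p / V ^ 3 - (1 + z) * w / V ^ 3 + 3 * (1 + z) * p ^ 2 / V ^ 4) * m ^ 2
      + (1 / (2 * V ^ 2) - (1 + z) * p / V ^ 3) * m1)
    (hE0 : E0 = m ^ 2 / (4 * V ^ 2 * J * ((1 - z) * (1 + z))))
    (hE1 : E1 = 2 * m * m1 / (4 * V ^ 2 * J * ((1 - z) * (1 + z))) - 2 * m ^ 3 * p / (4 * V ^ 3 * J * ((1 - z) * (1 + z)))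
      - m ^ 3 * J1 / (4 * V ^ 2 * J ^ 2 * ((1 - z) * (1 + z)))
      + 2 * z * m ^ 3 / (4 * V ^ 2 * J * ((1 - z) * (1 + z)) ^ 2))
    (hKF : KF = -(F2 / (2 * F0) - F1 ^ 2 / (4 * F0 ^ 2) - F1 * E1 / (4 * F0 * E0)) / E0)
    (hKG : KG = -(G2 / (2 * G0) - G1 ^ 2 / (4 * G0 ^ 2) - G1 * E1 / (4 * G0 * E0)) / E0) :
    2 * m * mt / (4 * V ^ 2 * J * ((1 - z) * (1 + z))) - 2 * m ^ 2 * (Vt + p * Zt) / (4 * V ^ 3 * J * ((1 - z) * (1 + z)))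
      - m ^ 2 * (Jt + J1 * Zt) / (4 * V ^ 2 * J ^ 2 * ((1 - z) * (1 + z)))
      + 2 * z * m ^ 2 * Zt / (4 * V ^ 2 * J * ((1 - z) * (1 + z)) ^ 2) = -2 * ((KF + KG) * E0) := by
  subst hKF hKG hF0 hF1 hF2 hG0 hG1 hG2 hE0 hE1 hVt hJt hZt hmt
  field_simp
  ring_nf

/-- derivatives in the space variable of the coefficients, `t` fixed -/
theorem xder {y : ℝ → ℝ} {V P M J J1 : ℝ → ℝ} {a b x : ℝ} {m1 : ℝ → ℝ} {w : ℝ → ℝ}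
    (hx : x ∈ Ioo a b)
    (hy : ∀ z ∈ Ioo a b, HasDerivAt y (M z) z)
    (hM : ∀ z ∈ Ioo a b, HasDerivAt M (m1 z) z)
    (hV : ∀ z ∈ Ioo a b, HasDerivAt V (P z * M z) z)
    (hP : ∀ z ∈ Ioo a b, HasDerivAt P (w z * M z) z)
    (hJ : ∀ z ∈ Ioo a b, HasDerivAt J (J1 z * M z) z)
    (hV0 : ∀ z ∈ Ioo a b, V z ≠ 0)
    (hJ0 : ∀ z ∈ Ioo a b, J z ≠ 0)
    (hu1 : ∀ z ∈ Ioo a b, 1 - y z ≠ 0)
    (hu2 : ∀ z ∈ Ioo a b, 1 + y z ≠ 0)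
    {F G E : ℝ → ℝ} (hF : ∀ z ∈ Ioo a b, F z = (1 - y z) / (2 * V z ^ 2))
    (hG : ∀ z ∈ Ioo a b, G z = (1 + y z) / (2 * V z ^ 2))
    (hE : ∀ z ∈ Ioo a b, E z = M z ^ 2 / (4 * V z ^ 2 * J z * ((1 - y z) * (1 + y z)))) :
    deriv F x = (-1 / (2 * V x ^ 2) - (1 - y x) * P x / V x ^ 3) * M x ∧
    deriv (deriv F) x = (2 * P x / V x ^ 3 - (1 - y x) * w x / V x ^ 3
      + 3 * (1 - y x) * P x ^ 2 / V x ^ 4) * M x ^ 2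
      + (-1 / (2 * V x ^ 2) - (1 - y x) * P x / V x ^ 3) * m1 x ∧
    deriv G x = (1 / (2 * V x ^ 2) - (1 + y x) * P x / V x ^ 3) * M x ∧
    deriv (deriv G) x = (-2 * P x / V x ^ 3 - (1 + y x) * w x / V x ^ 3
      + 3 * (1 + y x) * P x ^ 2 / V x ^ 4) * M x ^ 2
      + (1 / (2 * V x ^ 2) - (1 + y x) * P x / V x ^ 3) * m1 x ∧
    deriv E x = 2 * M x * m1 x / (4 * V x ^ 2 * J x * ((1 - y x) * (1 + y x)))
      - 2 * M x ^ 3 * P x / (4 * V x ^ 3 * J x * ((1 - y x) * (1 + y x)))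
      - M x ^ 3 * J1 x / (4 * V x ^ 2 * J x ^ 2 * ((1 - y x) * (1 + y x)))
      + 2 * y x * M x ^ 3 / (4 * V x ^ 2 * J x * ((1 - y x) * (1 + y x)) ^ 2) := by
  have hnh : ∀ z ∈ Ioo a b, Ioo a b ∈ 𝓝 z := fun z hz => isOpen_Ioo.mem_nhds hz
  have e1 : ∀ z ∈ Ioo a b, deriv F z = (-1 / (2 * V z ^ 2) - (1 - y z) * P z / V z ^ 3) * M z := by
    intro z hz
    have h1 : HasDerivAt (fun z => (1 - y z) / (2 * V z ^ 2)) _ z :=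
      ((hy z hz).const_sub 1).div (((hV z hz).pow 2).const_mul 2)
        (mul_ne_zero two_ne_zero (pow_ne_zero 2 (hV0 z hz)))
    have h2 : F =ᶠ[𝓝 z] fun z => (1 - y z) / (2 * V z ^ 2) := by
      filter_upwards [hnh z hz] with q hq using hF q hq
    rw [(h1.congr_of_eventuallyEq h2).deriv]
    have := hV0 z hz
    field_simp
    ring
  have e2 : ∀ z ∈ Ioo a b, deriv G z = (1 / (2 * V z ^ 2) - (1 + y z) * P z / V z ^ 3) * M z := by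
    intro z hz
    have h1 : HasDerivAt (fun z => (1 + y z) / (2 * V z ^ 2)) _ z :=
      ((hy z hz).const_add 1).div (((hV z hz).pow 2).const_mul 2)
        (mul_ne_zero two_ne_zero (pow_ne_zero 2 (hV0 z hz)))
    have h2 : G =ᶠ[𝓝 z] fun z => (1 + y z) / (2 * V z ^ 2) := by
      filter_upwards [hnh z hz] with q hq using hG q hq
    rw [(h1.congr_of_eventuallyEq h2).deriv]
    have := hV0 z hz
    field_simp
    ring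
  refine ⟨e1 x hx, ?_, e2 x hx, ?_, ?_⟩
  · have h2 : deriv F =ᶠ[𝓝 x] fun z => (-1 / (2 * V z ^ 2) - (1 - y z) * P z / V z ^ 3) * M z := by
      filter_upwards [hnh x hx] with q hq using e1 q hq
    have h1 : HasDerivAt (fun z => (-1 / (2 * V z ^ 2) - (1 - y z) * P z / V z ^ 3) * M z) _ x :=
      (((hasDerivAt_const x (-1:ℝ)).div (((hV x hx).pow 2).const_mul 2)
        (mul_ne_zero two_ne_zero (pow_ne_zero 2 (hV0 x hx)))).sub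
        ((((hy x hx).const_sub 1).mul (hP x hx)).div ((hV x hx).pow 3)
          (pow_ne_zero 3 (hV0 x hx)))).mul (hM x hx)
    rw [(h1.congr_of_eventuallyEq h2).deriv]
    have := hV0 x hx
    simp only [Pi.pow_apply, Pi.mul_apply, Pi.sub_apply, Pi.div_apply]
    field_simp
    ring
  · have h2 : deriv G =ᶠ[𝓝 x] fun z => (1 / (2 * V z ^ 2) - (1 + y z) * P z / V z ^ 3) * M z := by
      filter_upwards [hnh x hx] with q hq using e2 q hq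
    have h1 : HasDerivAt (fun z => (1 / (2 * V z ^ 2) - (1 + y z) * P z / V z ^ 3) * M z) _ x :=
      (((hasDerivAt_const x (1:ℝ)).div (((hV x hx).pow 2).const_mul 2)
        (mul_ne_zero two_ne_zero (pow_ne_zero 2 (hV0 x hx)))).sub
        ((((hy x hx).const_add 1).mul (hP x hx)).div ((hV x hx).pow 3)
          (pow_ne_zero 3 (hV0 x hx)))).mul (hM x hx)
    rw [(h1.congr_of_eventuallyEq h2).deriv]
    have := hV0 x hx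
    simp only [Pi.pow_apply, Pi.mul_apply, Pi.sub_apply, Pi.div_apply]
    field_simp
    ring
  · have h1 : HasDerivAt (fun z => M z ^ 2 / (4 * V z ^ 2 * J z * ((1 - y z) * (1 + y z)))) _ x :=
      ((hM x hx).pow 2).div (((((hV x hx).pow 2).const_mul 4).mul (hJ x hx)).mul
        (((hy x hx).const_sub 1).mul ((hy x hx).const_add 1)))
        (mul_ne_zero (mul_ne_zero (mul_ne_zero (by norm_num) (pow_ne_zero 2 (hV0 x hx))) (hJ0 x hx))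
          (mul_ne_zero (hu1 x hx) (hu2 x hx)))
    have h2 : E =ᶠ[𝓝 x] fun z => M z ^ 2 / (4 * V z ^ 2 * J z * ((1 - y z) * (1 + y z))) := by
      filter_upwards [hnh x hx] with q hq using hE q hq
    rw [(h1.congr_of_eventuallyEq h2).deriv]
    have := hV0 x hx
    have := hJ0 x hx
    have := hu1 x hx
    have := hu2 x hx
    simp only [Pi.pow_apply, Pi.mul_apply, Pi.sub_apply, Pi.add_apply]
    field_simp
    ring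

end Pool.Agent.H786.Gf
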