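import Mathlib
import Pool.Agent.H786.Gid
import Pool.Agent.H786.GFlow

set_option autoImplicit false
set_option linter.all false
open scoped ContDiff Topology Manifold
open Set

namespace Pool.Agent.H786

open Pool.Agent.N535 (Krf)
open Pool.Agent.N99.RF3 (Fl ec ec_mul contDiff_ec hasDerivAt_fst hasDerivAt_snd cutoff_mul exp_cutoff)
open Pool.Agent.H786.Gf

lemma comp_snd' {f : ℝ × ℝ → ℝ} {t x : ℝ} {Y' : ℝ} {Y : ℝ → ℝ}
    (hf : DifferentiableAt ℝ f (t, Y x)) (hY : HasDerivAt Y Y' x) :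
    HasDerivAt (fun z => f (t, Y z)) (fderiv ℝ f (t, Y x) (0, 1) * Y') x :=
  (hasDerivAt_snd hf).comp x hY

lemma pairs {f : ℝ × ℝ → ℝ} {t : ℝ} {Y' : ℝ} {Y : ℝ → ℝ} (hf : DifferentiableAt ℝ f (t, Y t))
    (hY : HasDerivAt Y Y' t) :
    HasDerivAt (fun s => f (s, Y s)) (fderiv ℝ f (t, Y t) (1, 0) + fderiv ℝ f (t, Y t) (0, 1) * Y')
      t := by
  have h1 : HasDerivAt (fun s : ℝ => ((s, Y s) : ℝ × ℝ)) (1, Y') t :=
    (hasDerivAt_id t).prodMk hY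
  have h2 := hf.hasFDerivAt.comp_hasDerivAt t h1
  refine h2.congr_deriv ?_
  have h3 : ((1, Y') : ℝ × ℝ) = (1, 0) + Y' • (0, 1) := by simp
  rw [h3, map_add, map_smul, smul_eq_mul]
  ring

set_option maxHeartbeats 1600000 in
theorem tGauge {T d : ℝ} {m κ : ℝ → ℝ → ℝ} (hd : 0 < d)
    (sm : ContDiffOn ℝ ∞ (fun p : ℝ × ℝ => m p.1 p.2) (Ioo 0 T ×ˢ Ioo (-1 - d) (1 + d)))
    (sk : ContDiffOn ℝ ∞ (fun p : ℝ × ℝ => κ p.1 p.2) (Ioo 0 T ×ˢ Ioo (-1 - d) (1 + d)))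
    (pos : ∀ t ∈ Ioo 0 T, ∀ x ∈ Icc (-1 : ℝ) 1, 0 < m t x ∧ 0 < 1 + (1 - x ^ 2) * κ t x)
    (hm : ∀ t ∈ Ioo 0 T, ∀ x ∈ Ioo (-1 : ℝ) 1, HasDerivAt (fun s => m s x)
      (4 * ((1 + (1 - x ^ 2) * κ t x) * (m t x ^ 2 * ((1 - x ^ 2) * deriv (deriv (m t)) x -
        2 * x * deriv (m t) x) - m t x * ((1 - x ^ 2) * deriv (m t) x ^ 2) + 1 / 2 * m t x ^ 3))) t)
    (hk : ∀ t ∈ Ioo 0 T, ∀ x ∈ Ioo (-1 : ℝ) 1, HasDerivAt (fun s => κ s x)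
      (4 * (m t x ^ 2 * (1 + (1 - x ^ 2) * κ t x) * deriv (deriv (fun z => 1 + (1 - z ^ 2) * κ t z)) x -
        1 / 2 * (m t x ^ 2 * deriv (fun z => 1 + (1 - z ^ 2) * κ t z) x ^ 2)
        - 2 * ((1 + (1 - x ^ 2) * κ t x) ^ 2 * deriv (m t) x ^ 2)
        + 2 * (m t x * (1 + (1 - x ^ 2) * κ t x) *
          (deriv (m t) x * deriv (fun z => 1 + (1 - z ^ 2) * κ t z) x)))) t)
    {t₁ t₀ t₂ : ℝ} (h1 : 0 < t₁) (h10 : t₁ < t₀) (h02 : t₀ < t₂) (h2 : t₂ < T) :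
    ∃ (P S D : ℝ → ℝ → ℝ) (O : Set (ℝ × ℝ)), IsOpen O ∧ Ioo t₁ t₂ ×ˢ Icc (-1 : ℝ) 1 ⊆ O ∧
      ContDiffOn ℝ ∞ (fun p : ℝ × ℝ => P p.1 p.2) O ∧ ContDiffOn ℝ ∞ (fun p : ℝ × ℝ => S p.1 p.2) O ∧
      ContDiffOn ℝ ∞ (fun p : ℝ × ℝ => D p.1 p.2) O ∧
      (∀ t ∈ Ioo t₁ t₂, PosT (P t) (S t) (D t)) ∧
      (∀ t ∈ Ioo t₁ t₂, ∀ x ∈ Ioo (-1 : ℝ) 1, HasDerivAt (fun s => Ec (P s) (S s) (D s) x)
        (-2 * (W.RR (AA (P t) (S t) (D t)) x 0 * Ec (P t) (S t) (D t) x)) t) ∧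
      (∀ t ∈ Ioo t₁ t₂, ∀ x ∈ Ioo (-1 : ℝ) 1, HasDerivAt (fun s => Fc (P s) x)
        (-2 * (W.RR (AA (P t) (S t) (D t)) x 1 * Fc (P t) x)) t) ∧
      (∀ t ∈ Ioo t₁ t₂, ∀ x ∈ Ioo (-1 : ℝ) 1, HasDerivAt (fun s => Gc (S s) x)
        (-2 * (W.RR (AA (P t) (S t) (D t)) x 2 * Gc (S t) x)) t) ∧
      (∀ x, P t₀ x = 1 / m t₀ x ^ 2 ∧ S t₀ x = 1 / m t₀ x ^ 2 ∧
        D t₀ x = -κ t₀ x / (4 * m t₀ x ^ 2 * (1 + (1 - x ^ 2) * κ t₀ x))) := by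
  set Ω₀ : Set (ℝ × ℝ) := Ioo 0 T ×ˢ Ioo (-1 - d) (1 + d) with hΩ₀
  set V : ℝ × ℝ → ℝ := fun p => m p.1 p.2 with hVdef
  set K : ℝ × ℝ → ℝ := fun p => κ p.1 p.2 with hKdef
  set J : ℝ × ℝ → ℝ := fun p => 1 + (1 - p.2 ^ 2) * K p with hJdef
  have oΩ₀ : IsOpen Ω₀ := isOpen_Ioo.prod isOpen_Ioo
  have sJ₀ : ContDiffOn ℝ ∞ J Ω₀ :=
    contDiffOn_const.add ((contDiff_const.sub (contDiff_snd.pow 2)).contDiffOn.mul sk)
  set Ω : Set (ℝ × ℝ) := (Ω₀ ∩ V ⁻¹' Ioi 0) ∩ (Ω₀ ∩ J ⁻¹' Ioi 0) with hΩ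
  have oΩ : IsOpen Ω := (sm.continuousOn.isOpen_inter_preimage oΩ₀ isOpen_Ioi).inter
    (sJ₀.continuousOn.isOpen_inter_preimage oΩ₀ isOpen_Ioi)
  have sV : ContDiffOn ℝ ∞ V Ω := sm.mono fun p hp => hp.1.1
  have sK : ContDiffOn ℝ ∞ K Ω := sk.mono fun p hp => hp.1.1
  have sJ : ContDiffOn ℝ ∞ J Ω := sJ₀.mono fun p hp => hp.1.1
  have V0 : ∀ p ∈ Ω, 0 < V p := fun p hp => hp.1.2
  have J0 : ∀ p ∈ Ω, 0 < J p := fun p hp => hp.2.2
  set P' : ℝ × ℝ → ℝ := fun p => fderiv ℝ V p (0, 1) with hP'def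
  set J1 : ℝ × ℝ → ℝ := fun p => fderiv ℝ J p (0, 1) with hJ1def
  have sP' : ContDiffOn ℝ ∞ P' Ω := by
    have : ContDiffOn ℝ ∞ (fderiv ℝ V) Ω := sV.fderiv_of_isOpen oΩ (by simp)
    exact this.clm_apply contDiffOn_const
  have sJ1 : ContDiffOn ℝ ∞ J1 Ω := by
    have : ContDiffOn ℝ ∞ (fderiv ℝ J) Ω := sJ.fderiv_of_isOpen oΩ (by simp)
    exact this.clm_apply contDiffOn_const
  set ζ : ℝ × ℝ → ℝ := fun p => 2 * V p ^ 2 * J1 p - 4 * V p * J p * P' p with hζ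
  have sζ : ContDiffOn ℝ ∞ ζ Ω :=
    ((contDiffOn_const.mul (sV.pow 2)).mul sJ1).sub (((contDiffOn_const.mul sV).mul sJ).mul sP')
  have memΩ : ∀ t ∈ Icc t₁ t₂, ∀ y ∈ Icc (-1 : ℝ) 1, ((t, y) : ℝ × ℝ) ∈ Ω := by
    intro t ht y hy
    have a1 : t ∈ Ioo 0 T := ⟨by linarith [ht.1], by linarith [ht.2]⟩
    have a2 : ((t, y) : ℝ × ℝ) ∈ Ω₀ := ⟨a1, ⟨by linarith [hy.1], by linarith [hy.2]⟩⟩
    exact ⟨⟨a2, (pos t a1 y hy).1⟩, ⟨a2, (pos t a1 y hy).2⟩⟩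
  obtain ⟨Z, sZ, cZ, hZ⟩ := cutoff_mul (K := Icc t₁ t₂ ×ˢ Icc (-1 : ℝ) 1)
    (isCompact_Icc.prod isCompact_Icc) oΩ (fun p hp => memΩ p.1 hp.1 p.2 hp.2) sζ
  obtain ⟨B0, hB0⟩ : ∃ B0, ∀ p : ℝ × ℝ, |2 * p.2 * Z p| ≤ B0 := by
    have c2 : HasCompactSupport (fun p : ℝ × ℝ => (2 * p.2) * Z p) := cZ.mul_left
    have := sZ.continuous
    obtain ⟨M, hM⟩ := c2.exists_bound_of_continuous (by fun_prop)
    exact ⟨M, hM⟩
  have hB0' : 0 ≤ B0 := (abs_nonneg _).trans (hB0 (0, 0))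
  obtain ⟨ψ, sψ, cψ, hψ⟩ := exp_cutoff (B := B0 * T)
  obtain ⟨Y, Q, L, N, F⟩ := exists_fm sZ cZ sψ cψ t₀
  have hψ' : ∀ x, ∀ t ∈ Ioo t₁ t₂, ψ (Q (t, x)) = Real.exp (Q (t, x)) := by
    intro x t ht
    refine hψ _ (abs_le.1 ((F.toFl.Q_bound hB0 t x).trans (mul_le_mul_of_nonneg_left ?_ hB0')))
    rw [abs_le]
    constructor <;> linarith [ht.1, ht.2]
  have ht0' : t₀ ∈ Ioo t₁ t₂ := ⟨h10, h02⟩
  -- range of Y
  have Yle : ∀ t, ∀ x ∈ Icc (-1 : ℝ) 1, Y (t, x) ∈ Icc (-1 : ℝ) 1 := by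
    intro t x hx
    have h3 := F.toFl.one_sub t x
    have h4 : 0 ≤ 1 - x ^ 2 := by nlinarith [hx.1, hx.2]
    have h5 : 0 ≤ 1 - Y (t, x) ^ 2 := by rw [h3]; positivity
    exact ⟨by nlinarith, by nlinarith⟩
  have Ylt : ∀ t, ∀ x ∈ Ioo (-1 : ℝ) 1, 0 < 1 - Y (t, x) ^ 2 := by
    intro t x hx
    rw [F.toFl.one_sub t x]
    have h4 : 0 < 1 - x ^ 2 := by nlinarith [hx.1, hx.2]
    positivity
  have Ylt' : ∀ t, ∀ x ∈ Ioo (-1 : ℝ) 1, Y (t, x) ∈ Ioo (-1 : ℝ) 1 := by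
    intro t x hx
    have h5 := Ylt t x hx
    exact ⟨by nlinarith, by nlinarith⟩
  set O : Set (ℝ × ℝ) := {p | ((p.1, Y p) : ℝ × ℝ) ∈ Ω} with hO
  have cY := F.sY.continuous
  have oO : IsOpen O := oΩ.preimage (by fun_prop)
  have subO : Ioo t₁ t₂ ×ˢ Icc (-1 : ℝ) 1 ⊆ O := fun p hp =>
    memΩ p.1 ⟨hp.1.1.le, hp.1.2.le⟩ (Y p) (Yle p.1 p.2 hp.2)
  have spY : ContDiff ℝ ∞ (fun p : ℝ × ℝ => (p.1, Y p)) := contDiff_fst.prodMk F.sY
  have sVO : ContDiffOn ℝ ∞ (fun p : ℝ × ℝ => V (p.1, Y p)) O := sV.comp spY.contDiffOn (fun p hp => hp)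
  have sKO : ContDiffOn ℝ ∞ (fun p : ℝ × ℝ => K (p.1, Y p)) O := sK.comp spY.contDiffOn (fun p hp => hp)
  have sJO : ContDiffOn ℝ ∞ (fun p : ℝ × ℝ => J (p.1, Y p)) O := sJ.comp spY.contDiffOn (fun p hp => hp)
  have hVO : ∀ p ∈ O, V (p.1, Y p) ^ 2 ≠ 0 := fun p hp => pow_ne_zero 2 (V0 _ hp).ne'
  have hJO : ∀ p ∈ O, J (p.1, Y p) ≠ 0 := fun p hp => (J0 _ hp).ne'
  have sN := F.sN
  have sL := F.sL
  set u : ℝ × ℝ → ℝ := fun p => 1 - (1 + p.2) * N p with hu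
  set v : ℝ × ℝ → ℝ := fun p => 1 + (1 - p.2) * N p with hv
  have su : ContDiff ℝ ∞ u := by simp only [hu]; fun_prop
  have sv : ContDiff ℝ ∞ v := by simp only [hv]; fun_prop
  have huv : ∀ t ∈ Ioo t₁ t₂, ∀ x, u (t, x) * v (t, x) = Real.exp (Q (t, x)) := fun t ht x =>
    F.uv_eq ht0' ht (hψ' x)
  have hYe : ∀ t ∈ Ioo t₁ t₂, ∀ x, Y (t, x) = x + (1 - x ^ 2) * N (t, x) := fun t ht x =>
    F.Y_eq ht0' ht (hψ' x)
  set P : ℝ → ℝ → ℝ := fun t x => u (t, x) / V (t, Y (t, x)) ^ 2 with hP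
  set S : ℝ → ℝ → ℝ := fun t x => v (t, x) / V (t, Y (t, x)) ^ 2 with hS
  set D : ℝ → ℝ → ℝ := fun t x => (u (t, x) * v (t, x) * (2 * L (t, x) * ec (2 * (1 - x ^ 2) * L (t, x)) -
    u (t, x) * v (t, x) * K (t, Y (t, x))) / J (t, Y (t, x)) - N (t, x) ^ 2) /
    (4 * V (t, Y (t, x)) ^ 2) with hD
  have sP : ContDiffOn ℝ ∞ (fun p : ℝ × ℝ => P p.1 p.2) O := su.contDiffOn.div (sVO.pow 2) hVO
  have sS : ContDiffOn ℝ ∞ (fun p : ℝ × ℝ => S p.1 p.2) O := sv.contDiffOn.div (sVO.pow 2) hVO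
  have sec : ContDiff ℝ ∞ (fun p : ℝ × ℝ => 2 * L p * ec (2 * (1 - p.2 ^ 2) * L p)) := by
    have := contDiff_ec.comp (f := fun p : ℝ × ℝ => 2 * (1 - p.2 ^ 2) * L p) (by fun_prop)
    exact (contDiff_const.mul sL).mul this
  have sD : ContDiffOn ℝ ∞ (fun p : ℝ × ℝ => D p.1 p.2) O := by
    refine ContDiffOn.div ?_ (contDiffOn_const.mul (sVO.pow 2)) (fun p hp => mul_ne_zero four_ne_zero (hVO p hp))
    refine ContDiffOn.sub (ContDiffOn.div ?_ sJO hJO) (sN.pow 2).contDiffOn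
    exact (su.mul sv).contDiffOn.mul (sec.contDiffOn.sub ((su.mul sv).contDiffOn.mul sKO))
  -- the third coefficient
  have hsum : ∀ t ∈ Ioo t₁ t₂, ∀ x ∈ Icc (-1 : ℝ) 1, P t x * (1 + x) + S t x * (1 - x) + 8 * (1 - x ^ 2) * D t x =
      2 * Real.exp (Q (t, x) + 2 * (1 - x ^ 2) * L (t, x)) / (J (t, Y (t, x)) * V (t, Y (t, x)) ^ 2) := by
    intro t ht x hx
    have h3 := ec_mul (2 * (1 - x ^ 2) * L (t, x))
    have hin := subO (show ((t, x) : ℝ × ℝ) ∈ _ from ⟨ht, hx⟩)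
    have hV := (V0 _ hin).ne'
    have hJ := (J0 _ hin).ne'
    simp only at hV hJ
    have h4 : J (t, Y (t, x)) = 1 + (1 - Y (t, x) ^ 2) * K (t, Y (t, x)) := rfl
    have h5 : 1 - Y (t, x) ^ 2 = (1 - x ^ 2) * (u (t, x) * v (t, x)) := by
      rw [F.toFl.one_sub t x, huv t ht x]
    have h6 : P t x * (1 + x) + S t x * (1 - x) =
        (2 * (u (t, x) * v (t, x)) + 2 * (1 - x ^ 2) * N (t, x) ^ 2) / V (t, Y (t, x)) ^ 2 := by
      simp only [hP, hS, hu, hv]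
      field_simp
      ring
    rw [h6, Real.exp_add, ← huv t ht x]
    have h7 : Real.exp (2 * (1 - x ^ 2) * L (t, x)) =
      1 + 2 * (1 - x ^ 2) * L (t, x) * ec (2 * (1 - x ^ 2) * L (t, x)) := by linarith
    rw [h7]
    have h8 : 8 * (1 - x ^ 2) * D t x = (2 * (u (t, x) * v (t, x)) * ((1 - x ^ 2) * (2 * L (t, x) *
        ec (2 * (1 - x ^ 2) * L (t, x))) - (1 - x ^ 2) * (u (t, x) * v (t, x)) * K (t, Y (t, x)))
          / J (t, Y (t, x)) - 2 * (1 - x ^ 2) * N (t, x) ^ 2) / V (t, Y (t, x)) ^ 2 := by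
      simp only [hD]
      field_simp
      ring
    rw [h8, ← h5]
    have h9 : (1 - Y (t, x) ^ 2) * K (t, Y (t, x)) = J (t, Y (t, x)) - 1 := by rw [h4]; ring
    rw [h9]
    generalize ec (2 * (1 - x ^ 2) * L (t, x)) = e0
    generalize u (t, x) * v (t, x) = e1
    generalize J (t, Y (t, x)) = e2 at hJ ⊢
    generalize V (t, Y (t, x)) = e3 at hV ⊢
    generalize L (t, x) = e4
    generalize N (t, x) = e5
    field_simp
    ring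
  have hpos : ∀ t ∈ Ioo t₁ t₂, PosT (P t) (S t) (D t) := by
    intro t ht x hx
    have hin := subO (show ((t, x) : ℝ × ℝ) ∈ _ from ⟨ht, hx⟩)
    have h3 := V0 _ hin
    have h3' := J0 _ hin
    simp only at h3 h3'
    obtain ⟨up, vp⟩ := F.u_pos ht0' ht (hψ' x) hx
    refine ⟨?_, ?_, ?_⟩
    · exact div_pos up (by positivity)
    · exact div_pos vp (by positivity)
    · rw [hsum t ht x hx]
      positivity
  -- F, G, E
  have hF : ∀ t ∈ Ioo t₁ t₂, ∀ x, Fc (P t) x = (1 - Y (t, x)) / (2 * V (t, Y (t, x)) ^ 2) := by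
    intro t ht x
    have h3 : 1 - Y (t, x) = (1 - x) * u (t, x) := by rw [hYe t ht x]; simp only [hu]; ring
    rw [h3]
    simp only [Fc, hP]
    ring
  have hG : ∀ t ∈ Ioo t₁ t₂, ∀ x, Gc (S t) x = (1 + Y (t, x)) / (2 * V (t, Y (t, x)) ^ 2) := by
    intro t ht x
    have h3 : 1 + Y (t, x) = (1 + x) * v (t, x) := by rw [hYe t ht x]; simp only [hv]; ring
    rw [h3]
    simp only [Gc, hS]
    ring
  have hM : ∀ t ∈ Ioo t₁ t₂, ∀ x, fderiv ℝ Y (t, x) (0, 1) =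
      Real.exp (Q (t, x) + (1 - x ^ 2) * L (t, x)) := fun t ht x =>
    F.toFl.Yx_eq ⟨h10, h02⟩ ht (hψ' x)
  have hE : ∀ t ∈ Ioo t₁ t₂, ∀ x ∈ Ioo (-1 : ℝ) 1, Ec (P t) (S t) (D t) x =
      fderiv ℝ Y (t, x) (0, 1) ^ 2 / (4 * V (t, Y (t, x)) ^ 2 * J (t, Y (t, x)) *
        ((1 - Y (t, x)) * (1 + Y (t, x)))) := by
    intro t ht x hx
    have hx1 : 0 < 1 - x := by linarith [hx.2]
    have hx2 : 0 < 1 + x := by linarith [hx.1]
    have hxI : x ∈ Icc (-1 : ℝ) 1 := ⟨hx.1.le, hx.2.le⟩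
    have h3 : Ec (P t) (S t) (D t) x = (P t x * (1 + x) + S t x * (1 - x) + 8 * (1 - x ^ 2) * D t x)
        / (8 * ((1 - x) * (1 + x))) := by
      simp only [Ec]
      field_simp
      ring
    have hin := subO (show ((t, x) : ℝ × ℝ) ∈ _ from ⟨ht, hxI⟩)
    have h4 : V (t, Y (t, x)) ≠ 0 := (V0 _ hin).ne'
    have h4' : J (t, Y (t, x)) ≠ 0 := (J0 _ hin).ne'
    have h5 : (1 - Y (t, x)) * (1 + Y (t, x)) = ((1 - x) * (1 + x)) * Real.exp (Q (t, x)) := by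
      have := F.toFl.one_sub t x
      linear_combination this
    rw [h3, hsum t ht x hxI, hM t ht x, h5]
    have h6 : Real.exp (Q (t, x) + (1 - x ^ 2) * L (t, x)) ^ 2 =
        Real.exp (Q (t, x) + 2 * (1 - x ^ 2) * L (t, x)) * Real.exp (Q (t, x)) := by
      rw [← Real.exp_nat_mul, ← Real.exp_add]
      congr 1
      push_cast
      ring
    rw [h6]
    have h7 := (Real.exp_pos (Q (t, x))).ne'
    generalize Real.exp (Q (t, x) + 2 * (1 - x ^ 2) * L (t, x)) = e1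
    generalize Real.exp (Q (t, x)) = e2 at h7 ⊢
    generalize V (t, Y (t, x)) = e3 at h4 ⊢
    generalize J (t, Y (t, x)) = e4 at h4' ⊢
    have hx1' := hx1.ne'
    have hx2' := hx2.ne'
    field_simp
    ring
  -- main computation
  have main : ∀ t ∈ Ioo t₁ t₂, ∀ x ∈ Ioo (-1 : ℝ) 1,
      HasDerivAt (fun s => Ec (P s) (S s) (D s) x)
        (-2 * (W.RR (AA (P t) (S t) (D t)) x 0 * Ec (P t) (S t) (D t) x)) t ∧
      HasDerivAt (fun s => Fc (P s) x)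
        (-2 * (W.RR (AA (P t) (S t) (D t)) x 1 * Fc (P t) x)) t ∧
      HasDerivAt (fun s => Gc (S s) x)
        (-2 * (W.RR (AA (P t) (S t) (D t)) x 2 * Gc (S t) x)) t := by
    intro t ht x hx
    set μ : ℝ × ℝ → ℝ := fun p => fderiv ℝ Y p (0, 1) with hμ
    have sμ : ContDiff ℝ ∞ μ := (F.sY.fderiv_right (by simp)).clm_apply contDiff_const
    have dY : ∀ p, DifferentiableAt ℝ Y p := F.sY.differentiable (by simp)
    have dμ : ∀ p, DifferentiableAt ℝ μ p := sμ.differentiable (by simp)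
    have ht0 : t ∈ Ioo 0 T := ⟨by linarith [ht.1], by linarith [ht.2]⟩
    have inΩ : ∀ z ∈ Ioo (-1 : ℝ) 1, ((t, Y (t, z)) : ℝ × ℝ) ∈ Ω := fun z hz =>
      subO (show ((t, z) : ℝ × ℝ) ∈ _ from ⟨ht, ⟨hz.1.le, hz.2.le⟩⟩)
    have dV : ∀ p ∈ Ω, DifferentiableAt ℝ V p := fun p hp =>
      (sV.contDiffAt (oΩ.mem_nhds hp)).differentiableAt (by simp)
    have dK : ∀ p ∈ Ω, DifferentiableAt ℝ K p := fun p hp =>
      (sK.contDiffAt (oΩ.mem_nhds hp)).differentiableAt (by simp)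
    have dJ : ∀ p ∈ Ω, DifferentiableAt ℝ J p := fun p hp =>
      (sJ.contDiffAt (oΩ.mem_nhds hp)).differentiableAt (by simp)
    have dP : ∀ p ∈ Ω, DifferentiableAt ℝ P' p := fun p hp =>
      (sP'.contDiffAt (oΩ.mem_nhds hp)).differentiableAt (by simp)
    have dJ1 : ∀ p ∈ Ω, DifferentiableAt ℝ J1 p := fun p hp =>
      (sJ1.contDiffAt (oΩ.mem_nhds hp)).differentiableAt (by simp)
    have hom : ∀ z ∈ Ioo (-1 : ℝ) 1, 1 - Y (t, z) ≠ 0 := fun z hz => by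
      have := (Ylt' t z hz).2
      intro h0; linarith
    have hop : ∀ z ∈ Ioo (-1 : ℝ) 1, 1 + Y (t, z) ≠ 0 := fun z hz => by
      have := (Ylt' t z hz).1
      intro h0; linarith
    -- x-derivatives
    obtain ⟨F1, F2, G1, G2, E1⟩ := xder (y := fun z => Y (t, z)) (V := fun z => V (t, Y (t, z)))
      (P := fun z => P' (t, Y (t, z))) (M := fun z => μ (t, z)) (J := fun z => J (t, Y (t, z)))
      (J1 := fun z => J1 (t, Y (t, z))) (a := -1) (b := 1) (x := x)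
      (m1 := fun z => fderiv ℝ μ (t, z) (0, 1)) (w := fun z => fderiv ℝ P' (t, Y (t, z)) (0, 1)) hx
      (fun z _ => hasDerivAt_snd (dY (t, z)))
      (fun z _ => hasDerivAt_snd (dμ (t, z)))
      (fun z hz => comp_snd' (dV _ (inΩ z hz)) (hasDerivAt_snd (dY (t, z))))
      (fun z hz => comp_snd' (dP _ (inΩ z hz)) (hasDerivAt_snd (dY (t, z))))
      (fun z hz => comp_snd' (dJ _ (inΩ z hz)) (hasDerivAt_snd (dY (t, z))))
      (fun z hz => (V0 _ (inΩ z hz)).ne')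
      (fun z hz => (J0 _ (inΩ z hz)).ne')
      hom hop
      (F := Fc (P t)) (G := Gc (S t)) (E := Ec (P t) (S t) (D t))
      (fun z _ => hF t ht z) (fun z _ => hG t ht z) (fun z hz => hE t ht z hz)
    have F0 := hF t ht x
    have G0 := hG t ht x
    have E0 := hE t ht x hx
    have hVx := V0 _ (inΩ x hx)
    have hJx := J0 _ (inΩ x hx)
    have hmx : 0 < μ (t, x) := by simp only [hμ]; rw [hM t ht x]; positivity
    have hYx := Ylt' t x hx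
    have ev : ∀ᶠ z in 𝓝 (Y (t, x)), ((t, z) : ℝ × ℝ) ∈ Ω := by
      have : Continuous fun z : ℝ => ((t, z) : ℝ × ℝ) := by fun_prop
      exact this.continuousAt.eventually (oΩ.mem_nhds (inΩ x hx))
    have pv : deriv (m t) (Y (t, x)) = P' (t, Y (t, x)) :=
      (hasDerivAt_snd (dV _ (inΩ x hx))).deriv
    have pv' : deriv (m t) =ᶠ[𝓝 (Y (t, x))] fun z => P' (t, z) := by
      filter_upwards [ev] with z hz
      exact (hasDerivAt_snd (dV _ hz)).deriv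
    have wv : deriv (deriv (m t)) (Y (t, x)) = fderiv ℝ P' (t, Y (t, x)) (0, 1) := by
      rw [((hasDerivAt_snd (dP _ (inΩ x hx))).congr_of_eventuallyEq pv').deriv]
    have jv : deriv (fun z => 1 + (1 - z ^ 2) * κ t z) (Y (t, x)) = J1 (t, Y (t, x)) :=
      (hasDerivAt_snd (dJ _ (inΩ x hx))).deriv
    have jv' : deriv (fun z => 1 + (1 - z ^ 2) * κ t z) =ᶠ[𝓝 (Y (t, x))] fun z => J1 (t, z) := by
      filter_upwards [ev] with z hz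
      exact (hasDerivAt_snd (dJ _ hz)).deriv
    have jw : deriv (deriv (fun z => 1 + (1 - z ^ 2) * κ t z)) (Y (t, x)) =
        fderiv ℝ J1 (t, Y (t, x)) (0, 1) := by
      rw [((hasDerivAt_snd (dJ1 _ (inΩ x hx))).congr_of_eventuallyEq jv').deriv]
    -- Z
    have eZ : Z =ᶠ[𝓝 (t, Y (t, x))] ζ := hZ _ ⟨⟨ht.1.le, ht.2.le⟩, ⟨hYx.1.le, hYx.2.le⟩⟩
    have vZ : Z (t, Y (t, x)) = 2 * V (t, Y (t, x)) ^ 2 * J1 (t, Y (t, x)) -
        4 * V (t, Y (t, x)) * J (t, Y (t, x)) * P' (t, Y (t, x)) := eZ.self_of_nhds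
    have vZ' : fderiv ℝ Z (t, Y (t, x)) (0, 1) =
        2 * V (t, Y (t, x)) ^ 2 * fderiv ℝ J1 (t, Y (t, x)) (0, 1) - 4 * P' (t, Y (t, x)) ^ 2 * J (t, Y (t, x))
          - 4 * V (t, Y (t, x)) * J (t, Y (t, x)) * fderiv ℝ P' (t, Y (t, x)) (0, 1) := by
      rw [eZ.fderiv_eq]
      have e1 := ((((hasDerivAt_snd (dV _ (inΩ x hx))).pow 2).const_mul 2).mul
        (hasDerivAt_snd (dJ1 _ (inΩ x hx)))).sub ((((hasDerivAt_snd (dV _ (inΩ x hx))).const_mul 4).mul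
        (hasDerivAt_snd (dJ _ (inΩ x hx)))).mul (hasDerivAt_snd (dP _ (inΩ x hx))))
      have e2 := hasDerivAt_snd (Y := ζ) (((sζ.contDiffAt (oΩ.mem_nhds (inΩ x hx)))).differentiableAt
        (by simp))
      have e3 := e2.unique e1
      rw [e3]
      simp only [hP'def, hJ1def, Pi.pow_apply, Pi.mul_apply]
      ring
    -- time derivatives
    have tY := F.dY t x
    rw [vZ] at tY
    have tV := pairs (f := V) (dV _ (inΩ x hx)) tY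
    have tJ := pairs (f := J) (dJ _ (inΩ x hx)) tY
    have pdeV : fderiv ℝ V (t, Y (t, x)) (1, 0) =
        4 * (J (t, Y (t, x)) * (V (t, Y (t, x)) ^ 2 * ((1 - Y (t, x) ^ 2) *
          fderiv ℝ P' (t, Y (t, x)) (0, 1) - 2 * Y (t, x) * P' (t, Y (t, x))) - V (t, Y (t, x)) *
          ((1 - Y (t, x) ^ 2) * P' (t, Y (t, x)) ^ 2) + 1 / 2 * V (t, Y (t, x)) ^ 3)) := by
      have e1 := hm t ht0 (Y (t, x)) hYx
      rw [wv, pv] at e1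
      exact (hasDerivAt_fst (dV _ (inΩ x hx))).unique e1
    have pdeJ : fderiv ℝ J (t, Y (t, x)) (1, 0) = (1 - Y (t, x) ^ 2) * (4 * (V (t, Y (t, x)) ^ 2 *
        J (t, Y (t, x)) * fderiv ℝ J1 (t, Y (t, x)) (0, 1) - 1 / 2 * (V (t, Y (t, x)) ^ 2 *
        J1 (t, Y (t, x)) ^ 2) - 2 * (J (t, Y (t, x)) ^ 2 * P' (t, Y (t, x)) ^ 2)
        + 2 * (V (t, Y (t, x)) * J (t, Y (t, x)) * (P' (t, Y (t, x)) * J1 (t, Y (t, x)))))) := by
      have e1 := hk t ht0 (Y (t, x)) hYx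
      rw [jw, jv, pv] at e1
      have e2 := (e1.const_mul (1 - Y (t, x) ^ 2)).const_add 1
      exact (hasDerivAt_fst (dJ _ (inΩ x hx))).unique e2
    have tM := F.toFl.dYx t x
    rw [vZ, vZ'] at tM
    have g1 := hVx.ne'
    have g2 := hom x hx
    have g2' := hop x hx
    have g5 := hJx.ne'
    have g3 : P' (t, Y (t, x)) = fderiv ℝ V (t, Y (t, x)) (0, 1) := rfl
    have g4 : μ (t, x) = fderiv ℝ Y (t, x) (0, 1) := rfl
    have g6 : J1 (t, Y (t, x)) = fderiv ℝ J (t, Y (t, x)) (0, 1) := rfl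
    have hI1 := idF (Y (t, x)) (V (t, Y (t, x))) (P' (t, Y (t, x))) (fderiv ℝ P' (t, Y (t, x)) (0, 1))
      (J (t, Y (t, x))) (J1 (t, Y (t, x))) (fderiv ℝ J1 (t, Y (t, x)) (0, 1))
      (μ (t, x)) (fderiv ℝ μ (t, x) (0, 1)) g1 g2 g2' g5 hmx.ne'
      _ _ _ _ _ _ _ _ _ (Krf (Ec (P t) (S t) (D t)) (Fc (P t)) x)
      (W.K12 (Ec (P t) (S t) (D t)) (Fc (P t)) (Gc (S t)) x)
      pdeV rfl F0 F1 F2 G0 G1 E0 E1 rfl rfl
    have hI2 := idG (Y (t, x)) (V (t, Y (t, x))) (P' (t, Y (t, x))) (fderiv ℝ P' (t, Y (t, x)) (0, 1))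
      (J (t, Y (t, x))) (J1 (t, Y (t, x))) (fderiv ℝ J1 (t, Y (t, x)) (0, 1))
      (μ (t, x)) (fderiv ℝ μ (t, x) (0, 1)) g1 g2 g2' g5 hmx.ne'
      _ _ _ _ _ _ _ _ _ (Krf (Ec (P t) (S t) (D t)) (Gc (S t)) x)
      (W.K12 (Ec (P t) (S t) (D t)) (Fc (P t)) (Gc (S t)) x)
      pdeV rfl F0 F1 G0 G1 G2 E0 E1 rfl rfl
    have hI3 := idE (Y (t, x)) (V (t, Y (t, x))) (P' (t, Y (t, x))) (fderiv ℝ P' (t, Y (t, x)) (0, 1))
      (J (t, Y (t, x))) (J1 (t, Y (t, x))) (fderiv ℝ J1 (t, Y (t, x)) (0, 1))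
      (μ (t, x)) (fderiv ℝ μ (t, x) (0, 1)) g1 g2 g2' g5 hmx.ne'
      _ _ _ _ _ _ _ _ _ _ _ _ (Krf (Ec (P t) (S t) (D t)) (Fc (P t)) x)
      (Krf (Ec (P t) (S t) (D t)) (Gc (S t)) x)
      pdeV pdeJ rfl rfl F0 F1 F2 G0 G1 G2 E0 E1 rfl rfl
    have nbd : ∀ᶠ s in 𝓝 t, s ∈ Ioo t₁ t₂ := isOpen_Ioo.mem_nhds ht
    refine ⟨?_, ?_, ?_⟩
    · have e1 : (fun s => Ec (P s) (S s) (D s) x) =ᶠ[𝓝 t] fun s =>
          μ (s, x) ^ 2 / (4 * V (s, Y (s, x)) ^ 2 * J (s, Y (s, x)) * ((1 - Y (s, x)) * (1 + Y (s, x)))) := by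
        filter_upwards [nbd] with s hs using hE s hs x hx
      have e2 : HasDerivAt (fun s => μ (s, x) ^ 2 / (4 * V (s, Y (s, x)) ^ 2 * J (s, Y (s, x)) *
          ((1 - Y (s, x)) * (1 + Y (s, x))))) _ t :=
        (tM.pow 2).div ((((tV.pow 2).const_mul 4).mul tJ).mul ((tY.const_sub 1).mul (tY.const_add 1)))
          (mul_ne_zero (mul_ne_zero (mul_ne_zero (by norm_num) (pow_ne_zero 2 g1)) g5) (mul_ne_zero g2 g2'))
      refine (e2.congr_of_eventuallyEq e1).congr_deriv ?_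
      refine Eq.trans ?_ hI3
      simp only [Pi.pow_apply, Pi.mul_apply, Pi.sub_apply, Pi.add_apply]
      rw [← g3, ← g4, ← g6]
      generalize fderiv ℝ V (t, Y (t, x)) (1, 0) = Vt
      generalize fderiv ℝ J (t, Y (t, x)) (1, 0) = Jt
      generalize V (t, Y (t, x)) = V' at g1 ⊢
      generalize J (t, Y (t, x)) = J' at g5 ⊢
      generalize P' (t, Y (t, x)) = p
      generalize J1 (t, Y (t, x)) = j
      generalize fderiv ℝ P' (t, Y (t, x)) (0, 1) = w'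
      generalize fderiv ℝ J1 (t, Y (t, x)) (0, 1) = j'
      generalize Y (t, x) = z at g2 g2' ⊢
      generalize μ (t, x) = m'
      field_simp
      ring
    · have e1 : (fun s => Fc (P s) x) =ᶠ[𝓝 t] fun s => (1 - Y (s, x)) / (2 * V (s, Y (s, x)) ^ 2) := by
        filter_upwards [nbd] with s hs using hF s hs x
      have e2 : HasDerivAt (fun s => (1 - Y (s, x)) / (2 * V (s, Y (s, x)) ^ 2)) _ t :=
        (tY.const_sub 1).div ((tV.pow 2).const_mul 2) (mul_ne_zero two_ne_zero (pow_ne_zero 2 g1))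
      refine (e2.congr_of_eventuallyEq e1).congr_deriv ?_
      refine Eq.trans ?_ hI1
      rw [← g3]
      field_simp
      ring
    · have e1 : (fun s => Gc (S s) x) =ᶠ[𝓝 t] fun s => (1 + Y (s, x)) / (2 * V (s, Y (s, x)) ^ 2) := by
        filter_upwards [nbd] with s hs using hG s hs x
      have e2 : HasDerivAt (fun s => (1 + Y (s, x)) / (2 * V (s, Y (s, x)) ^ 2)) _ t :=
        (tY.const_add 1).div ((tV.pow 2).const_mul 2) (mul_ne_zero two_ne_zero (pow_ne_zero 2 g1))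
      refine (e2.congr_of_eventuallyEq e1).congr_deriv ?_
      refine Eq.trans ?_ hI2
      rw [← g3]
      field_simp
      ring
  refine ⟨P, S, D, O, oO, subO, sP, sS, sD, hpos, fun t ht x hx => (main t ht x hx).1,
    fun t ht x hx => (main t ht x hx).2.1, fun t ht x hx => (main t ht x hx).2.2, ?_⟩
  intro x
  simp only [hP, hS, hD, hu, hv, F.L0, F.Y0, F.N0, mul_zero, sub_zero, add_zero, one_mul, zero_mul, zero_sub]
  refine ⟨rfl, rfl, ?_⟩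
  simp only [hJdef, hKdef, hVdef]
  rw [show (0:ℝ) ^ 2 = 0 by norm_num, sub_zero, div_div]
  congr 1
  ring

end Pool.Agent.H786
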