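import Mathlib
import Pool.Agent.H786.Ivm
import Pool.Agent.H786.Gid
import Pool.Agent.H786.GFlow

set_option autoImplicit false
set_option linter.all false
open Set Filter Topology
open scoped ContDiff

namespace Pool.Agent.H786

open Pool.Agent.N535 (Krf)

noncomputable section

theorem scal_id (z V p w J J1 : ℝ) (hV : V ≠ 0) (hz1 : 1 - z ≠ 0) (hz2 : 1 + z ≠ 0) (hJ : J ≠ 0)
    (F0 F1 F2 G0 G1 G2 E0 E1 KF KG KK : ℝ)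
    (hF0 : F0 = (1 - z) / (2 * V ^ 2))
    (hF1 : F1 = (-1 / (2 * V ^ 2) - (1 - z) * p / V ^ 3) * 1)
    (hF2 : F2 = (2 * p / V ^ 3 - (1 - z) * w / V ^ 3 + 3 * (1 - z) * p ^ 2 / V ^ 4) * 1 ^ 2
      + (-1 / (2 * V ^ 2) - (1 - z) * p / V ^ 3) * 0)
    (hG0 : G0 = (1 + z) / (2 * V ^ 2))
    (hG1 : G1 = (1 / (2 * V ^ 2) - (1 + z) * p / V ^ 3) * 1)
    (hG2 : G2 = (-2 * p / V ^ 3 - (1 + z) * w / V ^ 3 + 3 * (1 + z) * p ^ 2 / V ^ 4) * 1 ^ 2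
      + (1 / (2 * V ^ 2) - (1 + z) * p / V ^ 3) * 0)
    (hE0 : E0 = 1 ^ 2 / (4 * V ^ 2 * J * ((1 - z) * (1 + z))))
    (hE1 : E1 = 2 * 1 * 0 / (4 * V ^ 2 * J * ((1 - z) * (1 + z))) - 2 * 1 ^ 3 * p / (4 * V ^ 3 * J * ((1 - z) * (1 + z)))
      - 1 ^ 3 * J1 / (4 * V ^ 2 * J ^ 2 * ((1 - z) * (1 + z)))
      + 2 * z * 1 ^ 3 / (4 * V ^ 2 * J * ((1 - z) * (1 + z)) ^ 2))
    (hKF : KF = -(F2 / (2 * F0) - F1 ^ 2 / (4 * F0 ^ 2) - F1 * E1 / (4 * F0 * E0)) / E0)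
    (hKG : KG = -(G2 / (2 * G0) - G1 ^ 2 / (4 * G0 ^ 2) - G1 * E1 / (4 * G0 * E0)) / E0)
    (hKK : KK = -(F1 * G1) / (4 * F0 * G0 * E0)) :
    KF + KG + KK = 3 * V ^ 2 * J + 8 * V * J * ((1 - z ^ 2) * w - 2 * z * p) - 12 * J * ((1 - z ^ 2) * p ^ 2)
      + 2 * z * V ^ 2 * J1 + 4 * ((1 - z ^ 2) * (V * p * J1)) := by
  subst hKF hKG hKK hF0 hF1 hF2 hG0 hG1 hG2 hE0 hE1
  field_simp
  ring_nf

/-- scalar curvature in the gauge `P = S = m⁻²`, `D = -κ / (4 m² Y)` -/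
theorem scal_gauge {V P w k1 k2 : ℝ → ℝ} {x : ℝ} (hx : x ∈ Ioo (-1:ℝ) 1)
    (hV : ∀ z ∈ Ioo (-1:ℝ) 1, HasDerivAt V (P z) z)
    (hP : ∀ z ∈ Ioo (-1:ℝ) 1, HasDerivAt P (w z) z)
    (hk : ∀ z ∈ Ioo (-1:ℝ) 1, HasDerivAt k1 (k2 z) z)
    (hV0 : ∀ z ∈ Ioo (-1:ℝ) 1, 0 < V z) (hJ0 : ∀ z ∈ Ioo (-1:ℝ) 1, 0 < 1 + (1 - z ^ 2) * k1 z)
    {Pm Sm Dm : ℝ → ℝ} (hPm : ∀ z ∈ Ioo (-1:ℝ) 1, Pm z = 1 / V z ^ 2) (hSm : ∀ z ∈ Ioo (-1:ℝ) 1, Sm z = 1 / V z ^ 2)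
    (hDm : ∀ z ∈ Ioo (-1:ℝ) 1, Dm z = -k1 z / (4 * V z ^ 2 * (1 + (1 - z ^ 2) * k1 z))) :
    Krf (Ec Pm Sm Dm) (Fc Pm) x + Krf (Ec Pm Sm Dm) (Gc Sm) x + W.K12 (Ec Pm Sm Dm) (Fc Pm) (Gc Sm) x =
      RhF x (V x) (P x) (w x) (k1 x) (k2 x) := by
  have hom : ∀ z ∈ Ioo (-1:ℝ) 1, 1 - z ≠ 0 := fun z hz => by
    have := hz.2; intro h; linarith
  have hop : ∀ z ∈ Ioo (-1:ℝ) 1, 1 + z ≠ 0 := fun z hz => by
    have := hz.1; intro h; linarith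
  have hJ : ∀ z ∈ Ioo (-1:ℝ) 1, HasDerivAt (fun z => 1 + (1 - z ^ 2) * k1 z)
      ((-2 * z * k1 z + (1 - z ^ 2) * k2 z) * 1) z := by
    intro z hz
    have e1 := ((((hasDerivAt_id z).pow 2).const_sub 1).mul (hk z hz)).const_add 1
    refine (e1.congr_of_eventuallyEq (Filter.Eventually.of_forall fun x => rfl)).congr_deriv ?_
    simp only [id, Pi.pow_apply, Nat.reduceSub, pow_one, Nat.cast_ofNat]
    ring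
  have hF : ∀ z ∈ Ioo (-1:ℝ) 1, Fc Pm z = (1 - z) / (2 * V z ^ 2) := by
    intro z hz
    unfold Fc; rw [hPm z hz]; ring
  have hG : ∀ z ∈ Ioo (-1:ℝ) 1, Gc Sm z = (1 + z) / (2 * V z ^ 2) := by
    intro z hz
    unfold Gc; rw [hSm z hz]; ring
  have hE : ∀ z ∈ Ioo (-1:ℝ) 1, Ec Pm Sm Dm z = (fun _ => (1:ℝ)) z ^ 2 /
      (4 * V z ^ 2 * (1 + (1 - z ^ 2) * k1 z) * ((1 - z) * (1 + z))) := by
    intro z hz
    unfold Ec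
    rw [hPm z hz, hSm z hz, hDm z hz]
    have a1 := (hV0 z hz).ne'
    have a2 := (hJ0 z hz).ne'
    have a3 := hom z hz
    have a4 := hop z hz
    set J := 1 + (1 - z ^ 2) * k1 z with hJd
    have a5 : (1 - z ^ 2) * k1 z = J - 1 := by rw [hJd]; ring
    have a6 : (1 - z) * (1 + z) * k1 z = J - 1 := by rw [← a5]; ring
    field_simp
    linear_combination (-8) * a6
  obtain ⟨F1, F2, G1, G2, E1⟩ := Gf.xder (y := fun z => z) (V := V) (P := P) (M := fun _ => 1)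
    (J := fun z => 1 + (1 - z ^ 2) * k1 z) (J1 := fun z => -2 * z * k1 z + (1 - z ^ 2) * k2 z)
    (a := -1) (b := 1) (x := x) (m1 := fun _ => 0) (w := w) hx
    (fun z _ => hasDerivAt_id z) (fun z _ => hasDerivAt_const z 1)
    (fun z hz => by rw [mul_one]; exact hV z hz) (fun z hz => by rw [mul_one]; exact hP z hz)
    hJ (fun z hz => (hV0 z hz).ne') (fun z hz => (hJ0 z hz).ne') hom hop
    (F := Fc Pm) (G := Gc Sm) (E := Ec Pm Sm Dm) hF hG hE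
  have key := scal_id x (V x) (P x) (w x) (1 + (1 - x ^ 2) * k1 x) (-2 * x * k1 x + (1 - x ^ 2) * k2 x)
    (hV0 x hx).ne' (hom x hx) (hop x hx) (hJ0 x hx).ne' _ _ _ _ _ _ _ _
    (Krf (Ec Pm Sm Dm) (Fc Pm) x) (Krf (Ec Pm Sm Dm) (Gc Sm) x) (W.K12 (Ec Pm Sm Dm) (Fc Pm) (Gc Sm) x)
    (hF x hx) F1 F2 (hG x hx) G1 G2 (hE x hx) E1 rfl rfl rfl
  rw [key]
  unfold RhF
  ring

theorem RhF_smul (σ x m m1 m2 k1 k2 : ℝ) :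
    RhF x (σ * m) (σ * m1) (σ * m2) k1 k2 = σ ^ 2 * RhF x m m1 m2 k1 k2 := by
  unfold RhF; ring

end

end Pool.Agent.H786
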