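import Mathlib
import Pool.Agent.H786.Cnt
import Pool.Agent.H786.Sc
import Pool.Agent.H786.Gauge

set_option autoImplicit false
set_option linter.all false
open Set Filter Topology
open scoped ENNReal ContDiff Manifold

namespace Pool.Agent.H786

open Pool.Agent.N535 (PK SS bil bb one_lt_bb stt Tf tf Tf_pos tf_pos sub_tf stt_tf sub_pos' stt_mem S3 E4 Met Pinv
  Krf Scal)
open Pool.Agent.H858R2 (CI ev evH En ctarget ctrn IsRicciFlow MaximalRicciFlow exists_maximal)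

noncomputable section

theorem tf_lt_Tf {A Θ s : ℝ} (hA : 0 < A) (hΘ : 0 < Θ) (hs : s < 1) : tf A Θ s < Tf A Θ := by
  unfold tf Tf
  have : Real.exp (-(4 * Θ)) < Real.exp (-(4 * Θ * s)) := Real.exp_lt_exp.2 (by nlinarith)
  have := mul_lt_mul_of_pos_left this hA
  linarith

/-- the Ricci flows of the construction -/
theorem geo : ∃ ε₁ : ℝ, 0 < ε₁ ∧ ε₁ ≤ 1 / 2 ∧ ∀ η : ℝ, 0 < η → η ≤ 1 / 8 →
    ∃ (τ : ℝ) (g : ℝ → Met) (m κ : ℝ → ℝ), 1 / 4 - 3 * η < τ ∧ 0 < τ ∧ IsRicciFlow τ g ∧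
      (∀ e, (g 0).G e = puF (Pinv e) (fun z => 1 / m z ^ 2) (fun z => 1 / m z ^ 2)
        (fun z => -κ z / (4 * m z ^ 2 * (1 + (1 - z ^ 2) * κ z)))) ∧
      (∀ z ∈ Icc (-1:ℝ) 1, 1 - η ≤ m z ∧ 1 - η ≤ 1 + (1 - z ^ 2) * κ z) ∧ 1 + ε₁ / 2 ≤ m 1 ∧
      ∀ e ∈ atlas (En 3) S3, ∀ y, 6 ≤ Scal ((g 0).G e) y := by
  obtain ⟨ε₁, hε, hε2, hana⟩ := ana
  refine ⟨ε₁, hε, hε2, fun η hη hη8 => ?_⟩
  obtain ⟨A, Θ, ρ, q, s₀, a0, b0, a, b, hS, hρ, hρq, hΘ, hs₀, hA0, hA1, hA2, hΘe, htη, hpos, hini, hone⟩ := hana η hη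
  have hΘ4 : 0 < Θ / 4 := by positivity
  set T := Tf A (Θ / 4) with hT
  set t₀ := tf A (Θ / 4) s₀ with ht₀
  have ht0 : 0 < t₀ := tf_pos hA0 hΘ4 hs₀.1
  have htT : t₀ < T := tf_lt_Tf hA0 hΘ4 hs₀.2
  have hTge : 1 / 4 - η / 2 ≤ T := by
    rw [hT]
    unfold Tf
    have e1 : -(4 * (Θ / 4)) = -Θ := by ring
    rw [e1]
    have h1 : (1 - η) * (1 - η) ≤ A * (1 - Real.exp (-Θ)) :=
      mul_le_mul hA1 (by linarith) (by linarith) hA0.le
    nlinarith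
  obtain ⟨t₂, ht2, ht2T⟩ := exists_between (max_lt htT (by linarith : T - η < T))
  have ht02 : t₀ < t₂ := lt_of_le_of_lt (le_max_left _ _) ht2
  have htη2 : T - η < t₂ := lt_of_le_of_lt (le_max_right _ _) ht2
  have hbb := one_lt_bb hρ
  have hd : 0 < bb ρ - 1 := by linarith
  have eI : Ioo (-1 - (bb ρ - 1)) (1 + (bb ρ - 1)) = Ioo (-bb ρ) (bb ρ) := by congr 1 <;> ring
  have hstt : ∀ t ∈ Ioo 0 T, 0 < A - 4 * t := fun t ht => sub_pos' hA0 ht.2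
  obtain ⟨P, S, D, O, hO, hI, sP, sS, sD, hp, hE, hF, hG, h0⟩ := tGauge (T := T) (d := bb ρ - 1)
    (m := fun t x => mm a A Θ t x) (κ := fun t x => kk b A Θ t x) hd
    (by rw [eI]; exact mm_smooth hS hA0 hΘ hρ hρq) (by rw [eI]; exact kk_smooth hS hA0 hΘ hρ hρq)
    (fun t ht x hx => by
      refine ⟨?_, ?_⟩
      · have h1 := (hpos (stt A (Θ / 4) t) x hx).1
        have h2 : 0 < Real.sqrt (A - 4 * t) := Real.sqrt_pos.2 (hstt t ht)
        have h3 : 0 < Mf a (stt A (Θ / 4) t) x := by linarith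
        show 0 < (Real.sqrt (A - 4 * t))⁻¹ * Mf a (stt A (Θ / 4) t) x
        positivity
      · have h1 := (hpos (stt A (Θ / 4) t) x hx).2
        have h2 : Yf b (stt A (Θ / 4) t) x = 1 + (1 - x ^ 2) * kk b A Θ t x := rfl
        rw [h2] at h1
        show 0 < 1 + (1 - x ^ 2) * kk b A Θ t x
        linarith)
    (fun t ht x hx => mm_dt hS hA0 hΘ hρ hρq ht (bbI hρ ⟨hx.1.le, hx.2.le⟩))
    (fun t ht x hx => kk_dt hS hA0 hΘ hρ hρq ht (bbI hρ ⟨hx.1.le, hx.2.le⟩))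
    (t₁ := t₀ / 2) (t₀ := t₀) (t₂ := t₂) (by linarith) (by linarith) ht02 ht2T
  have h10 : t₀ / 2 < t₀ := by linarith
  have hmem : t₀ ∈ Ioo (t₀ / 2) t₂ := ⟨h10, ht02⟩
  obtain ⟨g, hg, hg0⟩ := tflow_of h10 ht02 hO hI sP sS sD hp hE hF hG
  have hPf : P t₀ = fun z => 1 / mm a A Θ t₀ z ^ 2 := funext fun z => (h0 z).1
  have hSf : S t₀ = fun z => 1 / mm a A Θ t₀ z ^ 2 := funext fun z => (h0 z).2.1
  have hDf : D t₀ = fun z => -kk b A Θ t₀ z / (4 * mm a A Θ t₀ z ^ 2 * (1 + (1 - z ^ 2) * kk b A Θ t₀ z)) :=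
    funext fun z => (h0 z).2.2
  have hst : stt A (Θ / 4) t₀ = s₀ := stt_tf hA0 hΘ4 s₀
  have hAt : 0 < A - 4 * t₀ := hstt t₀ ⟨ht0, htT⟩
  set σ := (Real.sqrt (A - 4 * t₀))⁻¹ with hσ
  have hsq : Real.sqrt (A - 4 * t₀) ^ 2 = A - 4 * t₀ := Real.sq_sqrt hAt.le
  have hsqp : 0 < Real.sqrt (A - 4 * t₀) := Real.sqrt_pos.2 hAt
  have hσ0 : 0 < σ := by positivity
  have hσ2 : σ ^ 2 * (A - 4 * t₀) = 1 := by
    rw [hσ, inv_pow, hsq]; exact inv_mul_cancel₀ hAt.ne'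
  have hσ1 : 1 ≤ σ := by
    rw [hσ]
    refine (one_le_inv₀ hsqp).2 ?_
    rw [Real.sqrt_le_one]
    linarith
  have emm : ∀ z, mm a A Θ t₀ z = σ * Mf a s₀ z := by
    intro z
    unfold mm
    rw [hst]
  have ekk : ∀ z, kk b A Θ t₀ z = Kf b s₀ z := by
    intro z
    unfold kk
    rw [hst]
  refine ⟨t₂ - t₀, g, fun z => mm a A Θ t₀ z, fun z => kk b A Θ t₀ z, by linarith, by linarith, hg, ?_, ?_, ?_, ?_⟩
  · intro e
    rw [hg0 e, hPf, hSf, hDf]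
  · intro z hz
    have h1 := (hini z hz).1
    have h2 := (hini z hz).2.1
    simp only
    rw [emm, ekk]
    refine ⟨?_, h2⟩
    have : Mf a s₀ z ≤ σ * Mf a s₀ z := le_mul_of_one_le_left (by linarith) hσ1
    linarith
  · simp only
    rw [emm]
    have : Mf a s₀ 1 ≤ σ * Mf a s₀ 1 := le_mul_of_one_le_left (by linarith) hσ1
    linarith
  · intro e he y
    rw [hg0 e]
    set Ot : Set ℝ := {s | (t₀, s) ∈ O} with hOt
    have hOto : IsOpen Ot := hO.preimage (by fun_prop)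
    have hOtI : Icc (-1 : ℝ) 1 ⊆ Ot := fun s hs => hI ⟨hmem, hs⟩
    have hslice : ∀ {X : ℝ → ℝ → ℝ}, ContDiffOn ℝ ∞ (fun p : ℝ × ℝ => X p.1 p.2) O →
        ContDiffOn ℝ ∞ (X t₀) Ot := by
      intro X hX
      have : ContDiffOn ℝ ∞ (fun s : ℝ => (t₀, s)) Ot := (contDiff_const.prodMk contDiff_id).contDiffOn
      exact hX.comp this (fun s hs => hs)
    refine tScal hOto hOtI (hslice sP) (hslice sS) (hslice sD) (hp t₀ hmem) ?_ e he y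
    intro x hx
    have hx' : x ∈ Icc (-1:ℝ) 1 := ⟨hx.1.le, hx.2.le⟩
    have hI' : ∀ z ∈ Ioo (-1:ℝ) 1, |z| < bb ρ := fun z hz => bbI hρ ⟨hz.1.le, hz.2.le⟩
    have key := scal_gauge (V := fun z => σ * Mf a s₀ z) (P := fun z => σ * evk 1 (cf a s₀) z)
      (w := fun z => σ * evk 2 (cf a s₀) z) (k1 := fun z => Kf b s₀ z) (k2 := fun z => evk 2 (cf b s₀) z) hx
      (fun z hz => (Mf_dx hρ hρq hS.ssa s₀ (hI' z hz)).const_mul σ)
      (fun z hz => (evk_deriv hρ hρq (SS_cf hS.ssa s₀) 1 (hI' z hz)).const_mul σ)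
      (fun z hz => evk_deriv hρ hρq (SS_cf hS.ssb s₀) 1 (hI' z hz))
      (fun z hz => by
        have := (hpos s₀ z ⟨hz.1.le, hz.2.le⟩).1
        have h3 : 0 < Mf a s₀ z := by linarith
        positivity)
      (fun z hz => by
        have h1 := (hpos s₀ z ⟨hz.1.le, hz.2.le⟩).2
        have h2 : Yf b s₀ z = 1 + (1 - z ^ 2) * Kf b s₀ z := rfl
        rw [h2] at h1
        linarith)
      (Pm := P t₀) (Sm := S t₀) (Dm := D t₀)
      (fun z _ => by rw [hPf]; simp only [emm]) (fun z _ => by rw [hSf]; simp only [emm])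
      (fun z _ => by rw [hDf]; simp only [emm, ekk])
    rw [key]
    have h3 := (hini x hx').2.2
    rw [RhF_smul]
    have h4 : σ ^ 2 * (3 * A) ≤ σ ^ 2 * RhF x (Mf a s₀ x) (evk 1 (cf a s₀) x) (evk 2 (cf a s₀) x) (Kf b s₀ x)
      (evk 2 (cf b s₀) x) := mul_le_mul_of_nonneg_left h3 (by positivity)
    have h5 : 1 ≤ σ ^ 2 * A := by
      have : 0 ≤ σ ^ 2 * (4 * t₀) := by positivity
      linarith
    linarith

end

end Pool.Agent.H786
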