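import Mathlib
import Pool.Agent.H786.Dst

set_option autoImplicit false
set_option linter.all false
open scoped ENNReal
open Set

namespace Pool.Agent.H786

open Pool.Agent.N535 (S3 Met rsq sq)

noncomputable section

/-- the Riemannian distance of the metric `g` on `S³` -/
def gdist (g : Met) : S3 → S3 → ℝ≥0∞ := dQ fun p u => sq g p u

/-- the Riemannian distance of the round metric -/
def rdist : S3 → S3 → ℝ≥0∞ := dQ fun p u => rsq p u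

/-- The Gromov-Hausdorff distance of `(X, dX)` and `(Y, dY)`: half the infimum, over all
correspondences `R ⊆ X × Y`, of the distortion `sup |dX x x' - dY y y'|`, `(x, y), (x', y') ∈ R`. -/
def ghD {X Y : Type} (dX : X → X → ℝ≥0∞) (dY : Y → Y → ℝ≥0∞) : ℝ≥0∞ :=
  ⨅ (R : Set (X × Y)) (_ : (∀ x, ∃ y, (x, y) ∈ R) ∧ ∀ y, ∃ x, (x, y) ∈ R),
    2⁻¹ * ⨆ (p ∈ R) (q ∈ R), max (dX p.1 q.1 - dY p.2 q.2) (dY p.2 q.2 - dX p.1 q.1)

theorem ghD_lower {X Y : Type} {dX : X → X → ℝ≥0∞} {dY : Y → Y → ℝ≥0∞} {D₁ D₂ : ℝ} (h0 : 0 ≤ D₁) (x₀ : X)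
    (h1 : ∀ x, dX x₀ x ≤ ENNReal.ofReal D₁) (h2 : ∀ y, ∃ y', ENNReal.ofReal D₂ ≤ dY y y') :
    ENNReal.ofReal ((D₂ - D₁) / 2) ≤ ghD dX dY := by
  unfold ghD
  refine le_iInf fun R => le_iInf fun hR => ?_
  obtain ⟨y₀, hy₀⟩ := hR.1 x₀
  obtain ⟨y', hy'⟩ := h2 y₀
  obtain ⟨x', hx'⟩ := hR.2 y'
  have e1 : ENNReal.ofReal ((D₂ - D₁) / 2) = 2⁻¹ * ENNReal.ofReal (D₂ - D₁) := by
    have : (2⁻¹ : ℝ≥0∞) = ENNReal.ofReal (2⁻¹) := by
      rw [ENNReal.ofReal_inv_of_pos (by norm_num)]; norm_num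
    rw [this, ← ENNReal.ofReal_mul (by norm_num)]
    congr 1; ring
  rw [e1]
  refine mul_le_mul_right ?_ _
  refine le_trans ?_ (le_iSup₂ (f := fun (p : X × Y) (_ : p ∈ R) => ⨆ (q ∈ R),
    max (dX p.1 q.1 - dY p.2 q.2) (dY p.2 q.2 - dX p.1 q.1)) (x₀, y₀) hy₀)
  refine le_trans ?_ (le_iSup₂ (f := fun (q : X × Y) (_ : q ∈ R) =>
    max (dX (x₀, y₀).1 q.1 - dY (x₀, y₀).2 q.2) (dY (x₀, y₀).2 q.2 - dX (x₀, y₀).1 q.1)) (x', y') hx')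
  refine le_trans ?_ (le_max_right _ _)
  rw [ENNReal.ofReal_sub _ h0]
  exact tsub_le_tsub hy' (h1 x')

/-- the same bound for Mathlib's Gromov-Hausdorff distance of compact metric spaces -/
theorem ghDist_lower {X Y : Type} [MetricSpace X] [CompactSpace X] [Nonempty X] [MetricSpace Y] [CompactSpace Y]
    [Nonempty Y] {D₁ D₂ : ℝ} (x₀ : X) (h1 : ∀ x, dist x₀ x ≤ D₁) (h2 : ∀ y : Y, ∃ y', D₂ ≤ dist y y') :
    (D₂ - D₁) / 2 ≤ GromovHausdorff.ghDist X Y := by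
  obtain ⟨Φ, Ψ, hΦ, hΨ, h⟩ := GromovHausdorff.ghDist_eq_hausdorffDist X Y
  rw [h]
  by_contra hc
  push Not at hc
  have hfin : Metric.hausdorffEDist (range Φ) (range Ψ) ≠ ⊤ :=
    Metric.hausdorffEDist_ne_top_of_nonempty_of_bounded (range_nonempty _) (range_nonempty _)
      (isCompact_range hΦ.continuous).isBounded (isCompact_range hΨ.continuous).isBounded
  obtain ⟨_, ⟨y₀, rfl⟩, hy0⟩ := Metric.exists_dist_lt_of_hausdorffDist_lt (mem_range_self x₀) hc hfin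
  obtain ⟨y', hy'⟩ := h2 y₀
  obtain ⟨_, ⟨x', rfl⟩, hx'⟩ := Metric.exists_dist_lt_of_hausdorffDist_lt' (mem_range_self y') hc hfin
  have e1 := hΨ.dist_eq y₀ y'
  have e2 := hΦ.dist_eq x₀ x'
  have e3 := h1 x'
  have t1 := dist_triangle4 (Ψ y₀) (Φ x₀) (Φ x') (Ψ y')
  rw [dist_comm (Ψ y₀) (Φ x₀)] at t1
  linarith

end

end Pool.Agent.H786
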