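import Mathlib
import Pool.Agent.H786.Far

set_option autoImplicit false
set_option linter.all false
open scoped ContDiff Manifold Topology Matrix InnerProductSpace ENNReal
open Set

namespace Pool.Agent.H786

open Pool.Agent.QTot (Eu Mt pd Jac Gam Ric)
open Pool.Agent.QTot.N2
open Pool.Agent.H858R2 (En ctarget ctrn)
open Pool.Agent.N535 (S3 E4 Met JP Pinv amb rsq sq)
open Pool.Agent.N564.RF3 (chart_pkg JP_mulVec JP_inj JP_comp JP_congr contDiff_JP d4 d4_comm tangent d4_smooth)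

noncomputable section

theorem norm_sq_d4 (w : E4) : ‖w‖ ^ 2 = d4 (WithLp.ofLp w) (WithLp.ofLp w) := by
  rw [EuclideanSpace.norm_sq_eq, Fin.sum_univ_four]
  simp only [Real.norm_eq_abs, sq_abs, d4]
  ring

theorem quad_expand (A : Mt 3) (ξ : Eu 3) :
    ∑ i, ∑ j, A i j * ξ i * ξ j = ξ ⬝ᵥ A.mulVec ξ := by
  simp only [dotProduct, Matrix.mulVec, Finset.mul_sum]
  refine Finset.sum_congr rfl fun i _ => Finset.sum_congr rfl fun j _ => by ring

theorem mfderiv_incl (p : S3) (u : TangentSpace (𝓡 3) p) :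
    (tv p u : E4) =
      fderiv ℝ (fun z : En 3 => (((chartAt (En 3) p).symm z : S3) : E4)) (chartAt (En 3) p p)
        (u : En 3) := by
  have hm : MDifferentiableAt (𝓡 3) 𝓘(ℝ, E4) inc p := inc_smooth.mdifferentiableAt (by simp)
  have h1 := hm.mfderiv
  have h2 : fderivWithin ℝ (writtenInExtChartAt (𝓡 3) 𝓘(ℝ, E4) p inc)
      (range (𝓡 3)) (extChartAt (𝓡 3) p p) =
      fderiv ℝ (fun z : En 3 => (((chartAt (En 3) p).symm z : S3) : E4)) (chartAt (En 3) p p) := by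
    have e1 : range (𝓡 3) = univ := ModelWithCorners.range_eq_univ _
    rw [e1, fderivWithin_univ]
    rfl
  unfold tv
  rw [h1]
  exact congrArg (fun L : En 3 →L[ℝ] E4 => L u) h2

/-- value of the metric on a tangent vector -/
theorem tVal {P S D : ℝ → ℝ} {g : Met} (hg : ∀ e ∈ atlas (En 3) S3, g.G e = puF (Pinv e) P S D) (p : S3)
    (u : TangentSpace (𝓡 3) p) :
    sq g p u = P (zq (amb p)) * dA (WithLp.ofLp (tv p u)) (WithLp.ofLp (tv p u)) +
      S (zq (amb p)) * dB (WithLp.ofLp (tv p u)) (WithLp.ofLp (tv p u)) +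
      D (zq (amb p)) * (dz (amb p) (WithLp.ofLp (tv p u))) ^ 2 ∧ d4 (amb p) (WithLp.ofLp (tv p u)) = 0 := by
  have he : chartAt (En 3) p ∈ atlas (En 3) S3 := chart_mem_atlas _ p
  have hsrc : p ∈ (chartAt (En 3) p).source := mem_chart_source _ p
  obtain ⟨htar, Q, R, O', hQ, hO', hR, hPO, hRP, hPe, hsrc', hRe, hPR, hsum⟩ :=
    chart_pkg (chartAt (En 3) p) he
  have hPinv : Pinv (chartAt (En 3) p) = Q := by
    funext y; exact hPe y
  set y : Eu 3 := WithLp.ofLp (chartAt (En 3) p p) with hy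
  have hyp : Q y = amb p := by
    rw [← hPe y, hy]
    show amb ((chartAt (En 3) p).symm (chartAt (En 3) p p)) = amb p
    rw [(chartAt (En 3) p).left_inv hsrc]
  have h1 : sq g p u = WithLp.ofLp (u : En 3) ⬝ᵥ
      (puF Q P S D y).mulVec (WithLp.ofLp (u : En 3)) := by
    have e1 := quad_expand (g.G (chartAt (En 3) p) (WithLp.ofLp (chartAt (En 3) p p)))
      (WithLp.ofLp (u : En 3))
    rw [hg _ he, hPinv] at e1
    unfold N535.sq
    rw [hg _ he, hPinv]
    exact e1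
  have hPd : DifferentiableAt ℝ Q y := hQ.differentiable (by simp) y
  have h2 : (tv p u : E4) = WithLp.toLp 2 (fderiv ℝ Q y (WithLp.ofLp (u : En 3))) := by
    rw [mfderiv_incl]
    have hf : (fun z : En 3 => (((chartAt (En 3) p).symm z : S3) : E4)) =
        fun z : En 3 => (PiLp.continuousLinearEquiv 2 ℝ (fun _ : Fin 4 => ℝ)).symm
          (Q ((PiLp.continuousLinearEquiv 2 ℝ (fun _ : Fin 3 => ℝ)) z)) := by
      funext z
      have := hPe (WithLp.ofLp z)
      apply (PiLp.continuousLinearEquiv 2 ℝ (fun _ : Fin 4 => ℝ)).injective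
      rw [ContinuousLinearEquiv.apply_symm_apply]
      exact this
    rw [hf]
    have hd : HasFDerivAt (fun z : En 3 => (PiLp.continuousLinearEquiv 2 ℝ (fun _ : Fin 4 => ℝ)).symm
          (Q ((PiLp.continuousLinearEquiv 2 ℝ (fun _ : Fin 3 => ℝ)) z)))
        (((PiLp.continuousLinearEquiv 2 ℝ (fun _ : Fin 4 => ℝ)).symm :
            (Fin 4 → ℝ) →L[ℝ] PiLp 2 (fun _ : Fin 4 => ℝ)).comp
          ((fderiv ℝ Q y).comp
            ((PiLp.continuousLinearEquiv 2 ℝ (fun _ : Fin 3 => ℝ)) :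
              PiLp 2 (fun _ : Fin 3 => ℝ) →L[ℝ] (Fin 3 → ℝ)))) (chartAt (En 3) p p) := by
      refine HasFDerivAt.comp (chartAt (En 3) p p)
        (PiLp.continuousLinearEquiv 2 ℝ (fun _ : Fin 4 => ℝ)).symm.hasFDerivAt ?_
      refine HasFDerivAt.comp (chartAt (En 3) p p) (g := Q) ?_
        (PiLp.continuousLinearEquiv 2 ℝ (fun _ : Fin 3 => ℝ)).hasFDerivAt
      exact hPd.hasFDerivAt
    rw [hd.fderiv]
    rfl
  have h3 : WithLp.ofLp (tv p u) = (JP Q y).mulVec (WithLp.ofLp (u : En 3)) := by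
    rw [h2, JP_mulVec hPd]
  constructor
  · rw [h1, puF_quad, hyp, h3]
  · rw [h3, ← hyp]
    exact tangent hPd hsum _

theorem sq_smul (g : Met) (p : S3) (c : ℝ) (u : TangentSpace (𝓡 3) p) : sq g p (c • u) = c ^ 2 * sq g p u := by
  unfold N535.sq
  rw [Finset.mul_sum]
  refine Finset.sum_congr rfl fun i _ => ?_
  rw [Finset.mul_sum]
  refine Finset.sum_congr rfl fun j _ => ?_
  have e : ∀ k, WithLp.ofLp ((c • u : TangentSpace (𝓡 3) p) : En 3) k = c * WithLp.ofLp (u : En 3) k := fun k => rfl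
  rw [e, e]
  ring

/-- `dz² ≤ 4 (1-z²) |w|²` -/
theorem dz_bound {x w : Fin 4 → ℝ} (hx : ∑ i, x i ^ 2 = 1) (ht : d4 x w = 0) :
    (dz x w) ^ 2 ≤ 4 * (1 - (zq x) ^ 2) * (dA w w + dB w w) := by
  have hA := sq_A hx
  have hB := sq_B hx
  have hz := zq_mem hx
  set σ := x 2 * w 2 + x 3 * w 3 with hσ
  have hσ2 : x 0 * w 0 + x 1 * w 1 = -σ := by
    simp only [d4] at ht; linarith
  have e1 : dz x w = 4 * σ := by unfold dz; linarith
  have c1 : σ ^ 2 ≤ dA w w * ((1 - zq x) / 2) := by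
    have : σ ^ 2 = (x 0 * w 0 + x 1 * w 1) ^ 2 := by rw [hσ2]; ring
    rw [this, ← hA]
    unfold dA
    nlinarith [sq_nonneg (x 0 * w 1 - x 1 * w 0)]
  have c2 : σ ^ 2 ≤ dB w w * ((1 + zq x) / 2) := by
    rw [hσ, ← hB]
    unfold dB
    nlinarith [sq_nonneg (x 2 * w 3 - x 3 * w 2)]
  rw [e1]
  have z1 : 0 ≤ 1 - zq x := by linarith [hz.2]
  have z2 : 0 ≤ 1 + zq x := by linarith [hz.1]
  have m1 := mul_le_mul_of_nonneg_right c1 z2
  have m2 := mul_le_mul_of_nonneg_right c2 z1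
  nlinarith

theorem amb_sum (p : S3) : ∑ i, amb p i ^ 2 = 1 := by
  have h1 : ‖(p : E4)‖ = 1 := norm_eq_of_mem_sphere p
  have h2 := EuclideanSpace.norm_sq_eq (p : E4)
  rw [h1] at h2
  simp only [Real.norm_eq_abs, sq_abs, one_pow] at h2
  exact h2.symm

/-- comparison with the round metric -/
theorem cmp_round {m κ : ℝ → ℝ} {g : Met} (hg : ∀ e ∈ atlas (En 3) S3, g.G e = puF (Pinv e) (fun z => 1 / m z ^ 2)
      (fun z => 1 / m z ^ 2) (fun z => -κ z / (4 * m z ^ 2 * (1 + (1 - z ^ 2) * κ z)))) {η ε : ℝ} (hη : 0 < η)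
    (hε : 0 < ε) (hε2 : ε ≤ 1 / 2) (hηε : 96 * η ≤ ε)
    (hb : ∀ z ∈ Icc (-1:ℝ) 1, 1 - η ≤ m z ∧ 1 - η ≤ 1 + (1 - z ^ 2) * κ z) (h1 : 1 + ε / 2 ≤ m 1) :
    (∀ p u, sq g p u ≤ (1 + ε / 32) ^ 2 * rsq p u) ∧
    ∀ p u, OnC p → sq g p u ≤ ((1 + ε / 2)⁻¹) ^ 2 * rsq p u := by
  constructor
  · intro p u
    obtain ⟨e1, e2⟩ := tVal hg p u
    have hd := dz_bound (amb_sum p) e2
    have hz := zq_mem (amb_sum p)
    have hr : rsq p u = dA (WithLp.ofLp (tv p u)) (WithLp.ofLp (tv p u)) +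
        dB (WithLp.ofLp (tv p u)) (WithLp.ofLp (tv p u)) := by
      rw [rsq_eq, norm_sq_d4]; unfold d4 dA dB; ring
    rw [e1, hr]
    obtain ⟨b1, b2⟩ := hb _ hz
    set z := zq (amb p) with hzd
    set A := dA (WithLp.ofLp (tv p u)) (WithLp.ofLp (tv p u))
    set B := dB (WithLp.ofLp (tv p u)) (WithLp.ofLp (tv p u))
    set d := dz (amb p) (WithLp.ofLp (tv p u))
    have hAB : 0 ≤ A + B := by rw [← hr, rsq_eq]; positivity
    have hη2 : η ≤ 1 / 192 := by linarith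
    have hm0 : 0 < m z := by linarith
    set Y := 1 + (1 - z ^ 2) * κ z with hY
    have hY0 : 0 < Y := by linarith
    have hY1 : (1 - z ^ 2) * κ z = Y - 1 := by rw [hY]; ring
    -- the bracket
    have hbr : -κ z * d ^ 2 * (1 - η) ≤ 4 * Y * η * (A + B) := by
      rcases le_or_gt 0 (κ z) with hk | hk
      · have : 0 ≤ κ z * d ^ 2 * (1 - η) := by
          have : 0 ≤ 1 - η := by linarith
          positivity
        have : 0 ≤ 4 * Y * η * (A + B) := by positivity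
        linarith
      · have h2 : -κ z * d ^ 2 ≤ 4 * (1 - Y) * (A + B) := by
          have h3 : -κ z * d ^ 2 ≤ -κ z * (4 * (1 - z ^ 2) * (A + B)) :=
            mul_le_mul_of_nonneg_left hd (by linarith)
          have h4 : -κ z * (4 * (1 - z ^ 2) * (A + B)) = 4 * (1 - Y) * (A + B) := by
            have : -κ z * (4 * (1 - z ^ 2) * (A + B)) = -4 * ((1 - z ^ 2) * κ z) * (A + B) := by ring
            rw [this, hY1]; ring
          linarith
        have h5 : 0 ≤ 1 - η := by linarith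
        have h6 : -κ z * d ^ 2 * (1 - η) ≤ 4 * (1 - Y) * (A + B) * (1 - η) := mul_le_mul_of_nonneg_right h2 h5
        have h7 : (1 - Y) * (1 - η) ≤ Y * η := by nlinarith
        nlinarith
    have e3 : 1 / m z ^ 2 * A + 1 / m z ^ 2 * B + -κ z / (4 * m z ^ 2 * Y) * d ^ 2 =
        (4 * Y * (A + B) + -κ z * d ^ 2) / (4 * m z ^ 2 * Y) := by
      field_simp
    rw [e3, div_le_iff₀ (by positivity)]
    have h8 : (4 * Y * (A + B) + -κ z * d ^ 2) * (1 - η) ≤ 4 * Y * (A + B) := by nlinarith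
    have h9 : (1 - η) ^ 2 ≤ m z ^ 2 := pow_le_pow_left₀ (by linarith) b1 2
    have h10 : 1 ≤ (1 + ε / 32) ^ 2 * (1 - η) ^ 3 := by
      have a1 : 1 + ε / 16 ≤ (1 + ε / 32) ^ 2 := by nlinarith
      have a2 : 1 - 3 * η ≤ (1 - η) ^ 3 := by nlinarith [sq_nonneg η, pow_pos hη 3]
      have a3 : (1 + ε / 16) * (1 - 3 * η) ≤ (1 + ε / 32) ^ 2 * (1 - η) ^ 3 :=
        mul_le_mul a1 a2 (by linarith) (by positivity)
      nlinarith
    have hη1 : 0 < 1 - η := by linarith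
    have hgoal : (4 * Y * (A + B) + -κ z * d ^ 2) * (1 - η) ≤ ((1 + ε / 32) ^ 2 * (A + B) * (4 * m z ^ 2 * Y)) * (1 - η) := by
      refine h8.trans ?_
      have a4 : 4 * Y * (A + B) * 1 ≤ 4 * Y * (A + B) * ((1 + ε / 32) ^ 2 * (1 - η) ^ 3) :=
        mul_le_mul_of_nonneg_left h10 (by positivity)
      have a5 : 4 * Y * (A + B) * ((1 + ε / 32) ^ 2 * (1 - η) ^ 3) ≤
          4 * Y * (A + B) * ((1 + ε / 32) ^ 2 * (m z ^ 2 * (1 - η))) := by
        refine mul_le_mul_of_nonneg_left (mul_le_mul_of_nonneg_left ?_ (by positivity)) (by positivity)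
        have : (1 - η) ^ 3 = (1 - η) ^ 2 * (1 - η) := by ring
        rw [this]
        exact mul_le_mul_of_nonneg_right h9 hη1.le
      linarith
    exact le_of_mul_le_mul_right hgoal hη1
  · intro p u hp
    obtain ⟨e1, e2⟩ := tVal hg p u
    have hr : rsq p u = dA (WithLp.ofLp (tv p u)) (WithLp.ofLp (tv p u)) +
        dB (WithLp.ofLp (tv p u)) (WithLp.ofLp (tv p u)) := by
      rw [rsq_eq, norm_sq_d4]; unfold d4 dA dB; ring
    have p0 : amb p 0 = 0 := hp.1
    have p1 : amb p 1 = 0 := hp.2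
    have hs := amb_sum p
    rw [Fin.sum_univ_four, p0, p1] at hs
    have hz : zq (amb p) = 1 := by unfold zq; rw [p0, p1]; linarith
    have hdz : dz (amb p) (WithLp.ofLp (tv p u)) = 0 := by
      unfold d4 at e2
      unfold dz
      rw [p0, p1] at e2 ⊢
      linarith
    rw [e1, hr, hz, hdz]
    have hm : 0 < m 1 := by linarith
    have h3 : 1 / m 1 ^ 2 ≤ ((1 + ε / 2)⁻¹) ^ 2 := by
      rw [one_div, ← inv_pow]
      refine pow_le_pow_left₀ (by positivity) ?_ 2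
      exact inv_anti₀ (by positivity) h1
    have hAB : 0 ≤ dA (WithLp.ofLp (tv p u)) (WithLp.ofLp (tv p u)) + dB (WithLp.ofLp (tv p u)) (WithLp.ofLp (tv p u)) := by
      rw [← hr, rsq_eq]; positivity
    have := mul_le_mul_of_nonneg_right h3 hAB
    nlinarith

end

end Pool.Agent.H786
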