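import Mathlib
import Pool.Agent.H786.Vl

set_option autoImplicit false
set_option linter.all false
open scoped ContDiff Manifold Topology Matrix ENNReal
open Set

namespace Pool.Agent.H786

open Pool.Agent.QTot (Eu Mt pd Jac Gam Ric)
open Pool.Agent.H858R2 (En ctarget ctrn)
open Pool.Agent.N535 (S3 E4 Met JP Pinv amb rsq sq)
open Pool.Agent.N564.RF3 (d4)

noncomputable section

/-- The matrix, in the chart `e`, of the metric induced on `S³` by `ℝ⁴`:
`Jᵀ J`, where `J` is the Jacobian matrix of the inverse `ℝ³ → S³ ⊆ ℝ⁴` of the chart. -/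
def roundG (e : OpenPartialHomeomorph S3 (En 3)) (y : Eu 3) : Mt 3 := (JP (Pinv e) y)ᵀ * JP (Pinv e) y

theorem roundG_eq (e : OpenPartialHomeomorph S3 (En 3)) :
    roundG e = puF (Pinv e) (fun _ => 1) (fun _ => 1) (fun _ => 0) := by
  funext y
  have h : amF (fun _ => 1) (fun _ => 1) (fun _ => 0) (Pinv e y) = 1 := by
    ext a b
    fin_cases a <;> fin_cases b <;> simp [amF, dc]
  unfold roundG puF
  rw [h, Matrix.mul_one]

theorem round_ex : ∃ g : Met, g.G = roundG := by
  obtain ⟨g, hg⟩ := tMetric (P := fun _ => 1) (S := fun _ => 1) (D := fun _ => 0) isOpen_univ (subset_univ _)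
    contDiffOn_const contDiffOn_const contDiffOn_const (by
      intro x hx
      refine ⟨one_pos, one_pos, ?_⟩
      simp)
  exact ⟨g, funext fun e => by rw [hg, roundG_eq]⟩

theorem roundG_smooth : ∀ e ∈ atlas (En 3) S3, ∀ i j, ContDiffOn ℝ ∞ (fun y => roundG e y i j) (ctarget e) := by
  obtain ⟨g, hg⟩ := round_ex
  rw [← hg]; exact g.smooth

theorem roundG_posDef : ∀ e ∈ atlas (En 3) S3, ∀ y ∈ ctarget e, (roundG e y).PosDef := by
  obtain ⟨g, hg⟩ := round_ex
  rw [← hg]; exact g.posDef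

theorem roundG_compat : ∀ e ∈ atlas (En 3) S3, ∀ e' ∈ atlas (En 3) S3, ∀ y ∈ ctarget e,
    e.symm (WithLp.toLp 2 y) ∈ e'.source →
    roundG e y = (Jac (ctrn e e') y)ᵀ * roundG e' (ctrn e e' y) * Jac (ctrn e e') y := by
  obtain ⟨g, hg⟩ := round_ex
  rw [← hg]; exact g.compat

/-- the round metric of `S³`: the metric induced by the inclusion `S³ ⊆ ℝ⁴` -/
def roundMet : Met := ⟨roundG, roundG_smooth, roundG_posDef, roundG_compat⟩

theorem sq_round (p : S3) (u : TangentSpace (𝓡 3) p) : sq roundMet p u = rsq p u := by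
  obtain ⟨e1, e2⟩ := tVal (g := roundMet) (P := fun _ => 1) (S := fun _ => 1) (D := fun _ => 0)
    (fun e _ => roundG_eq e) p u
  have hr : rsq p u = dA (WithLp.ofLp (tv p u)) (WithLp.ofLp (tv p u)) +
      dB (WithLp.ofLp (tv p u)) (WithLp.ofLp (tv p u)) := by
    rw [rsq_eq, norm_sq_d4]; unfold d4 dA dB; ring
  rw [e1, hr]
  ring

end

end Pool.Agent.H786
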