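import Mathlib
import Pool.Agent.H786.Rmt

set_option autoImplicit false
set_option linter.all false
open scoped ContDiff Manifold Topology Matrix ENNReal Bundle
open Set Bundle

namespace Pool.Agent.H786

open Pool.Agent.QTot (Eu Mt pd Jac Gam Ric)
open Pool.Agent.H858R2 (En ctarget ctrn)
open Pool.Agent.N535 (S3 E4 Met JP Pinv amb rsq sq)

noncomputable section

/-- the bilinear form with matrix `A` -/
def matL (A : Mt 3) : En 3 →L[ℝ] En 3 →L[ℝ] ℝ :=
  ∑ i, ∑ j, A i j • (EuclideanSpace.proj i : En 3 →L[ℝ] ℝ).smulRight (EuclideanSpace.proj j : En 3 →L[ℝ] ℝ)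

theorem matL_apply (A : Mt 3) (v w : En 3) :
    matL A v w = ∑ i, ∑ j, A i j * WithLp.ofLp v i * WithLp.ofLp w j := by
  simp [matL, mul_assoc]

theorem matL_dot (A : Mt 3) (v w : En 3) :
    matL A v w = WithLp.ofLp v ⬝ᵥ A.mulVec (WithLp.ofLp w) := by
  rw [matL_apply]
  simp only [dotProduct, Matrix.mulVec, Finset.mul_sum]
  refine Finset.sum_congr rfl fun i _ => Finset.sum_congr rfl fun j _ => by ring

/-- the matrix of the metric `g` at `p` in the preferred chart at `p` -/
def gmat (g : Met) (p : S3) : Mt 3 := g.G (chartAt (En 3) p) (WithLp.ofLp (chartAt (En 3) p p))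

theorem gmat_posDef (g : Met) (p : S3) : (gmat g p).PosDef := by
  refine g.posDef _ (chart_mem_atlas _ p) _ ?_
  show WithLp.toLp 2 (WithLp.ofLp (chartAt (En 3) p p)) ∈ (chartAt (En 3) p).target
  exact (chartAt (En 3) p).map_source (mem_chart_source _ p)

set_option backward.isDefEq.respectTransparency false in
/-- the scalar product of the metric `g` on the tangent space at `p` -/
def gin (g : Met) (p : S3) : TangentSpace (𝓡 3) p →L[ℝ] TangentSpace (𝓡 3) p →L[ℝ] ℝ :=
  (matL (gmat g p) : En 3 →L[ℝ] En 3 →L[ℝ] ℝ)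

theorem gin_self (g : Met) (p : S3) (u : TangentSpace (𝓡 3) p) : gin g p u u = sq g p u :=
  matL_apply _ _ _

theorem matL_symm {A : Mt 3} (hA : A.PosDef) (v w : En 3) : matL A v w = matL A w v := by
  rw [matL_apply, matL_apply, Finset.sum_comm]
  have hs : ∀ i j, A i j = A j i := by
    intro i j
    have h := hA.isHermitian.apply i j
    simpa using h.symm
  refine Finset.sum_congr rfl fun i _ => Finset.sum_congr rfl fun j _ => ?_
  rw [hs j i]; ring

theorem matL_pos {A : Mt 3} (hA : A.PosDef) (v : En 3) (hv : v ≠ 0) : 0 < matL A v v := by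
  rw [matL_dot]
  have h := hA.dotProduct_mulVec_pos (x := WithLp.ofLp v) (by
    intro h0
    apply hv
    ext i
    exact congrFun h0 i)
  simpa using h

theorem gin_symm (g : Met) (p : S3) (u w : TangentSpace (𝓡 3) p) : gin g p u w = gin g p w u :=
  matL_symm (gmat_posDef g p) _ _

theorem gin_pos (g : Met) (p : S3) (u : TangentSpace (𝓡 3) p) (hu : u ≠ 0) : 0 < gin g p u u :=
  matL_pos (gmat_posDef g p) _ hu

/-- the unit ball of a scalar product on `ℝ³` is bounded -/
theorem matL_bdd {A : Mt 3} (hA : A.PosDef) : Bornology.IsVonNBounded ℝ {v : En 3 | matL A v v < 1} := by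
  rw [NormedSpace.isVonNBounded_iff]
  -- minimum on the unit sphere
  have hc : Continuous fun v : En 3 => matL A v v := (matL A).continuous.clm_apply continuous_id
  obtain ⟨v₀, hv₀, hmin⟩ := (isCompact_sphere (0 : En 3) 1).exists_isMinOn
    (NormedSpace.sphere_nonempty.2 zero_le_one) hc.continuousOn
  have hv1 : ‖v₀‖ = 1 := by simpa using hv₀
  have hpos : 0 < matL A v₀ v₀ := matL_pos hA v₀ (by
    intro h; rw [h, norm_zero] at hv1; norm_num at hv1)
  refine (Metric.isBounded_iff_subset_closedBall 0).2 ⟨Real.sqrt (1 / matL A v₀ v₀), fun v hv => ?_⟩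
  rw [mem_closedBall_zero_iff]
  have hv' : matL A v v < 1 := hv
  by_cases h0 : v = 0
  · rw [h0, norm_zero]; exact Real.sqrt_nonneg _
  have hn : 0 < ‖v‖ := norm_pos_iff.2 h0
  have h1 : matL A v₀ v₀ ≤ matL A (‖v‖⁻¹ • v) (‖v‖⁻¹ • v) := hmin (by
    rw [mem_sphere_zero_iff_norm, norm_smul, norm_inv, norm_norm, inv_mul_cancel₀ hn.ne'])
  have h2 : matL A (‖v‖⁻¹ • v) (‖v‖⁻¹ • v) = (‖v‖ ^ 2)⁻¹ * matL A v v := by
    simp only [map_smul, ContinuousLinearMap.smul_apply, smul_eq_mul]
    rw [pow_two, mul_inv]; ring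
  rw [h2, inv_mul_eq_div, le_div_iff₀ (by positivity)] at h1
  apply Real.le_sqrt_of_sq_le
  rw [le_div_iff₀ hpos]
  nlinarith

end

end Pool.Agent.H786
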