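import Mathlib
import Pool.Agent.H786.Rie

set_option autoImplicit false
set_option linter.all false
open scoped ContDiff Manifold Topology Matrix ENNReal Bundle
open Set Bundle

namespace Pool.Agent.H786

open Pool.Agent.QTot (Eu Mt pd Jac Gam Ric)
open Pool.Agent.H858R2 (En ctarget ctrn)
open Pool.Agent.N535 (S3 E4 Met JP Pinv amb rsq sq)

noncomputable section

theorem Jac_toLp {f : En 3 → En 3} {L : En 3 →L[ℝ] En 3} {y : Eu 3}
    (h : HasFDerivAt f L (WithLp.toLp 2 y)) (v : En 3) :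
    (Jac (fun z => WithLp.ofLp (f (WithLp.toLp 2 z))) y).mulVec (WithLp.ofLp v) = WithLp.ofLp (L v) := by
  set E := PiLp.continuousLinearEquiv 2 ℝ (fun _ : Fin 3 => ℝ) with hE
  set L' : Eu 3 →L[ℝ] Eu 3 := (E : En 3 →L[ℝ] Eu 3).comp (L.comp (E.symm : Eu 3 →L[ℝ] En 3)) with hL'
  have h1 : HasFDerivAt (fun z : Eu 3 => WithLp.ofLp (f (WithLp.toLp 2 z))) L' y := by
    have h2 : HasFDerivAt (fun z : Eu 3 => f (E.symm z)) (L.comp (E.symm : Eu 3 →L[ℝ] En 3)) y :=
      HasFDerivAt.comp (g := f) (f := fun z => E.symm z) (x := y) h E.symm.hasFDerivAt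
    exact E.hasFDerivAt.comp y h2
  have h3 : ∀ a, HasFDerivAt (fun z : Eu 3 => WithLp.ofLp (f (WithLp.toLp 2 z)) a)
      ((ContinuousLinearMap.proj a : Eu 3 →L[ℝ] ℝ).comp L') y := fun a => hasFDerivAt_pi'.1 h1 a
  funext a
  have h4 : ∀ i, Jac (fun z => WithLp.ofLp (f (WithLp.toLp 2 z))) y a i = L' (Pi.single i 1) a := by
    intro i
    show fderiv ℝ (fun z : Eu 3 => WithLp.ofLp (f (WithLp.toLp 2 z)) a) y (Pi.single i 1) = _
    rw [(h3 a).fderiv]
    rfl
  have h5 : WithLp.ofLp (L v) = L' (WithLp.ofLp v) := rfl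
  rw [h5]
  simp only [Matrix.mulVec, dotProduct, h4]
  have h6 : (WithLp.ofLp v : Eu 3) = ∑ i, (WithLp.ofLp v i) • (Pi.single i (1:ℝ) : Eu 3) := by
    funext k
    rw [Finset.sum_apply]
    simp [Pi.single_apply]
  conv_rhs => rw [h6]
  rw [map_sum, Finset.sum_apply]
  refine Finset.sum_congr rfl fun i _ => ?_
  rw [map_smul, Pi.smul_apply, smul_eq_mul, mul_comm]

/-- the derivative of the coordinate change -/
abbrev tcc (x₀ x : S3) : En 3 →L[ℝ] En 3 := tangentCoordChange (𝓡 3) x₀ x x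

theorem matL_change (g : Met) {x₀ x : S3} (hx : x ∈ (chartAt (En 3) x₀).source) (v w : En 3) :
    matL (g.G (chartAt (En 3) x₀) (WithLp.ofLp (chartAt (En 3) x₀ x))) v w =
      matL (gmat g x) (tcc x₀ x v) (tcc x₀ x w) := by
  set e₀ := chartAt (En 3) x₀ with he₀
  set e := chartAt (En 3) x with he
  have hex : x ∈ e.source := mem_chart_source _ x
  have hinv : e₀.symm (WithLp.toLp 2 (WithLp.ofLp (e₀ x))) = x := e₀.left_inv hx
  have hc := g.compat e₀ (chart_mem_atlas _ x₀) e (chart_mem_atlas _ x) (WithLp.ofLp (e₀ x))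
    (show WithLp.toLp 2 (WithLp.ofLp (e₀ x)) ∈ e₀.target from e₀.map_source hx) (by rw [hinv]; exact hex)
  have hct : ctrn e₀ e (WithLp.ofLp (e₀ x)) = WithLp.ofLp (e x) := by
    unfold H858R2.ctrn
    rw [hinv]
  have hL : HasFDerivAt (fun z : En 3 => e (e₀.symm z)) (tcc x₀ x) (e₀ x) := by
    have h := hasFDerivWithinAt_tangentCoordChange (I := 𝓡 3) (x := x₀) (y := x) (z := x)
      ⟨by rw [extChartAt_source]; exact hx, mem_extChartAt_source x⟩
    have hr : range (𝓡 3) = univ := ModelWithCorners.range_eq_univ _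
    rw [hr, hasFDerivWithinAt_univ] at h
    exact h
  have hJ : ∀ u : En 3, (Jac (ctrn e₀ e) (WithLp.ofLp (e₀ x))).mulVec (WithLp.ofLp u) = WithLp.ofLp (tcc x₀ x u) :=
    fun u => Jac_toLp (f := fun z : En 3 => e (e₀.symm z)) (y := WithLp.ofLp (e₀ x)) hL u
  rw [matL_dot, matL_dot, hc, hct, ← hJ v, ← hJ w]
  rw [Matrix.mul_assoc, ← Matrix.mulVec_mulVec, ← Matrix.mulVec_mulVec, Matrix.dotProduct_mulVec,
    Matrix.vecMul_transpose]
  rfl

end

end Pool.Agent.H786
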