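import Mathlib
import Pool.Agent.H786.RieB

set_option autoImplicit false
set_option linter.all false
open scoped ContDiff Manifold Topology Matrix ENNReal Bundle
open Set Bundle

namespace Pool.Agent.H786

open Pool.Agent.QTot (Eu Mt pd Jac Gam Ric)
open Pool.Agent.H858R2 (En ctarget ctrn)
open Pool.Agent.N535 (S3 E4 Met JP Pinv amb rsq sq)

noncomputable section

theorem symm_tcc {x₀ x : S3} (hx : x ∈ (chartAt (En 3) x₀).source) (v : En 3) :
    (trivializationAt (En 3) (fun b : S3 => TangentSpace (𝓡 3) b) x₀).symm x v = tcc x₀ x v := by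
  have h := TangentBundle.symmL_trivializationAt_eq_core (𝕜 := ℝ) (I := 𝓡 3) hx
  have h2 := congrArg (fun L => L v) h
  have h3 := Trivialization.symmL_apply (R := ℝ) (trivializationAt (En 3) (fun b : S3 => TangentSpace (𝓡 3) b) x₀)
    (b := x) (by simpa using hx) v
  exact h3.symm.trans h2

theorem matL_smooth (g : Met) (x₀ : S3) :
    ContDiffAt ℝ ∞ (fun z : En 3 => matL (g.G (chartAt (En 3) x₀) (WithLp.ofLp z))) (chartAt (En 3) x₀ x₀) := by
  have hmem : chartAt (En 3) x₀ x₀ ∈ (chartAt (En 3) x₀).target :=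
    (chartAt (En 3) x₀).map_source (mem_chart_source _ x₀)
  refine ContDiffOn.contDiffAt ?_ ((chartAt (En 3) x₀).open_target.mem_nhds hmem)
  rw [contDiffOn_clm_apply]
  intro v
  rw [contDiffOn_clm_apply]
  intro w
  simp only [matL_apply]
  refine ContDiffOn.sum fun i _ => ContDiffOn.sum fun j _ => ?_
  have hij : ContDiffOn ℝ ∞ (fun z : En 3 => g.G (chartAt (En 3) x₀) (WithLp.ofLp z) i j)
      (chartAt (En 3) x₀).target :=
    (g.smooth _ (chart_mem_atlas _ x₀) i j).comp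
      (PiLp.continuousLinearEquiv 2 ℝ (fun _ : Fin 3 => ℝ)).contDiff.contDiffOn fun z hz => hz
  exact (hij.mul contDiffOn_const).mul contDiffOn_const

set_option backward.isDefEq.respectTransparency false in
theorem gin_smooth (g : Met) : ContMDiff (𝓡 3) ((𝓡 3).prod 𝓘(ℝ, En 3 →L[ℝ] En 3 →L[ℝ] ℝ)) ∞
    (fun b : S3 => TotalSpace.mk' (En 3 →L[ℝ] En 3 →L[ℝ] ℝ)
      (E := fun b : S3 => TangentSpace (𝓡 3) b →L[ℝ] TangentSpace (𝓡 3) b →L[ℝ] ℝ) b (gin g b)) := by
  intro x₀
  rw [contMDiffAt_section]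
  have key : (fun x => (trivializationAt (En 3 →L[ℝ] En 3 →L[ℝ] ℝ)
        (fun b : S3 => TangentSpace (𝓡 3) b →L[ℝ] TangentSpace (𝓡 3) b →L[ℝ] ℝ) x₀
        ⟨x, gin g x⟩).2) =ᶠ[𝓝 x₀]
      fun x => matL (g.G (chartAt (En 3) x₀) (WithLp.ofLp (chartAt (En 3) x₀ x))) := by
    filter_upwards [(chartAt (En 3) x₀).open_source.mem_nhds (mem_chart_source _ x₀)] with x hx
    ext v w
    rw [hom_trivializationAt_apply]
    simp only
    rw [inCoordinates_apply_eq₂ (by simpa using hx) (by simpa using hx) (Set.mem_univ _)]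
    rw [symm_tcc hx, symm_tcc hx, matL_change g hx]
    simp
    rfl
  refine ContMDiffAt.congr_of_eventuallyEq ?_ key
  have hc : ContMDiffAt (𝓡 3) 𝓘(ℝ, En 3) ∞ (chartAt (En 3) x₀) x₀ := contMDiffAt_extChartAt (I := 𝓡 3) (n := ∞)
  exact (matL_smooth g x₀).contMDiffAt.comp x₀ hc

end

end Pool.Agent.H786
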