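import Mathlib
import Pool.Agent.H786.RieC
import Pool.Agent.H786.Ghd

set_option autoImplicit false
set_option linter.all false
open scoped ContDiff Manifold Topology Matrix ENNReal Bundle
open Set Bundle

namespace Pool.Agent.H786

open Pool.Agent.QTot (Eu Mt pd Jac Gam Ric)
open Pool.Agent.H858R2 (En ctarget ctrn)
open Pool.Agent.N535 (S3 E4 Met JP Pinv amb rsq sq)

noncomputable section

theorem gin_bdd (g : Met) (p : S3) :
    Bornology.IsVonNBounded ℝ {u : TangentSpace (𝓡 3) p | gin g p u u < 1} :=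
  matL_bdd (gmat_posDef g p)

/-- the smooth Riemannian metric on the tangent bundle of `S³` (in the sense of Mathlib) given by `g` -/
def rmetric (g : Met) : ContMDiffRiemannianMetric (𝓡 3) ∞ (En 3) (fun p : S3 => TangentSpace (𝓡 3) p) where
  inner := gin g
  symm := gin_symm g
  pos := gin_pos g
  isVonNBounded := gin_bdd g
  contMDiff := gin_smooth g

/-- the (extended) metric space structure of `(S³, g)` -/
abbrev emet (g : Met) : EMetricSpace S3 :=
  letI : RiemannianBundle (fun p : S3 => TangentSpace (𝓡 3) p) := ⟨(rmetric g).toRiemannianMetric⟩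
  haveI : IsContinuousRiemannianBundle (En 3) (fun p : S3 => TangentSpace (𝓡 3) p) :=
    ⟨⟨gin g, (gin_smooth g).continuous, fun b v w => rfl⟩⟩
  EMetricSpace.ofRiemannianMetric (𝓡 3) S3

theorem emet_edist (g : Met) (x y : S3) : (emet g).edist x y = gdist g x y := by
  letI : RiemannianBundle (fun p : S3 => TangentSpace (𝓡 3) p) := ⟨(rmetric g).toRiemannianMetric⟩
  have h : (fun p : S3 => (inferInstance : ENorm (TangentSpace (𝓡 3) p))) = enQ (fun p u => sq g p u) := by
    funext p
    show ENorm.mk (fun u : TangentSpace (𝓡 3) p => ‖u‖ₑ) = ENorm.mk _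
    congr 1
    funext u
    rw [← ofReal_norm, norm_eq_sqrt_real_inner]
    show ENNReal.ofReal (Real.sqrt (gin g p u u)) = _
    rw [gin_self]
  show @Manifold.riemannianEDist _ _ _ _ _ (𝓡 3) S3 _ _ (fun p : S3 => (inferInstance : ENorm (TangentSpace (𝓡 3) p))) x y = _
  rw [h]
  rfl

theorem rank_E4 : 1 < Module.rank ℝ E4 := by
  rw [← Module.finrank_eq_rank, finrank_euclideanSpace_fin]
  norm_cast

instance : PreconnectedSpace S3 := Subtype.preconnectedSpace (isPreconnected_sphere rank_E4 _ _)

instance : Nonempty S3 := ⟨⟨WithLp.toLp 2 ![0, 0, 1, 0], by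
  rw [mem_sphere_zero_iff_norm]
  have h2 : ‖(WithLp.toLp 2 ![0, 0, 1, 0] : E4)‖ ^ 2 = 1 := by
    rw [EuclideanSpace.norm_sq_eq, Fin.sum_univ_four]
    simp
  have h0 := norm_nonneg (WithLp.toLp 2 ![0, 0, 1, 0] : E4)
  nlinarith⟩⟩

/-- in a connected space distances are finite -/
theorem edist_ne_top_conn {X : Type} [PseudoEMetricSpace X] [PreconnectedSpace X] (x y : X) : edist x y ≠ ⊤ := by
  have hc : IsClopen (Metric.eball x ⊤) := ⟨Metric.isClosed_eball_top, Metric.isOpen_eball⟩
  have hu := hc.eq_univ ⟨x, Metric.mem_eball_self (by simp)⟩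
  have hy : y ∈ Metric.eball x ⊤ := by rw [hu]; trivial
  have := Metric.mem_eball'.1 hy
  exact this.ne

/-- the distance function of `(S³, g)` is finite -/
theorem emet_ne_top (g : Met) (x y : S3) : (emet g).edist x y ≠ ⊤ := by
  have h : PreconnectedSpace S3 := inferInstance
  exact @edist_ne_top_conn S3 (emet g).toPseudoEMetricSpace h x y

end

end Pool.Agent.H786
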