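import Mathlib
import Pool.Agent.H786.RieD

set_option autoImplicit false
set_option linter.all false
open scoped ContDiff Manifold Topology Matrix ENNReal
open Set

namespace Pool.Agent.H786

open Pool.Agent.N535 (S3 E4 Met)

noncomputable section

theorem gdist_self (g : Met) (x : S3) : gdist g x x = 0 := by
  rw [← emet_edist]
  exact (emet g).edist_self x

theorem gdist_comm (g : Met) (x y : S3) : gdist g x y = gdist g y x := by
  rw [← emet_edist, ← emet_edist]
  exact (emet g).edist_comm x y

theorem gdist_triangle (g : Met) (x y z : S3) : gdist g x z ≤ gdist g x y + gdist g y z := by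
  rw [← emet_edist, ← emet_edist, ← emet_edist]
  exact (emet g).edist_triangle x y z

theorem gdist_eq_zero (g : Met) {x y : S3} (h : gdist g x y = 0) : x = y := by
  rw [← emet_edist] at h
  exact (emet g).eq_of_edist_eq_zero h

theorem gdist_ne_top (g : Met) (x y : S3) : gdist g x y ≠ ⊤ := by
  rw [← emet_edist]
  exact emet_ne_top g x y

/-- The space `S³` with the Riemannian distance of the metric `g`. -/
def RS (_g : Met) : Type := S3

/-- `RS g` as an extended metric space. -/
instance instE (g : Met) : EMetricSpace (RS g) where
  edist := gdist g
  edist_self := gdist_self g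
  edist_comm := gdist_comm g
  edist_triangle := gdist_triangle g
  eq_of_edist_eq_zero := gdist_eq_zero g

/-- `RS g` as a metric space (distances are finite). -/
instance instM (g : Met) : MetricSpace (RS g) := EMetricSpace.toMetricSpace (gdist_ne_top g)

/-- The topology of `RS g` is the topology of the sphere. -/
theorem RS_top (g : Met) : (instE g).toUniformSpace.toTopologicalSpace =
    (inferInstance : TopologicalSpace S3) := by
  have h : instE g = emet g := by
    refine EMetricSpace.ext ?_
    ext x y
    exact (emet_edist g x y).symm
  rw [h]
  rfl

theorem RS_compact (g : Met) : CompactSpace (RS g) := by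
  have h : @CompactSpace S3 (inferInstance : TopologicalSpace S3) := inferInstance
  rw [← RS_top g] at h
  exact h

instance (g : Met) : CompactSpace (RS g) := RS_compact g

theorem RS_nonempty (g : Met) : Nonempty (RS g) := inferInstanceAs (Nonempty S3)

instance (g : Met) : Nonempty (RS g) := RS_nonempty g

theorem RS_edist (g : Met) (x y : RS g) : edist x y = gdist g x y := rfl

end

end Pool.Agent.H786
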