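import Mathlib
import Pool.Agent.H786.Geo
import Pool.Agent.H786.Vl
import Pool.Agent.H786.Rnd
import Pool.Agent.H786.Ghd
import Pool.Agent.H786.Rmt
import Pool.Agent.H786.Space

set_option autoImplicit false
set_option linter.all false
open scoped ContDiff Manifold Topology Matrix ENNReal
open Set

namespace Pool.Agent.H786

open Pool.Agent.N535 (S3 E4 Met Pinv rsq sq Scal)
open Pool.Agent.H858R2 (En ctarget ctrn IsRicciFlow MaximalRicciFlow exists_maximal)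

noncomputable section

theorem ctarget_univ3 {e : OpenPartialHomeomorph S3 (En 3)} (he : e ∈ atlas (En 3) S3) :
    ctarget e = univ := by
  obtain ⟨v, rfl⟩ : ∃ v, e = stereographic' 3 v := he
  unfold ctarget
  rw [stereographic'_target v]
  simp

/-- The negated form of the question: flows, curvature bound, existence time, and metrics
far from the round one: a point all of whose distances are at most `π - ε`. -/
theorem mainE : ∃ ε : ℝ, 0 < ε ∧ ε < 3 ∧ ∀ δ : ℝ, 0 < δ → ∃ (T : EReal) (g : ℝ → Met),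
    MaximalRicciFlow T g ∧ ((1 / 4 - δ : ℝ) : EReal) < T ∧
    (∀ e ∈ atlas (En 3) S3, ∀ y ∈ ctarget e, 6 ≤ Scal ((g 0).G e) y) ∧
    ∃ x : S3, ∀ y : S3, gdist (g 0) x y ≤ ENNReal.ofReal (Real.pi - ε) := by
  obtain ⟨ε₁, hε, hε2, h⟩ := geo
  refine ⟨ε₁ / 8, by linarith, by linarith, fun δ hδ => ?_⟩
  set η := min (1 / 8) (min (ε₁ / 96) (δ / 3)) with hηd
  have hη : 0 < η := lt_min (by norm_num) (lt_min (by linarith) (by linarith))
  have hη8 : η ≤ 1 / 8 := min_le_left _ _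
  have hηε : 96 * η ≤ ε₁ := by
    have : η ≤ ε₁ / 96 := (min_le_right _ _).trans (min_le_left _ _)
    linarith
  have hηδ : 3 * η ≤ δ := by
    have : η ≤ δ / 3 := (min_le_right _ _).trans (min_le_right _ _)
    linarith
  obtain ⟨τ, g, m, κ, hτ, hτ0, hflow, hg0, hb, h1, hscal⟩ := h η hη hη8
  obtain ⟨T', g', hmax, hT, hagr⟩ := exists_maximal τ g hτ0 hflow
  have hag : ∀ e ∈ atlas (En 3) S3, (g' 0).G e = (g 0).G e := by
    intro e he
    funext y
    exact hagr 0 ⟨le_rfl, hτ0⟩ e he y (by rw [ctarget_univ3 he]; trivial)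
  have hlt : ((1 / 4 - δ : ℝ) : EReal) < T' := lt_of_lt_of_le (EReal.coe_lt_coe_iff.2 (by linarith)) hT
  refine ⟨T', g', hmax, hlt, fun e he y _ => by rw [hag e he]; exact hscal e he y, ?_⟩
  obtain ⟨c1, c2⟩ := cmp_round (g := g' 0) (fun e he => by rw [hag e he]; exact hg0 e) hη hε hε2 hηε hb h1
  refine ⟨⟨WithLp.toLp 2 ![0, 0, 1, 0], ?_⟩, fun y => ?_⟩
  · rw [mem_sphere_zero_iff_norm]
    have h2 : ‖(WithLp.toLp 2 ![0, 0, 1, 0] : E4)‖ ^ 2 = 1 := by
      rw [EuclideanSpace.norm_sq_eq, Fin.sum_univ_four]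
      simp
    have h0 := norm_nonneg (WithLp.toLp 2 ![0, 0, 1, 0] : E4)
    nlinarith
  · exact ecc (sq_smul (g' 0)) hε hε2 c1 c2 _ y rfl

/-- every point of the round sphere has a point at distance `π` -/
theorem round_ecc (y : S3) : ∃ y' : S3, ENNReal.ofReal Real.pi ≤ rdist y y' := by
  have hn : -(y : E4) ∈ Metric.sphere (0 : E4) 1 := by
    rw [mem_sphere_zero_iff_norm, norm_neg]
    exact norm_eq_of_mem_sphere y
  exact ⟨⟨-(y : E4), hn⟩, round_lower y ⟨-(y : E4), hn⟩ rfl⟩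

theorem gdist_round : gdist roundMet = rdist := by
  unfold gdist rdist
  congr 1
  funext p u
  exact sq_round p u

theorem mainA : ∃ ε : ℝ, 0 < ε ∧ ∀ δ : ℝ, 0 < δ → ∃ (T : EReal) (g : ℝ → Met),
    MaximalRicciFlow T g ∧ ((1 / 4 - δ : ℝ) : EReal) < T ∧
    (∀ e ∈ atlas (En 3) S3, ∀ y ∈ ctarget e, 6 ≤ Scal ((g 0).G e) y) ∧
    ENNReal.ofReal ε ≤ ghD (gdist (g 0)) (gdist roundMet) := by
  rw [gdist_round]
  obtain ⟨ε, hε, hε3, h⟩ := mainE
  have hpi := Real.pi_gt_three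
  refine ⟨ε / 2, by linarith, fun δ hδ => ?_⟩
  obtain ⟨T, g, h1, h2, h3, x, hx⟩ := h δ hδ
  refine ⟨T, g, h1, h2, h3, ?_⟩
  have := ghD_lower (D₁ := Real.pi - ε) (D₂ := Real.pi) (by linarith) x hx round_ecc
  have e : (Real.pi - (Real.pi - ε)) / 2 = ε / 2 := by ring
  rwa [e] at this

theorem RS_dist_le {g : Met} {x y : RS g} {D : ℝ} (hD : 0 ≤ D) (h : gdist g x y ≤ ENNReal.ofReal D) : dist x y ≤ D := by
  rw [← RS_edist, edist_dist] at h
  exact (ENNReal.ofReal_le_ofReal_iff hD).1 h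

theorem RS_le_dist {g : Met} {x y : RS g} {D : ℝ} (h : ENNReal.ofReal D ≤ gdist g x y) : D ≤ dist x y := by
  rw [← RS_edist, edist_dist] at h
  exact (ENNReal.ofReal_le_ofReal_iff dist_nonneg).1 h

/-- negative answer to the question, with Mathlib's Gromov-Hausdorff distance -/
theorem mainC : ∃ ε : ℝ, 0 < ε ∧ ∀ δ : ℝ, 0 < δ → ∃ (T : EReal) (g : ℝ → Met),
    MaximalRicciFlow T g ∧ ((1 / 4 - δ : ℝ) : EReal) < T ∧
    (∀ e ∈ atlas (En 3) S3, ∀ y ∈ ctarget e, 6 ≤ Scal ((g 0).G e) y) ∧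
    ε ≤ GromovHausdorff.ghDist (RS (g 0)) (RS roundMet) := by
  obtain ⟨ε, hε, hε3, h⟩ := mainE
  have hpi := Real.pi_gt_three
  refine ⟨ε / 2, by linarith, fun δ hδ => ?_⟩
  obtain ⟨T, g, h1, h2, h3, x, hx⟩ := h δ hδ
  refine ⟨T, g, h1, h2, h3, ?_⟩
  have hlow := ghDist_lower (X := RS (g 0)) (Y := RS roundMet) (D₁ := Real.pi - ε) (D₂ := Real.pi) x
    (fun y => RS_dist_le (by linarith) (hx y)) (fun y => by
      obtain ⟨y', hy'⟩ := round_ecc y
      rw [← gdist_round] at hy'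
      exact ⟨y', RS_le_dist hy'⟩)
  have e : (Real.pi - (Real.pi - ε)) / 2 = ε / 2 := by ring
  rwa [e] at hlow

end

end Pool.Agent.H786
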